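import Mathlib
set_option autoImplicit false
open Set Metric Filter Topology
namespace Pool.Agent.HP

variable {A : Type} [NormedRing A] [NormedAlgebra ℂ A] [FiniteDimensional ℂ A]

/-- E1: holomorphic logarithm near 1 -/
theorem exists_log : ∃ (δ : ℝ) (l : A → A), 0 < δ ∧ DifferentiableOn ℂ l (ball 1 δ) ∧
    ∀ w ∈ ball (1 : A) δ, NormedSpace.exp (l w) = w := by
  have hcomp : CompleteSpace A := FiniteDimensional.complete ℂ A
  have h1 : ContDiffAt ℂ 1 (NormedSpace.exp : A → A) 0 :=
    (NormedSpace.exp_analytic (𝕂 := ℂ) (0 : A)).contDiffAt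
  have h2 : HasFDerivAt (NormedSpace.exp : A → A)
      ((ContinuousLinearEquiv.refl ℂ A : A ≃L[ℂ] A) : A →L[ℂ] A) 0 := hasFDerivAt_exp_zero
  have h3 : ContDiffAt ℂ 1 (h1.localInverse h2 one_ne_zero) (NormedSpace.exp (0 : A)) :=
    h1.to_localInverse h2 one_ne_zero
  rw [NormedSpace.exp_zero] at h3
  have h4 : ∀ᶠ w in 𝓝 (1 : A), DifferentiableAt ℂ (h1.localInverse h2 one_ne_zero) w := by
    filter_upwards [h3.eventually (by simp)] with w hw
    exact hw.differentiableAt one_ne_zero
  have h5 : ∀ᶠ w in 𝓝 (NormedSpace.exp (0 : A)),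
      NormedSpace.exp (h1.localInverse h2 one_ne_zero w) = w :=
    (h1.hasStrictFDerivAt' h2 one_ne_zero).eventually_right_inverse
  rw [NormedSpace.exp_zero] at h5
  obtain ⟨δ, hδ, h6⟩ := Metric.eventually_nhds_iff_ball.1 (h4.and h5)
  exact ⟨δ, h1.localInverse h2 one_ne_zero, hδ,
    fun w hw => (h6 w hw).1.differentiableWithinAt, fun w hw => (h6 w hw).2⟩

namespace E3aux

theorem exp_neg_mul (x : A) : NormedSpace.exp (-x) * NormedSpace.exp x = 1 := by
  have hcomp : CompleteSpace A := FiniteDimensional.complete ℂ A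
  let _i : NormedAlgebra ℚ A := NormedAlgebra.restrictScalars ℚ ℂ A
  rw [← NormedSpace.exp_add_of_commute (Commute.neg_left (Commute.refl x)), neg_add_cancel,
    NormedSpace.exp_zero]

theorem spectrum_finite (a : A) : (spectrum ℂ a).Finite := by
  by_cases hA : Nontrivial A
  · have hint : IsIntegral ℂ a := Algebra.IsIntegral.isIntegral a
    have hne : minpoly ℂ a ≠ 0 := minpoly.ne_zero hint
    refine ((minpoly ℂ a).rootSet_finite ℂ).subset ?_
    intro k hk
    have h1 : (minpoly ℂ a).eval k ∈ spectrum ℂ (Polynomial.aeval a (minpoly ℂ a)) :=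
      spectrum.subset_polynomial_aeval a (minpoly ℂ a) ⟨k, hk, rfl⟩
    rw [minpoly.aeval, spectrum.zero_eq] at h1
    rw [Polynomial.mem_rootSet]
    exact ⟨hne, by simpa using h1⟩
  · have : Subsingleton A := not_nontrivial_iff_subsingleton.1 hA
    rw [spectrum.of_subsingleton]
    exact Set.finite_empty

end E3aux

/-- E3: units of a finite dimensional complex algebra are products of exponentials -/
theorem unit_prod_exp (M : A) (hM : IsUnit M) :
    ∃ l : List A, M = (l.map NormedSpace.exp).prod := by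
  classical
  obtain ⟨δ, lg, hδ, -, hlg⟩ := exists_log (A := A)
  -- the bad set
  have hbad : {z : ℂ | ¬ IsUnit (1 + z • (M - 1))}.Finite := by
    have hsub : {z : ℂ | ¬ IsUnit (1 + z • (M - 1))} ⊆
        (fun k : ℂ => -k⁻¹) '' (spectrum ℂ (M - 1)) := by
      intro z hz
      have hz0 : z ≠ 0 := by
        rintro rfl
        apply hz
        simp
      refine ⟨-z⁻¹, ?_, by simp⟩
      rw [spectrum.mem_iff]
      intro hu
      apply hz
      have e : (1 : A) + z • (M - 1) = (-z) • (algebraMap ℂ A (-z⁻¹) - (M - 1)) := by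
        have e1 : -z * -z⁻¹ = 1 := by field_simp
        rw [smul_sub (-z), Algebra.algebraMap_eq_smul_one, smul_smul, e1, one_smul, neg_smul,
          sub_neg_eq_add]
      rw [e]
      have hzu : IsUnit (-z) := (neg_ne_zero.2 hz0).isUnit
      obtain ⟨u, hu'⟩ := hzu
      obtain ⟨v, hv⟩ := hu
      rw [← hu', ← hv]
      exact ⟨u • v, rfl⟩
    exact ((E3aux.spectrum_finite (M - 1)).image _).subset hsub
  have hconn : IsPreconnected {z : ℂ | ¬ IsUnit (1 + z • (M - 1))}ᶜ :=
    (hbad.countable.isConnected_compl_of_one_lt_rank (by simp)).isPreconnected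
  let f : ℂ → Bool := fun z => decide (∃ l : List A, 1 + z • (M - 1) =
    (l.map NormedSpace.exp).prod)
  have hf : ContinuousOn f {z : ℂ | ¬ IsUnit (1 + z • (M - 1))}ᶜ := by
    intro z0 hz0
    have hu0 : IsUnit (1 + z0 • (M - 1)) := by
      by_contra h
      exact hz0 h
    obtain ⟨u, hu⟩ := hu0
    have hcont : Continuous fun z : ℂ => (1 + z • (M - 1)) * ((u⁻¹ : Aˣ) : A) := by fun_prop
    have hval : (1 + z0 • (M - 1)) * ((u⁻¹ : Aˣ) : A) = 1 := by
      rw [← hu, Units.mul_inv]
    have hev : ∀ᶠ z in 𝓝 z0, (1 + z • (M - 1)) * ((u⁻¹ : Aˣ) : A) ∈ ball (1 : A) δ := by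
      have := hcont.tendsto z0
      rw [hval] at this
      exact this (ball_mem_nhds _ hδ)
    have hev2 : ∀ᶠ z in 𝓝 z0, f z = f z0 := by
      filter_upwards [hev] with z hz
      have hexp := hlg _ hz
      set x : A := lg ((1 + z • (M - 1)) * ((u⁻¹ : Aˣ) : A)) with hx
      have h1 : NormedSpace.exp x * (1 + z0 • (M - 1)) = 1 + z • (M - 1) := by
        rw [hexp, ← hu, mul_assoc, Units.inv_mul, mul_one]
      have h2 : NormedSpace.exp (-x) * (1 + z • (M - 1)) = 1 + z0 • (M - 1) := by
        rw [← h1, ← mul_assoc, E3aux.exp_neg_mul, one_mul]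
      have hiff : (∃ l : List A, 1 + z • (M - 1) = (l.map NormedSpace.exp).prod) ↔
          (∃ l : List A, 1 + z0 • (M - 1) = (l.map NormedSpace.exp).prod) := by
        constructor
        · rintro ⟨l, hl⟩
          refine ⟨(-x) :: l, ?_⟩
          rw [List.map_cons, List.prod_cons, ← hl, h2]
        · rintro ⟨l, hl⟩
          refine ⟨x :: l, ?_⟩
          rw [List.map_cons, List.prod_cons, ← hl, h1]
      show decide _ = decide _
      exact decide_eq_decide.2 hiff
    have : ContinuousAt f z0 := by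
      unfold ContinuousAt
      exact (tendsto_const_nhds (x := f z0)).congr' (by
        filter_upwards [hev2] with z hz using hz.symm)
    exact this.continuousWithinAt
  have h0 : (0 : ℂ) ∈ {z : ℂ | ¬ IsUnit (1 + z • (M - 1))}ᶜ := by
    intro h
    apply h
    simp
  have h1 : (1 : ℂ) ∈ {z : ℂ | ¬ IsUnit (1 + z • (M - 1))}ᶜ := by
    intro h
    apply h
    simpa using hM
  have heq := hconn.constant hf h0 h1
  have hf0 : f 0 = true := by
    show decide _ = true
    rw [decide_eq_true_iff]
    exact ⟨[], by simp⟩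
  rw [hf0] at heq
  have := of_decide_eq_true heq.symm
  obtain ⟨l, hl⟩ := this
  refine ⟨l, ?_⟩
  rw [← hl]
  simp


end Pool.Agent.HP
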