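import Pool.Agent.HopfPinch.AnE1
set_option autoImplicit false
open Set Metric Filter Topology
namespace Pool.Agent.HP

variable {X A : Type} [NormedAddCommGroup X] [NormedSpace ℂ X] [FiniteDimensional ℂ X]
  [NormedRing A] [NormedAlgebra ℂ A] [FiniteDimensional ℂ A]


/-- TARGET: on a compact convex set an invertible holomorphic function is a constant times a product
of exponentials -/
theorem exp_factor (K : Set X) (hK : IsCompact K) (hKc : Convex ℝ K) (O : Set X) (hO : IsOpen O)
    (hKO : K ⊆ O) (h : X → A) (hh : DifferentiableOn ℂ h O) (hu : ∀ z ∈ O, IsUnit (h z)) :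
    ∃ O' : Set X, IsOpen O' ∧ K ⊆ O' ∧ O' ⊆ O ∧ ∃ (M : A) (_ : IsUnit M) (l : List (X → A)),
      (∀ L ∈ l, DifferentiableOn ℂ L O') ∧
      ∀ z ∈ O', h z = M * (l.map (fun L => NormedSpace.exp (L z))).prod := by
  classical
  haveI : ProperSpace X := FiniteDimensional.proper ℂ X
  haveI : CompleteSpace A := FiniteDimensional.complete ℂ A
  rcases K.eq_empty_or_nonempty with hKe | ⟨c, hc⟩
  · exact ⟨∅, isOpen_empty, by rw [hKe], empty_subset _, 1, isUnit_one, [], by simp, by simp⟩
  obtain ⟨η, hη, hηO⟩ := hK.exists_cthickening_subset_open hO hKO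
  set C := cthickening η K with hCdef
  have hCc : IsCompact C := hK.cthickening
  have hCconv : Convex ℝ C := hKc.cthickening η
  have hKC : K ⊆ C := self_subset_cthickening K
  obtain ⟨δ, lg, hδ, hlg, hexp⟩ := exists_log (A := A)
  have hhC : ContinuousOn h C := hh.continuousOn.mono hηO
  have hF : ContinuousOn (fun p : X × X => Ring.inverse (h p.1) * h p.2) (C ×ˢ C) := by
    apply ContinuousOn.mul
    · intro p hp
      have h1 : ContinuousWithinAt (fun p : X × X => h p.1) (C ×ˢ C) p :=
        (hhC.comp continuousOn_fst (fun p hp => hp.1)) p hp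
      obtain ⟨u, hu'⟩ := hu p.1 (hηO hp.1)
      have h2 : ContinuousAt Ring.inverse (h p.1) := by
        rw [← hu']; exact NormedRing.inverse_continuousAt u
      exact ContinuousAt.comp_continuousWithinAt (g := Ring.inverse) (f := fun p : X × X => h p.1) h2 h1
    · exact hhC.comp continuousOn_snd (fun p hp => hp.2)
  have hUC := (hCc.prod hCc).uniformContinuousOn_of_continuous hF
  rw [Metric.uniformContinuousOn_iff] at hUC
  obtain ⟨ε, hε, hUC⟩ := hUC δ hδ
  have hsmall : ∀ w ∈ C, ∀ w' ∈ C, dist w w' < ε → Ring.inverse (h w) * h w' ∈ ball (1 : A) δ := by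
    intro w hw w' hw' hd
    have h1 := hUC (w, w') ⟨hw, hw'⟩ (w, w) ⟨hw, hw⟩ (by
      rw [Prod.dist_eq]
      simp only [dist_self]
      rw [dist_comm] at hd
      exact max_lt hε hd)
    simp only [] at h1
    rw [Ring.inverse_mul_cancel _ (hu w (hηO hw))] at h1
    exact h1
  obtain ⟨R, hR⟩ := hCc.isBounded.subset_closedBall c
  have hcC : c ∈ C := hKC hc
  have hR0 : 0 ≤ R := by
    have := hR hcC
    simpa using this
  obtain ⟨m, hm⟩ := exists_nat_gt (R / ε)
  have hm0 : (0 : ℝ) < m := lt_of_le_of_lt (by positivity) hm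
  obtain ⟨w, hw⟩ : ∃ w : ℕ → X → X, ∀ j z, w j z = c + (((j : ℝ) / m : ℝ) : ℂ) • (z - c) :=
    ⟨_, fun _ _ => rfl⟩
  have hwC : ∀ j ≤ m, ∀ z ∈ C, w j z ∈ C := by
    intro j hj z hz
    rw [hw, Complex.coe_smul]
    refine hCconv.add_smul_sub_mem hcC hz ⟨by positivity, ?_⟩
    rw [div_le_one hm0]
    exact_mod_cast hj
  have hwd : ∀ j < m, ∀ z ∈ C, dist (w j z) (w (j + 1) z) < ε := by
    intro j hj z hz
    have e : w j z - w (j + 1) z = (((-1 / m : ℝ)) : ℂ) • (z - c) := by
      rw [hw, hw, add_sub_add_left_eq_sub, ← sub_smul]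
      congr 1
      push_cast
      field_simp
      ring
    rw [dist_eq_norm, e, norm_smul, Complex.norm_real, Real.norm_eq_abs, abs_div, abs_neg, abs_one,
      abs_of_pos hm0]
    have h1 : ‖z - c‖ ≤ R := by
      have := hR hz
      rwa [mem_closedBall, dist_eq_norm] at this
    calc 1 / (m : ℝ) * ‖z - c‖ ≤ 1 / (m : ℝ) * R := by gcongr
      _ = R / m := by ring
      _ < ε := by
        rw [div_lt_iff₀ hm0]
        rw [div_lt_iff₀ hε] at hm
        linarith
  have hFj : ∀ j < m, ∀ z ∈ C, Ring.inverse (h (w j z)) * h (w (j + 1) z) ∈ ball (1 : A) δ :=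
    fun j hj z hz => hsmall _ (hwC j hj.le z hz) _ (hwC (j + 1) hj z hz) (hwd j hj z hz)
  have hwdiff : ∀ j, Differentiable ℂ (w j) := by
    intro j
    have : w j = fun z => c + (((j : ℝ) / m : ℝ) : ℂ) • (z - c) := funext (hw j)
    rw [this]
    exact ((differentiable_id.sub_const c).const_smul _).const_add c
  have hprod : ∀ z ∈ C, ∀ k ≤ m, h (w k z) = h c *
      ((List.range k).map (fun j => Ring.inverse (h (w j z)) * h (w (j + 1) z))).prod := by
    intro z hz k
    induction k with
    | zero =>
      intro _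
      have : w 0 z = c := by rw [hw]; simp
      rw [this]; simp
    | succ k ih =>
      intro hk
      rw [List.range_succ, List.map_append, List.prod_append, ← mul_assoc, ← ih (by omega)]
      simp only [List.map_cons, List.map_nil, List.prod_cons, List.prod_nil, mul_one]
      rw [← mul_assoc, Ring.mul_inverse_cancel _ (hu _ (hηO (hwC k (by omega) z hz))), one_mul]
  have hTC : thickening η K ⊆ C := thickening_subset_cthickening η K
  refine ⟨thickening η K, isOpen_thickening, self_subset_thickening hη K, hTC.trans hηO, h c,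
    hu c (hKO hc), (List.range m).map (fun j z => lg (Ring.inverse (h (w j z)) * h (w (j + 1) z))),
    ?_, ?_⟩
  · intro L hL
    obtain ⟨j, hj, rfl⟩ := List.mem_map.1 hL
    have hjm : j < m := List.mem_range.1 hj
    have hda : ∀ i ≤ m, ∀ z ∈ thickening η K, DifferentiableAt ℂ (fun z => h (w i z)) z := by
      intro i hi z hz
      have h1 : DifferentiableAt ℂ h (w i z) :=
        hh.differentiableAt (hO.mem_nhds (hηO (hwC i hi z (hTC hz))))
      exact h1.comp z (hwdiff i z)
    have hdF : DifferentiableOn ℂ (fun z => Ring.inverse (h (w j z)) * h (w (j + 1) z))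
        (thickening η K) := by
      intro z hz
      refine DifferentiableAt.differentiableWithinAt ?_
      refine DifferentiableAt.mul ?_ (hda (j + 1) hjm z hz)
      obtain ⟨u, hu'⟩ := hu _ (hηO (hwC j hjm.le z (hTC hz)))
      have h2 : DifferentiableAt ℂ Ring.inverse (h (w j z)) := by
        rw [← hu']
        exact differentiableAt_inverse u.isUnit
      exact h2.comp z (hda j hjm.le z hz)
    exact hlg.comp hdF (fun z hz => hFj j hjm z (hTC hz))
  · intro z hz
    have h1 := hprod z (hTC hz) m le_rfl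
    have h2 : w m z = z := by
      rw [hw, div_self hm0.ne']; simp
    rw [h2] at h1
    rw [h1, List.map_map]
    congr 2
    refine List.map_congr_left fun j hj => ?_
    have hjm : j < m := List.mem_range.1 hj
    exact (hexp _ (hFj j hjm z (hTC hz))).symm

end Pool.Agent.HP
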