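import Mathlib
set_option autoImplicit false
open Set Metric Filter Topology
namespace Pool.Agent.HP

section General

variable {E F : Type*} [NormedAddCommGroup E] [NormedSpace ℂ E]
  [NormedAddCommGroup F] [NormedSpace ℂ F]

omit [NormedSpace ℂ E] in
theorem nof_ball_half_subset {c w : E} {R : ℝ} (hw : w ∈ ball c (R / 2)) :
    ball w (R / 2) ⊆ ball c R := by
  intro x hx
  rw [mem_ball] at *
  calc dist x c ≤ dist x w + dist w c := dist_triangle _ _ _
    _ < R := by linarith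

theorem nof_norm_fderiv_le_half {f : E → F} {c : E} {R M : ℝ}
    (hd : DifferentiableOn ℂ f (ball c R)) (hM : ∀ z ∈ ball c R, ‖f z‖ ≤ M) {w : E}
    (hw : w ∈ ball c (R / 2)) :
    ‖fderiv ℂ f w‖ ≤ 4 * M / R := by
  have hsub := nof_ball_half_subset hw
  have hR : 0 < R / 2 := (dist_nonneg).trans_lt (mem_ball.1 hw)
  have hmaps : MapsTo f (ball w (R / 2)) (closedBall (f w) (2 * M)) := by
    intro x hx
    rw [mem_closedBall, dist_eq_norm]
    calc ‖f x - f w‖ ≤ ‖f x‖ + ‖f w‖ := norm_sub_le _ _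
      _ ≤ 2 * M := by linarith [hM x (hsub hx), hM w (hsub (mem_ball_self hR))]
  have := Complex.norm_fderiv_le_div_of_mapsTo_ball (hd.mono hsub) hmaps hR
  calc _ ≤ _ := this
    _ = _ := by
      have : R ≠ 0 := by linarith
      field_simp; ring

/-- Uniform limits of holomorphic maps are holomorphic. -/
theorem nof_differentiableOn_of_uniform_limit [CompleteSpace F] {f : ℕ → E → F} {g : E → F} {c : E}
    {R : ℝ} (hf : ∀ n, DifferentiableOn ℂ (f n) (ball c R))
    (hlim : TendstoUniformlyOn f g atTop (ball c R)) :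
    DifferentiableOn ℂ g (ball c (R / 2)) := by
  rcases le_or_gt R 0 with hR | hR
  · rw [ball_eq_empty.2 (by linarith)]
    exact differentiableOn_empty
  have hc : UniformCauchySeqOn (fun n => fderiv ℂ (f n)) atTop (ball c (R / 2)) := by
    rw [Metric.uniformCauchySeqOn_iff]
    intro ε hε
    obtain ⟨N, hN⟩ := Metric.uniformCauchySeqOn_iff.1 hlim.uniformCauchySeqOn (ε * R / 8)
      (by positivity)
    refine ⟨N, fun m hm n hn w hw => ?_⟩
    have hsub := nof_ball_half_subset hw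
    have hR2 : 0 < R / 2 := by linarith
    have hwm : w ∈ ball c R := hsub (mem_ball_self hR2)
    have e1 : fderiv ℂ (f m) w - fderiv ℂ (f n) w = fderiv ℂ (fun x => f m x - f n x) w := by
      rw [fderiv_fun_sub ((hf m).differentiableAt (isOpen_ball.mem_nhds hwm))
        ((hf n).differentiableAt (isOpen_ball.mem_nhds hwm))]
    rw [dist_eq_norm, e1]
    have := nof_norm_fderiv_le_half (f := fun x => f m x - f n x) (c := c) (R := R)
      (M := ε * R / 8)
      ((hf m).sub (hf n)) (fun z hz => by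
        have := hN m hm n hn z hz
        rw [dist_eq_norm] at this
        exact this.le) hw
    calc _ ≤ _ := this
      _ = ε / 2 := by field_simp; ring
      _ < ε := by linarith
  have hex : ∀ x ∈ ball c (R / 2), ∃ L : E →L[ℂ] F,
      Tendsto (fun n => fderiv ℂ (f n) x) atTop (𝓝 L) := by
    intro x hx
    exact cauchySeq_tendsto_of_complete (hc.cauchySeq hx)
  choose! g' hg' using hex
  have hu : TendstoUniformlyOn (fun n => fderiv ℂ (f n)) g' atTop (ball c (R / 2)) :=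
    hc.tendstoUniformlyOn_of_tendsto hg'
  intro x hx
  refine (hasFDerivAt_of_tendstoUniformlyOn (f := f) isOpen_ball hu (fun n y hy => ?_)
    (fun y hy => ?_) hx).differentiableAt.differentiableWithinAt
  · exact ((hf n).differentiableAt
      (isOpen_ball.mem_nhds (ball_subset_ball (by linarith) hy))).hasFDerivAt
  · exact hlim.tendsto_at (ball_subset_ball (by linarith) hy)

/-- normally convergent series of holomorphic maps are holomorphic. -/
theorem nof_differentiableOn_tsum [CompleteSpace F] {f : ℕ → E → F} {u : ℕ → ℝ}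
    (hu : Summable u) {U : Set E} (hU : IsOpen U) (hf : ∀ n, DifferentiableOn ℂ (f n) U)
    (hfu : ∀ n x, x ∈ U → ‖f n x‖ ≤ u n) :
    DifferentiableOn ℂ (fun x => ∑' n, f n x) U := by
  intro z hz
  obtain ⟨R, hR, hRU⟩ := Metric.isOpen_iff.1 hU z hz
  have h1 : TendstoUniformlyOn (fun N => fun x => ∑ n ∈ Finset.range N, f n x)
      (fun x => ∑' n, f n x) atTop (ball z R) :=
    tendstoUniformlyOn_tsum_nat hu (fun n x hx => hfu n x (hRU hx))
  have h2 := nof_differentiableOn_of_uniform_limit (c := z) (R := R) (fun N => by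
    refine DifferentiableOn.fun_sum (fun n _ => ?_)
    exact (hf n).mono hRU) h1
  exact (h2.differentiableAt (ball_mem_nhds z (by positivity))).differentiableWithinAt

end General

variable {Y A : Type} [NormedAddCommGroup Y] [NormedSpace ℂ Y]
  [NormedRing A] [NormedAlgebra ℂ A] [CompleteSpace A]

/-- N: near-identity multiplicative factorisation from additive splitting -/
theorem near_one_factor (W W' W'' : Set ℂ) (hW : IsOpen W) (hW' : IsOpen W') (hW'' : IsOpen W'')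
    (h' : W ⊆ W') (h'' : W ⊆ W'') (P : Set Y) (hP : IsOpen P) (C : ℝ) (hC : 0 < C)
    (hsplit : ∀ (x : ℂ × Y → A) (M : ℝ), DifferentiableOn ℂ x (W ×ˢ P) →
      (∀ p ∈ W ×ˢ P, ‖x p‖ ≤ M) →
      ∃ x' x'' : ℂ × Y → A, DifferentiableOn ℂ x' (W' ×ˢ P) ∧ DifferentiableOn ℂ x'' (W'' ×ˢ P) ∧
        (∀ p ∈ W' ×ˢ P, ‖x' p‖ ≤ C * M) ∧ (∀ p ∈ W'' ×ˢ P, ‖x'' p‖ ≤ C * M) ∧
        ∀ p ∈ W ×ˢ P, x p = x' p - x'' p)
    (x : ℂ × Y → A) (ε : ℝ) (hε : 0 < ε) (hCε : C * ε ≤ 1 / 4)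
    (hx : DifferentiableOn ℂ x (W ×ˢ P)) (hxε : ∀ p ∈ W ×ˢ P, ‖x p‖ ≤ ε) :
    ∃ a b : ℂ × Y → A, DifferentiableOn ℂ a (W' ×ˢ P) ∧ DifferentiableOn ℂ b (W'' ×ˢ P) ∧
      (∀ p ∈ W' ×ˢ P, ‖a p - 1‖ ≤ 1 / 2) ∧ (∀ p ∈ W'' ×ˢ P, ‖b p - 1‖ ≤ 1 / 2) ∧
      ∀ p ∈ W ×ˢ P, (1 + x p) * b p = a p := by
  choose! F G hF hG hbF hbG hFG using hsplit
  -- the sequence
  obtain ⟨X, hX0, hXs⟩ : ∃ X : ℕ → (ℂ × Y → A), X 0 = x ∧
      ∀ n, X (n + 1) = fun p => x p * G (X n) (ε * (C * ε) ^ n) p :=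
    ⟨fun n => Nat.rec x (fun n X p => x p * G X (ε * (C * ε) ^ n) p) n, rfl, fun n => rfl⟩
  have hsub : W ×ˢ P ⊆ W'' ×ˢ P := Set.prod_mono h'' subset_rfl
  have hsub' : W ×ˢ P ⊆ W' ×ˢ P := Set.prod_mono h' subset_rfl
  have hXP : ∀ n, DifferentiableOn ℂ (X n) (W ×ˢ P) ∧
      ∀ p ∈ W ×ˢ P, ‖X n p‖ ≤ ε * (C * ε) ^ n := by
    intro n
    induction n with
    | zero => rw [hX0]; exact ⟨hx, by simpa using hxε⟩
    | succ n ih =>
      rw [hXs]
      refine ⟨hx.mul ((hG _ _ ih.1 ih.2).mono hsub), ?_⟩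
      intro p hp
      have e1 := hbG _ _ ih.1 ih.2 p (hsub hp)
      have e2 := hxε p hp
      calc ‖x p * G (X n) (ε * (C * ε) ^ n) p‖ ≤ ‖x p‖ * ‖G (X n) (ε * (C * ε) ^ n) p‖ :=
            norm_mul_le _ _
        _ ≤ ε * (C * (ε * (C * ε) ^ n)) := by gcongr
        _ = ε * (C * ε) ^ (n + 1) := by ring
  have hr0 : 0 < C * ε := by positivity
  have hr1 : C * ε < 1 := by linarith
  have hgeo : Summable (fun n : ℕ => (C * ε) ^ (n + 1)) :=
    (summable_nat_add_iff 1).2 (summable_geometric_of_lt_one hr0.le hr1)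
  have hgs : ∑' n : ℕ, (C * ε) ^ (n + 1) ≤ 1 / 2 := by
    have e1 : ∑' n : ℕ, (C * ε) ^ (n + 1) = C * ε * (1 - C * ε)⁻¹ := by
      rw [← tsum_geometric_of_lt_one hr0.le hr1, ← tsum_mul_left]
      exact tsum_congr (fun n => by ring)
    rw [e1, ← div_eq_mul_inv, div_le_iff₀ (by linarith)]
    linarith
  obtain ⟨a, ha⟩ : ∃ a : ℕ → ℂ × Y → A, ∀ n, a n = F (X n) (ε * (C * ε) ^ n) :=
    ⟨fun n => F (X n) (ε * (C * ε) ^ n), fun n => rfl⟩
  obtain ⟨b, hb⟩ : ∃ b : ℕ → ℂ × Y → A, ∀ n, b n = G (X n) (ε * (C * ε) ^ n) :=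
    ⟨fun n => G (X n) (ε * (C * ε) ^ n), fun n => rfl⟩
  have hda : ∀ n, DifferentiableOn ℂ (a n) (W' ×ˢ P) := fun n => by
    rw [ha]; exact hF _ _ (hXP n).1 (hXP n).2
  have hdb : ∀ n, DifferentiableOn ℂ (b n) (W'' ×ˢ P) := fun n => by
    rw [hb]; exact hG _ _ (hXP n).1 (hXP n).2
  have hba : ∀ n p, p ∈ W' ×ˢ P → ‖a n p‖ ≤ (C * ε) ^ (n + 1) := fun n p hp => by
    rw [ha]
    refine (hbF _ _ (hXP n).1 (hXP n).2 p hp).trans (le_of_eq ?_)
    ring
  have hbb : ∀ n p, p ∈ W'' ×ˢ P → ‖b n p‖ ≤ (C * ε) ^ (n + 1) := fun n p hp => by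
    rw [hb]
    refine (hbG _ _ (hXP n).1 (hXP n).2 p hp).trans (le_of_eq ?_)
    ring
  have hXab : ∀ n, ∀ p ∈ W ×ˢ P, X n p = a n p - b n p := fun n p hp => by
    rw [ha, hb]; exact hFG _ _ (hXP n).1 (hXP n).2 p hp
  have hsa : ∀ p ∈ W' ×ˢ P, Summable (fun n => a n p) := fun p hp =>
    Summable.of_norm_bounded hgeo (fun n => hba n p hp)
  have hsb : ∀ p ∈ W'' ×ˢ P, Summable (fun n => b n p) := fun p hp =>
    Summable.of_norm_bounded hgeo (fun n => hbb n p hp)
  refine ⟨fun p => 1 + ∑' n, a n p, fun p => 1 + ∑' n, b n p, ?_, ?_, ?_, ?_, ?_⟩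
  · exact (nof_differentiableOn_tsum hgeo (hW'.prod hP) hda hba).const_add 1
  · exact (nof_differentiableOn_tsum hgeo (hW''.prod hP) hdb hbb).const_add 1
  · intro p hp
    rw [add_sub_cancel_left]
    refine le_trans ?_ hgs
    exact tsum_of_norm_bounded hgeo.hasSum (fun n => hba n p hp)
  · intro p hp
    rw [add_sub_cancel_left]
    refine le_trans ?_ hgs
    exact tsum_of_norm_bounded hgeo.hasSum (fun n => hbb n p hp)
  · intro p hp
    have s1 := hsa p (hsub' hp)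
    have s2 := hsb p (hsub hp)
    have sX : Summable (fun n => X n p) := by
      have : (fun n => X n p) = fun n => a n p - b n p := by
        funext n; exact hXab n p hp
      rw [this]; exact s1.sub s2
    have e1 : ∑' n, X n p = X 0 p + ∑' n, X (n + 1) p := sX.tsum_eq_zero_add
    have e2 : ∑' n, X (n + 1) p = x p * ∑' n, b n p := by
      rw [← s2.tsum_mul_left]
      refine tsum_congr (fun n => ?_)
      rw [hXs, hb]
    have e3 : ∑' n, X n p = ∑' n, a n p - ∑' n, b n p := by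
      rw [← s1.tsum_sub s2]
      exact tsum_congr (fun n => hXab n p hp)
    rw [e2, hX0, e3] at e1
    change (1 + x p) * (1 + ∑' n, b n p) = 1 + ∑' n, a n p
    have e4 : ∑' n, a n p = x p + x p * ∑' n, b n p + ∑' n, b n p := by
      rw [← e1]; abel
    rw [e4]
    noncomm_ring

end Pool.Agent.HP
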