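import Mathlib
set_option autoImplicit false
open Set Metric Filter Topology
namespace Pool.Agent.HP

theorem geom_err_aux (x : ℂ) (hx : ‖x‖ ≤ 1 / 2) (N : ℕ) :
    ‖(1 - x)⁻¹ - ∑ n ∈ Finset.range N, x ^ n‖ ≤ 2 * (1 / 2) ^ N := by
  have h1 : (1 / 2 : ℝ) ≤ ‖1 - x‖ := by
    have := norm_sub_norm_le (1 : ℂ) x
    rw [norm_one] at this
    linarith
  have hne : (1 - x) ≠ 0 := by
    intro h
    rw [h, norm_zero] at h1
    norm_num at h1
  have h2 : (1 - x)⁻¹ - ∑ n ∈ Finset.range N, x ^ n = x ^ N * (1 - x)⁻¹ := by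
    have h3 : (∑ n ∈ Finset.range N, x ^ n) * (1 - x) = 1 - x ^ N := geom_sum_mul_neg x N
    have h4 : (∑ n ∈ Finset.range N, x ^ n) = (1 - x ^ N) * (1 - x)⁻¹ := by
      rw [← h3, mul_inv_cancel_right₀ hne]
    rw [h4]
    ring
  rw [h2, norm_mul, norm_pow, norm_inv, mul_comm]
  have h5 : ‖1 - x‖⁻¹ ≤ 2 := by
    rw [inv_le_comm₀ (by linarith) (by norm_num)]
    linarith
  exact mul_le_mul h5 (pow_le_pow_left₀ (norm_nonneg _) hx _) (by positivity) (by norm_num)

/-- R1: Runge in one variable for the Cauchy kernel -/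
theorem runge_kernel (D : Set ℂ) (hD : IsCompact D) (hDc : IsPreconnected Dᶜ) (ζ : ℂ)
    (hζ : ζ ∉ D) (ε : ℝ) (hε : 0 < ε) :
    ∃ q : Polynomial ℂ, ∀ z ∈ D, ‖(ζ - z)⁻¹ - q.eval z‖ < ε := by
  rcases D.eq_empty_or_nonempty with rfl | hne
  · exact ⟨0, fun z hz => absurd hz (Set.notMem_empty z)⟩
  set U : Set ℂ := {w | w ∉ D ∧ ∀ ε : ℝ, 0 < ε → ∃ q : Polynomial ℂ, ∀ z ∈ D,
    ‖(w - z)⁻¹ - q.eval z‖ < ε} with hU
  -- the step
  have step : ∀ w₀ ∈ U, ∀ ρ : ℝ, 0 < ρ → (∀ z ∈ D, ρ ≤ ‖w₀ - z‖) → ∀ w : ℂ,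
      ‖w₀ - w‖ ≤ ρ / 2 → w ∈ U := by
    rintro w₀ ⟨hw0, happ⟩ ρ hρ hfar w hw
    refine ⟨fun hwD => ?_, fun ε hε => ?_⟩
    · have := hfar w hwD
      linarith
    · -- truncation
      obtain ⟨N, hN⟩ : ∃ N : ℕ, ρ⁻¹ * (2 * (1 / 2 : ℝ) ^ N) < ε / 2 := by
        have h1 : Tendsto (fun N : ℕ => ρ⁻¹ * (2 * (1 / 2 : ℝ) ^ N)) atTop (𝓝 0) := by
          have := ((tendsto_pow_atTop_nhds_zero_of_lt_one (by norm_num : (0 : ℝ) ≤ 1 / 2)
            (by norm_num)).const_mul 2).const_mul ρ⁻¹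
          simpa using this
        exact (h1.eventually (gt_mem_nhds (by linarith : (0 : ℝ) < ε / 2))).exists
      set P : Polynomial ℂ := Polynomial.X *
        ∑ n ∈ Finset.range N, (Polynomial.C (w₀ - w) * Polynomial.X) ^ n with hP
      have hPe : ∀ x : ℂ, P.eval x = x * ∑ n ∈ Finset.range N, ((w₀ - w) * x) ^ n := by
        intro x
        rw [hP, Polynomial.eval_mul, Polynomial.eval_X, Polynomial.eval_finsetSum]
        congr 1
        apply Finset.sum_congr rfl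
        intro n _
        simp
      have huc := (isCompact_closedBall (0 : ℂ) (ρ⁻¹ + 1)).uniformContinuousOn_of_continuous
        P.continuous.continuousOn
      rw [Metric.uniformContinuousOn_iff] at huc
      obtain ⟨δ, hδ, hδ'⟩ := huc (ε / 2) (by linarith)
      obtain ⟨q, hq⟩ := happ (min δ 1) (lt_min hδ one_pos)
      refine ⟨P.comp q, fun z hz => ?_⟩
      set v : ℂ := (w₀ - z)⁻¹ with hv
      have hfz := hfar z hz
      have hvn : ‖v‖ ≤ ρ⁻¹ := by
        rw [hv, norm_inv]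
        exact inv_anti₀ hρ hfz
      have hw0z : w₀ - z ≠ 0 := by
        intro h
        rw [h, norm_zero] at hfz
        linarith
      have hqz := hq z hz
      have h1 : ‖P.eval v - P.eval (q.eval z)‖ < ε / 2 := by
        have h2 := hδ' v (by rw [mem_closedBall_zero_iff]; linarith) (q.eval z) (by
          rw [mem_closedBall_zero_iff]
          have h3 : ‖q.eval z‖ ≤ ‖v‖ + ‖v - q.eval z‖ := by
            have := norm_sub_norm_le (q.eval z) v
            rw [norm_sub_rev] at this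
            linarith
          have h4 : ‖v - q.eval z‖ < 1 := hqz.trans_le (min_le_right _ _)
          linarith) (by
          rw [dist_eq_norm]
          exact hqz.trans_le (min_le_left _ _))
        rwa [dist_eq_norm] at h2
      have htv : ‖(w₀ - w) * v‖ ≤ 1 / 2 := by
        rw [norm_mul]
        calc ‖w₀ - w‖ * ‖v‖ ≤ (ρ / 2) * ρ⁻¹ :=
              mul_le_mul hw hvn (norm_nonneg _) (by positivity)
          _ = 1 / 2 := by field_simp
      have h5 : (w - z)⁻¹ = v * (1 - (w₀ - w) * v)⁻¹ := by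
        rw [hv, ← mul_inv]
        congr 1
        field_simp
        ring
      have h6 : ‖(w - z)⁻¹ - P.eval v‖ < ε / 2 := by
        rw [h5, hPe, ← mul_sub, norm_mul]
        refine lt_of_le_of_lt ?_ hN
        exact mul_le_mul hvn (geom_err_aux _ htv N) (norm_nonneg _) (by positivity)
      rw [Polynomial.eval_comp]
      calc ‖(w - z)⁻¹ - P.eval (q.eval z)‖
          = ‖((w - z)⁻¹ - P.eval v) + (P.eval v - P.eval (q.eval z))‖ := by
            congr 1
            ring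
        _ ≤ ‖(w - z)⁻¹ - P.eval v‖ + ‖P.eval v - P.eval (q.eval z)‖ := norm_add_le _ _
        _ < ε := by linarith
  have hcl : IsClosed D := hD.isClosed
  have hpos : ∀ w, w ∉ D → 0 < infDist w D := fun w hw =>
    (hcl.notMem_iff_infDist_pos hne).1 hw
  have hle : ∀ w, ∀ z ∈ D, infDist w D ≤ ‖w - z‖ := by
    intro w z hz
    rw [← dist_eq_norm]
    exact infDist_le_dist_of_mem hz
  have hopen : IsOpen U := by
    rw [Metric.isOpen_iff]
    intro w₀ hw₀
    refine ⟨infDist w₀ D / 2, half_pos (hpos _ hw₀.1), fun w hw => ?_⟩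
    refine step w₀ hw₀ (infDist w₀ D) (hpos _ hw₀.1) (hle w₀) w ?_
    rw [← dist_eq_norm, dist_comm]
    exact (mem_ball.1 hw).le
  have hclos : closure U ∩ Dᶜ ⊆ U := by
    rintro w ⟨hw1, hw2⟩
    have hw3 := hpos w hw2
    rw [Metric.mem_closure_iff] at hw1
    obtain ⟨w₀, hw₀, hd⟩ := hw1 (infDist w D / 3) (by linarith)
    refine step w₀ hw₀ (2 * infDist w D / 3) (by linarith) ?_ w ?_
    · intro z hz
      have h1 := hle w z hz
      have h2 : ‖w - z‖ ≤ ‖w - w₀‖ + ‖w₀ - z‖ := by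
        have := norm_add_le (w - w₀) (w₀ - z)
        rwa [sub_add_sub_cancel] at this
      rw [dist_eq_norm] at hd
      linarith
    · rw [dist_eq_norm, norm_sub_rev] at hd
      linarith
  have hnonempty : (Dᶜ ∩ U).Nonempty := by
    obtain ⟨R, hR⟩ := hD.isBounded.exists_norm_le
    obtain ⟨z₁, hz₁⟩ := hne
    have hR0 : 0 ≤ R := (norm_nonneg _).trans (hR z₁ hz₁)
    set w : ℂ := ((2 * R + 1 : ℝ) : ℂ) with hw
    have hwn : ‖w‖ = 2 * R + 1 := by
      rw [hw, Complex.norm_real, Real.norm_of_nonneg (by linarith)]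
    have hwD : w ∉ D := fun h => by
      have := hR w h
      rw [hwn] at this
      linarith
    have hw0 : w ≠ 0 := by
      intro h
      rw [h, norm_zero] at hwn
      linarith
    refine ⟨w, hwD, hwD, fun ε hε => ?_⟩
    obtain ⟨N, hN⟩ : ∃ N : ℕ, (2 * (1 / 2 : ℝ) ^ N) < ε := by
      have h1 : Tendsto (fun N : ℕ => (2 * (1 / 2 : ℝ) ^ N)) atTop (𝓝 0) := by
        have := ((tendsto_pow_atTop_nhds_zero_of_lt_one (by norm_num : (0 : ℝ) ≤ 1 / 2)
          (by norm_num)).const_mul 2)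
        simpa using this
      exact (h1.eventually (gt_mem_nhds hε)).exists
    refine ⟨Polynomial.C w⁻¹ * ∑ n ∈ Finset.range N, (Polynomial.C w⁻¹ * Polynomial.X) ^ n,
      fun z hz => ?_⟩
    have hz' := hR z hz
    have h1 : ‖w⁻¹ * z‖ ≤ 1 / 2 := by
      rw [norm_mul, norm_inv, hwn, inv_mul_le_iff₀ (by linarith)]
      linarith
    have h2 : (w - z)⁻¹ = w⁻¹ * (1 - w⁻¹ * z)⁻¹ := by
      rw [← mul_inv]
      congr 1
      field_simp
    have h3 : (Polynomial.C w⁻¹ * ∑ n ∈ Finset.range N,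
        (Polynomial.C w⁻¹ * Polynomial.X) ^ n).eval z
        = w⁻¹ * ∑ n ∈ Finset.range N, (w⁻¹ * z) ^ n := by
      rw [Polynomial.eval_mul, Polynomial.eval_C, Polynomial.eval_finsetSum]
      congr 1
      apply Finset.sum_congr rfl
      intro n _
      simp
    rw [h3, h2, ← mul_sub, norm_mul]
    refine lt_of_le_of_lt ?_ hN
    have h4 : ‖w⁻¹‖ ≤ 1 := by
      rw [norm_inv, hwn]
      exact inv_le_one_of_one_le₀ (by linarith)
    calc ‖w⁻¹‖ * ‖(1 - w⁻¹ * z)⁻¹ - ∑ n ∈ Finset.range N, (w⁻¹ * z) ^ n‖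
        ≤ 1 * (2 * (1 / 2) ^ N) :=
          mul_le_mul h4 (geom_err_aux _ h1 N) (norm_nonneg _) (by norm_num)
      _ = _ := one_mul _
  exact (hDc.subset_of_closure_inter_subset hopen hnonempty hclos hζ).2 ε hε

theorem pre_re_lt (a : ℝ) : IsPreconnected {z : ℂ | z.re < a} :=
  (convex_halfSpace_re_lt a).isPreconnected

theorem pre_re_gt (a : ℝ) : IsPreconnected {z : ℂ | a < z.re} :=
  (convex_halfSpace_re_gt a).isPreconnected

theorem pre_im_lt (a : ℝ) : IsPreconnected {z : ℂ | z.im < a} :=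
  (convex_halfSpace_im_lt a).isPreconnected

theorem pre_im_gt (a : ℝ) : IsPreconnected {z : ℂ | a < z.im} :=
  (convex_halfSpace_im_gt a).isPreconnected

theorem pre_im_strip (a b : ℝ) : IsPreconnected {z : ℂ | a < z.im ∧ z.im < b} :=
  ((convex_halfSpace_im_gt a).inter (convex_halfSpace_im_lt b)).isPreconnected

/-- C1: complements of closed rectangles are connected -/
theorem preconnected_compl_rect (a b c d : ℝ) :
    IsPreconnected (Icc a b ×ℂ Icc c d)ᶜ := by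
  have h1 : (Icc a b ×ℂ Icc c d)ᶜ = (({z : ℂ | z.re < a} ∪ {z : ℂ | z.im < c}) ∪
      {z : ℂ | d < z.im}) ∪ {z : ℂ | b < z.re} := by
    ext z
    simp only [mem_compl_iff, Complex.mem_reProdIm, mem_Icc, mem_union, mem_ofPred_eq, not_and_or,
      not_le]
    tauto
  rw [h1]
  refine IsPreconnected.union' ?_ (IsPreconnected.union' ?_ (IsPreconnected.union' ?_ (pre_re_lt a)
    (pre_im_lt c)) (pre_im_gt d)) (pre_re_gt b)
  · exact ⟨⟨b + 1, c - 1⟩, by simp, by simp⟩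
  · exact ⟨⟨a - 1, d + 1⟩, by simp, by simp⟩
  · exact ⟨⟨a - 1, c - 1⟩, by simp, by simp⟩

/-- C2: two stacked rectangles -/
theorem preconnected_compl_rects (a b c d c' d' : ℝ) (hcd : c ≤ d) (hcd' : c' ≤ d') (h : d < c') :
    IsPreconnected ((Icc a b ×ℂ Icc c d) ∪ (Icc a b ×ℂ Icc c' d'))ᶜ := by
  have h1 : ((Icc a b ×ℂ Icc c d) ∪ (Icc a b ×ℂ Icc c' d'))ᶜ =
      ((({z : ℂ | z.re < a} ∪ {z : ℂ | z.im < c}) ∪ {z : ℂ | d' < z.im}) ∪
        {z : ℂ | d < z.im ∧ z.im < c'}) ∪ {z : ℂ | b < z.re} := by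
    ext z
    simp only [mem_compl_iff, Complex.mem_reProdIm, mem_Icc, mem_union, mem_ofPred_eq, not_or,
      not_and_or, not_le]
    constructor
    · rintro ⟨(h1 | h1) | (h1 | h1), h2⟩
      · exact Or.inl (Or.inl (Or.inl (Or.inl h1)))
      · exact Or.inr h1
      · exact Or.inl (Or.inl (Or.inl (Or.inr h1)))
      · rcases h2 with (h2 | h2) | (h2 | h2)
        · exact Or.inl (Or.inl (Or.inl (Or.inl h2)))
        · exact Or.inr h2
        · exact Or.inl (Or.inr ⟨h1, h2⟩)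
        · exact Or.inl (Or.inl (Or.inr h2))
    · rintro ((((h1 | h1) | h1) | h1) | h1)
      · exact ⟨Or.inl (Or.inl h1), Or.inl (Or.inl h1)⟩
      · exact ⟨Or.inr (Or.inl h1), Or.inr (Or.inl (by linarith))⟩
      · exact ⟨Or.inr (Or.inr (by linarith)), Or.inr (Or.inr h1)⟩
      · exact ⟨Or.inr (Or.inr h1.1), Or.inr (Or.inl h1.2)⟩
      · exact ⟨Or.inl (Or.inr h1), Or.inl (Or.inr h1)⟩
  rw [h1]
  refine IsPreconnected.union' ?_ (IsPreconnected.union' ?_ (IsPreconnected.union' ?_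
    (IsPreconnected.union' ?_ (pre_re_lt a) (pre_im_lt c)) (pre_im_gt d'))
    (pre_im_strip d c')) (pre_re_gt b)
  · exact ⟨⟨b + 1, c - 1⟩, by simp, by simp⟩
  · refine ⟨⟨a - 1, (d + c') / 2⟩, by simp, ?_⟩
    simp only [mem_ofPred_eq]
    constructor <;> linarith
  · exact ⟨⟨a - 1, d' + 1⟩, by simp, by simp⟩
  · exact ⟨⟨a - 1, c - 1⟩, by simp, by simp⟩

end Pool.Agent.HP

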