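import Pool.Agent.HopfPinch.AnS1
import Pool.Agent.HopfPinch.AnS0
import Pool.Agent.HopfPinch.AnR1
set_option autoImplicit false
open Set Metric Filter Topology MeasureTheory
namespace Pool.Agent.HP


variable {Y E : Type} [NormedAddCommGroup Y] [NormedSpace ℂ Y] [FiniteDimensional ℂ Y]
  [NormedAddCommGroup E] [NormedSpace ℂ E] [FiniteDimensional ℂ E]


/-- smooth cutoff with values in `ℂ` -/
theorem exists_cutoff (D t : Set ℂ) (hD : IsClosed D) (hDt : D ⊆ interior t) :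
    ∃ (χ : ℂ → ℂ) (V : Set ℂ), ContDiff ℝ 1 χ ∧ IsOpen V ∧ D ⊆ V ∧ (∀ z ∈ V, χ z = 1) ∧
      (∀ z ∉ t, χ z = 0) := by
  obtain ⟨f, h1, h0, -⟩ := exists_contMDiffMap_one_nhds_of_subset_interior (n := 1)
    (modelWithCornersSelf ℝ ℂ) hD hDt
  have h1' : {x | f x = 1} ∈ 𝓝ˢ D := h1
  obtain ⟨V, hVo, hDV, hV⟩ := mem_nhdsSet_iff_exists.1 h1'
  refine ⟨fun z => (f z : ℂ), V, ?_, hVo, hDV, ?_, ?_⟩
  · have h2 : ContDiff ℝ 1 f := f.contMDiff.contDiff
    exact Complex.ofRealCLM.contDiff.comp h2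
  · intro z hz
    have : f z = 1 := hV hz
    show ((f z : ℝ) : ℂ) = 1
    rw [this]; norm_num
  · intro z hz
    show ((f z : ℝ) : ℂ) = 0
    rw [h0 z hz]; norm_num

omit [FiniteDimensional ℂ E] in
theorem dbar_smul (χ : ℂ → ℂ) (F : ℂ → E) (ζ : ℂ) (hχ : DifferentiableAt ℝ χ ζ)
    (hF : DifferentiableAt ℂ F ζ) :
    (1 / 2 : ℂ) • (fderiv ℝ (fun ζ => χ ζ • F ζ) ζ 1 +
      Complex.I • fderiv ℝ (fun ζ => χ ζ • F ζ) ζ Complex.I) =
    ((1 / 2 : ℂ) * (fderiv ℝ χ ζ 1 + Complex.I * fderiv ℝ χ ζ Complex.I)) • F ζ := by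
  have h1 := hχ.hasFDerivAt
  have h2 := hF.hasFDerivAt.restrictScalars ℝ
  have h3 := (h1.fun_smul h2).fderiv
  have h4 : (fderiv ℂ F ζ) Complex.I = Complex.I • (fderiv ℂ F ζ) 1 := by
    rw [← map_smul, smul_eq_mul, mul_one]
  have e1 : fderiv ℝ (fun ζ => χ ζ • F ζ) ζ 1 = χ ζ • (fderiv ℂ F ζ) 1 + (fderiv ℝ χ ζ 1) • F ζ := by
    rw [h3]; rfl
  have e2 : fderiv ℝ (fun ζ => χ ζ • F ζ) ζ Complex.I =
      χ ζ • (fderiv ℂ F ζ) Complex.I + (fderiv ℝ χ ζ Complex.I) • F ζ := by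
    rw [h3]; rfl
  rw [e1, e2, h4]
  have hI : Complex.I * (χ ζ * Complex.I) = -(χ ζ) := by
    rw [mul_left_comm, Complex.I_mul_I]; ring
  simp only [smul_add, smul_smul, hI]
  module

/-- TARGET: Runge with parameters -/
theorem runge_param (D : Set ℂ) (hD : IsCompact D) (hDc : IsPreconnected Dᶜ)
    (B : Set Y) (hB : IsCompact B) (O : Set (ℂ × Y)) (hO : IsOpen O) (hDB : D ×ˢ B ⊆ O)
    (L : ℂ × Y → E) (hL : DifferentiableOn ℂ L O) :
    ∃ P : Set Y, IsOpen P ∧ B ⊆ P ∧ ∀ ε : ℝ, 0 < ε → ∃ L' : ℂ × Y → E,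
      DifferentiableOn ℂ L' (univ ×ˢ P) ∧ ∀ p ∈ D ×ˢ B, ‖L p - L' p‖ < ε := by
  have : ProperSpace Y := FiniteDimensional.proper ℂ Y
  have : CompleteSpace E := FiniteDimensional.complete ℂ E
  have : FiniteDimensional ℝ ℂ := inferInstance
  obtain ⟨u, v, huo, hvo, hDu, hBv, huv⟩ := generalized_tube_lemma hD hB hO hDB
  obtain ⟨P, hPo, hBP, hPv, hPc⟩ := exists_open_between_and_isCompact_closure hB hvo hBv
  obtain ⟨t, htc, hDt, htu⟩ := exists_compact_between hD huo hDu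
  obtain ⟨χ, V, hχ, hVo, hDV, hχ1, hχ0⟩ := exists_cutoff D t hD.isClosed hDt
  -- the dbar derivative of the cutoff
  obtain ⟨g, hg⟩ : ∃ g : ℂ → ℂ, ∀ ζ, g ζ =
      (1 / 2 : ℂ) * (fderiv ℝ χ ζ 1 + Complex.I * fderiv ℝ χ ζ Complex.I) := ⟨_, fun _ => rfl⟩
  have hgc : Continuous g := by
    have h1 := hχ.continuous_fderiv one_ne_zero
    have h2 : Continuous (fun ζ => fderiv ℝ χ ζ 1) := h1.clm_apply continuous_const
    have h3 : Continuous (fun ζ => fderiv ℝ χ ζ Complex.I) := h1.clm_apply continuous_const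
    have h4 : g = fun ζ => (1 / 2 : ℂ) * (fderiv ℝ χ ζ 1 + Complex.I * fderiv ℝ χ ζ Complex.I) :=
      funext hg
    rw [h4]
    exact continuous_const.mul (h2.add (continuous_const.mul h3))
  have hg0 : ∀ ζ ∉ t, g ζ = 0 := by
    intro ζ hζ
    have h1 : χ =ᶠ[𝓝 ζ] fun _ => 0 := by
      filter_upwards [htc.isClosed.isOpen_compl.mem_nhds hζ] with z hz
      exact hχ0 z hz
    have h2 : fderiv ℝ χ ζ = 0 := by
      rw [h1.fderiv_eq]
      simp
    rw [hg, h2]
    simp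
  have hg1 : ∀ ζ ∈ V, g ζ = 0 := by
    intro ζ hζ
    have h1 : χ =ᶠ[𝓝 ζ] fun _ => 1 := by
      filter_upwards [hVo.mem_nhds hζ] with z hz
      exact hχ1 z hz
    have h2 : fderiv ℝ χ ζ = 0 := by
      rw [h1.fderiv_eq]
      simp
    rw [hg, h2]
    simp
  obtain ⟨K, hK⟩ : ∃ K : Set ℂ, K = tsupport g := ⟨_, rfl⟩
  have hKt : K ⊆ t := by
    rw [hK]
    apply closure_minimal _ htc.isClosed
    intro ζ hζ
    by_contra hcon
    exact hζ (hg0 ζ hcon)
  have hKV : K ⊆ Vᶜ := by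
    rw [hK]
    apply closure_minimal _ hVo.isClosed_compl
    intro ζ hζ hcon
    exact hζ (hg1 ζ hcon)
  have hKc : IsCompact K := htc.of_isClosed_subset (by rw [hK]; exact isClosed_tsupport g) hKt
  have hKD : ∀ ζ ∈ K, ζ ∉ D := fun ζ hζ hζD => hKV hζ (hDV hζD)
  have hgK : ∀ ζ ∉ K, g ζ = 0 := fun ζ hζ => image_eq_zero_of_notMem_tsupport (by rwa [hK] at hζ)
  -- bound for L
  have hLc : ContinuousOn L (t ×ˢ closure P) :=
    hL.continuousOn.mono ((prod_mono htu hPv).trans huv)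
  have hGc : ContinuousOn (fun p : ℂ × Y => g p.1 • L p) (t ×ˢ closure P) :=
    (hgc.comp continuous_fst).continuousOn.smul hLc
  obtain ⟨C0, hC0⟩ := (htc.prod hPc).exists_bound_of_continuousOn hGc
  obtain ⟨C, hC⟩ : ∃ C : ℝ, C = max C0 0 := ⟨_, rfl⟩
  have hCnn : 0 ≤ C := by rw [hC]; exact le_max_right _ _
  have hGb : ∀ ζ, ∀ y ∈ P, ‖g ζ • L (ζ, y)‖ ≤ C := by
    intro ζ y hy
    by_cases hζ : ζ ∈ t
    · rw [hC]; exact (hC0 (ζ, y) ⟨hζ, subset_closure hy⟩).trans (le_max_left _ _)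
    · rw [hg0 ζ hζ, zero_smul, norm_zero]; exact hCnn
  have hGcy : ∀ y ∈ P, ContinuousOn (fun ζ => g ζ • L (ζ, y)) K := by
    intro y hy
    have h1 : ContinuousOn (fun ζ : ℂ => ((ζ, y) : ℂ × Y)) K := by fun_prop
    exact hGc.comp h1 (fun ζ hζ => ⟨hKt hζ, subset_closure hy⟩)
  have hKm : MeasurableSet K := hKc.isClosed.measurableSet
  -- representation
  have hrep : ∀ z ∈ D, ∀ y ∈ P,
      ∫ ζ in K, (ζ - z)⁻¹ • (g ζ • L (ζ, y)) = (-Real.pi : ℂ) • L (z, y) := by
    intro z hz y hy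
    have hyv : y ∈ v := hPv (subset_closure hy)
    set ψ : ℂ → E := fun ζ => χ ζ • L (ζ, y) with hψ
    have hLy : DifferentiableOn ℂ (fun ζ => L (ζ, y)) u :=
      hL.comp (differentiable_id.prodMk (differentiable_const y)).differentiableOn
        (fun ζ hζ => huv ⟨hζ, hyv⟩)
    have hLyc : ContDiffOn ℝ 1 (fun ζ => L (ζ, y)) u :=
      (hLy.contDiffOn huo).restrict_scalars ℝ
    have hψ0 : ∀ ζ ∉ t, ψ ζ = 0 := by
      intro ζ hζ
      simp only [hψ, hχ0 ζ hζ, zero_smul]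
    have hψc : ContDiff ℝ 1 ψ := by
      rw [contDiff_iff_contDiffAt]
      intro ζ
      by_cases hζ : ζ ∈ u
      · exact hχ.contDiffAt.smul (hLyc.contDiffAt (huo.mem_nhds hζ))
      · have hζt : ζ ∉ t := fun h => hζ (htu h)
        have h1 : ψ =ᶠ[𝓝 ζ] fun _ => 0 := by
          filter_upwards [htc.isClosed.isOpen_compl.mem_nhds hζt] with x hx
          exact hψ0 x hx
        exact contDiffAt_const.congr_of_eventuallyEq h1
    have hψcs : HasCompactSupport ψ :=
      HasCompactSupport.intro htc (fun ζ hζ => hψ0 ζ hζ)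
    have hdbar : ∀ ζ, (1 / 2 : ℂ) • (fderiv ℝ ψ ζ 1 + Complex.I • fderiv ℝ ψ ζ Complex.I) =
        g ζ • L (ζ, y) := by
      intro ζ
      by_cases hζ : ζ ∈ u
      · rw [hg ζ]
        exact dbar_smul χ (fun ζ => L (ζ, y)) ζ (hχ.differentiable one_ne_zero ζ)
          (hLy.differentiableAt (huo.mem_nhds hζ))
      · have hζt : ζ ∉ t := fun h => hζ (htu h)
        have h1 : ψ =ᶠ[𝓝 ζ] fun _ => 0 := by
          filter_upwards [htc.isClosed.isOpen_compl.mem_nhds hζt] with x hx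
          exact hψ0 x hx
        have h2 : fderiv ℝ ψ ζ = 0 := by
          rw [h1.fderiv_eq]
          simp
        rw [h2, hg0 ζ hζt]
        simp
    have h5 := pompeiu_vec ψ hψc hψcs z
    simp only [hdbar] at h5
    have h6 : ψ z = L (z, y) := by
      simp only [hψ, hχ1 z (hDV hz), one_smul]
    rw [h6] at h5
    rw [← h5]
    apply setIntegral_eq_integral_of_forall_compl_eq_zero
    intro ζ hζ
    rw [hgK ζ hζ, zero_smul, smul_zero]
  refine ⟨P, hPo, hBP, ?_⟩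
  intro ε hε
  obtain ⟨ε', hε'⟩ : ∃ ε' : ℝ, ε' = ε / (C * volume.real K + 1) := ⟨_, rfl⟩
  have hVnn : 0 ≤ C * volume.real K := mul_nonneg hCnn measureReal_nonneg
  have hε'0 : 0 < ε' := by rw [hε']; exact div_pos hε (by linarith)
  -- main approximation by compactness
  have hmain : ∃ S', MeasurableSet S' ∧ K ⊆ S' ∧ ∀ M, MeasurableSet M → M ⊆ S' → M ⊆ K →
      ∃ R : ℂ × Y → E, DifferentiableOn ℂ R (univ ×ˢ P) ∧ ∀ z ∈ D, ∀ y ∈ P,
        ‖(∫ ζ in M, (ζ - z)⁻¹ • (g ζ • L (ζ, y))) - R (z, y)‖ ≤ ε' * C * volume.real M := by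
    have hint : ∀ z ∈ D, ∀ y ∈ P, ∀ M ⊆ K,
        IntegrableOn (fun ζ => (ζ - z)⁻¹ • (g ζ • L (ζ, y))) M volume := by
      intro z hz y hy M hM
      have h1 : ContinuousOn (fun ζ => (ζ - z)⁻¹ • (g ζ • L (ζ, y))) K := by
        apply ContinuousOn.smul _ (hGcy y hy)
        apply ContinuousOn.inv₀ (by fun_prop)
        intro ζ hζ h0
        rw [sub_eq_zero] at h0
        rw [h0] at hζ
        exact hKD z hζ hz
      exact (h1.integrableOn_compact hKc).mono_set hM
    refine hKc.induction_on (p := fun S => ∃ S', MeasurableSet S' ∧ S ⊆ S' ∧ ∀ M, MeasurableSet M →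
      M ⊆ S' → M ⊆ K → ∃ R : ℂ × Y → E, DifferentiableOn ℂ R (univ ×ˢ P) ∧ ∀ z ∈ D, ∀ y ∈ P,
        ‖(∫ ζ in M, (ζ - z)⁻¹ • (g ζ • L (ζ, y))) - R (z, y)‖ ≤ ε' * C * volume.real M) ?_ ?_ ?_ ?_
    · refine ⟨∅, MeasurableSet.empty, subset_rfl, ?_⟩
      intro M _ hM _
      rw [subset_empty_iff] at hM
      subst hM
      refine ⟨fun _ => 0, differentiableOn_const _, ?_⟩
      intro z _ y _
      simp
    · rintro S T hST ⟨S', h1, h2, h3⟩
      exact ⟨S', h1, hST.trans h2, h3⟩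
    · rintro S T ⟨S', h1, h2, h3⟩ ⟨T', h4, h5, h6⟩
      refine ⟨S' ∪ T', h1.union h4, union_subset_union h2 h5, ?_⟩
      intro M hM hMs hMK
      obtain ⟨R1, hR1, hR1'⟩ := h3 (M ∩ S') (hM.inter h1) inter_subset_right
        (inter_subset_left.trans hMK)
      obtain ⟨R2, hR2, hR2'⟩ := h6 (M \ S') (hM.diff h1) (by
        intro x hx
        rcases hMs hx.1 with h | h
        · exact absurd h hx.2
        · exact h) (sdiff_subset.trans hMK)
      refine ⟨fun p => R1 p + R2 p, hR1.add hR2, ?_⟩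
      intro z hz y hy
      have e1 : ∫ ζ in M, (ζ - z)⁻¹ • (g ζ • L (ζ, y)) =
          (∫ ζ in M ∩ S', (ζ - z)⁻¹ • (g ζ • L (ζ, y))) +
          ∫ ζ in M \ S', (ζ - z)⁻¹ • (g ζ • L (ζ, y)) :=
        (integral_inter_add_sdiff h1 (hint z hz y hy M hMK)).symm
      have hMfin : volume M ≠ ⊤ := ((measure_mono hMK).trans_lt hKc.measure_lt_top).ne
      have e2 : volume.real M = volume.real (M ∩ S') + volume.real (M \ S') :=
        (measureReal_inter_add_sdiff h1 hMfin).symm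
      rw [e1, e2]
      have e3 : (∫ ζ in M ∩ S', (ζ - z)⁻¹ • (g ζ • L (ζ, y))) +
          (∫ ζ in M \ S', (ζ - z)⁻¹ • (g ζ • L (ζ, y))) - (R1 (z, y) + R2 (z, y)) =
          ((∫ ζ in M ∩ S', (ζ - z)⁻¹ • (g ζ • L (ζ, y))) - R1 (z, y)) +
          ((∫ ζ in M \ S', (ζ - z)⁻¹ • (g ζ • L (ζ, y))) - R2 (z, y)) := by abel
      rw [e3]
      refine (norm_add_le _ _).trans ?_
      have := hR1' z hz y hy
      have := hR2' z hz y hy
      linarith
    · intro ζ0 hζ0
      obtain ⟨q, hq⟩ := runge_kernel D hD hDc ζ0 (hKD ζ0 hζ0) (ε' / 2) (by linarith)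
      -- neighbourhood where the kernel is close
      have hdist : 0 < infDist ζ0 D ∨ D = ∅ := by
        rcases D.eq_empty_or_nonempty with h | h
        · exact Or.inr h
        · left
          exact (hD.isClosed.notMem_iff_infDist_pos h).1 (hKD ζ0 hζ0)
      obtain ⟨δ, hδ, hclose⟩ : ∃ δ > 0, ∀ ζ ∈ Metric.ball ζ0 δ, ∀ z ∈ D,
          ‖(ζ - z)⁻¹ - (ζ0 - z)⁻¹‖ ≤ ε' / 2 := by
        rcases hdist with hd | hd
        · set d := infDist ζ0 D with hdd
          refine ⟨min (d / 2) (ε' / 2 * (d / 2 * d)), lt_min (by linarith) (by positivity), ?_⟩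
          intro ζ hζ z hz
          rw [Metric.mem_ball, lt_min_iff] at hζ
          have hz1 : d ≤ ‖ζ0 - z‖ := by
            rw [← dist_eq_norm]; exact infDist_le_dist_of_mem hz
          have hz2 : d / 2 ≤ ‖ζ - z‖ := by
            have h7 : ‖ζ0 - z‖ ≤ ‖ζ0 - ζ‖ + ‖ζ - z‖ := by
              have : ζ0 - z = (ζ0 - ζ) + (ζ - z) := by ring
              rw [this]; exact norm_add_le _ _
            have h8 : ‖ζ0 - ζ‖ < d / 2 := by
              rw [← dist_eq_norm, dist_comm]; exact hζ.1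
            linarith
          have hne1 : ζ0 - z ≠ 0 := by
            rw [← norm_pos_iff]; linarith
          have hne2 : ζ - z ≠ 0 := by
            rw [← norm_pos_iff]; linarith
          have h9 : (ζ - z)⁻¹ - (ζ0 - z)⁻¹ = (ζ0 - ζ) / ((ζ - z) * (ζ0 - z)) := by
            field_simp
            ring
          rw [h9, norm_div, norm_mul]
          have h10 : ‖ζ0 - ζ‖ ≤ ε' / 2 * (d / 2 * d) := by
            rw [← dist_eq_norm, dist_comm]; exact hζ.2.le
          have h11 : d / 2 * d ≤ ‖ζ - z‖ * ‖ζ0 - z‖ := by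
            apply mul_le_mul hz2 hz1 hd.le (by linarith)
          rw [div_le_iff₀ (by positivity)]
          calc ‖ζ0 - ζ‖ ≤ ε' / 2 * (d / 2 * d) := h10
            _ ≤ ε' / 2 * (‖ζ - z‖ * ‖ζ0 - z‖) := mul_le_mul_of_nonneg_left h11 (by linarith)
        · refine ⟨1, one_pos, ?_⟩
          intro ζ _ z hz
          rw [hd] at hz
          exact absurd hz (notMem_empty z)
      refine ⟨Metric.ball ζ0 δ ∩ K, Filter.inter_mem (mem_nhdsWithin_of_mem_nhds (Metric.ball_mem_nhds ζ0 hδ)) self_mem_nhdsWithin, Metric.ball ζ0 δ,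
        measurableSet_ball, inter_subset_left, ?_⟩
      intro M hM hMs hMK
      have hMfin : volume M < ⊤ := (measure_mono hMK).trans_lt hKc.measure_lt_top
      refine ⟨fun p => q.eval p.1 • ∫ ζ in M, g ζ • L (ζ, p.2), ?_, ?_⟩
      · have h7 : DifferentiableOn ℂ (fun y => ∫ ζ in M, g ζ • L (ζ, y)) P := by
          have : IsFiniteMeasure (volume.restrict M) := ⟨by rwa [Measure.restrict_apply_univ]⟩
          apply differentiableOn_integral (volume.restrict M) (fun ζ y => g ζ • L (ζ, y)) P hPo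
            (b := fun _ => C)
          · intro y hy
            have h8 : AEStronglyMeasurable (fun ζ => g ζ • L (ζ, y)) (volume.restrict K) :=
              (hGcy y hy).aestronglyMeasurable hKm
            exact h8.mono_measure (Measure.restrict_mono hMK le_rfl)
          · intro ζ
            by_cases hζ : ζ ∈ t
            · have h8 : DifferentiableOn ℂ (fun y => L (ζ, y)) P :=
                hL.comp ((differentiable_const ζ).prodMk differentiable_id).differentiableOn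
                  (fun y hy => huv ⟨htu hζ, hPv (subset_closure hy)⟩)
              exact h8.const_smul _
            · simp only [hg0 ζ hζ, zero_smul]
              exact differentiableOn_const _
          · exact integrable_const _
          · intro ζ y hy
            exact hGb ζ y hy
        apply DifferentiableOn.smul
        · have h8 : Differentiable ℂ (fun p : ℂ × Y => q.eval p.1) :=
            q.differentiable.comp differentiable_fst
          exact h8.differentiableOn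
        · exact h7.comp differentiable_snd.differentiableOn (fun p hp => hp.2)
      · intro z hz y hy
        have hintG : IntegrableOn (fun ζ => g ζ • L (ζ, y)) M volume :=
          ((hGcy y hy).integrableOn_compact hKc).mono_set hMK
        have h7 : (∫ ζ in M, (ζ - z)⁻¹ • (g ζ • L (ζ, y))) -
            q.eval z • ∫ ζ in M, g ζ • L (ζ, y) =
            ∫ ζ in M, ((ζ - z)⁻¹ - q.eval z) • (g ζ • L (ζ, y)) := by
          have hq' : IntegrableOn (fun ζ => q.eval z • (g ζ • L (ζ, y))) M volume :=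
            hintG.smul (q.eval z)
          rw [← integral_smul, ← integral_sub (hint z hz y hy M hMK) hq']
          apply integral_congr_ae
          filter_upwards with ζ
          rw [sub_smul]
        show ‖(∫ ζ in M, (ζ - z)⁻¹ • (g ζ • L (ζ, y))) -
            q.eval z • ∫ ζ in M, g ζ • L (ζ, y)‖ ≤ _
        rw [h7]
        apply norm_setIntegral_le_of_norm_le_const hMfin
        intro ζ hζ
        rw [norm_smul]
        apply mul_le_mul _ (hGb ζ y hy) (norm_nonneg _) hε'0.le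
        have h8 : (ζ - z)⁻¹ - q.eval z = ((ζ - z)⁻¹ - (ζ0 - z)⁻¹) + ((ζ0 - z)⁻¹ - q.eval z) := by ring
        rw [h8]
        refine (norm_add_le _ _).trans ?_
        have h9 := hclose ζ (hMs hζ) z hz
        have h10 := (hq z hz).le
        linarith
  obtain ⟨S', -, hKS, hR⟩ := hmain
  obtain ⟨R, hRd, hRb⟩ := hR K hKm hKS subset_rfl
  refine ⟨fun p => (-(Real.pi : ℂ))⁻¹ • R p, hRd.const_smul _, ?_⟩
  rintro ⟨z, y⟩ ⟨hz, hy⟩
  have hyP := hBP hy
  have h1 := hRb z hz y hyP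
  rw [hrep z hz y hyP] at h1
  have hπ : (-(Real.pi : ℂ)) ≠ 0 := neg_ne_zero.2 (Complex.ofReal_ne_zero.2 Real.pi_ne_zero)
  have h2 : L (z, y) - (-(Real.pi : ℂ))⁻¹ • R (z, y) =
      (-(Real.pi : ℂ))⁻¹ • ((-Real.pi : ℂ) • L (z, y) - R (z, y)) := by
    rw [smul_sub, smul_smul, inv_mul_cancel₀ hπ, one_smul]
  show ‖L (z, y) - (-(Real.pi : ℂ))⁻¹ • R (z, y)‖ < ε
  rw [h2, norm_smul, norm_inv, norm_neg, Complex.norm_real, Real.norm_of_nonneg Real.pi_pos.le]
  have h3 : ε' * C * volume.real K < ε := by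
    rw [hε', mul_assoc, div_mul_eq_mul_div, div_lt_iff₀ (by linarith)]
    nlinarith
  have h4 : Real.pi⁻¹ ≤ 1 := inv_le_one_of_one_le₀ (by linarith [Real.pi_gt_three])
  calc Real.pi⁻¹ * ‖(-Real.pi : ℂ) • L (z, y) - R (z, y)‖ ≤
        1 * ‖(-Real.pi : ℂ) • L (z, y) - R (z, y)‖ :=
        mul_le_mul_of_nonneg_right h4 (norm_nonneg _)
    _ ≤ ε' * C * volume.real K := by rw [one_mul]; exact h1
    _ < ε := h3

end Pool.Agent.HP
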