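import Pool.Agent.HopfPinch.AnS1
import Pool.Agent.HopfPinch.AnS0
set_option autoImplicit false
open Set Metric Filter Topology MeasureTheory
namespace Pool.Agent.HP


variable {Y E : Type} [NormedAddCommGroup Y] [NormedSpace ℂ Y] [FiniteDimensional ℂ Y]
  [NormedAddCommGroup E] [NormedSpace ℂ E] [FiniteDimensional ℂ E]

/-- auxiliary: the dbar derivative of a real function -/
noncomputable def dbr (g : ℂ → ℝ) (ζ : ℂ) : ℂ :=
  (1 / 2 : ℂ) * (((fderiv ℝ g ζ 1 : ℝ) : ℂ) + Complex.I * ((fderiv ℝ g ζ Complex.I : ℝ) : ℂ))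

theorem dbr_continuous {g : ℂ → ℝ} (hg : ContDiff ℝ 1 g) : Continuous (dbr g) := by
  have h1 : Continuous (fun ζ => fderiv ℝ g ζ 1) :=
    (hg.continuous_fderiv (by norm_num)).clm_apply continuous_const
  have h2 : Continuous (fun ζ => fderiv ℝ g ζ Complex.I) :=
    (hg.continuous_fderiv (by norm_num)).clm_apply continuous_const
  unfold dbr
  fun_prop

theorem dbr_congr {g h : ℂ → ℝ} {ζ : ℂ} (hgh : g =ᶠ[𝓝 ζ] h) : dbr g ζ = dbr h ζ := by
  unfold dbr
  rw [hgh.fderiv_eq]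

theorem dbr_sub_const {g : ℂ → ℝ} {c : ℝ} {ζ : ℂ} : dbr (fun z => g z - c) ζ = dbr g ζ := by
  unfold dbr
  rw [fderiv_sub_const]

theorem exists_bdd {F : Type} [NormedAddCommGroup F] {W : Set ℂ} (hWb : Bornology.IsBounded W)
    {f : ℂ → F} (hf : Continuous f) :
    ∃ K : ℝ, 0 ≤ K ∧ ∀ z ∈ W, ‖f z‖ ≤ K := by
  obtain ⟨K, hK⟩ := hWb.isCompact_closure.exists_bound_of_continuousOn hf.continuousOn
  exact ⟨max K 0, le_max_right _ _, fun z hz => (hK z (subset_closure hz)).trans (le_max_left _ _)⟩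

theorem kernel_bound {W : Set ℂ} (hWm : MeasurableSet W) {R : ℝ} (hR : 0 < R)
    (hWR : W ⊆ closedBall 0 R) (z : ℂ) {f : ℂ → E} {B : ℝ}
    (hf : AEStronglyMeasurable f (volume.restrict W)) (hB : ∀ ζ ∈ W, ‖f ζ‖ ≤ B) (hB0 : 0 ≤ B) :
    IntegrableOn (fun ζ => (z - ζ)⁻¹ • f ζ) W ∧
      ‖∫ ζ in W, (z - ζ)⁻¹ • f ζ‖ ≤ B * (2 * Real.pi + Real.pi * R ^ 2) := by
  obtain ⟨hi, hle⟩ := integral_inv_norm_sub_le R hR z
  have hi' : IntegrableOn (fun ζ : ℂ => ‖z - ζ‖⁻¹) W := hi.mono_set hWR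
  have hi'' : IntegrableOn (fun ζ : ℂ => B * ‖z - ζ‖⁻¹) W := hi'.const_mul B
  have hae : ∀ᵐ ζ ∂(volume.restrict W), ‖(z - ζ)⁻¹ • f ζ‖ ≤ B * ‖z - ζ‖⁻¹ := by
    filter_upwards [ae_restrict_mem hWm] with ζ hζ
    rw [norm_smul, norm_inv, mul_comm]
    gcongr
    exact hB ζ hζ
  have hmeas : AEStronglyMeasurable (fun ζ => (z - ζ)⁻¹ • f ζ) (volume.restrict W) := by
    refine AEStronglyMeasurable.smul ?_ hf
    exact ((measurable_const.sub measurable_id).inv).aestronglyMeasurable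
  refine ⟨Integrable.mono' hi'' hmeas hae, ?_⟩
  refine (norm_integral_le_of_norm_le hi'' hae).trans ?_
  rw [integral_const_mul]
  gcongr
  refine (setIntegral_mono_set hi ?_ (HasSubset.Subset.eventuallyLE hWR)).trans hle
  filter_upwards with ζ
  exact inv_nonneg.2 (norm_nonneg _)

theorem slice_contOn {W : Set ℂ} {P : Set Y} {x : ℂ × Y → E}
    (hx : DifferentiableOn ℂ x (W ×ˢ P)) {y : Y} (hy : y ∈ P) :
    DifferentiableOn ℂ (fun ζ => x (ζ, y)) W := by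
  refine hx.comp (g := x) (f := fun ζ : ℂ => (ζ, y)) ?_ ?_
  · exact (differentiable_id.prodMk (differentiable_const y)).differentiableOn
  · intro ζ hζ
    exact ⟨hζ, hy⟩

theorem slice_diffOn' {W : Set ℂ} {P : Set Y} {x : ℂ × Y → E}
    (hx : DifferentiableOn ℂ x (W ×ˢ P)) {a : ℂ} (ha : a ∈ W) :
    DifferentiableOn ℂ (fun y => x (a, y)) P := by
  refine hx.comp (g := x) (f := fun y : Y => (a, y)) ?_ ?_
  · exact ((differentiable_const a).prodMk differentiable_id).differentiableOn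
  · intro y hy
    exact ⟨ha, hy⟩

open Classical in
/-- holomorphy away from the support of the density -/
theorem claimA {W : Set ℂ} (hW : IsOpen W) (hWb : Bornology.IsBounded W) {P : Set Y}
    (hP : IsOpen P) {x : ℂ × Y → E} {M : ℝ} (hM0 : 0 ≤ M)
    (hx : DifferentiableOn ℂ x (W ×ˢ P)) (hM : ∀ p ∈ W ×ˢ P, ‖x p‖ ≤ M)
    {m : ℂ → ℂ} (hm : Continuous m) (z0 : ℂ) {r : ℝ} (hr : 0 < r) :
    DifferentiableOn ℂ (fun p : ℂ × Y => ∫ ζ in W \ ball z0 r, (p.1 - ζ)⁻¹ • (m ζ • x (ζ, p.2)))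
      (ball z0 (r / 2) ×ˢ P) := by
  obtain ⟨K, hK0, hK⟩ := exists_bdd hWb hm
  set A : Set ℂ := W \ ball z0 r with hA
  have hAm : MeasurableSet A := hW.measurableSet.diff measurableSet_ball
  have hAW : A ⊆ W := sdiff_subset
  have hAfin : volume A ≠ ⊤ := ((measure_mono hAW).trans_lt hWb.measure_lt_top).ne
  have hdist : ∀ a ∈ A, ∀ z ∈ ball z0 (r / 2), r / 2 ≤ ‖z - a‖ := by
    intro a ha z hz
    have h1 : r ≤ dist a z0 := by
      have := ha.2
      rw [mem_ball, not_lt] at this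
      exact this
    have h2 : dist z z0 < r / 2 := hz
    have h3 : dist a z0 ≤ dist a z + dist z z0 := dist_triangle _ _ _
    rw [← dist_eq_norm, dist_comm]
    linarith
  have key := differentiableOn_integral (X := ℂ × Y) (E := E) (volume.restrict A)
    (fun a p => if a ∈ A then (p.1 - a)⁻¹ • (m a • x (a, p.2)) else 0)
    (ball z0 (r / 2) ×ˢ P) (isOpen_ball.prod hP) ?_ ?_ (fun _ => (r / 2)⁻¹ * (K * M)) ?_ ?_
  · refine key.congr (fun p hp => ?_)
    refine setIntegral_congr_fun hAm (fun a ha => ?_)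
    simp only [if_pos ha]
  · intro p hp
    have h1 : AEStronglyMeasurable (fun a => (p.1 - a)⁻¹ • (m a • x (a, p.2)))
        (volume.restrict A) := by
      refine AEStronglyMeasurable.smul
        ((measurable_const.sub measurable_id).inv).aestronglyMeasurable ?_
      refine AEStronglyMeasurable.smul hm.aestronglyMeasurable ?_
      exact ((slice_contOn hx hp.2).continuousOn.mono hAW).aestronglyMeasurable hAm
    refine h1.congr ?_
    filter_upwards [ae_restrict_mem hAm] with a ha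
    simp only [if_pos ha]
  · intro a
    by_cases ha : a ∈ A
    · simp only [if_pos ha]
      intro p hp
      have h1 : DifferentiableWithinAt ℂ (fun p : ℂ × Y => (p.1 - a)⁻¹) (ball z0 (r / 2) ×ˢ P) p := by
        refine DifferentiableWithinAt.inv ?_ ?_
        · exact (differentiableAt_fst.sub_const a).differentiableWithinAt
        · intro h0
          have := hdist a ha p.1 hp.1
          rw [h0, norm_zero] at this
          linarith
      have h2 : DifferentiableWithinAt ℂ (fun p : ℂ × Y => x (a, p.2))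
          (ball z0 (r / 2) ×ˢ P) p := by
        have h3 : DifferentiableWithinAt ℂ (fun y => x (a, y)) P p.2 :=
          slice_diffOn' hx (hAW ha) p.2 hp.2
        exact h3.comp p differentiableAt_snd.differentiableWithinAt (fun q hq => hq.2)
      exact h1.smul (h2.const_smul (m a))
    · simp only [if_neg ha]
      exact differentiableOn_const _
  · exact integrable_const_iff.2 (Or.inr ⟨by simpa using hAfin.lt_top⟩)
  · intro a p hp
    by_cases ha : a ∈ A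
    · simp only [if_pos ha]
      rw [norm_smul, norm_smul, norm_inv]
      have h1 := hdist a ha p.1 hp.1
      have h2 := hK a (hAW ha)
      have h3 := hM (a, p.2) ⟨hAW ha, hp.2⟩
      gcongr
    · simp only [if_neg ha, norm_zero]
      positivity

open Classical in
/-- Pompeiu for `g • X` with `X` holomorphic -/
theorem key_pompeiu {W : Set ℂ} (hW : IsOpen W) {g : ℂ → ℝ} (hg : ContDiff ℝ 1 g)
    (hgc : HasCompactSupport g) (hgW : tsupport g ⊆ W) {X : ℂ → E}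
    (hX : DifferentiableOn ℂ X W) (z : ℂ) :
    ∫ ζ in W, (z - ζ)⁻¹ • (dbr g ζ • X ζ) =
      (Real.pi : ℂ) • (if z ∈ W then (g z : ℂ) • X z else 0) := by
  haveI : CompleteSpace E := FiniteDimensional.complete ℂ E
  set G : ℂ → E := fun z => if z ∈ W then (g z : ℂ) • X z else 0 with hG
  -- local forms
  have hloc0 : ∀ ζ, ζ ∉ W → G =ᶠ[𝓝 ζ] 0 := by
    intro ζ hζ
    have h1 : ζ ∉ tsupport g := fun h => hζ (hgW h)
    have h2 : ∀ᶠ z in 𝓝 ζ, z ∉ tsupport g := (isClosed_tsupport g).isOpen_compl.mem_nhds h1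
    filter_upwards [h2] with z hz
    have h3 : g z = 0 := image_eq_zero_of_notMem_tsupport hz
    simp [hG, h3]
  have hloc1 : ∀ ζ ∈ W, G =ᶠ[𝓝 ζ] fun z => g z • X z := by
    intro ζ hζ
    filter_upwards [hW.mem_nhds hζ] with z hz
    simp only [hG, if_pos hz]
    exact Complex.coe_smul _ _
  have hXan : AnalyticOnNhd ℂ X W := hX.analyticOnNhd hW
  have hXr : ∀ ζ ∈ W, ContDiffAt ℝ 1 X ζ := by
    intro ζ hζ
    exact ((hXan ζ hζ).contDiffAt (n := 1)).restrict_scalars ℝ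
  have hGc : ContDiff ℝ 1 G := by
    rw [contDiff_iff_contDiffAt]
    intro ζ
    by_cases hζ : ζ ∈ W
    · refine ContDiffAt.congr_of_eventuallyEq ?_ (hloc1 ζ hζ)
      exact hg.contDiffAt.smul (hXr ζ hζ)
    · refine ContDiffAt.congr_of_eventuallyEq ?_ (hloc0 ζ hζ)
      exact contDiffAt_const
  have hGs : HasCompactSupport G := by
    refine hgc.mono' ?_
    intro z hz
    by_contra hzz
    apply hz
    have h3 : g z = 0 := image_eq_zero_of_notMem_tsupport hzz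
    simp [hG, h3]
  have hder1 : ∀ ζ ∈ W, (1 / 2 : ℂ) • (fderiv ℝ G ζ 1 + Complex.I • fderiv ℝ G ζ Complex.I) =
      dbr g ζ • X ζ := by
    intro ζ hζ
    have h1 : fderiv ℝ G ζ = fderiv ℝ (fun z => g z • X z) ζ := (hloc1 ζ hζ).fderiv_eq
    have hgd : DifferentiableAt ℝ g ζ := hg.contDiffAt.differentiableAt (by norm_num)
    have hXd : DifferentiableAt ℂ X ζ := (hX ζ hζ).differentiableAt (hW.mem_nhds hζ)
    have hXdr : DifferentiableAt ℝ X ζ := hXd.restrictScalars ℝ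
    have h2 : fderiv ℝ X ζ = (fderiv ℂ X ζ).restrictScalars ℝ := hXd.fderiv_restrictScalars ℝ
    have h3 : ∀ w : ℂ, fderiv ℝ (fun z => g z • X z) ζ w =
        g ζ • fderiv ℝ X ζ w + (fderiv ℝ g ζ w) • X ζ := by
      intro w
      rw [fderiv_fun_smul hgd hXdr]
      simp
    rw [h1, h3, h3, h2]
    have h4 : (fderiv ℂ X ζ) Complex.I = Complex.I • (fderiv ℂ X ζ) 1 := by
      rw [← map_smul]
      simp
    simp only [ContinuousLinearMap.coe_restrictScalars']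
    rw [h4]
    unfold dbr
    simp only [← Complex.coe_smul, smul_add, smul_smul, mul_add, add_smul]
    have h5 : (1 / 2 : ℂ) * (Complex.I * ((g ζ : ℂ) * Complex.I)) = -((1 / 2 : ℂ) * (g ζ : ℂ)) := by
      linear_combination (1 / 2 : ℂ) * (g ζ : ℂ) * Complex.I_mul_I
    rw [h5, neg_smul]
    abel_nf
  have hder0 : ∀ ζ, ζ ∉ W → (1 / 2 : ℂ) • (fderiv ℝ G ζ 1 + Complex.I • fderiv ℝ G ζ Complex.I) =
      0 := by
    intro ζ hζ
    have h1 : fderiv ℝ G ζ = fderiv ℝ (0 : ℂ → E) ζ := (hloc0 ζ hζ).fderiv_eq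
    rw [h1]
    simp
  have hP := pompeiu_vec G hGc hGs z
  have h6 : ∫ ζ, (ζ - z)⁻¹ • ((1 / 2 : ℂ) • (fderiv ℝ G ζ 1 + Complex.I • fderiv ℝ G ζ Complex.I))
      = ∫ ζ in W, (ζ - z)⁻¹ • (dbr g ζ • X ζ) := by
    rw [← integral_indicator hW.measurableSet]
    congr 1
    funext ζ
    by_cases hζ : ζ ∈ W
    · rw [indicator_of_mem hζ, hder1 ζ hζ]
    · rw [indicator_of_notMem hζ, hder0 ζ hζ, smul_zero]
  rw [h6] at hP
  have h7 : ∫ ζ in W, (z - ζ)⁻¹ • (dbr g ζ • X ζ) =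
      - ∫ ζ in W, (ζ - z)⁻¹ • (dbr g ζ • X ζ) := by
    rw [← integral_neg]
    congr 1
    funext ζ
    rw [← neg_smul, ← inv_neg, neg_sub]
  rw [h7, hP, ← neg_smul, neg_neg]

open Classical in
/-- one of the two pieces -/
theorem piece {W V : Set ℂ} (hW : IsOpen W) (hWb : Bornology.IsBounded W) (hV : IsOpen V)
    {χ : ℂ → ℝ} (hχ : ContDiff ℝ (⊤ : ℕ∞) χ) {c : ℝ} (hc : ∀ z ∈ V, χ z = c) {P : Set Y}
    (hP : IsOpen P) {x : ℂ × Y → E} {M : ℝ} (hM0 : 0 ≤ M)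
    (hx : DifferentiableOn ℂ x (W ×ˢ P)) (hM : ∀ p ∈ W ×ˢ P, ‖x p‖ ≤ M) :
    DifferentiableOn ℂ (fun p : ℂ × Y => (if p.1 ∈ W then ((c : ℂ) - χ p.1) • x p else 0) +
      (Real.pi : ℂ)⁻¹ • ∫ ζ in W, (p.1 - ζ)⁻¹ • (dbr χ ζ • x (ζ, p.2))) ((W ∪ V) ×ˢ P) := by
  have hχ1 : ContDiff ℝ 1 χ := hχ.of_le (by exact_mod_cast le_top)
  have hpi : (Real.pi : ℂ) ≠ 0 := by exact_mod_cast Real.pi_ne_zero
  obtain ⟨R, hR, hWR⟩ : ∃ R : ℝ, 0 < R ∧ W ⊆ closedBall 0 R := by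
    obtain ⟨R, hR⟩ := hWb.subset_closedBall 0
    exact ⟨max R 1, by positivity, hR.trans (closedBall_subset_closedBall (le_max_left _ _))⟩
  intro p0 hp0
  -- choose the ball and the cutoff
  obtain ⟨r, hr, g, hg, hgc, hgW, hgχ⟩ : ∃ r : ℝ, 0 < r ∧ ∃ g : ℂ → ℝ, ContDiff ℝ 1 g ∧
      HasCompactSupport g ∧ tsupport g ⊆ W ∧ ∀ z ∈ ball p0.1 r, g z = χ z - c := by
    rcases hp0.1 with h | h
    · obtain ⟨s, hs, hsW⟩ := Metric.isOpen_iff.1 hW p0.1 h
      let b : ContDiffBump p0.1 := ⟨s / 4, s / 2, by positivity, by linarith⟩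
      refine ⟨s / 4, by positivity, fun z => b z * (χ z - c), ?_, ?_, ?_, ?_⟩
      · exact ContDiff.mul (by exact_mod_cast b.contDiff (n := 1)) (hχ1.sub contDiff_const)
      · exact b.hasCompactSupport.mul_right
      · refine (tsupport_mul_subset_left).trans ?_
        rw [b.tsupport_eq]
        exact (closedBall_subset_ball (by show s / 2 < s; linarith)).trans hsW
      · intro z hz
        have : b z = 1 := b.one_of_mem_closedBall (ball_subset_closedBall hz)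
        show b z * (χ z - c) = χ z - c
        rw [this, one_mul]
    · obtain ⟨s, hs, hsV⟩ := Metric.isOpen_iff.1 hV p0.1 h
      refine ⟨s, hs, fun _ => 0, contDiff_const, HasCompactSupport.zero, ?_, ?_⟩
      · have : tsupport (fun _ : ℂ => (0 : ℝ)) = ∅ := by
          rw [tsupport_eq_empty_iff]; rfl
        rw [this]; exact empty_subset _
      · intro z hz
        rw [hc z (hsV hz), sub_self]
  set m : ℂ → ℂ := fun ζ => dbr χ ζ - dbr g ζ with hm
  have hmc : Continuous m := (dbr_continuous hχ1).sub (dbr_continuous hg)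
  have hm0 : ∀ ζ ∈ ball p0.1 r, m ζ = 0 := by
    intro ζ hζ
    have h1 : g =ᶠ[𝓝 ζ] fun z => χ z - c := by
      filter_upwards [isOpen_ball.mem_nhds hζ] with z hz
      exact hgχ z hz
    show dbr χ ζ - dbr g ζ = 0
    rw [dbr_congr h1, dbr_sub_const, sub_self]
  have hA := claimA hW hWb hP hM0 hx hM hmc p0.1 hr
  have hnhd : ball p0.1 (r / 2) ×ˢ P ∈ 𝓝 p0 := by
    refine (isOpen_ball.prod hP).mem_nhds ⟨?_, hp0.2⟩
    exact mem_ball_self (by positivity)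
  have hrep : ∀ p ∈ ball p0.1 (r / 2) ×ˢ P,
      (if p.1 ∈ W then ((c : ℂ) - χ p.1) • x p else 0) +
      (Real.pi : ℂ)⁻¹ • ∫ ζ in W, (p.1 - ζ)⁻¹ • (dbr χ ζ • x (ζ, p.2)) =
      (Real.pi : ℂ)⁻¹ • ∫ ζ in W \ ball p0.1 r, (p.1 - ζ)⁻¹ • (m ζ • x (ζ, p.2)) := by
    intro p hp
    have hX := slice_contOn hx hp.2
    have hXm : AEStronglyMeasurable (fun ζ => x (ζ, p.2)) (volume.restrict W) :=
      hX.continuousOn.aestronglyMeasurable hW.measurableSet
    have hint : ∀ {k : ℂ → ℂ}, Continuous k →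
        IntegrableOn (fun ζ => (p.1 - ζ)⁻¹ • (k ζ • x (ζ, p.2))) W := by
      intro k hk
      obtain ⟨K, hK0, hK⟩ := exists_bdd hWb hk
      refine (kernel_bound hW.measurableSet hR hWR p.1 (f := fun ζ => k ζ • x (ζ, p.2))
        (B := K * M) (hk.aestronglyMeasurable.smul hXm) ?_ (by positivity)).1
      intro ζ hζ
      rw [norm_smul]
      have h1 := hK ζ hζ
      have h2 := hM (ζ, p.2) ⟨hζ, hp.2⟩
      gcongr
    have hk := key_pompeiu hW hg hgc hgW hX p.1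
    have h1 : (if p.1 ∈ W then ((c : ℂ) - χ p.1) • x p else 0) =
        - (if p.1 ∈ W then (g p.1 : ℂ) • x (p.1, p.2) else 0) := by
      by_cases hpW : p.1 ∈ W
      · rw [if_pos hpW, if_pos hpW, hgχ p.1 (ball_subset_ball (by linarith) hp.1), ← neg_smul]
        push_cast
        rw [neg_sub]
      · rw [if_neg hpW, if_neg hpW, neg_zero]
    have h2 : (if p.1 ∈ W then (g p.1 : ℂ) • x (p.1, p.2) else 0) =
        (Real.pi : ℂ)⁻¹ • ∫ ζ in W, (p.1 - ζ)⁻¹ • (dbr g ζ • x (ζ, p.2)) := by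
      rw [hk, smul_smul, inv_mul_cancel₀ hpi, one_smul]
    have h3 : ∫ ζ in W \ ball p0.1 r, (p.1 - ζ)⁻¹ • (m ζ • x (ζ, p.2)) =
        ∫ ζ in W, (p.1 - ζ)⁻¹ • (m ζ • x (ζ, p.2)) := by
      refine (setIntegral_eq_of_subset_of_forall_diff_eq_zero hW.measurableSet sdiff_subset ?_).symm
      intro ζ hζ
      have : ζ ∈ ball p0.1 r := by
        by_contra h
        exact hζ.2 ⟨hζ.1, h⟩
      rw [hm0 ζ this, zero_smul, smul_zero]
    rw [h1, h2, h3, neg_add_eq_sub, ← smul_sub, ← integral_sub (hint (dbr_continuous hχ1))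
      (hint (dbr_continuous hg))]
    congr 2
    funext ζ
    rw [← smul_sub, ← sub_smul]
  have h4 : DifferentiableOn ℂ (fun p : ℂ × Y =>
      (if p.1 ∈ W then ((c : ℂ) - χ p.1) • x p else 0) +
      (Real.pi : ℂ)⁻¹ • ∫ ζ in W, (p.1 - ζ)⁻¹ • (dbr χ ζ • x (ζ, p.2)))
      (ball p0.1 (r / 2) ×ˢ P) := (hA.const_smul _).congr hrep
  exact ((h4 p0 (mem_of_mem_nhds hnhd)).differentiableAt hnhd).differentiableWithinAt

/-- TARGET. additive splitting without loss of domain -/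
theorem splitting (W V' V'' : Set ℂ) (hW : IsOpen W) (hWb : Bornology.IsBounded W)
    (hV' : IsOpen V') (hV'' : IsOpen V'') (χ : ℂ → ℝ) (hχ : ContDiff ℝ (⊤ : ℕ∞) χ)
    (h1 : ∀ z ∈ V', χ z = 1) (h0 : ∀ z ∈ V'', χ z = 0) :
    ∃ C : ℝ, 0 < C ∧ ∀ (P : Set Y), IsOpen P → ∀ (x : ℂ × Y → E) (M : ℝ), 0 ≤ M →
      DifferentiableOn ℂ x (W ×ˢ P) → (∀ p ∈ W ×ˢ P, ‖x p‖ ≤ M) →
      ∃ x' x'' : ℂ × Y → E, DifferentiableOn ℂ x' ((W ∪ V') ×ˢ P) ∧
        DifferentiableOn ℂ x'' ((W ∪ V'') ×ˢ P) ∧ (∀ p ∈ (W ∪ V') ×ˢ P, ‖x' p‖ ≤ C * M) ∧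
        (∀ p ∈ (W ∪ V'') ×ˢ P, ‖x'' p‖ ≤ C * M) ∧ ∀ p ∈ W ×ˢ P, x p = x' p - x'' p := by
  classical
  have hχ1 : ContDiff ℝ 1 χ := hχ.of_le (by exact_mod_cast le_top)
  obtain ⟨R, hR, hWR⟩ : ∃ R : ℝ, 0 < R ∧ W ⊆ closedBall 0 R := by
    obtain ⟨R, hR⟩ := hWb.subset_closedBall 0
    exact ⟨max R 1, by positivity, hR.trans (closedBall_subset_closedBall (le_max_left _ _))⟩
  obtain ⟨K, hK0, hK⟩ := exists_bdd hWb (dbr_continuous hχ1)
  obtain ⟨L, hL0, hL⟩ := exists_bdd hWb hχ.continuous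
  have hpi : 0 < Real.pi := Real.pi_pos
  have hpiC : ‖(Real.pi : ℂ)⁻¹‖ = Real.pi⁻¹ := by
    rw [norm_inv, Complex.norm_real, Real.norm_of_nonneg hpi.le]
  refine ⟨(1 + L) + Real.pi⁻¹ * (K * (2 * Real.pi + Real.pi * R ^ 2)), by positivity, ?_⟩
  intro P hP x M hM0 hx hM
  have hbound : ∀ (c : ℝ), |c| ≤ 1 → ∀ p : ℂ × Y, p.2 ∈ P →
      ‖(if p.1 ∈ W then ((c : ℂ) - χ p.1) • x p else 0) +
      (Real.pi : ℂ)⁻¹ • ∫ ζ in W, (p.1 - ζ)⁻¹ • (dbr χ ζ • x (ζ, p.2))‖ ≤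
      ((1 + L) + Real.pi⁻¹ * (K * (2 * Real.pi + Real.pi * R ^ 2))) * M := by
    intro c hc p hp
    have hXm : AEStronglyMeasurable (fun ζ => x (ζ, p.2)) (volume.restrict W) :=
      (slice_contOn hx hp).continuousOn.aestronglyMeasurable hW.measurableSet
    have h1 := (kernel_bound hW.measurableSet hR hWR p.1 (f := fun ζ => dbr χ ζ • x (ζ, p.2))
        (B := K * M) ((dbr_continuous hχ1).aestronglyMeasurable.smul hXm) (by
        intro ζ hζ
        rw [norm_smul]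
        have h1 := hK ζ hζ
        have h2 := hM (ζ, p.2) ⟨hζ, hp⟩
        gcongr) (by positivity)).2
    have h2 : ‖(if p.1 ∈ W then ((c : ℂ) - χ p.1) • x p else 0)‖ ≤ (1 + L) * M := by
      by_cases hpW : p.1 ∈ W
      · rw [if_pos hpW, norm_smul]
        have h3 : ‖(c : ℂ) - χ p.1‖ ≤ 1 + L := by
          refine (norm_sub_le _ _).trans ?_
          have h4 := hL p.1 hpW
          rw [Complex.norm_real, Complex.norm_real]
          exact add_le_add hc h4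
        have h5 := hM p ⟨hpW, hp⟩
        gcongr
      · rw [if_neg hpW, norm_zero]
        positivity
    refine (norm_add_le _ _).trans ?_
    rw [norm_smul, hpiC]
    have h6 : Real.pi⁻¹ * ‖∫ ζ in W, (p.1 - ζ)⁻¹ • (dbr χ ζ • x (ζ, p.2))‖ ≤
        Real.pi⁻¹ * (K * M * (2 * Real.pi + Real.pi * R ^ 2)) := by
      gcongr
    calc _ ≤ (1 + L) * M + Real.pi⁻¹ * (K * M * (2 * Real.pi + Real.pi * R ^ 2)) :=
          add_le_add h2 h6
      _ = _ := by ring
  refine ⟨fun p => (if p.1 ∈ W then (((1 : ℝ) : ℂ) - χ p.1) • x p else 0) +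
      (Real.pi : ℂ)⁻¹ • ∫ ζ in W, (p.1 - ζ)⁻¹ • (dbr χ ζ • x (ζ, p.2)),
    fun p => (if p.1 ∈ W then (((0 : ℝ) : ℂ) - χ p.1) • x p else 0) +
      (Real.pi : ℂ)⁻¹ • ∫ ζ in W, (p.1 - ζ)⁻¹ • (dbr χ ζ • x (ζ, p.2)),
    piece hW hWb hV' hχ h1 hP hM0 hx hM, piece hW hWb hV'' hχ h0 hP hM0 hx hM,
    fun p hp => hbound 1 (by simp) p hp.2, fun p hp => hbound 0 (by simp) p hp.2, ?_⟩
  intro p hp
  simp only [if_pos hp.1]
  rw [add_sub_add_right_eq_sub, ← sub_smul]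
  simp

end Pool.Agent.HP
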