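import Mathlib
set_option autoImplicit false
open Set Metric Filter Topology MeasureTheory
namespace Pool.Agent.HP

variable {X E : Type} [NormedAddCommGroup X] [NormedSpace ℂ X] [FiniteDimensional ℂ X]
  [NormedAddCommGroup E] [NormedSpace ℂ E] [FiniteDimensional ℂ E]

/-- a family of continuous linear maps is measurable if all its values are -/
theorem h170_clm_meas {α : Type} [MeasurableSpace α] (μ : Measure α) (L : α → X →L[ℂ] E)
    (h : ∀ v, AEStronglyMeasurable (fun a => L a v) μ) : AEStronglyMeasurable L μ := by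
  let b := Module.finBasis ℂ X
  let φ : Fin (Module.finrank ℂ X) → (X →L[ℂ] ℂ) := fun i => LinearMap.toContinuousLinearMap (b.coord i)
  have hL : L = fun a => ∑ i, (φ i).smulRight (L a (b i)) := by
    funext a
    ext v
    have hv : v = ∑ i, b.repr v i • b i := (b.sum_repr v).symm
    conv_lhs => rw [hv]
    rw [map_sum, sum_apply]
    refine Finset.sum_congr rfl (fun i _ => ?_)
    rw [map_smul]
    rfl
  rw [hL]
  refine Finset.aestronglyMeasurable_fun_sum _ (fun i _ => ?_)
  exact (ContinuousLinearMap.smulRightL ℂ X E (φ i)).continuous.comp_aestronglyMeasurable (h (b i))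

/-- S1: holomorphic dependence of an integral on parameters -/
theorem differentiableOn_integral {α : Type} [MeasurableSpace α] (μ : Measure α) (Φ : α → X → E)
    (O : Set X) (hO : IsOpen O) (hm : ∀ x ∈ O, AEStronglyMeasurable (fun a => Φ a x) μ)
    (hd : ∀ a, DifferentiableOn ℂ (Φ a) O) (b : α → ℝ) (hb : Integrable b μ)
    (hle : ∀ a, ∀ x ∈ O, ‖Φ a x‖ ≤ b a) :
    DifferentiableOn ℂ (fun x => ∫ a, Φ a x ∂μ) O := by
  have hcomp : CompleteSpace E := FiniteDimensional.complete ℂ E
  intro x0 hx0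
  obtain ⟨R, hR, hRO⟩ := Metric.isOpen_iff.1 hO x0 hx0
  set r := R / 2 with hr
  have hr0 : 0 < r := by positivity
  have hsub : ∀ x ∈ ball x0 r, ball x r ⊆ O := by
    intro x hx
    refine Subset.trans ?_ hRO
    refine ball_subset_ball' ?_
    rw [mem_ball] at hx
    linarith
  have hballO : ball x0 r ⊆ O := (ball_subset_ball (by linarith)).trans hRO
  have hfd : ∀ a, ∀ x ∈ O, HasFDerivAt (Φ a) (fderiv ℂ (Φ a) x) x := fun a x hx =>
    ((hd a x hx).differentiableAt (hO.mem_nhds hx)).hasFDerivAt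
  have hbound : ∀ a, ∀ x ∈ ball x0 r, ‖fderiv ℂ (Φ a) x‖ ≤ 2 * b a / r := by
    intro a x hx
    have hxO : x ∈ O := hballO hx
    refine Complex.norm_fderiv_le_div_of_mapsTo_ball ((hd a).mono (hsub x hx)) ?_ hr0
    intro y hy
    rw [mem_closedBall, dist_eq_norm]
    have h1 := hle a y (hsub x hx hy)
    have h2 := hle a x hxO
    have h3 := norm_sub_le (Φ a y) (Φ a x)
    linarith
  have hmeas' : AEStronglyMeasurable (fun a => fderiv ℂ (Φ a) x0) μ := by
    refine h170_clm_meas μ _ (fun v => ?_)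
    -- difference quotients
    set c : ℕ → ℂ := fun n => ((n + 1 : ℕ) : ℂ) with hc
    have hcn : Tendsto (fun n => ‖c n‖) atTop atTop := by
      have : (fun n => ‖c n‖) = fun n : ℕ => ((n + 1 : ℕ) : ℝ) := by
        funext n
        rw [hc]
        simp only [Complex.norm_natCast]
      rw [this]
      exact tendsto_natCast_atTop_atTop.comp (tendsto_add_atTop_nat 1)
    have hcob : Tendsto c atTop (Bornology.cobounded ℂ) := tendsto_norm_atTop_iff_cobounded.1 hcn
    have hev : ∀ᶠ n : ℕ in atTop, x0 + (c n)⁻¹ • v ∈ O := by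
      have h1 : Tendsto (fun n : ℕ => x0 + (c n)⁻¹ • v) atTop (𝓝 x0) := by
        have h2 := (tendsto_inv₀_cobounded.comp hcob).smul (tendsto_const_nhds (x := v))
        have h3 := h2.const_add x0
        simpa using h3
      exact h1 (hO.mem_nhds hx0)
    obtain ⟨n0, hn0⟩ := eventually_atTop.1 hev
    refine aestronglyMeasurable_of_tendsto_ae atTop
      (f := fun (n : ℕ) a => c (n + n0) • (Φ a (x0 + (c (n + n0))⁻¹ • v) - Φ a x0)) ?_ ?_
    · intro n
      exact ((hm _ (hn0 (n + n0) (by omega))).sub (hm x0 hx0)).const_smul _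
    · refine Eventually.of_forall (fun a => ?_)
      have h5 : Tendsto (fun n : ℕ => c n • (Φ a (x0 + (c n)⁻¹ • v) - Φ a x0)) atTop
          (𝓝 (fderiv ℂ (Φ a) x0 v)) := (hfd a x0 hx0).lim v hcn
      exact h5.comp (tendsto_add_atTop_nat n0)
  have hF : HasFDerivAt (fun x => ∫ a, Φ a x ∂μ) (∫ a, fderiv ℂ (Φ a) x0 ∂μ) x0 := by
    refine hasFDerivAt_integral_of_dominated_of_fderiv_le (F' := fun x a => fderiv ℂ (Φ a) x)
      (bound := fun a => 2 * b a / r) (ball_mem_nhds x0 hr0) ?_ ?_ hmeas' ?_ ?_ ?_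
    · filter_upwards [hO.mem_nhds hx0] with x hx
      exact hm x hx
    · exact hb.mono' (hm x0 hx0) (Eventually.of_forall (fun a => hle a x0 hx0))
    · exact Eventually.of_forall (fun a x hx => hbound a x hx)
    · exact (hb.const_mul 2).div_const r
    · exact Eventually.of_forall (fun a x hx => hfd a x (hballO hx))
  exact hF.differentiableAt.differentiableWithinAt

end Pool.Agent.HP
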