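import Pool.Agent.HopfPinch.AnS
import Pool.Agent.HopfPinch.AnN
import Pool.Agent.HopfPinch.AnR2
import Pool.Agent.HopfPinch.AnE2
set_option autoImplicit false
open Set Metric Filter Topology
open scoped Ring
namespace Pool.Agent.HP

variable {Y A : Type} [NormedAddCommGroup Y] [NormedSpace ℂ Y] [FiniteDimensional ℂ Y]
  [NormedRing A] [NormedAlgebra ℂ A] [FiniteDimensional ℂ A]

/-- uniform continuity of `exp` near a compact image -/
theorem exp_close {X : Type} [TopologicalSpace X] (K : Set X) (hK : IsCompact K) (L : X → A)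
    (hL : ContinuousOn L K) (ε : ℝ) (hε : 0 < ε) :
    ∃ δ : ℝ, 0 < δ ∧ ∀ p ∈ K, ∀ y : A, ‖L p - y‖ < δ →
      ‖NormedSpace.exp (L p) - NormedSpace.exp y‖ < ε := by
  have hcomp : CompleteSpace A := FiniteDimensional.complete ℂ A
  have hprop : ProperSpace A := FiniteDimensional.proper ℂ A
  have hLK : IsCompact (L '' K) := hK.image_of_continuousOn hL
  have hC : IsCompact (cthickening 1 (L '' K)) := hLK.cthickening
  let _i : NormedAlgebra ℚ A := NormedAlgebra.restrictScalars ℚ ℂ A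
  have hcont : Continuous (NormedSpace.exp : A → A) := NormedSpace.exp_continuous
  have hu : UniformContinuousOn (NormedSpace.exp : A → A) (cthickening 1 (L '' K)) :=
    hC.uniformContinuousOn_of_continuous hcont.continuousOn
  obtain ⟨δ, hδ, h⟩ := Metric.uniformContinuousOn_iff.1 hu ε hε
  refine ⟨min δ 1, lt_min hδ one_pos, fun p hp y hy => ?_⟩
  have h1 : L p ∈ cthickening 1 (L '' K) := self_subset_cthickening _ ⟨p, hp, rfl⟩
  have h2 : y ∈ cthickening 1 (L '' K) := by
    refine mem_cthickening_of_dist_le y (L p) 1 _ ⟨p, hp, rfl⟩ ?_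
    rw [dist_comm, dist_eq_norm]
    exact (hy.trans_le (min_le_right _ _)).le
  have h3 := h (L p) h1 y h2 (by rw [dist_eq_norm]; exact hy.trans_le (min_le_left _ _))
  rwa [dist_eq_norm] at h3

theorem list_approx (D : Set ℂ) (hD : IsCompact D) (hDc : IsPreconnected Dᶜ)
    (B : Set Y) (hB : IsCompact B) (O : Set (ℂ × Y)) (hO : IsOpen O) (hDB : D ×ˢ B ⊆ O)
    (l : List (ℂ × Y → A)) (hl : ∀ L ∈ l, DifferentiableOn ℂ L O) (ε : ℝ) (hε : 0 < ε) :
    ∃ e : ℂ × Y → A, DifferentiableOn ℂ e (univ ×ˢ interior B) ∧ 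
      (∀ p ∈ univ ×ˢ interior B, IsUnit (e p)) ∧
      ∀ p ∈ D ×ˢ B, ‖(l.map (fun L => NormedSpace.exp (L p))).prod - e p‖ < ε := by
  have hcomp : CompleteSpace A := FiniteDimensional.complete ℂ A
  let _i : NormedAlgebra ℚ A := NormedAlgebra.restrictScalars ℚ ℂ A
  have hK : IsCompact (D ×ˢ B) := hD.prod hB
  induction l generalizing ε with
  | nil => 
    refine ⟨fun _ => 1, differentiableOn_const _, fun _ _ => isUnit_one, fun p _ => ?_⟩
    simpa using hε
  | cons L t ih =>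
    have hLO := hl L (by simp)
    have htO : ∀ L ∈ t, DifferentiableOn ℂ L O := fun L h => hl L (by simp [h])
    have hexpc : Continuous (NormedSpace.exp : A → A) := NormedSpace.exp_continuous
    -- bounds
    have hLc : ContinuousOn (fun p => NormedSpace.exp (L p)) (D ×ˢ B) :=
      hexpc.comp_continuousOn (hLO.continuousOn.mono hDB)
    have htc : ∀ t : List (ℂ × Y → A), (∀ L ∈ t, DifferentiableOn ℂ L O) → 
        ContinuousOn (fun p => (t.map (fun L => NormedSpace.exp (L p))).prod) (D ×ˢ B) := by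
      intro t ht
      induction t with
      | nil => simpa using continuousOn_const
      | cons L' t' ih' =>
        have h1 : ContinuousOn (fun p => NormedSpace.exp (L' p)) (D ×ˢ B) :=
          hexpc.comp_continuousOn ((ht L' (by simp)).continuousOn.mono hDB)
        have h2 := ih' (fun L h => ht L (by simp [h]))
        exact (h1.mul h2).congr (fun p _ => by simp)
    obtain ⟨C1, hC1⟩ := hK.exists_bound_of_continuousOn hLc
    obtain ⟨C2, hC2⟩ := hK.exists_bound_of_continuousOn (htc t htO)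
    have hM : ∃ M : ℝ, 0 < M ∧ C1 ≤ M ∧ C2 + 1 ≤ M := 
      ⟨max 1 (max C1 (C2 + 1)), by positivity, by simp, by simp⟩
    obtain ⟨M, hM0, hM1, hM2⟩ := hM
    have hε' : 0 < min 1 (ε / (4 * M)) := lt_min one_pos (by positivity)
    obtain ⟨e, he1, he2, he3⟩ := ih htO (min 1 (ε / (4 * M))) hε'
    obtain ⟨δ, hδ, hδ2⟩ := exp_close (D ×ˢ B) hK L (hLO.continuousOn.mono hDB) (ε / (4 * M)) (by positivity)
    obtain ⟨P, hP, hBP, hap⟩ := runge_param D hD hDc B hB O hO hDB L hLO
    obtain ⟨L', hL'1, hL'2⟩ := hap δ hδ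
    have hsub : (univ : Set ℂ) ×ˢ interior B ⊆ univ ×ˢ P := 
      prod_mono Subset.rfl (interior_subset.trans hBP)
    refine ⟨fun p => NormedSpace.exp (L' p) * e p, ?_, ?_, ?_⟩
    · refine DifferentiableOn.mul ?_ he1
      have : Differentiable ℂ (NormedSpace.exp : A → A) := fun x => 
        (NormedSpace.exp_analytic (𝕂 := ℂ) x).differentiableAt
      exact this.comp_differentiableOn (hL'1.mono hsub)
    · intro p hp
      exact (NormedSpace.isUnit_exp _).mul (he2 p hp)
    · intro p hp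
      simp only [List.map_cons, List.prod_cons]
      set T := (t.map (fun L => NormedSpace.exp (L p))).prod with hT
      have h1 : ‖NormedSpace.exp (L p) - NormedSpace.exp (L' p)‖ < ε / (4 * M) := hδ2 p hp _ (hL'2 p hp)
      have h2 : ‖T - e p‖ < min 1 (ε / (4 * M)) := he3 p hp
      have h3 : ‖NormedSpace.exp (L p)‖ ≤ M := (hC1 p hp).trans hM1
      have h4 : ‖e p‖ ≤ M := by
        have : ‖e p‖ ≤ ‖T‖ + ‖T - e p‖ := by
          have := norm_sub_norm_le (e p) T
          rw [norm_sub_rev] at this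
          linarith
        have h5 : ‖T‖ ≤ C2 := hC2 p hp
        have h6 : ‖T - e p‖ < 1 := h2.trans_le (min_le_left _ _)
        linarith
      have h7 : NormedSpace.exp (L p) * T - NormedSpace.exp (L' p) * e p = 
          NormedSpace.exp (L p) * (T - e p) + (NormedSpace.exp (L p) - NormedSpace.exp (L' p)) * e p := by
        noncomm_ring
      rw [h7]
      have h8 : ‖T - e p‖ ≤ ε / (4 * M) := (h2.trans_le (min_le_right _ _)).le
      calc _ ≤ ‖NormedSpace.exp (L p) * (T - e p)‖ + 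
            ‖(NormedSpace.exp (L p) - NormedSpace.exp (L' p)) * e p‖ := norm_add_le _ _
        _ ≤ ‖NormedSpace.exp (L p)‖ * ‖T - e p‖ + 
            ‖NormedSpace.exp (L p) - NormedSpace.exp (L' p)‖ * ‖e p‖ := 
          add_le_add (norm_mul_le _ _) (norm_mul_le _ _)
        _ ≤ M * (ε / (4 * M)) + (ε / (4 * M)) * M := by gcongr
        _ = ε / 2 := by field_simp; ring
        _ < ε := by linarith


/-- Cartan's factorisation over `(D' ∩ D'') × B`. -/
theorem cartan_factor (D' D'' : Set ℂ) (hD' : IsCompact D') (hD'' : IsCompact D'')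
    (B B1 : Set Y) (hB1 : IsCompact B1) (hB1c : Convex ℝ B1) (hBB1 : B ⊆ interior B1)
    (R1 R2 : Set ℂ) (hR1 : IsCompact R1) (hR2 : IsCompact R2) (hR1c : Convex ℝ R1)
    (hR2c : Convex ℝ R2) (hdisj : Disjoint R1 R2) (hcompl : IsPreconnected (R1 ∪ R2)ᶜ)
    (hint : D' ∩ D'' ⊆ interior (R1 ∪ R2)) (O : Set (ℂ × Y)) (hO : IsOpen O)
    (hRO : (R1 ∪ R2) ×ˢ B1 ⊆ O) (h : ℂ × Y → A) (hh : DifferentiableOn ℂ h O)
    (hu : ∀ z ∈ O, IsUnit (h z)) :
    ∃ (Oa Ob Oc : Set (ℂ × Y)) (a b : ℂ × Y → A), IsOpen Oa ∧ IsOpen Ob ∧ IsOpen Oc ∧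
      D' ×ˢ B ⊆ Oa ∧ D'' ×ˢ B ⊆ Ob ∧ (D' ∩ D'') ×ˢ B ⊆ Oc ∧ DifferentiableOn ℂ a Oa ∧
      DifferentiableOn ℂ b Ob ∧ (∀ z ∈ Oa, IsUnit (a z)) ∧ (∀ z ∈ Ob, IsUnit (b z)) ∧
      ∀ z ∈ Oc, h z * b z = a z := by
  have hcomp : CompleteSpace A := FiniteDimensional.complete ℂ A
  let _i : NormedAlgebra ℚ A := NormedAlgebra.restrictScalars ℚ ℂ A
  set W : Set ℂ := interior (R1 ∪ R2) with hWdef
  have hWo : IsOpen W := isOpen_interior
  have hR12 : IsCompact (R1 ∪ R2) := hR1.union hR2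
  have hWb : Bornology.IsBounded W := hR12.isBounded.subset interior_subset
  rcases W.eq_empty_or_nonempty with hW0 | hW0
  · -- trivial case
    refine ⟨univ, univ, ∅, fun _ => 1, fun _ => 1, isOpen_univ, isOpen_univ, isOpen_empty,
      subset_univ _, subset_univ _, ?_, differentiableOn_const _, differentiableOn_const _,
      fun _ _ => isUnit_one, fun _ _ => isUnit_one, fun z hz => absurd hz (notMem_empty z)⟩
    rw [hW0] at hint
    rw [subset_empty_iff.1 hint, empty_prod]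
  set P : Set Y := interior B1 with hP
  have hPo : IsOpen P := isOpen_interior
  -- the two neighbourhoods
  have hc' : IsCompact (D' \ W) := hD'.diff hWo
  have hc'' : IsCompact (D'' \ W) := hD''.diff hWo
  have hdj : Disjoint (D'' \ W) (D' \ W) := by
    rw [Set.disjoint_left]
    rintro z ⟨hz1, hz2⟩ ⟨hz3, _⟩
    exact hz2 (hint ⟨hz3, hz1⟩)
  obtain ⟨δ, hδ, hdj2⟩ := hdj.exists_cthickenings hc'' hc'.isClosed
  obtain ⟨χ, hχ0, hχ1, -⟩ := exists_contMDiffMap_zero_one_of_isClosed (n := ⊤)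
    (modelWithCornersSelf ℝ ℂ) (isClosed_cthickening (δ := δ) (E := D' \ W))
    (isClosed_cthickening (δ := δ) (E := D'' \ W)) hdj2.symm
  have hχs : ContDiff ℝ (⊤ : ℕ∞) (χ : ℂ → ℝ) := χ.contMDiff.contDiff
  obtain ⟨C, hC, hsplit⟩ := splitting (Y := Y) (E := A) W (thickening δ (D'' \ W)) (thickening δ (D' \ W)) hWo hWb
    isOpen_thickening isOpen_thickening χ hχs 
    (fun z hz => hχ1 (thickening_subset_cthickening _ _ hz)) 
    (fun z hz => hχ0 (thickening_subset_cthickening _ _ hz))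
  -- exponential factorisation of `h`
  obtain ⟨O1, hO1, hK1, hO1O, M1, hM1, l1, hl1, hf1⟩ := exp_factor (R1 ×ˢ B1) (hR1.prod hB1) 
    (hR1c.prod hB1c) O hO ((prod_mono subset_union_left Subset.rfl).trans hRO) h hh hu
  obtain ⟨O2, hO2, hK2, hO2O, M2, hM2, l2, hl2, hf2⟩ := exp_factor (R2 ×ˢ B1) (hR2.prod hB1) 
    (hR2c.prod hB1c) O hO ((prod_mono subset_union_right Subset.rfl).trans hRO) h hh hu
  obtain ⟨N1, N2, hN1, hN2, hRN1, hRN2, hN12⟩ := 
    SeparatedNhds.of_isCompact_isCompact hR1 hR2 hdisj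
  obtain ⟨lm, hlm⟩ := unit_prod_exp (M1⁻¹ʳ * M2) (hM1.ringInverse.mul hM2)
  set O' : Set (ℂ × Y) := (O1 ∩ (N1 ×ˢ univ)) ∪ (O2 ∩ (N2 ×ˢ univ)) with hO'
  have hO'o : IsOpen O' := (hO1.inter (hN1.prod isOpen_univ)).union (hO2.inter (hN2.prod isOpen_univ))
  have hRO' : (R1 ∪ R2) ×ˢ B1 ⊆ O' := by
    rintro ⟨z, y⟩ ⟨hz | hz, hy⟩
    · exact Or.inl ⟨hK1 ⟨hz, hy⟩, hRN1 hz, trivial⟩
    · exact Or.inr ⟨hK2 ⟨hz, hy⟩, hRN2 hz, trivial⟩
  classical
  let cut1 : (ℂ × Y → A) → (ℂ × Y → A) := fun L p => if p.1 ∈ N1 then L p else 0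
  let cut2 : (ℂ × Y → A) → (ℂ × Y → A) := fun L p => if p.1 ∈ N2 then L p else 0
  have hcut1 : ∀ L, DifferentiableOn ℂ L O1 → DifferentiableOn ℂ (cut1 L) O' := by
    rintro L hL p (hp | hp)
    · have : cut1 L =ᶠ[𝓝 p] L := by
        filter_upwards [(hN1.prod isOpen_univ).mem_nhds hp.2] with q hq
        simp only [cut1, if_pos hq.1]
      exact ((hL.differentiableAt (hO1.mem_nhds hp.1)).congr_of_eventuallyEq this).differentiableWithinAt
    · have : cut1 L =ᶠ[𝓝 p] fun _ => 0 := by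
        filter_upwards [(hN2.prod isOpen_univ).mem_nhds hp.2] with q hq
        have : q.1 ∉ N1 := fun h => (Set.disjoint_left.1 hN12 h hq.1)
        simp only [cut1, if_neg this]
      exact ((differentiableAt_const _).congr_of_eventuallyEq this).differentiableWithinAt
  have hcut2 : ∀ L, DifferentiableOn ℂ L O2 → DifferentiableOn ℂ (cut2 L) O' := by
    rintro L hL p (hp | hp)
    · have : cut2 L =ᶠ[𝓝 p] fun _ => 0 := by
        filter_upwards [(hN1.prod isOpen_univ).mem_nhds hp.2] with q hq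
        have : q.1 ∉ N2 := fun h => (Set.disjoint_left.1 hN12 hq.1 h)
        simp only [cut2, if_neg this]
      exact ((differentiableAt_const _).congr_of_eventuallyEq this).differentiableWithinAt
    · have : cut2 L =ᶠ[𝓝 p] L := by
        filter_upwards [(hN2.prod isOpen_univ).mem_nhds hp.2] with q hq
        simp only [cut2, if_pos hq.1]
      exact ((hL.differentiableAt (hO2.mem_nhds hp.1)).congr_of_eventuallyEq this).differentiableWithinAt
  set l : List (ℂ × Y → A) := l1.map cut1 ++ (lm.map (fun m => cut2 (fun _ => m)) ++ l2.map cut2) with hl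
  have hlO' : ∀ L ∈ l, DifferentiableOn ℂ L O' := by
    intro L hL
    simp only [hl, List.mem_append, List.mem_map] at hL
    rcases hL with ⟨L', hL', rfl⟩ | ⟨m, hm, rfl⟩ | ⟨L', hL', rfl⟩
    · exact hcut1 _ (hl1 _ hL')
    · exact hcut2 _ (differentiableOn_const _)
    · exact hcut2 _ (hl2 _ hL')
  have hone : ∀ (α : Type) (l : List α) (f : α → A), (∀ x ∈ l, f x = 1) → (l.map f).prod = 1 := by
    intro α l f hf
    apply List.prod_eq_one
    intro x hx
    obtain ⟨y, hy, rfl⟩ := List.mem_map.1 hx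
    exact hf y hy
  have hprod : ∀ p ∈ O', h p = M1 * (l.map (fun L => NormedSpace.exp (L p))).prod := by
    rintro p (hp | hp)
    · have hn2 : p.1 ∉ N2 := fun h => (Set.disjoint_left.1 hN12 hp.2.1 h)
      rw [hf1 p hp.1, hl, List.map_append, List.map_append, List.prod_append, List.prod_append,
        List.map_map, List.map_map, List.map_map]
      rw [hone _ lm _ ?_, hone _ l2 _ ?_, mul_one, mul_one]
      · congr 2
        refine List.map_congr_left (fun L _ => ?_)
        simp only [Function.comp, cut1, if_pos hp.2.1]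
      · intro L _
        simp only [Function.comp, cut2, if_neg hn2, NormedSpace.exp_zero]
      · intro L _
        simp only [Function.comp, cut2, if_neg hn2, NormedSpace.exp_zero]
    · have hn1 : p.1 ∉ N1 := fun h => (Set.disjoint_left.1 hN12 h hp.2.1)
      rw [hf2 p hp.1, hl, List.map_append, List.map_append, List.prod_append, List.prod_append,
        List.map_map, List.map_map, List.map_map]
      rw [hone _ l1 _ ?_, one_mul, ← mul_assoc]
      · congr 1
        · have : (lm.map ((fun L => NormedSpace.exp (L p)) ∘ fun m => cut2 fun _ => m)) = lm.map NormedSpace.exp := by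
            refine List.map_congr_left (fun L _ => ?_)
            simp only [Function.comp, cut2, if_pos hp.2.1]
          rw [this, ← hlm, ← mul_assoc, Ring.mul_inverse_cancel _ hM1, one_mul]
        · congr 1
          refine List.map_congr_left (fun L _ => ?_)
          simp only [Function.comp, cut2, if_pos hp.2.1]
      · intro L _
        simp only [Function.comp, cut1, if_neg hn1, NormedSpace.exp_zero]
  -- bounds
  have hK : IsCompact ((R1 ∪ R2) ×ˢ B1) := hR12.prod hB1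
  have hinv : DifferentiableOn ℂ (fun p => (h p)⁻¹ʳ) O := hh.inverse hu
  obtain ⟨C1, hC1⟩ := hK.exists_bound_of_continuousOn (hinv.continuousOn.mono hRO)
  obtain ⟨C2, hC20, hC2⟩ : ∃ C2 : ℝ, 0 < C2 ∧ C1 * ‖M1‖ ≤ C2 := ⟨max 1 (C1 * ‖M1‖), by positivity, by simp⟩
  set ε : ℝ := 1 / (4 * C) with hε
  have hε0 : 0 < ε := by positivity
  obtain ⟨e, he1, he2, he3⟩ := list_approx (R1 ∪ R2) hR12 hcompl B1 hB1 O' hO'o hRO' l hlO' (ε / C2) (by positivity)
  have hWP : W ×ˢ P ⊆ (R1 ∪ R2) ×ˢ B1 := prod_mono interior_subset interior_subset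
  have hWPO : W ×ˢ P ⊆ O := hWP.trans hRO
  have hx : DifferentiableOn ℂ (fun p => (h p)⁻¹ʳ * (M1 * e p) - 1) (W ×ˢ P) := by
    have h1 : DifferentiableOn ℂ (fun p => M1 * e p) (W ×ˢ P) := 
      (he1.mono (prod_mono (subset_univ _) Subset.rfl)).const_mul M1
    exact ((hinv.mono hWPO).mul h1).sub_const _
  have hxε : ∀ p ∈ W ×ˢ P, ‖(h p)⁻¹ʳ * (M1 * e p) - 1‖ ≤ ε := by
    intro p hp
    have h1 : (h p)⁻¹ʳ * h p = 1 := Ring.inverse_mul_cancel _ (hu p (hWPO hp))
    have h2 : (h p)⁻¹ʳ * (M1 * e p) - 1 = (h p)⁻¹ʳ * (M1 * (e p - (l.map (fun L => NormedSpace.exp (L p))).prod)) := by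
      rw [← h1]
      nth_rewrite 3 [hprod p (hRO' (hWP hp))]
      noncomm_ring
    rw [h2]
    have h3 := he3 p (hWP hp)
    rw [norm_sub_rev] at h3
    have h4 := hC1 p (hWP hp)
    have h40 : 0 ≤ C1 := (norm_nonneg _).trans h4
    calc _ ≤ ‖(h p)⁻¹ʳ‖ * (‖M1‖ * ‖e p - (l.map (fun L => NormedSpace.exp (L p))).prod‖) := 
          (norm_mul_le _ _).trans (mul_le_mul_of_nonneg_left (norm_mul_le _ _) (norm_nonneg _))
      _ ≤ C1 * (‖M1‖ * (ε / C2)) := by gcongr
      _ = (C1 * ‖M1‖) * (ε / C2) := by ring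
      _ ≤ C2 * (ε / C2) := by gcongr
      _ = ε := by field_simp
  have hsplit' : ∀ (x : ℂ × Y → A) (M : ℝ), DifferentiableOn ℂ x (W ×ˢ P) →
      (∀ p ∈ W ×ˢ P, ‖x p‖ ≤ M) →
      ∃ x' x'' : ℂ × Y → A, DifferentiableOn ℂ x' ((W ∪ thickening δ (D'' \ W)) ×ˢ P) ∧ 
        DifferentiableOn ℂ x'' ((W ∪ thickening δ (D' \ W)) ×ˢ P) ∧
        (∀ p ∈ (W ∪ thickening δ (D'' \ W)) ×ˢ P, ‖x' p‖ ≤ C * M) ∧ 
        (∀ p ∈ (W ∪ thickening δ (D' \ W)) ×ˢ P, ‖x'' p‖ ≤ C * M) ∧
        ∀ p ∈ W ×ˢ P, x p = x' p - x'' p := by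
    intro x M hx hxM
    rcases P.eq_empty_or_nonempty with hP0 | ⟨y0, hy0⟩
    · rw [hP0]
      simp only [prod_empty]
      exact ⟨fun _ => 0, fun _ => 0, differentiableOn_empty, differentiableOn_empty, 
        fun p hp => absurd hp (notMem_empty p), fun p hp => absurd hp (notMem_empty p),
        fun p hp => absurd hp (notMem_empty p)⟩
    · obtain ⟨z0, hz0⟩ := hW0
      have hM0 : 0 ≤ M := (norm_nonneg _).trans (hxM (z0, y0) ⟨hz0, hy0⟩)
      exact hsplit P hPo x M hM0 hx hxM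
  obtain ⟨a, b, ha, hb, ha1, hb1, hab⟩ := near_one_factor W (W ∪ thickening δ (D'' \ W)) 
    (W ∪ thickening δ (D' \ W)) hWo (hWo.union isOpen_thickening) (hWo.union isOpen_thickening)
    subset_union_left subset_union_left P hPo C hC hsplit' _ ε hε0 (by rw [hε]; field_simp; norm_num) hx hxε
  · have hunit : ∀ w : A, ‖w - 1‖ ≤ 1 / 2 → IsUnit w := by
      intro w hw
      have h1 : ‖1 - w‖ < 1 := by rw [norm_sub_rev]; linarith
      have := (Units.oneSub (1 - w) h1).isUnit
      rwa [Units.val_oneSub, sub_sub_cancel] at this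
    have hcov1 : D' ⊆ W ∪ thickening δ (D' \ W) := by
      intro z hz
      by_cases hzW : z ∈ W
      · exact Or.inl hzW
      · exact Or.inr (self_subset_thickening hδ _ ⟨hz, hzW⟩)
    have hcov2 : D'' ⊆ W ∪ thickening δ (D'' \ W) := by
      intro z hz
      by_cases hzW : z ∈ W
      · exact Or.inl hzW
      · exact Or.inr (self_subset_thickening hδ _ ⟨hz, hzW⟩)
    refine ⟨(W ∪ thickening δ (D' \ W)) ×ˢ P, (W ∪ thickening δ (D'' \ W)) ×ˢ P, W ×ˢ P,
      fun p => (M1 * e p) * b p, a, (hWo.union isOpen_thickening).prod hPo, 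
      (hWo.union isOpen_thickening).prod hPo, hWo.prod hPo, prod_mono hcov1 hBB1, 
      prod_mono hcov2 hBB1, prod_mono hint hBB1, ?_, ha, ?_, fun p hp => hunit _ (ha1 p hp), ?_⟩
    · exact ((he1.mono (prod_mono (subset_univ _) Subset.rfl)).const_mul M1).mul hb
    · intro p hp
      exact (hM1.mul (he2 p ⟨trivial, hp.2⟩)).mul (hunit _ (hb1 p hp))
    · intro p hp
      have h1 := hab p hp
      simp only [add_sub_cancel] at h1
      rw [← h1, ← mul_assoc, ← mul_assoc (h p), Ring.mul_inverse_cancel _ (hu p (hWPO hp)), one_mul]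

end Pool.Agent.HP
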