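import Pool.Agent.HopfPinch.EndB

set_option autoImplicit false

open Set Filter Topology Metric

namespace Pool.Agent.HP

theorem endpart {N : ℕ} {r R : ℝ} (hr : 0 < r) (hR : r < R) {δ : ℕ → ℝ} (hδ : ∀ k, 0 < δ k)
    (g : Fin 3 ⊕ ℕ → Fin 3 ⊕ ℕ → (Fin 3 → ℂ) → ((Fin N → ℂ) →L[ℂ] (Fin N → ℂ)))
    (hg : ∀ i j, DifferentiableOn ℂ (g i j) (V r R δ i ∩ V r R δ j))
    (hg1 : ∀ i, ∀ z ∈ V r R δ i, g i i z = 1)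
    (hg2 : ∀ i j k, ∀ z ∈ V r R δ i ∩ V r R δ j ∩ V r R δ k, g i j z * g j k z = g i k z)
    (s : Fin 3 ⊕ ℕ → (Fin 3 → ℂ) → (Fin N → ℂ))
    (hs : ∀ i, DifferentiableOn ℂ (s i) (V r R δ i))
    (hsg : ∀ i j, ∀ z ∈ V r R δ i ∩ V r R δ j, s i z = g i j z (s j z))
    (h0 : ∀ k : ℕ, s (Sum.inr k) ![(2 : ℂ)⁻¹ ^ k, 0, 0] = 0)
    {r' R' : ℝ} (hr' : r < r') (hrR : r' < R') (hR' : R' < R)
    (f : Fin 3 → (Fin 3 → ℂ) → ((Fin N → ℂ) →L[ℂ] ℂ))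
    (hf : ∀ i, DifferentiableOn ℂ (f i) (W r' R' i))
    (hff : ∀ i j, ∀ z ∈ W r' R' i ∩ W r' R' j,
      f i z = (f j z).comp (g (Sum.inl j) (Sum.inl i) z))
    (c : ℂ) (hc : r' < ‖c‖) (hc' : ‖c‖ < R') :
    f 0 ![c, 0, 0] (s (Sum.inl 0) ![c, 0, 0]) = 0 := by
  have hV : ∀ i, V r' R' δ i ⊆ V r R δ i := by
    rintro (a | k) z hz
    · exact ⟨hr'.trans hz.1, fun j => (hz.2 j).trans hR'⟩
    · exact ⟨hz.1, hz.2.1.trans hR', hz.2.2.trans hR'⟩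
  by_contra hne
  exact endB r' R' (hr.trans hr') hrR δ hδ g
    (fun i j => (hg i j).mono (inter_subset_inter (hV i) (hV j)))
    (fun i j k z hz => hg2 i j k z ⟨⟨hV i hz.1.1, hV j hz.1.2⟩, hV k hz.2⟩)
    s (fun i => (hs i).mono (hV i)) (fun i j z hz => hsg i j z ⟨hV i hz.1, hV j hz.2⟩) h0 f hf
    (fun a b z hz => hff b a z ⟨hz.2, hz.1⟩) c hc hc' hne

end Pool.Agent.HP
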