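import Pool.Agent.HopfPinch.EG19
import Pool.Agent.HopfPinch.EG20

set_option autoImplicit false

open Set Filter Topology Metric

namespace Pool.Agent.HP.EG

/-! ### block E1 : weights, norms, convolution -/

section
variable {V : Type*} [NormedAddCommGroup V] [NormedSpace ℂ V] {ρ β : Rd}

variable [CompleteSpace V]

/-! ### block E2 : evaluation -/

end

/-! ### block E3 : Laurent expansion -/

/-! ### block E4 : the bumps -/

/-! ### block E5 : abstract finiteness -/

/-! ### block E6 : coding in `ℓ¹` and total boundedness -/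

/-! ### block E7 : a linear relation between cocycles modulo coboundaries -/

/-! ### block E8 : coefficient families of the transition functions -/

/-! ### block E9 : division by `z 0 - c` and the Cousin cocycles -/

/-! ### block E10 : sections with prescribed value on a slice -/

end Pool.Agent.HP.EG

namespace Pool.Agent.HP

/-! ### block E11 : the final contradiction -/

/-! ### block E12 : assembly -/

theorem diff_aux_4880 {E F G : Type*} [NormedAddCommGroup E] [NormedSpace ℂ E]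
    [NormedAddCommGroup F] [NormedSpace ℂ F] [NormedAddCommGroup G] [NormedSpace ℂ G]
    (L : F →L[ℂ] G) {h : E → F} {S : Set E} (hh : DifferentiableOn ℂ h S) :
    DifferentiableOn ℂ (fun z => L (h z)) S :=
  L.differentiable.comp_differentiableOn hh

theorem endgame : Endgame := by
  intro N r R hr hR δ hδ g hg hg1 hg2 s hs hsg h0 ⟨c, hc, hc', hne⟩
  have memOm2 : ∀ (r R : ℝ) (i j : Fin 3) (z : Fin 3 → ℂ),
      z ∈ EG.Om r R {i, j} ↔ z ∈ W r R i ∩ W r R j := by
    intro r R i j z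
    simp only [EG.Om, W, Set.mem_ofPred_eq, Set.mem_inter_iff, Set.mem_insert_iff,
      Set.mem_singleton_iff, forall_eq_or_imp, forall_eq]
    tauto
  have memOm3 : ∀ (r R : ℝ) (i j k : Fin 3) (z : Fin 3 → ℂ),
      z ∈ EG.Om r R {i, j, k} ↔ z ∈ W r R i ∩ W r R j ∩ W r R k := by
    intro r R i j k z
    simp only [EG.Om, W, Set.mem_ofPred_eq, Set.mem_inter_iff, Set.mem_insert_iff,
      Set.mem_singleton_iff, forall_eq_or_imp, forall_eq]
    tauto
  have memOm1 : ∀ (r R : ℝ) (i : Fin 3) (z : Fin 3 → ℂ),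
      z ∈ EG.Om r R {i} ↔ z ∈ W r R i := by
    intro r R i z
    simp only [EG.Om, W, Set.mem_ofPred_eq, Set.mem_singleton_iff, forall_eq]
  let L := (ContinuousLinearMap.compL ℂ (Fin N → ℂ) (Fin N → ℂ) ℂ).flip
  let Tf : Fin 3 → Fin 3 → (Fin 3 → ℂ) →
      (((Fin N → ℂ) →L[ℂ] ℂ) →L[ℂ] ((Fin N → ℂ) →L[ℂ] ℂ)) :=
    fun i j z => L (g (Sum.inl j) (Sum.inl i) z)
  have hTf : ∀ i j z (φ : (Fin N → ℂ) →L[ℂ] ℂ),
      Tf i j z φ = φ.comp (g (Sum.inl j) (Sum.inl i) z) := by
    intro i j z φ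
    rfl
  have hd : ∀ i j, DifferentiableOn ℂ (Tf i j) (EG.Om r R {i, j}) := by
    intro i j
    have h1 : DifferentiableOn ℂ (g (Sum.inl j) (Sum.inl i)) (EG.Om r R {i, j}) := by
      refine (hg (Sum.inl j) (Sum.inl i)).mono ?_
      intro z hz
      have := (memOm2 r R i j z).1 hz
      exact ⟨this.2, this.1⟩
    exact diff_aux_4880 (G := ((Fin N → ℂ) →L[ℂ] ℂ) →L[ℂ] ((Fin N → ℂ) →L[ℂ] ℂ)) L h1
  have h1 : ∀ i, ∀ z ∈ EG.Om r R {i}, Tf i i z = 1 := by
    intro i z hz
    have hz' := (memOm1 r R i z).1 hz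
    ext φ x
    rw [hTf, hg1 (Sum.inl i) z hz']
    rfl
  have h2 : ∀ i j k, ∀ z ∈ EG.Om r R {i, j, k}, Tf i j z * Tf j k z = Tf i k z := by
    intro i j k z hz
    have hz' := (memOm3 r R i j k z).1 hz
    have := hg2 (Sum.inl k) (Sum.inl j) (Sum.inl i) z ⟨⟨hz'.2, hz'.1.2⟩, hz'.1.1⟩
    ext φ x
    rw [mul_apply_eq_comp, hTf, hTf, hTf, ← this]
    rfl
  -- a coordinate
  obtain ⟨e, he⟩ : ∃ e, s (Sum.inl 0) ![c, 0, 0] e ≠ 0 := by
    by_contra hcon
    push Not at hcon
    exact hne (funext hcon)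
  let v : (Fin N → ℂ) →L[ℂ] ℂ := ContinuousLinearMap.proj e
  obtain ⟨r', hr', hr'c⟩ := exists_between hc
  obtain ⟨R', hR'c, hR'⟩ := exists_between hc'
  have hWo : IsOpen (W r R 0) := by
    have : W r R 0 = {z | r < ‖z 0‖} ∩ ⋂ j, {z : Fin 3 → ℂ | ‖z j‖ < R} := by
      ext z; simp [W]
    rw [this]
    refine IsOpen.inter (isOpen_lt continuous_const (by fun_prop)) ?_
    exact isOpen_iInter_of_finite fun j => isOpen_lt (by fun_prop) continuous_const
  have hcW : (![c, 0, 0] : Fin 3 → ℂ) ∈ W r R 0 := by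
    refine ⟨by simpa using hc, ?_⟩
    have hRpos : 0 < R := hr.trans hR
    intro j
    fin_cases j <;> simp [hc', hRpos]
  have hcont : ContinuousAt (fun x : ℂ => v (s (Sum.inl 0) ![x, 0, 0])) c := by
    have hs0 : ContinuousAt (s (Sum.inl 0)) (![c, 0, 0] : Fin 3 → ℂ) :=
      ((hs (Sum.inl 0)).continuousOn).continuousAt (hWo.mem_nhds hcW)
    have hemb : Continuous (fun x : ℂ => (![x, 0, 0] : Fin 3 → ℂ)) := by
      refine continuous_pi fun j => ?_
      fin_cases j
      · exact continuous_id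
      · exact continuous_const
      · exact continuous_const
    have h3 : ContinuousAt (fun x : ℂ => s (Sum.inl 0) ![x, 0, 0]) c :=
      ContinuousAt.comp (f := fun x : ℂ => (![x, 0, 0] : Fin 3 → ℂ)) (x := c) hs0 hemb.continuousAt
    exact v.continuous.continuousAt.comp h3
  have hev : ∀ᶠ x in 𝓝 c, v (s (Sum.inl 0) ![x, 0, 0]) ≠ 0 ∧ r' < ‖x‖ ∧ ‖x‖ < R' := by
    refine (hcont.eventually_ne (show v (s (Sum.inl 0) ![c, 0, 0]) ≠ 0 from he)).and ?_
    refine Filter.Eventually.and ?_ ?_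
    · exact (continuous_norm.continuousAt (x := c)).eventually (lt_mem_nhds hr'c)
    · exact (continuous_norm.continuousAt (x := c)).eventually (gt_mem_nhds hR'c)
  obtain ⟨ε, hε, hball⟩ := Metric.eventually_nhds_iff.1 hev
  let cn : ℕ → ℂ := fun n => c + ((ε / (n + 2) : ℝ) : ℂ)
  have hcn : ∀ n, dist (cn n) c < ε := by
    intro n
    have h3 : (0 : ℝ) < (n : ℝ) + 2 := by positivity
    simp only [cn, dist_eq_norm, add_sub_cancel_left, Complex.norm_real, Real.norm_eq_abs]
    rw [abs_of_pos (div_pos hε h3), div_lt_iff₀ h3]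
    nlinarith [Nat.cast_nonneg (α := ℝ) n]
  have hinj : Function.Injective cn := by
    intro m n hmn
    have h3 : (ε / ((m : ℝ) + 2)) = ε / ((n : ℝ) + 2) := by
      have := add_left_cancel hmn
      exact_mod_cast this
    have h4 : (0 : ℝ) < (n : ℝ) + 2 := by positivity
    have h5 : (0 : ℝ) < (m : ℝ) + 2 := by positivity
    rw [div_eq_div_iff h5.ne' h4.ne'] at h3
    have h6 := mul_left_cancel₀ hε.ne' h3
    have : (m : ℝ) = n := by linarith
    exact_mod_cast this
  obtain ⟨n, f, hf, hff, hfn⟩ := EG.sections hr hR Tf hd h1 h2 hr' (hr'c.trans hR'c) hR' v cn hinj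
    (fun n => (hball (hcn n)).2.1) (fun n => (hball (hcn n)).2.2)
  have key := endpart hr hR hδ g hg hg1 hg2 s hs hsg h0 hr' (hr'c.trans hR'c) hR' f
    (by
      intro i
      refine (hf i).mono ?_
      intro z hz
      exact (memOm1 r' R' i z).2 hz)
    (by
      intro i j z hz
      have := hff i j z ((memOm2 r' R' i j z).2 hz)
      rw [this, hTf]) (cn n) (hball (hcn n)).2.1 (hball (hcn n)).2.2
  rw [hfn] at key
  exact (hball (hcn n)).1 key

end Pool.Agent.HP
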