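import Pool.Agent.HopfPinch.CoreA
import Pool.Agent.HopfPinch.EG21

set_option autoImplicit false

open Set Filter Topology Metric

namespace Pool.Agent.HP

/-- THE KEY THEOREM: a holomorphic bundle (cocycle) on `ℂ³∖0` has no section `s` with zeros exactly at the
points `2^k e₁` of the axis. -/
theorem core {N : ℕ} {I : Type*} (U : I → Set (Fin 3 → ℂ)) (hU : ∀ i, IsOpen (U i))
    (hU0 : ∀ i, (0 : Fin 3 → ℂ) ∉ U i)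
    (hcov : ∀ z : Fin 3 → ℂ, z ≠ 0 → ∃ i, z ∈ U i)
    (g : I → I → (Fin 3 → ℂ) → ((Fin N → ℂ) →L[ℂ] (Fin N → ℂ)))
    (hg : ∀ i j, DifferentiableOn ℂ (g i j) (U i ∩ U j))
    (g1 : ∀ i, ∀ z ∈ U i, g i i z = 1)
    (g2 : ∀ i j k, ∀ z ∈ U i ∩ U j ∩ U k, g i j z * g j k z = g i k z)
    (s : I → (Fin 3 → ℂ) → (Fin N → ℂ))
    (hs : ∀ i, DifferentiableOn ℂ (s i) (U i))
    (hsg : ∀ i j, ∀ z ∈ U i ∩ U j, s i z = g i j z (s j z))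
    (h0 : ∀ (k : ℤ) (i : I), ![(2 : ℂ) ^ k, 0, 0] ∈ U i → s i ![(2 : ℂ) ^ k, 0, 0] = 0)
    (h1 : ∀ c : ℂ, c ≠ 0 → (∀ k : ℤ, c ≠ 2 ^ k) → ∀ i, ![c, 0, 0] ∈ U i → s i ![c, 0, 0] ≠ 0) :
    False :=
  core_of_endgame endgame U hU hU0 hcov g hg g1 g2 s hs hsg h0 h1

end Pool.Agent.HP
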