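import Mathlib
set_option autoImplicit false

namespace Pool.Agent.HP

/-- `W r R a = {r < |z_a|, |z_j| < R for all j}`. -/
def W (r R : ℝ) (a : Fin 3) : Set (Fin 3 → ℂ) := {z | r < ‖z a‖ ∧ ∀ j, ‖z j‖ < R}

/-- neighbourhood of the slice `z_0 = 2^{-k}` -/
def O (R : ℝ) (δ : ℕ → ℝ) (k : ℕ) : Set (Fin 3 → ℂ) :=
  {z | ‖z 0 - (2 : ℂ)⁻¹ ^ k‖ < δ k ∧ ‖z 1‖ < R ∧ ‖z 2‖ < R}

/-- the special cover: the three sets `W r R a` and the neighbourhoods of slices -/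
def V (r R : ℝ) (δ : ℕ → ℝ) : Fin 3 ⊕ ℕ → Set (Fin 3 → ℂ) := Sum.elim (W r R) (O R δ)

/-- END GAME (helper369): `core` for the special cover. -/
def Endgame : Prop := ∀ (N : ℕ) (r R : ℝ) (_ : 0 < r) (_ : r < R) (δ : ℕ → ℝ) (_ : ∀ k, 0 < δ k)
    (g : Fin 3 ⊕ ℕ → Fin 3 ⊕ ℕ → (Fin 3 → ℂ) → ((Fin N → ℂ) →L[ℂ] (Fin N → ℂ)))
    (_ : ∀ i j, DifferentiableOn ℂ (g i j) (V r R δ i ∩ V r R δ j))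
    (_ : ∀ i, ∀ z ∈ V r R δ i, g i i z = 1)
    (_ : ∀ i j k, ∀ z ∈ V r R δ i ∩ V r R δ j ∩ V r R δ k, g i j z * g j k z = g i k z)
    (s : Fin 3 ⊕ ℕ → (Fin 3 → ℂ) → (Fin N → ℂ))
    (_ : ∀ i, DifferentiableOn ℂ (s i) (V r R δ i))
    (_ : ∀ i j, ∀ z ∈ V r R δ i ∩ V r R δ j, s i z = g i j z (s j z))
    (_ : ∀ k : ℕ, s (Sum.inr k) ![(2 : ℂ)⁻¹ ^ k, 0, 0] = 0)
    (_ : ∃ c : ℂ, r < ‖c‖ ∧ ‖c‖ < R ∧ s (Sum.inl 0) ![c, 0, 0] ≠ 0),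
    False

end Pool.Agent.HP
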