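import Pool.Agent.HopfPinch.FramesC
import Pool.Agent.HopfPinch.Iface
set_option autoImplicit false
open Set Metric Filter Topology
open scoped Ring
namespace Pool.Agent.HP

section
variable {A : Type} [NormedRing A] [NormedAlgebra ℂ A] {I : Type*}

theorem frame_pt {Z : Type} [NormedAddCommGroup Z] [NormedSpace ℂ Z] 
    (U : I → Set Z) (hU : ∀ i, IsOpen (U i)) (g : I → I → Z → A)
    (hg : ∀ i j, DifferentiableOn ℂ (g i j) (U i ∩ U j)) (g1 : ∀ i, ∀ z ∈ U i, g i i z = 1)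
    (g2 : ∀ i j k, ∀ z ∈ U i ∩ U j ∩ U k, g i j z * g j k z = g i k z) :
    ∀ z ∈ ⋃ i, U i, HasFrame U g {z} := by
  intro z hz
  obtain ⟨i0, hi0⟩ := mem_iUnion.1 hz
  refine ⟨U i0, hU i0, by simpa using hi0, fun j w => g j i0 w, ?_, ?_, ?_⟩
  · intro i
    exact (hg i i0).mono (fun w hw => ⟨hw.2, hw.1⟩)
  · rintro i w ⟨hw1, hw2⟩
    have e1 : g i i0 w * g i0 i w = 1 := by rw [g2 i i0 i w ⟨⟨hw2, hw1⟩, hw2⟩, g1 i w hw2]
    have e2 : g i0 i w * g i i0 w = 1 := by rw [g2 i0 i i0 w ⟨⟨hw1, hw2⟩, hw1⟩, g1 i0 w hw1]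
    exact ⟨⟨_, _, e1, e2⟩, rfl⟩
  · intro i j w hw hi hj
    exact (g2 i j i0 w ⟨⟨hi, hj⟩, hw⟩).symm

theorem slice_nhd (U : I → Set (Fin 3 → ℂ)) (g : I → I → (Fin 3 → ℂ) → A) (a : Fin 3) (D : Fin 3 → Set ℂ)
    (hD : ∀ j, IsCompact (D j)) (p : ℂ) (h : HasFrame U g (Set.pi univ (Function.update D a {p}))) : 
    ∃ δ : ℝ, 0 < δ ∧ HasFrame U g (Set.pi univ (Function.update D a (ball p δ))) := by
  rw [HasFrame.transport (insL a), preimage_pi_update] at h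
  obtain ⟨u, huo, hpu, hu⟩ := h.nhd isCompact_singleton (isCompact_univ_pi fun j => hD _)
  obtain ⟨δ, hδ, hδu⟩ := Metric.isOpen_iff.1 huo p (hpu rfl)
  refine ⟨δ, hδ, ?_⟩
  rw [HasFrame.transport (insL a), preimage_pi, Function.update_self]
  refine hu.mono (prod_mono hδu ?_)
  intro q hq
  rw [mem_univ_pi] at hq ⊢
  intro j
  have := hq j
  rwa [Function.update_of_ne (Fin.succAbove_ne a j)] at this

/-- components of a section in a frame -/
theorem exists_section {Z : Type} [NormedAddCommGroup Z] [NormedSpace ℂ Z] {N : ℕ}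
    {U : I → Set Z} (hU : ∀ i, IsOpen (U i)) {g : I → I → Z → ((Fin N → ℂ) →L[ℂ] (Fin N → ℂ))} 
    {s : I → Z → (Fin N → ℂ)} (hs : ∀ i, DifferentiableOn ℂ (s i) (U i))
    (hsg : ∀ i j, ∀ z ∈ U i ∩ U j, s i z = g i j z (s j z)) {W : Set Z} (hW : IsOpen W) 
    {F : I → Z → ((Fin N → ℂ) →L[ℂ] (Fin N → ℂ))} (hF : IsFrame U g W F) : 
    ∃ t : Z → (Fin N → ℂ), DifferentiableOn ℂ t (W ∩ ⋃ i, U i) ∧ 
      ∀ i, ∀ z ∈ W, z ∈ U i → s i z = F i z (t z) := by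
  classical
  have hinv1 : ∀ (T : (Fin N → ℂ) →L[ℂ] (Fin N → ℂ)), IsUnit T → ∀ v, T ((T⁻¹ʳ) v) = v := by
    intro T hT v
    have := Ring.mul_inverse_cancel T hT
    calc T ((T⁻¹ʳ) v) = (T * T⁻¹ʳ) v := rfl
      _ = v := by rw [this]; rfl
  have hinv2 : ∀ (T : (Fin N → ℂ) →L[ℂ] (Fin N → ℂ)), IsUnit T → ∀ v, (T⁻¹ʳ) (T v) = v := by
    intro T hT v
    have := Ring.inverse_mul_cancel T hT
    calc (T⁻¹ʳ) (T v) = (T⁻¹ʳ * T) v := rfl
      _ = v := by rw [this]; rfl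
  have key : ∀ i j, ∀ z ∈ W, z ∈ U i → z ∈ U j → (F i z)⁻¹ʳ (s i z) = (F j z)⁻¹ʳ (s j z) := by
    intro i j z hz hi hj
    have h1 := hF.unit i z ⟨hz, hi⟩
    have h2 := hF.unit j z ⟨hz, hj⟩
    have h3 := hF.rel i j z hz hi hj
    have h4 : s i z = F i z ((F j z)⁻¹ʳ (s j z)) := by
      rw [hsg i j z ⟨hi, hj⟩, h3]
      change _ = g i j z (F j z ((F j z)⁻¹ʳ (s j z)))
      rw [hinv1 _ h2]
    rw [h4, hinv2 _ h1]
  refine ⟨fun z => if h : ∃ i, z ∈ U i then (F h.choose z)⁻¹ʳ (s h.choose z) else 0, ?_, ?_⟩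
  · rintro z ⟨hz, hzU⟩
    obtain ⟨i, hi⟩ := mem_iUnion.1 hzU
    have heq : (fun z => if h : ∃ i, z ∈ U i then (F h.choose z)⁻¹ʳ (s h.choose z) else 0) =ᶠ[𝓝 z] 
        fun z => (F i z)⁻¹ʳ (s i z) := by
      filter_upwards [hW.mem_nhds hz, (hU i).mem_nhds hi] with w hw hwi
      have hex : ∃ i, w ∈ U i := ⟨i, hwi⟩
      rw [dif_pos hex]
      exact key _ _ w hw hex.choose_spec hwi
    refine (DifferentiableAt.congr_of_eventuallyEq ?_ heq).differentiableWithinAt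
    have h1 : DifferentiableAt ℂ (F i) z := (hF.diff i).differentiableAt ((hW.inter (hU i)).mem_nhds ⟨hz, hi⟩)
    have h2 : DifferentiableAt ℂ (s i) z := (hs i).differentiableAt ((hU i).mem_nhds hi)
    exact (h1.inverse (hF.unit i z ⟨hz, hi⟩)).clm_apply h2
  · intro i z hz hi
    have hex : ∃ i, z ∈ U i := ⟨i, hi⟩
    simp only [dif_pos hex]
    rw [key _ i z hz hex.choose_spec hi, hinv1 _ (hF.unit i z ⟨hz, hi⟩)]

end

theorem core_of_endgame (hE : Endgame) {N : ℕ} {I : Type*} (U : I → Set (Fin 3 → ℂ)) (hU : ∀ i, IsOpen (U i))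
    (hU0 : ∀ i, (0 : Fin 3 → ℂ) ∉ U i) (hcov : ∀ z : Fin 3 → ℂ, z ≠ 0 → ∃ i, z ∈ U i)
    (g : I → I → (Fin 3 → ℂ) → ((Fin N → ℂ) →L[ℂ] (Fin N → ℂ)))
    (hg : ∀ i j, DifferentiableOn ℂ (g i j) (U i ∩ U j)) (g1 : ∀ i, ∀ z ∈ U i, g i i z = 1)
    (g2 : ∀ i j k, ∀ z ∈ U i ∩ U j ∩ U k, g i j z * g j k z = g i k z)
    (s : I → (Fin 3 → ℂ) → (Fin N → ℂ)) (hs : ∀ i, DifferentiableOn ℂ (s i) (U i))
    (hsg : ∀ i j, ∀ z ∈ U i ∩ U j, s i z = g i j z (s j z))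
    (h0 : ∀ (k : ℤ) (i : I), ![(2 : ℂ) ^ k, 0, 0] ∈ U i → s i ![(2 : ℂ) ^ k, 0, 0] = 0)
    (h1 : ∀ c : ℂ, c ≠ 0 → (∀ k : ℤ, c ≠ 2 ^ k) → ∀ i, ![c, 0, 0] ∈ U i → s i ![c, 0, 0] ≠ 0) : False := by
  have hpt := frame_pt U hU g hg g1 g2
  have hcov' : ∀ z : Fin 3 → ℂ, z ≠ 0 → z ∈ ⋃ i, U i := fun z hz => mem_iUnion.2 (hcov z hz)
  set Sq : Set ℂ := Icc (-2) 2 ×ℂ Icc (-2) 2 with hSq
  have hSqR : IsRect Sq := ⟨-2, 2, -2, 2, rfl⟩
  have hnSq : ∀ w : ℂ, ‖w‖ < 2 → w ∈ Sq := by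
    intro w hw
    have e1 := (Complex.abs_re_le_norm w).trans hw.le
    have e2 := (Complex.abs_im_le_norm w).trans hw.le
    rw [abs_le] at e1 e2
    exact ⟨e1, e2⟩
  -- shells
  have hshell : ∀ a : Fin 3, HasFrame U g (W (1 / 2) 2 a) := by
    intro a
    have hf := frame_shell U hU g hpt a (Function.update (fun _ => Sq) a (SqAnn (1 / 4) 2)) ?_ (1 / 4) 2 
      (by norm_num) (by norm_num) (Function.update_self _ _ _) ?_
    · refine hf.mono (fun z hz => ?_)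
      rw [mem_univ_pi]
      intro j
      by_cases hj : j = a
      · subst hj
        rw [Function.update_self]
        have e1 := (Complex.abs_re_le_norm (z j)).trans (hz.2 j).le
        have e2 := (Complex.abs_im_le_norm (z j)).trans (hz.2 j).le
        refine ⟨e1, e2, ?_⟩
        by_contra hcon
        push Not at hcon
        have e3 := Complex.norm_le_abs_re_add_abs_im (z j)
        have e4 := hz.1
        linarith [hcon.1, hcon.2]
      · rw [Function.update_of_ne hj]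
        exact hnSq _ (hz.2 j)
    · intro z hz
      apply hcov'
      rintro rfl
      have := (mem_univ_pi.1 hz) a
      rw [Function.update_self] at this
      have h2 := this.2.2
      simp only [Pi.zero_apply, Complex.zero_re, Complex.zero_im, abs_zero, or_self] at h2
      norm_num at h2
    · intro j
      rw [Function.update_of_ne (Fin.succAbove_ne a j)]
      exact hSqR
  -- slices
  have hslice : ∀ k : ℕ, ∃ δ : ℝ, 0 < δ ∧ δ ≤ (2 : ℝ)⁻¹ ^ k ∧ 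
      HasFrame U g {z | ‖z 0 - (2 : ℂ)⁻¹ ^ k‖ < δ ∧ ‖z 1‖ < 2 ∧ ‖z 2‖ < 2} := by
    intro k
    have hne : (2 : ℂ)⁻¹ ^ k ≠ 0 := pow_ne_zero _ (by norm_num)
    have hf := frame_box U hU g hpt (Function.update (fun _ => Sq) 0 {(2 : ℂ)⁻¹ ^ k}) ?_ ?_
    · obtain ⟨δ, hδ, hf2⟩ := slice_nhd U g 0 (fun _ => Sq) (fun _ => hSqR.isCompact) _ hf
      refine ⟨min δ ((2 : ℝ)⁻¹ ^ k), by positivity, min_le_right _ _, hf2.mono ?_⟩
      rintro z ⟨hz0, hz1, hz2⟩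
      rw [mem_univ_pi]
      intro j
      fin_cases j
      · simp only [Fin.zero_eta, Function.update_self]
        rw [mem_ball, dist_eq_norm]
        exact hz0.trans_le (min_le_left _ _)
      · simpa using hnSq _ hz1
      · simpa using hnSq _ hz2
    · intro z hz
      apply hcov'
      rintro rfl
      have := (mem_univ_pi.1 hz) 0
      rw [Function.update_self] at this
      exact hne this.symm
    · intro j
      by_cases hj : j = 0
      · subst hj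
        rw [Function.update_self]
        exact isRect_singleton _
      · rw [Function.update_of_ne hj]
        exact hSqR
  choose δ hδ hδ2 hfδ using hslice
  have hall : ∀ p : Fin 3 ⊕ ℕ, HasFrame U g (V (1 / 2) 2 δ p) := by
    rintro (a | k)
    · exact hshell a
    · exact hfδ k
  have hVcov : ∀ p, V (1 / 2) 2 δ p ⊆ ⋃ i, U i := by
    rintro (a | k) z hz
    · apply hcov'
      rintro rfl
      have := hz.1
      simp only [Pi.zero_apply, norm_zero] at this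
      norm_num at this
    · apply hcov'
      rintro rfl
      have h3 : ‖(0 : Fin 3 → ℂ) 0 - (2 : ℂ)⁻¹ ^ k‖ < δ k := hz.1
      rw [Pi.zero_apply, zero_sub, norm_neg, norm_pow, norm_inv, Complex.norm_ofNat] at h3
      exact absurd h3 (not_lt.2 (hδ2 k))
  choose Wp hWpo hVW F hF using hall
  choose G hG1 hG2 hG3 using fun p q => exists_transition hU (hWpo p) (hWpo q) (hF p) (hF q)
  choose t ht1 ht2 using fun p => exists_section hU hs hsg (hWpo p) (hF p)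
  have hcancel : ∀ (T S S' : (Fin N → ℂ) →L[ℂ] (Fin N → ℂ)), IsUnit T → T * S = T * S' → S = S' := 
    fun T S S' hT h => hT.mul_left_cancel h
  have hcancel' : ∀ (T : (Fin N → ℂ) →L[ℂ] (Fin N → ℂ)), IsUnit T → ∀ v w, T v = T w → v = w := by
    intro T hT v w h
    have := Ring.inverse_mul_cancel T hT
    calc v = (T⁻¹ʳ * T) v := by rw [this]; rfl
      _ = T⁻¹ʳ (T v) := rfl
      _ = T⁻¹ʳ (T w) := by rw [h]
      _ = (T⁻¹ʳ * T) w := rfl
      _ = w := by rw [this]; rfl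
  refine hE N (1 / 2) 2 (by norm_num) (by norm_num) δ hδ G ?_ ?_ ?_ t ?_ ?_ ?_ ?_
  · intro p q
    exact (hG1 p q).mono (fun z hz => ⟨⟨hVW p hz.1, hVW q hz.2⟩, hVcov p hz.1⟩)
  · intro p z hz
    obtain ⟨i, hi⟩ := mem_iUnion.1 (hVcov p hz)
    have := hG3 p p i z ⟨hVW p hz, hVW p hz⟩ hi
    exact (hcancel (F p i z) _ _ ((hF p).unit i z ⟨hVW p hz, hi⟩) (by rw [mul_one]; exact this)).symm
  · rintro p q r z ⟨⟨hz1, hz2⟩, hz3⟩
    obtain ⟨i, hi⟩ := mem_iUnion.1 (hVcov p hz1)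
    have e1 := hG3 p q i z ⟨hVW p hz1, hVW q hz2⟩ hi
    have e2 := hG3 q r i z ⟨hVW q hz2, hVW r hz3⟩ hi
    have e3 := hG3 p r i z ⟨hVW p hz1, hVW r hz3⟩ hi
    refine hcancel (F p i z) _ _ ((hF p).unit i z ⟨hVW p hz1, hi⟩) ?_
    rw [← mul_assoc, ← e1, ← e2, e3]
  · intro p
    exact (ht1 p).mono (fun z hz => ⟨hVW p hz, hVcov p hz⟩)
  · rintro p q z ⟨hz1, hz2⟩
    obtain ⟨i, hi⟩ := mem_iUnion.1 (hVcov p hz1)
    have e1 := hG3 p q i z ⟨hVW p hz1, hVW q hz2⟩ hi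
    have e2 := ht2 p i z (hVW p hz1) hi
    have e3 := ht2 q i z (hVW q hz2) hi
    refine hcancel' (F p i z) ((hF p).unit i z ⟨hVW p hz1, hi⟩) _ _ ?_
    rw [← e2, e3, e1]
    rfl
  · intro k
    have hz : ![(2 : ℂ)⁻¹ ^ k, 0, 0] ∈ V (1 / 2) 2 δ (Sum.inr k) := by
      refine ⟨?_, ?_, ?_⟩
      · simpa using hδ k
      · simp
      · simp
    obtain ⟨i, hi⟩ := mem_iUnion.1 (hVcov _ hz)
    have e2 := ht2 (Sum.inr k) i _ (hVW _ hz) hi
    have e4 : (2 : ℂ)⁻¹ ^ k = (2 : ℂ) ^ (-(k : ℤ)) := by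
      rw [zpow_neg, zpow_natCast, inv_pow]
    have e3 : s i ![(2 : ℂ)⁻¹ ^ k, 0, 0] = 0 := by
      rw [e4] at hi ⊢
      exact h0 _ i hi
    rw [e3] at e2
    refine hcancel' _ ((hF (Sum.inr k)).unit i _ ⟨hVW _ hz, hi⟩) _ _ ?_
    rw [← e2, map_zero]
  · refine ⟨-1, by norm_num, by norm_num, ?_⟩
    have hz : ![(-1 : ℂ), 0, 0] ∈ V (1 / 2) 2 δ (Sum.inl 0) := by
      refine ⟨?_, ?_⟩
      · simp; norm_num
      · intro j
        fin_cases j <;> simp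
    obtain ⟨i, hi⟩ := mem_iUnion.1 (hVcov _ hz)
    have e2 := ht2 (Sum.inl 0) i _ (hVW _ hz) hi
    intro hcon
    rw [hcon, map_zero] at e2
    refine h1 (-1) (by norm_num) ?_ i hi e2
    intro k hk
    have h3 : (((-1 : ℝ)) : ℂ) = (((2 : ℝ) ^ k : ℝ) : ℂ) := by
      push_cast
      exact hk
    have h4 := Complex.ofReal_injective h3
    have h5 : (0 : ℝ) < 2 ^ k := by positivity
    linarith

end Pool.Agent.HP
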