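import Mathlib

set_option autoImplicit false

open Set Filter Topology Metric

namespace Pool.Agent.HP.EG

/-- multi-exponents -/
abbrev Z3 := Fin 3 → ℤ

/-- radii of a shell: inner radii `ρ.1`, outer radii `ρ.2` -/
abbrev Rd := (Fin 3 → ℝ) × (Fin 3 → ℝ)

/-- the radii are positive and increasing -/
def Ok (ρ : Rd) : Prop := ∀ i, 0 < ρ.1 i ∧ ρ.1 i < ρ.2 i

/-- the shell `ρ` is contained in the shell `β` -/
def Sub (ρ β : Rd) : Prop := ∀ i, β.1 i ≤ ρ.1 i ∧ ρ.2 i ≤ β.2 i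

/-- the weight of the exponent `k` for the shell `ρ` -/
noncomputable def w (ρ : Rd) (k : Z3) : ℝ := ∏ i, max (ρ.1 i ^ k i) (ρ.2 i ^ k i)

section
variable {V : Type*} [NormedAddCommGroup V] [NormedSpace ℂ V]

/-- the coefficient family `a` is absolutely summable on the shell `ρ` -/
def Sm (ρ : Rd) (a : Z3 → V) : Prop := Summable fun k => ‖a k‖ * w ρ k

/-- the weighted `ℓ¹` norm -/
noncomputable def nm (ρ : Rd) (a : Z3 → V) : ℝ := ∑' k, ‖a k‖ * w ρ k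

/-- only nonnegative exponents in the variables outside `I` -/
def Sup (I : Set (Fin 3)) (a : Z3 → V) : Prop := ∀ (k : Z3) (l : Fin 3), l ∉ I → k l < 0 → a k = 0

/-- convolution -/
noncomputable def cv (T : Z3 → (V →L[ℂ] V)) (a : Z3 → V) : Z3 → V :=
  fun k => ∑' l, T l (a (k - l))

/-- projection to the exponents with `k j ≥ 0` -/
noncomputable def Pp (j : Fin 3) (a : Z3 → V) : Z3 → V := fun k => if 0 ≤ k j then a k else 0

/-- projection to the exponents with `k j < 0` -/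
noncomputable def Pm (j : Fin 3) (a : Z3 → V) : Z3 → V := fun k => if 0 ≤ k j then 0 else a k

/-- projection to the families with `Sup {i}` -/
noncomputable def Pr (i : Fin 3) (a : Z3 → V) : Z3 → V :=
  open Classical in fun k => if ∀ l, l ≠ i → 0 ≤ k l then a k else 0

/-- the monomial `z ^ k` -/
noncomputable def mon (z : Fin 3 → ℂ) (k : Z3) : ℂ := ∏ i, z i ^ k i

/-- evaluation of the Laurent series with coefficients `a` -/
noncomputable def ev (z : Fin 3 → ℂ) (a : Z3 → V) : V := ∑' k, mon z k • a k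

/-- closed region: annulus in the variables of `I`, disc in the others -/
def CR (ρ : Rd) (I : Set (Fin 3)) (z : Fin 3 → ℂ) : Prop :=
  (∀ i ∈ I, ρ.1 i ≤ ‖z i‖) ∧ ∀ j, ‖z j‖ ≤ ρ.2 j

/-- open region -/
def Rg (ρ : Rd) (I : Set (Fin 3)) : Set (Fin 3 → ℂ) :=
  {z | (∀ i ∈ I, ρ.1 i < ‖z i‖) ∧ ∀ j, ‖z j‖ < ρ.2 j}

/-- open region with equal radii `r < R` -/
def Om (r R : ℝ) (I : Set (Fin 3)) : Set (Fin 3 → ℂ) :=
  {z | (∀ i ∈ I, r < ‖z i‖) ∧ ∀ j, ‖z j‖ < R}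

/-- coefficient families of the transition maps -/
structure TT (β : Rd) (T : Fin 3 → Fin 3 → Z3 → (V →L[ℂ] V)) : Prop where
  sm : ∀ i j, Sm β (T i j)
  sup : ∀ i j, Sup {i, j} (T i j)
  mul : ∀ ρ, Ok ρ → Sub ρ β → ∀ i j k (a : Z3 → V), Sm ρ a →
    cv (T i j) (cv (T j k) a) = cv (T i k) a
  one : ∀ ρ, Ok ρ → Sub ρ β → ∀ i (a : Z3 → V), Sm ρ a → cv (T i i) a = a

/-- cocycles on the shell `ρ` -/
structure Cc (ρ : Rd) (T : Fin 3 → Fin 3 → Z3 → (V →L[ℂ] V)) (ξ : Fin 3 → Fin 3 → Z3 → V) :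
    Prop where
  sm : ∀ i j, Sm ρ (ξ i j)
  sup : ∀ i j, Sup {i, j} (ξ i j)
  co : ∀ i j k, ξ i k = ξ i j + cv (T i j) (ξ j k)

/-- norm of a cochain -/
noncomputable def nx (ρ : Rd) (ξ : Fin 3 → Fin 3 → Z3 → V) : ℝ := ∑ i, ∑ j, nm ρ (ξ i j)

/-- decoding of an element of `ℓ¹` -/
noncomputable def dec (σ : Rd) (x : lp (fun _ : Z3 => V) 1) : Z3 → V := fun k => ((w σ k : ℝ) : ℂ)⁻¹ • x k

end


end Pool.Agent.HP.EG
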