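import Pool.Agent.HopfPinch.EG0

set_option autoImplicit false

open Set Filter Topology Metric

namespace Pool.Agent.HP.EG

/-! ### block E1 : weights, norms, convolution -/

theorem J4869_neg {a x : ℝ} (ha : 0 < a) (hx : a ≤ x) {k : ℤ} (hk : k < 0) : x ^ k ≤ a ^ k := by
  have hx0 : 0 < x := lt_of_lt_of_le ha hx
  have h1 : x ^ k = (x⁻¹) ^ (-k) := by rw [inv_zpow, zpow_neg, inv_inv]
  have h2 : a ^ k = (a⁻¹) ^ (-k) := by rw [inv_zpow, zpow_neg, inv_inv]
  rw [h1, h2]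
  exact zpow_le_zpow_left₀ (by omega) (inv_nonneg.2 hx0.le) (inv_anti₀ ha hx)

theorem J4869_one {a x b : ℝ} (ha : 0 < a) (hx : a ≤ x) (hb : x ≤ b) (k : ℤ) :
    x ^ k ≤ max (a ^ k) (b ^ k) := by
  rcases lt_or_ge k 0 with hk | hk
  · exact (J4869_neg ha hx hk).trans (le_max_left _ _)
  · exact (zpow_le_zpow_left₀ hk (ha.le.trans hx) hb).trans (le_max_right _ _)

theorem J4869_fpos {ρ : Rd} (h : Ok ρ) (k : Z3) (i : Fin 3) :
    0 < max (ρ.1 i ^ k i) (ρ.2 i ^ k i) :=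
  lt_of_lt_of_le (zpow_pos (h i).1 _) (le_max_left _ _)

theorem w_pos {ρ : Rd} (h : Ok ρ) (k : Z3) : 0 < w ρ k := by
  unfold w
  exact Finset.prod_pos fun i _ => J4869_fpos h k i

theorem w_add_le {ρ : Rd} (h : Ok ρ) (k l : Z3) : w ρ (k + l) ≤ w ρ k * w ρ l := by
  unfold w
  rw [← Finset.prod_mul_distrib]
  apply Finset.prod_le_prod
  · intro i _; exact (J4869_fpos h (k + l) i).le
  · intro i _
    have h1 := (h i).1
    have h2 : 0 < ρ.2 i := h1.trans (h i).2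
    rw [Pi.add_apply, zpow_add₀ h1.ne', zpow_add₀ h2.ne']
    apply max_le
    · exact mul_le_mul (le_max_left _ _) (le_max_left _ _) (zpow_pos h1 _).le (J4869_fpos h k i).le
    · exact mul_le_mul (le_max_right _ _) (le_max_right _ _) (zpow_pos h2 _).le (J4869_fpos h k i).le

theorem w_mono {ρ β : Rd} (h : Ok ρ) (hb : Ok β) (hs : Sub ρ β) (k : Z3) : w ρ k ≤ w β k := by
  unfold w
  apply Finset.prod_le_prod
  · intro i _; exact (J4869_fpos h k i).le
  · intro i _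
    obtain ⟨h1, h2⟩ := hs i
    have h3 := (h i).2.le
    apply max_le
    · exact J4869_one (hb i).1 h1 (h3.trans h2) _
    · exact J4869_one (hb i).1 (h1.trans h3) h2 _

/-- changing the outer radius `p` does not change the weight of exponents with `k p < 0` -/
theorem w_outer {ρ ρ' : Rd} (h : Ok ρ) (h' : Ok ρ') (p : Fin 3)
    (e1 : ∀ i, i ≠ p → ρ'.1 i = ρ.1 i) (e2 : ∀ i, i ≠ p → ρ'.2 i = ρ.2 i) (e3 : ρ'.1 p = ρ.1 p)
    (k : Z3) (hk : k p < 0) : w ρ' k = w ρ k := by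
  unfold w
  apply Finset.prod_congr rfl
  intro i _
  by_cases hi : i = p
  · subst hi
    rw [max_eq_left (J4869_neg (h' i).1 (h' i).2.le hk), max_eq_left (J4869_neg (h i).1 (h i).2.le hk),
      e3]
  · rw [e1 i hi, e2 i hi]

/-- changing the inner radius `p` does not change the weight of exponents with `0 ≤ k p` -/
theorem w_inner {ρ ρ' : Rd} (h : Ok ρ) (h' : Ok ρ') (p : Fin 3)
    (e1 : ∀ i, i ≠ p → ρ'.1 i = ρ.1 i) (e2 : ∀ i, i ≠ p → ρ'.2 i = ρ.2 i) (e3 : ρ'.2 p = ρ.2 p)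
    (k : Z3) (hk : 0 ≤ k p) : w ρ' k = w ρ k := by
  unfold w
  apply Finset.prod_congr rfl
  intro i _
  by_cases hi : i = p
  · subst hi
    rw [max_eq_right (zpow_le_zpow_left₀ hk (h' i).1.le (h' i).2.le),
      max_eq_right (zpow_le_zpow_left₀ hk (h i).1.le (h i).2.le), e3]
  · rw [e1 i hi, e2 i hi]

section
variable {V : Type*} [NormedAddCommGroup V] [NormedSpace ℂ V] {ρ β : Rd}

theorem nm_nonneg (h : Ok ρ) (a : Z3 → V) : 0 ≤ nm ρ a := by
  unfold nm
  exact tsum_nonneg fun k => mul_nonneg (norm_nonneg _) (w_pos h k).le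

end
end Pool.Agent.HP.EG
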