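import Pool.Agent.HopfPinch.EG9

set_option autoImplicit false

open Set Filter Topology Metric

namespace Pool.Agent.HP.EG

/-! ### block E1 : weights, norms, convolution -/

section
variable {V : Type*} [NormedAddCommGroup V] [NormedSpace ℂ V] {ρ β : Rd}

variable [CompleteSpace V]

/-! ### block E2 : evaluation -/

end

/-! ### block E3 : Laurent expansion -/

/-! ### block E4 : the bumps -/

/-- auxiliary: the composition property -/
def PP {V : Type} [NormedAddCommGroup V] [NormedSpace ℂ V] (T : Fin 3 → Fin 3 → Z3 → (V →L[ℂ] V))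
    (ρ ρ' : Rd) : Prop :=
  ∃ C : ℝ, 0 ≤ C ∧ ∀ ξ, Cc ρ T ξ → ∃ (η : Fin 3 → Fin 3 → Z3 → V) (b : Fin 3 → Z3 → V),
      Cc ρ' T η ∧ (∀ i, Sm ρ (b i) ∧ Sup {i} (b i)) ∧
      (∀ i j, ξ i j = η i j + (b i - cv (T i j) (b j))) ∧
      nx ρ' η ≤ C * nx ρ ξ ∧ ∀ i, nm ρ (b i) ≤ C * nx ρ ξ

theorem nx_nonneg' {V : Type} [NormedAddCommGroup V] [NormedSpace ℂ V] {ρ : Rd} (h : Ok ρ)
    (ξ : Fin 3 → Fin 3 → Z3 → V) : 0 ≤ nx ρ ξ :=
  Finset.sum_nonneg fun _ _ => Finset.sum_nonneg fun _ _ => nm_nonneg h _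

theorem PP_refl {V : Type} [NormedAddCommGroup V] [NormedSpace ℂ V]
    {T : Fin 3 → Fin 3 → Z3 → (V →L[ℂ] V)} {ρ : Rd} (h : Ok ρ) : PP T ρ ρ := by
  refine ⟨1, zero_le_one, fun ξ hξ => ⟨ξ, 0, hξ, fun i => ⟨?_, ?_⟩, fun i j => ?_, ?_, fun i => ?_⟩⟩
  · simp [Sm, summable_zero]
  · intro k l _ _
    rfl
  · have : cv (T i j) ((0 : Fin 3 → Z3 → V) j) = 0 := by
      funext k
      simp [cv]
    rw [this]
    simp
  · rw [one_mul]
  · have : nm ρ ((0 : Fin 3 → Z3 → V) i) = 0 := by simp [nm]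
    rw [this, one_mul]
    exact nx_nonneg' h ξ

theorem PP_comp {V : Type} [NormedAddCommGroup V] [NormedSpace ℂ V] [CompleteSpace V]
    {β : Rd} (hβ : Ok β) {T : Fin 3 → Fin 3 → Z3 → (V →L[ℂ] V)} (hT : TT β T)
    {ρ ρ' ρ'' : Rd} (hρ : Ok ρ) (hρ' : Ok ρ') (hs : Sub ρ β) (hs' : Sub ρ ρ')
    (h1 : PP T ρ ρ') (h2 : PP T ρ' ρ'') : PP T ρ ρ'' := by
  obtain ⟨C1, hC1, H1⟩ := h1
  obtain ⟨C2, hC2, H2⟩ := h2
  refine ⟨C1 + C2 * C1, by positivity, fun ξ hξ => ?_⟩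
  obtain ⟨η, b, hη, hb, hξη, hn, hnb⟩ := H1 ξ hξ
  obtain ⟨ζ, c, hζ, hc, hηζ, hn', hnc⟩ := H2 η hη
  have hx := nx_nonneg' hρ ξ
  have hcm : ∀ i, Sm ρ (c i) ∧ nm ρ (c i) ≤ nm ρ' (c i) := fun i => Sm.mono hρ hρ' hs' (hc i).1
  have hTm : ∀ i j, Sm ρ (T i j) := fun i j => (Sm.mono hρ hβ hs (hT.sm i j)).1
  refine ⟨ζ, fun i => b i + c i, hζ, fun i => ⟨(Sm.add hρ (hb i).1 (hcm i).1).1,
    Sup.add (hb i).2 (hc i).2⟩, fun i j => ?_, ?_, fun i => ?_⟩
  · rw [cv_add hρ (hTm i j) (hb j).1 (hcm j).1, hξη i j, hηζ i j]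
    generalize cv (T i j) (b j) = A
    generalize cv (T i j) (c j) = B
    generalize ζ i j = Z
    change Z + (c i - B) + (b i - A) = Z + (b i + c i - (A + B))
    generalize b i = x
    generalize c i = y
    abel
  · calc nx ρ'' ζ ≤ C2 * nx ρ' η := hn'
      _ ≤ C2 * (C1 * nx ρ ξ) := mul_le_mul_of_nonneg_left hn hC2
      _ ≤ (C1 + C2 * C1) * nx ρ ξ := by nlinarith [mul_nonneg hC1 hx]
  · calc nm ρ (b i + c i) ≤ nm ρ (b i) + nm ρ (c i) := (Sm.add hρ (hb i).1 (hcm i).1).2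
      _ ≤ C1 * nx ρ ξ + C2 * nx ρ' η := add_le_add (hnb i) ((hcm i).2.trans (hnc i))
      _ ≤ C1 * nx ρ ξ + C2 * (C1 * nx ρ ξ) :=
        add_le_add le_rfl (mul_le_mul_of_nonneg_left hn hC2)
      _ = (C1 + C2 * C1) * nx ρ ξ := by ring

/-- auxiliary: mixed radii -/
noncomputable def RR (σ β : Rd) (s t : Finset (Fin 3)) : Rd :=
  (fun i => if i ∈ t then β.1 i else σ.1 i, fun i => if i ∈ s then β.2 i else σ.2 i)

theorem RR_ok {σ β : Rd} (hσ : Ok σ) (hβ : Ok β) (hs : Sub σ β) (s t : Finset (Fin 3)) :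
    Ok (RR σ β s t) ∧ Sub (RR σ β s t) β ∧ Sub σ (RR σ β s t) := by
  refine ⟨fun i => ?_, fun i => ?_, fun i => ?_⟩ <;>
  · have h1 := hσ i
    have h2 := hβ i
    have h3 := hs i
    simp only [RR]
    split_ifs <;> constructor <;> linarith

/-- all six bumps together -/
theorem bumps {V : Type} [NormedAddCommGroup V] [NormedSpace ℂ V] [CompleteSpace V]
    {β : Rd} (hβ : Ok β) {T : Fin 3 → Fin 3 → Z3 → (V →L[ℂ] V)} (hT : TT β T)
    {σ : Rd} (hσ : Ok σ) (hs : Sub σ β) :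
    ∃ C : ℝ, 0 ≤ C ∧ ∀ ξ, Cc σ T ξ → ∃ (η : Fin 3 → Fin 3 → Z3 → V) (b : Fin 3 → Z3 → V),
      Cc β T η ∧ (∀ i, Sm σ (b i) ∧ Sup {i} (b i)) ∧
      (∀ i j, ξ i j = η i j + (b i - cv (T i j) (b j))) ∧
      nx β η ≤ C * nx σ ξ ∧ ∀ i, nm σ (b i) ≤ C * nx σ ξ := by
  change PP T σ β
  have key1 : ∀ s : Finset (Fin 3), PP T σ (RR σ β s ∅) := by
    intro s
    induction s using Finset.induction_on with
    | empty =>
      have : RR σ β ∅ ∅ = σ := by
        simp [RR]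
      rw [this]
      exact PP_refl hσ
    | insert p s hp ih =>
      obtain ⟨o1, o2, o3⟩ := RR_ok hσ hβ hs s ∅
      refine PP_comp hβ hT hσ o1 hs o3 ih ?_
      have hb := bump_outer hβ hT o1 o2 p
      have e : ((RR σ β s ∅).1, Function.update (RR σ β s ∅).2 p (β.2 p)) =
          RR σ β (insert p s) ∅ := by
        refine Prod.ext rfl (funext fun i => ?_)
        by_cases hi : i = p
        · subst hi
          simp [RR]
        · simp [RR, Finset.mem_insert, hi]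
      rw [e] at hb
      exact hb
  have key2 : ∀ t : Finset (Fin 3), PP T σ (RR σ β Finset.univ t) := by
    intro t
    induction t using Finset.induction_on with
    | empty => exact key1 _
    | insert p t hp ih =>
      obtain ⟨o1, o2, o3⟩ := RR_ok hσ hβ hs Finset.univ t
      refine PP_comp hβ hT hσ o1 hs o3 ih ?_
      have hb := bump_inner hβ hT o1 o2 p
      have e : (Function.update (RR σ β Finset.univ t).1 p (β.1 p), (RR σ β Finset.univ t).2) =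
          RR σ β Finset.univ (insert p t) := by
        refine Prod.ext (funext fun i => ?_) rfl
        by_cases hi : i = p
        · subst hi
          simp [RR]
        · simp [RR, Finset.mem_insert, hi]
      rw [e] at hb
      exact hb
  have h := key2 Finset.univ
  have e : RR σ β Finset.univ Finset.univ = β := by
    simp [RR]
  rw [e] at h
  exact h

end Pool.Agent.HP.EG
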