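import Pool.Agent.HopfPinch.EG10

set_option autoImplicit false

open Set Filter Topology Metric

namespace Pool.Agent.HP.EG

/-! ### block E1 : weights, norms, convolution -/

section
variable {V : Type*} [NormedAddCommGroup V] [NormedSpace ℂ V] {ρ β : Rd}

variable [CompleteSpace V]

/-! ### block E2 : evaluation -/

end

/-! ### block E3 : Laurent expansion -/

/-! ### block E4 : the bumps -/

/-! ### block E5 : abstract finiteness -/

theorem fin_lemma {E B : Type} [NormedAddCommGroup E] [NormedSpace ℂ E] [NormedAddCommGroup B]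
    [NormedSpace ℂ B] [CompleteSpace B] (Z : Submodule ℂ E) (d : B →L[ℂ] E) (K : Set E)
    (hK : TotallyBounded K) (C : ℝ)
    (h : ∀ x ∈ Z, ‖x‖ ≤ 1 → ∃ y ∈ Z, y ∈ K ∧ ∃ b, x = y + d b ∧ ‖b‖ ≤ C)
    (x : ℕ → E) (hx : ∀ n, x n ∈ Z) :
    ∃ μ : ℕ →₀ ℂ, μ ≠ 0 ∧ ∃ b, (μ.sum fun n c => c • x n) = d b := by
  classical
  obtain ⟨S, hSK, hSf, hScov⟩ := Metric.finite_approx_of_totallyBounded
    (hK.subset (inter_subset_left (s := K) (t := (Z : Set E)))) (1 / 2) (by norm_num)
  haveI : Fintype S := hSf.fintype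
  let D : ((S → ℂ) × B) →L[ℂ] E :=
    (∑ s : S, (ContinuousLinearMap.proj (R := ℂ) (φ := fun _ : S => ℂ) s).smulRight (s : E)).comp
      (ContinuousLinearMap.fst ℂ (S → ℂ) B) + d.comp (ContinuousLinearMap.snd ℂ (S → ℂ) B)
  have hD : ∀ p, D p = ∑ s : S, p.1 s • (s : E) + d p.2 := by
    intro p
    simp [D, ContinuousLinearMap.sum_apply]
  -- one step
  have h1 : ∀ x ∈ Z, ‖x‖ ≤ 1 → ∃ p : (S → ℂ) × B, ‖p‖ ≤ max 1 C ∧ x - D p ∈ Z ∧
      ‖x - D p‖ ≤ 1 / 2 := by
    intro x hx hx1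
    obtain ⟨y, hyZ, hyK, b, hxy, hb⟩ := h x hx hx1
    obtain ⟨s, hs, hys⟩ := mem_iUnion₂.1 (hScov ⟨hyK, hyZ⟩)
    have hDs : x - D (Pi.single ⟨s, hs⟩ 1, b) = y - s := by
      rw [hD, hxy]
      simp only [Pi.single_apply, ite_smul, one_smul, zero_smul, Finset.sum_ite_eq',
        Finset.mem_univ, if_true]
      abel
    refine ⟨(Pi.single ⟨s, hs⟩ 1, b), ?_, ?_, ?_⟩
    · rw [Prod.norm_def]
      apply max_le_max _ hb
      rw [pi_norm_le_iff_of_nonneg zero_le_one]
      intro i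
      simp only [Pi.single_apply]
      split_ifs <;> simp
    · rw [hDs]; exact Z.sub_mem hyZ (hSK hs).2
    · rw [hDs, ← dist_eq_norm]; exact hys.le
  have h2 : ∀ x : E, ∃ p : (S → ℂ) × B, x ∈ Z → ‖p‖ ≤ max 1 C * ‖x‖ ∧ x - D p ∈ Z ∧
      ‖x - D p‖ ≤ 1 / 2 * ‖x‖ := by
    intro x
    by_cases hx : x ∈ Z
    swap
    · exact ⟨0, fun h => absurd h hx⟩
    rcases eq_or_ne x 0 with rfl | hx0
    · exact ⟨0, fun _ => by simp⟩
    have hn : (0:ℝ) < ‖x‖ := norm_pos_iff.2 hx0
    have hn' : ((‖x‖ : ℝ) : ℂ) ≠ 0 := by exact_mod_cast hn.ne'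
    obtain ⟨p, hp1, hp2, hp3⟩ := h1 (((‖x‖ : ℝ) : ℂ)⁻¹ • x) (Z.smul_mem _ hx) (by
      rw [norm_smul, norm_inv, Complex.norm_real, norm_norm, inv_mul_cancel₀ hn.ne'])
    have key : x - D (((‖x‖ : ℝ) : ℂ) • p) =
        ((‖x‖ : ℝ) : ℂ) • (((‖x‖ : ℝ) : ℂ)⁻¹ • x - D p) := by
      rw [map_smul, smul_sub, smul_smul, mul_inv_cancel₀ hn', one_smul]
    refine ⟨((‖x‖ : ℝ) : ℂ) • p, fun _ => ⟨?_, ?_, ?_⟩⟩
    · rw [norm_smul, Complex.norm_real, norm_norm, mul_comm]
      exact mul_le_mul_of_nonneg_right hp1 hn.le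
    · rw [key]; exact Z.smul_mem _ hp2
    · rw [key, norm_smul, Complex.norm_real, norm_norm, mul_comm]
      exact mul_le_mul_of_nonneg_right hp3 hn.le
  choose g hg using h2
  -- iteration
  have h3 : ∀ x ∈ Z, ∃ p, D p = x := by
    intro x hx
    let hh : E → E := fun x => x - D (g x)
    have hit : ∀ n, hh^[n] x ∈ Z ∧ ‖hh^[n] x‖ ≤ (1 / 2) ^ n * ‖x‖ := by
      intro n
      induction n with
      | zero => simpa using hx
      | succ n ih =>
        rw [Function.iterate_succ_apply']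
        obtain ⟨_, h5, h6⟩ := hg _ ih.1
        refine ⟨h5, h6.trans ?_⟩
        rw [pow_succ]
        nlinarith [ih.2]
    let u : ℕ → (S → ℂ) × B := fun n => g (hh^[n] x)
    have hu : ∀ n, ‖u n‖ ≤ max 1 C * ‖x‖ * (1 / 2) ^ n := by
      intro n
      refine ((hg _ (hit n).1).1).trans ?_
      have h7 : (0:ℝ) ≤ max 1 C := le_trans zero_le_one (le_max_left _ _)
      calc max 1 C * ‖hh^[n] x‖ ≤ max 1 C * ((1 / 2) ^ n * ‖x‖) :=
            mul_le_mul_of_nonneg_left (hit n).2 h7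
        _ = _ := by ring
    have hsum : Summable u := by
      refine Summable.of_norm_bounded (g := fun n => max 1 C * ‖x‖ * (1 / 2) ^ n) ?_ hu
      exact (summable_geometric_of_lt_one (by norm_num) (by norm_num)).mul_left _
    have hpart : ∀ n, D (∑ i ∈ Finset.range n, u i) = x - hh^[n] x := by
      intro n
      induction n with
      | zero => simp
      | succ n ih =>
        rw [Finset.sum_range_succ, map_add, ih, Function.iterate_succ_apply']
        simp only [u, hh]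
        abel
    refine ⟨∑' n, u n, ?_⟩
    have ht1 : Tendsto (fun n => D (∑ i ∈ Finset.range n, u i)) atTop (𝓝 (D (∑' n, u n))) :=
      (D.continuous.tendsto _).comp hsum.hasSum.tendsto_sum_nat
    have ht2 : Tendsto (fun n => D (∑ i ∈ Finset.range n, u i)) atTop (𝓝 x) := by
      simp only [hpart]
      have h8 : Tendsto (fun n => hh^[n] x) atTop (𝓝 0) := by
        refine squeeze_zero_norm (fun n => (hit n).2) ?_
        have := (tendsto_pow_atTop_nhds_zero_of_lt_one (r := (1/2:ℝ)) (by norm_num)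
          (by norm_num)).mul_const ‖x‖
        simpa using this
      simpa using tendsto_const_nhds.sub h8
    exact tendsto_nhds_unique ht1 ht2
  -- linear dependence
  choose p hp using fun n => h3 (x n) (hx n)
  have hnl : ¬ LinearIndependent ℂ (fun n => (p n).1) := by
    intro hl
    have := hl.finite
    exact not_finite ℕ
  rw [linearIndependent_iff] at hnl
  push Not at hnl
  obtain ⟨μ, hμ, hμ0⟩ := hnl
  refine ⟨μ, hμ0, μ.sum fun n c => c • (p n).2, ?_⟩
  have h9 : (μ.sum fun n c => c • x n) = D (μ.sum fun n c => c • p n) := by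
    simp only [Finsupp.sum, map_sum, map_smul, hp]
  have h10 : (μ.sum fun n c => c • p n).1 = 0 := by
    rw [← hμ, Finsupp.linearCombination_apply]
    simp only [Finsupp.sum, Prod.fst_sum, Prod.smul_fst]
  have h11 : (μ.sum fun n c => c • p n).2 = μ.sum fun n c => c • (p n).2 := by
    simp only [Finsupp.sum, Prod.snd_sum, Prod.smul_snd]
  rw [h9, hD, h10, h11]
  simp

end Pool.Agent.HP.EG
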