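import Pool.Agent.HopfPinch.EG11

set_option autoImplicit false

open Set Filter Topology Metric

namespace Pool.Agent.HP.EG

/-! ### block E1 : weights, norms, convolution -/

section
variable {V : Type*} [NormedAddCommGroup V] [NormedSpace ℂ V] {ρ β : Rd}

variable [CompleteSpace V]

/-! ### block E2 : evaluation -/

end

/-! ### block E3 : Laurent expansion -/

/-! ### block E4 : the bumps -/

/-! ### block E5 : abstract finiteness -/

/-! ### block E6 : coding in `ℓ¹` and total boundedness -/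

theorem lp1_summable {V : Type} [NormedAddCommGroup V] (x : lp (fun _ : Z3 => V) 1) :
    Summable fun k => ‖x k‖ := by
  have h := (lp.memℓp x).summable (by simp)
  simpa using h

theorem lp1_norm {V : Type} [NormedAddCommGroup V] (x : lp (fun _ : Z3 => V) 1) :
    ‖x‖ = ∑' k, ‖x k‖ := by
  rw [lp.norm_eq_tsum_rpow (by simp)]
  simp

/-- coding: a summable family is the decoding of an element of `ℓ¹` of the same norm -/
theorem enc_exists {V : Type} [NormedAddCommGroup V] [NormedSpace ℂ V] {σ : Rd} (hσ : Ok σ)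
    {a : Z3 → V} (ha : Sm σ a) :
    ∃ x : lp (fun _ : Z3 => V) 1, dec σ x = a ∧ ‖x‖ = nm σ a := by
  have hnorm : ∀ k, ‖((w σ k : ℝ) : ℂ) • a k‖ = ‖a k‖ * w σ k := by
    intro k
    rw [norm_smul, Complex.norm_real, Real.norm_of_nonneg (w_pos hσ k).le, mul_comm]
  have hmem : Memℓp (fun k => ((w σ k : ℝ) : ℂ) • a k) 1 := by
    refine memℓp_gen ?_
    simp only [ENNReal.toReal_one, Real.rpow_one, hnorm]
    exact ha
  refine ⟨⟨fun k => ((w σ k : ℝ) : ℂ) • a k, hmem⟩, ?_, ?_⟩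
  · funext k
    have h0 : ((w σ k : ℝ) : ℂ) ≠ 0 := by exact_mod_cast (w_pos hσ k).ne'
    show ((w σ k : ℝ) : ℂ)⁻¹ • (((w σ k : ℝ) : ℂ) • a k) = a k
    rw [smul_smul, inv_mul_cancel₀ h0, one_smul]
  · rw [lp1_norm]
    unfold nm
    refine tsum_congr fun k => ?_
    exact hnorm k

theorem dec_props {V : Type} [NormedAddCommGroup V] [NormedSpace ℂ V] {σ : Rd} (hσ : Ok σ)
    (x y : lp (fun _ : Z3 => V) 1) (c : ℂ) :
    Sm σ (dec σ x) ∧ nm σ (dec σ x) = ‖x‖ ∧ dec σ (x + y) = dec σ x + dec σ y ∧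
      dec σ (c • x) = c • dec σ x ∧ (dec σ x = dec σ y → x = y) := by
  have hnorm : ∀ k, ‖dec σ x k‖ * w σ k = ‖x k‖ := by
    intro k
    show ‖((w σ k : ℝ) : ℂ)⁻¹ • x k‖ * w σ k = ‖x k‖
    have h0 := (w_pos hσ k).ne'
    rw [norm_smul, norm_inv, Complex.norm_real, Real.norm_of_nonneg (w_pos hσ k).le]
    field_simp
  refine ⟨?_, ?_, ?_, ?_, ?_⟩
  · unfold Sm
    simp only [hnorm]
    exact lp1_summable x
  · rw [lp1_norm]
    unfold nm
    exact tsum_congr hnorm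
  · funext k
    show ((w σ k : ℝ) : ℂ)⁻¹ • (x + y) k = ((w σ k : ℝ) : ℂ)⁻¹ • x k + ((w σ k : ℝ) : ℂ)⁻¹ • y k
    rw [← smul_add]
    rfl
  · funext k
    show ((w σ k : ℝ) : ℂ)⁻¹ • (c • x) k = c • (((w σ k : ℝ) : ℂ)⁻¹ • x k)
    rw [smul_comm]
    rfl
  · intro h
    ext k
    have h1 : ((w σ k : ℝ) : ℂ)⁻¹ • x k = ((w σ k : ℝ) : ℂ)⁻¹ • y k := congrFun h k
    have h0 : ((w σ k : ℝ) : ℂ) ≠ 0 := by exact_mod_cast (w_pos hσ k).ne'
    have h2 := congrArg (fun v => ((w σ k : ℝ) : ℂ) • v) h1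
    simpa [smul_smul, mul_inv_cancel₀ h0] using h2

end Pool.Agent.HP.EG
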