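import Pool.Agent.HopfPinch.EG12

set_option autoImplicit false

open Set Filter Topology Metric

namespace Pool.Agent.HP.EG

/-! ### block E1 : weights, norms, convolution -/

section
variable {V : Type*} [NormedAddCommGroup V] [NormedSpace ℂ V] {ρ β : Rd}

variable [CompleteSpace V]

/-! ### block E2 : evaluation -/

end

/-! ### block E3 : Laurent expansion -/

/-! ### block E4 : the bumps -/

/-! ### block E5 : abstract finiteness -/

/-! ### block E6 : coding in `ℓ¹` and total boundedness -/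

/-- the coboundary operator on `ℓ¹` -/
theorem cob_exists {V : Type} [NormedAddCommGroup V] [NormedSpace ℂ V] [CompleteSpace V]
    {β : Rd} (hβ : Ok β) {T : Fin 3 → Fin 3 → Z3 → (V →L[ℂ] V)} (hT : TT β T)
    {σ : Rd} (hσ : Ok σ) (hs : Sub σ β) :
    ∃ d : (Fin 3 → lp (fun _ : Z3 => V) 1) →L[ℂ] (Fin 3 → Fin 3 → lp (fun _ : Z3 => V) 1),
      ∀ b i j, dec σ (d b i j) = Pr i (dec σ (b i)) - cv (T i j) (Pr j (dec σ (b j))) := by
  classical
  have hTs : ∀ i j, Sm σ (T i j) ∧ nm σ (T i j) ≤ nm β (T i j) :=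
    fun i j => Sm.mono hσ hβ hs (hT.sm i j)
  obtain ⟨F, hF⟩ : ∃ F : (Fin 3 → lp (fun _ : Z3 => V) 1) → Fin 3 → Fin 3 → Z3 → V,
      F = fun b i j => EG.Pr i (dec σ (b i)) - cv (T i j) (EG.Pr j (dec σ (b j))) := ⟨_, rfl⟩
  have hdec : ∀ (b : Fin 3 → lp (fun _ : Z3 => V) 1) i, Sm σ (dec σ (b i)) ∧
      nm σ (dec σ (b i)) = ‖b i‖ := fun b i =>
    ⟨(dec_props hσ (b i) (b i) 1).1, (dec_props hσ (b i) (b i) 1).2.1⟩
  have hPr : ∀ (b : Fin 3 → lp (fun _ : Z3 => V) 1) i, Sm σ (EG.Pr i (dec σ (b i))) ∧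
      nm σ (EG.Pr i (dec σ (b i))) ≤ ‖b i‖ := by
    intro b i
    have h := Sm.Pr hσ i (hdec b i).1
    exact ⟨h.1, h.2.trans_eq (hdec b i).2⟩
  have hFS : ∀ b i j, Sm σ (F b i j) ∧ nm σ (F b i j) ≤ ‖b i‖ + nm β (T i j) * ‖b j‖ := by
    intro b i j
    have h1 := hPr b i
    have h2 := hPr b j
    have h3 := cv_Sm hσ (hTs i j).1 h2.1
    have h4 := Sm.sub hσ h1.1 h3.1
    rw [hF]
    refine ⟨h4.1, h4.2.trans (add_le_add h1.2 (h3.2.trans ?_))⟩
    exact mul_le_mul (hTs i j).2 h2.2 (nm_nonneg hσ _) (nm_nonneg hβ _)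
  choose X hX hXn using fun b i j => enc_exists hσ (hFS b i j).1
  have Pr_add : ∀ (i : Fin 3) (a b : Z3 → V), EG.Pr i (a + b) = EG.Pr i a + EG.Pr i b := by
    intro i a b
    funext k
    simp only [EG.Pr, Pi.add_apply]
    split_ifs <;> simp
  have Pr_smul : ∀ (i : Fin 3) (c : ℂ) (a : Z3 → V), EG.Pr i (c • a) = c • EG.Pr i a := by
    intro i c a
    funext k
    simp only [EG.Pr, Pi.smul_apply]
    split_ifs <;> simp
  have hadd : ∀ b c i j, F (b + c) i j = F b i j + F c i j := by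
    intro b c i j
    have e1 : ∀ i, dec σ ((b + c) i) = dec σ (b i) + dec σ (c i) := fun i =>
      (dec_props hσ (b i) (c i) 1).2.2.1
    rw [hF]
    simp only [e1, Pr_add]
    rw [cv_add hσ (hTs i j).1 (hPr b j).1 (hPr c j).1]
    abel
  have hsmul : ∀ (c : ℂ) b i j, F (c • b) i j = c • F b i j := by
    intro c b i j
    have e1 : ∀ i, dec σ ((c • b) i) = c • dec σ (b i) := fun i =>
      (dec_props hσ (b i) (b i) c).2.2.2.1
    rw [hF]
    simp only [e1, Pr_smul]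
    rw [cv_smul, smul_sub]
  obtain ⟨L, hL⟩ : ∃ L : (Fin 3 → lp (fun _ : Z3 => V) 1) →ₗ[ℂ]
      (Fin 3 → Fin 3 → lp (fun _ : Z3 => V) 1), ∀ b i j, L b i j = X b i j := by
    refine ⟨{ toFun := fun b i j => X b i j, map_add' := ?_, map_smul' := ?_ }, fun b i j => rfl⟩
    · intro b c
      funext i j
      apply (dec_props hσ (X (b + c) i j) ((X b i j) + (X c i j)) 1).2.2.2.2
      rw [hX, (dec_props hσ (X b i j) (X c i j) 1).2.2.1, hX, hX]
      exact hadd b c i j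
    · intro c b
      funext i j
      apply (dec_props hσ (X (c • b) i j) (c • (X b i j)) 1).2.2.2.2
      rw [hX, (dec_props hσ (X b i j) (X b i j) c).2.2.2.1, hX]
      exact hsmul c b i j
  obtain ⟨t, ht⟩ : ∃ t : ℝ, t = ∑ i, ∑ j, nm β (T i j) := ⟨_, rfl⟩
  have ht0 : 0 ≤ t := by
    rw [ht]
    exact Finset.sum_nonneg fun i _ => Finset.sum_nonneg fun j _ => nm_nonneg hβ _
  have hle : ∀ i j, nm β (T i j) ≤ t := by
    intro i j
    rw [ht]
    calc nm β (T i j) ≤ ∑ j, nm β (T i j) :=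
          Finset.single_le_sum (f := fun j => nm β (T i j)) (fun j _ => nm_nonneg hβ _)
            (Finset.mem_univ j)
      _ ≤ ∑ i, ∑ j, nm β (T i j) :=
          Finset.single_le_sum (f := fun i => ∑ j, nm β (T i j))
            (fun i _ => Finset.sum_nonneg fun j _ => nm_nonneg hβ _) (Finset.mem_univ i)
  have hbd : ∀ b, ‖L b‖ ≤ (1 + t) * ‖b‖ := by
    intro b
    have h0 : 0 ≤ (1 + t) * ‖b‖ := mul_nonneg (by linarith) (norm_nonneg _)
    rw [pi_norm_le_iff_of_nonneg h0]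
    intro i
    rw [pi_norm_le_iff_of_nonneg h0]
    intro j
    rw [hL, hXn]
    refine (hFS b i j).2.trans ?_
    have h1 : ‖b i‖ ≤ ‖b‖ := norm_le_pi_norm b i
    have h2 : ‖b j‖ ≤ ‖b‖ := norm_le_pi_norm b j
    have h3 : nm β (T i j) * ‖b j‖ ≤ t * ‖b‖ :=
      mul_le_mul (hle i j) h2 (norm_nonneg _) ht0
    linarith
  refine ⟨L.mkContinuous (1 + t) hbd, ?_⟩
  intro b i j
  rw [LinearMap.mkContinuous_apply, hL, hX, hF]

end Pool.Agent.HP.EG
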