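import Pool.Agent.HopfPinch.EG13

set_option autoImplicit false

open Set Filter Topology Metric

namespace Pool.Agent.HP.EG

/-! ### block E1 : weights, norms, convolution -/

section
variable {V : Type*} [NormedAddCommGroup V] [NormedSpace ℂ V] {ρ β : Rd}

variable [CompleteSpace V]

/-! ### block E2 : evaluation -/

end

/-! ### block E3 : Laurent expansion -/

/-! ### block E4 : the bumps -/

/-! ### block E5 : abstract finiteness -/

/-! ### block E6 : coding in `ℓ¹` and total boundedness -/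

/-- comparison of one factor of the weights -/
theorem fac_le {s1 s2 b1 b2 q : ℝ} (hb1 : 0 < b1) (hs12 : s1 < s2) (hs1 : 0 < s1)
    (hq : 0 < q) (h1 : b1 ≤ q * s1) (h2 : s2 ≤ q * b2) (k : ℤ) :
    max (s1 ^ k) (s2 ^ k) ≤ q ^ k.natAbs * max (b1 ^ k) (b2 ^ k) := by
  have hs2 : 0 < s2 := hs1.trans hs12
  obtain ⟨m, rfl | rfl⟩ := k.eq_nat_or_neg
  · simp only [zpow_natCast, Int.natAbs_natCast]
    have e1 : max (s1 ^ m) (s2 ^ m) = s2 ^ m :=
      max_eq_right (pow_le_pow_left₀ hs1.le hs12.le m)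
    rw [e1]
    calc s2 ^ m ≤ (q * b2) ^ m := pow_le_pow_left₀ hs2.le h2 m
      _ = q ^ m * b2 ^ m := mul_pow _ _ _
      _ ≤ q ^ m * max (b1 ^ m) (b2 ^ m) := by
        gcongr
        exact le_max_right _ _
  · simp only [zpow_neg, zpow_natCast, Int.natAbs_neg, Int.natAbs_natCast]
    have e1 : max (s1 ^ m)⁻¹ (s2 ^ m)⁻¹ = (s1 ^ m)⁻¹ := by
      apply max_eq_left
      apply inv_anti₀ (pow_pos hs1 m)
      exact pow_le_pow_left₀ hs1.le hs12.le m
    rw [e1]
    have e2 : (s1 ^ m)⁻¹ ≤ q ^ m * (b1 ^ m)⁻¹ := by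
      rw [← div_eq_mul_inv, inv_eq_one_div, div_le_div_iff₀ (pow_pos hs1 m) (pow_pos hb1 m),
        one_mul, ← mul_pow]
      exact pow_le_pow_left₀ hb1.le h1 m
    calc (s1 ^ m)⁻¹ ≤ q ^ m * (b1 ^ m)⁻¹ := e2
      _ ≤ q ^ m * max (b1 ^ m)⁻¹ (b2 ^ m)⁻¹ := by
        gcongr
        exact le_max_left _ _

/-- outside a finite set of exponents the weight of the smaller shell is much smaller -/
theorem w_ratio {β σ : Rd} (hβ : Ok β) (hσ : Ok σ) (hs : ∀ i, β.1 i < σ.1 i ∧ σ.2 i < β.2 i)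
    {ε : ℝ} (hε : 0 < ε) : ∃ A : Finset Z3, ∀ k, k ∉ A → w σ k ≤ ε * w β k := by
  obtain ⟨i0, hi0⟩ := Finite.exists_max (fun i : Fin 3 => max (β.1 i / σ.1 i) (σ.2 i / β.2 i))
  set q : ℝ := max (β.1 i0 / σ.1 i0) (σ.2 i0 / β.2 i0) with hqdef
  have hβ2 : ∀ i, 0 < β.2 i := fun i => (hβ i).1.trans (hβ i).2
  have hσ2 : ∀ i, 0 < σ.2 i := fun i => (hσ i).1.trans (hσ i).2
  have hq0 : 0 < q := lt_max_of_lt_left (div_pos (hβ i0).1 (hσ i0).1)
  have hq1 : q < 1 := by
    apply max_lt
    · rw [div_lt_one (hσ i0).1]; exact (hs i0).1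
    · rw [div_lt_one (hβ2 i0)]; exact (hs i0).2
  have hA : ∀ i, β.1 i ≤ q * σ.1 i := fun i => by
    have := (le_max_left _ _).trans (hi0 i)
    rwa [div_le_iff₀ (hσ i).1] at this
  have hB : ∀ i, σ.2 i ≤ q * β.2 i := fun i => by
    have := (le_max_right _ _).trans (hi0 i)
    rwa [div_le_iff₀ (hβ2 i)] at this
  have hw : ∀ k : Z3, w σ k ≤ (∏ i, q ^ (k i).natAbs) * w β k := by
    intro k
    unfold w
    rw [← Finset.prod_mul_distrib]
    apply Finset.prod_le_prod
    · intro i _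
      exact le_max_of_le_left (zpow_pos (hσ i).1 _).le
    · intro i _
      exact fac_le (hβ i).1 (hσ i).2 (hσ i).1 hq0 (hA i) (hB i) (k i)
  obtain ⟨n, hn⟩ := exists_pow_lt_of_lt_one hε hq1
  refine ⟨Finset.Icc (fun _ => -(n : ℤ)) (fun _ => (n : ℤ)), fun k hk => ?_⟩
  have hex : ∃ i, n ≤ (k i).natAbs := by
    by_contra hcon
    push Not at hcon
    apply hk
    rw [Finset.mem_Icc, Pi.le_def, Pi.le_def]
    constructor
    · intro i
      have := hcon i
      omega
    · intro i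
      have := hcon i
      omega
  obtain ⟨i, hi⟩ := hex
  have hprod : ∏ j, q ^ (k j).natAbs ≤ q ^ n := by
    rw [← Finset.mul_prod_erase Finset.univ _ (Finset.mem_univ i)]
    calc q ^ (k i).natAbs * ∏ x ∈ Finset.univ.erase i, q ^ (k x).natAbs
        ≤ q ^ n * 1 := by
          apply mul_le_mul
          · exact pow_le_pow_of_le_one hq0.le hq1.le hi
          · apply Finset.prod_le_one
            · intro j _; positivity
            · intro j _; exact pow_le_one₀ hq0.le hq1.le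
          · apply Finset.prod_nonneg
            intro j _; positivity
          · positivity
      _ = q ^ n := mul_one _
  calc w σ k ≤ (∏ i, q ^ (k i).natAbs) * w β k := hw k
    _ ≤ ε * w β k := by
      apply mul_le_mul_of_nonneg_right (hprod.trans hn.le) (w_pos hβ k).le

/-- the norm of `ℓ¹` -/
theorem lp1_norm_EG14 {V : Type} [NormedAddCommGroup V] (y : lp (fun _ : Z3 => V) 1) :
    (Summable fun k => ‖y k‖) ∧ ‖y‖ = ∑' k, ‖y k‖ := by
  have h1 : (0 : ℝ) < (1 : ENNReal).toReal := by simp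
  constructor
  · have := (lp.memℓp y).summable h1
    simpa using this
  · have := lp.norm_eq_tsum_rpow h1 y
    simpa using this

/-- truncation map -/
noncomputable def trunc {V : Type} [NormedAddCommGroup V] [NormedSpace ℂ V] (A : Finset Z3) :
    (A → V) →ₗ[ℂ] lp (fun _ : Z3 => V) 1 where
  toFun v := ∑ k : A, lp.single 1 (k : Z3) (v k)
  map_add' u v := by
    simp only [Pi.add_apply, lp.single_add, Finset.sum_add_distrib]
  map_smul' c v := by
    simp only [Pi.smul_apply, lp.single_smul, Finset.smul_sum, RingHom.id_apply]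

theorem trunc_apply {V : Type} [NormedAddCommGroup V] [NormedSpace ℂ V] (A : Finset Z3)
    (x : Z3 → V) (k : Z3) :
    (trunc A (fun j : A => x j) : lp (fun _ : Z3 => V) 1) k = if k ∈ A then x k else 0 := by
  have : (trunc A (fun j : A => x j) : lp (fun _ : Z3 => V) 1)
      = ∑ j ∈ A, lp.single 1 j (x j) := by
    unfold trunc
    simp only [LinearMap.coe_mk, AddHom.coe_mk]
    exact Finset.sum_coe_sort A (fun j => (lp.single 1 j (x j) : lp (fun _ : Z3 => V) 1))
  rw [this, lp.coeFn_sum, Finset.sum_apply]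
  simp only [lp.coeFn_single]
  by_cases hk : k ∈ A
  · rw [if_pos hk, Finset.sum_eq_single k]
    · simp
    · intro j _ hj
      rw [Pi.single_eq_of_ne (Ne.symm hj)]
    · intro h; exact absurd hk h
  · rw [if_neg hk]
    apply Finset.sum_eq_zero
    intro j hj
    rw [Pi.single_eq_of_ne]
    rintro rfl; exact hk hj

theorem tb {V : Type} [NormedAddCommGroup V] [NormedSpace ℂ V] [FiniteDimensional ℂ V]
    {β σ : Rd} (hβ : Ok β) (hσ : Ok σ) (hs : ∀ i, β.1 i < σ.1 i ∧ σ.2 i < β.2 i) (M : ℝ) :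
    TotallyBounded {x : lp (fun _ : Z3 => V) 1 | Sm β (dec σ x) ∧ nm β (dec σ x) ≤ M} := by
  rw [Metric.totallyBounded_iff]
  intro ε hε
  set N : ℝ := |M| + 1 with hN
  have hNpos : 0 < N := by positivity
  have hMN : M ≤ N := (le_abs_self M).trans (by linarith)
  obtain ⟨A, hA⟩ := w_ratio hβ hσ hs (ε := ε / (4 * N)) (by positivity)
  have hsub : Sub σ β := fun i => ⟨(hs i).1.le, (hs i).2.le⟩
  have : ProperSpace (A → V) := FiniteDimensional.proper ℂ (A → V)
  have hcomp : IsCompact ((trunc A : (A → V) →ₗ[ℂ] lp (fun _ : Z3 => V) 1) '' closedBall 0 N) :=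
    (isCompact_closedBall 0 N).image (LinearMap.continuous_of_finiteDimensional _)
  obtain ⟨t, htf, ht⟩ := Metric.totallyBounded_iff.1 hcomp.totallyBounded (ε / 2) (by positivity)
  refine ⟨t, htf, ?_⟩
  rintro x ⟨hx1, hx2⟩
  have hnorm : ∀ k, ‖x k‖ = w σ k * ‖dec σ x k‖ := by
    intro k
    unfold dec
    rw [norm_smul, norm_inv, Complex.norm_real, Real.norm_of_nonneg (w_pos hσ k).le]
    field_simp [(w_pos hσ k).ne']
  have hmem : (trunc A (fun j : A => x j) : lp (fun _ : Z3 => V) 1) ∈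
      (trunc A : (A → V) →ₗ[ℂ] lp (fun _ : Z3 => V) 1) '' closedBall 0 N := by
    refine ⟨_, ?_, rfl⟩
    rw [mem_closedBall_zero_iff, pi_norm_le_iff_of_nonneg hNpos.le]
    intro j
    calc ‖x j‖ = w σ j * ‖dec σ x j‖ := hnorm j
      _ ≤ w β j * ‖dec σ x j‖ :=
        mul_le_mul_of_nonneg_right (w_mono hσ hβ hsub j) (norm_nonneg _)
      _ = ‖dec σ x j‖ * w β j := mul_comm _ _
      _ ≤ nm β (dec σ x) := by
        apply hx1.le_tsum (j : Z3)
        intro k _
        exact mul_nonneg (norm_nonneg _) (w_pos hβ k).le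
      _ ≤ N := hx2.trans hMN
  have h3 := ht hmem
  rw [mem_iUnion₂] at h3 ⊢
  obtain ⟨y, hy, hxy⟩ := h3
  refine ⟨y, hy, ?_⟩
  rw [mem_ball] at hxy ⊢
  have hd : dist x (trunc A (fun j : A => x j)) ≤ ε / 4 := by
    rw [dist_eq_norm, (lp1_norm_EG14 _).2]
    have hs2 : Summable fun k => ε / (4 * N) * (‖dec σ x k‖ * w β k) := hx1.mul_left _
    calc ∑' k, ‖(x - trunc A (fun j : A => x j) : lp (fun _ : Z3 => V) 1) k‖
        ≤ ∑' k, ε / (4 * N) * (‖dec σ x k‖ * w β k) := by
          apply (lp1_norm_EG14 _).1.tsum_le_tsum _ hs2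
          intro k
          rw [lp.coeFn_sub, Pi.sub_apply, trunc_apply]
          by_cases hk : k ∈ A
          · rw [if_pos hk, sub_self, norm_zero]
            have := (w_pos hβ k).le
            positivity
          · rw [if_neg hk, sub_zero, hnorm k]
            have := mul_le_mul_of_nonneg_right (hA k hk) (norm_nonneg (dec σ x k))
            linarith
      _ = ε / (4 * N) * nm β (dec σ x) := by rw [tsum_mul_left]; rfl
      _ ≤ ε / (4 * N) * N := by
        apply mul_le_mul_of_nonneg_left (hx2.trans hMN) (by positivity)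
      _ = ε / 4 := by field_simp
  calc dist x y ≤ dist x (trunc A (fun j : A => x j)) + dist (trunc A (fun j : A => x j)) y :=
        dist_triangle _ _ _
    _ < ε := by linarith

end Pool.Agent.HP.EG
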