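import Pool.Agent.HopfPinch.EG14

set_option autoImplicit false

open Set Filter Topology Metric

namespace Pool.Agent.HP.EG

/-! ### block E1 : weights, norms, convolution -/

section
variable {V : Type*} [NormedAddCommGroup V] [NormedSpace ℂ V] {ρ β : Rd}

variable [CompleteSpace V]

/-! ### block E2 : evaluation -/

end

/-! ### block E3 : Laurent expansion -/

/-! ### block E4 : the bumps -/

/-! ### block E5 : abstract finiteness -/

/-! ### block E6 : coding in `ℓ¹` and total boundedness -/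

/-! ### block E7 : a linear relation between cocycles modulo coboundaries -/

/-- decoding as a linear map -/
noncomputable def decL {V : Type} [NormedAddCommGroup V] [NormedSpace ℂ V] {σ : Rd} (hσ : Ok σ) :
    lp (fun _ : Z3 => V) 1 →ₗ[ℂ] (Z3 → V) where
  toFun := dec σ
  map_add' := fun x y => (dec_props hσ x y 0).2.2.1
  map_smul' := fun c x => (dec_props hσ x x c).2.2.2.1

theorem cv_zero'_EG15 {V : Type} [NormedAddCommGroup V] [NormedSpace ℂ V] [CompleteSpace V]
    (T : Z3 → (V →L[ℂ] V)) : cv T (0 : Z3 → V) = 0 := by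
  have := cv_smul T (0 : ℂ) (0 : Z3 → V)
  simpa using this

/-- the submodule of cocycles -/
noncomputable def cocZ {V : Type} [NormedAddCommGroup V] [NormedSpace ℂ V] [CompleteSpace V]
    {β : Rd} (hβ : Ok β) {T : Fin 3 → Fin 3 → Z3 → (V →L[ℂ] V)} (hT : TT β T)
    {σ : Rd} (hσ : Ok σ) (hsub : Sub σ β) :
    Submodule ℂ (Fin 3 → Fin 3 → lp (fun _ : Z3 => V) 1) where
  carrier := {x | Cc σ T (fun i j => dec σ (x i j))}
  add_mem' := by
    intro x y hx hy
    have hadd : ∀ i j, dec σ ((x + y) i j) = dec σ (x i j) + dec σ (y i j) := fun i j =>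
      (dec_props hσ (x i j) (y i j) 0).2.2.1
    refine ⟨fun i j => (dec_props hσ _ 0 0).1, fun i j => ?_, fun i j k => ?_⟩
    · show Sup _ (dec σ ((x + y) i j))
      rw [hadd]
      exact (hx.sup i j).add (hy.sup i j)
    · show dec σ ((x + y) i k) = dec σ ((x + y) i j) + cv (T i j) (dec σ ((x + y) j k))
      rw [hadd, hadd, hadd, cv_add hσ (Sm.mono hσ hβ hsub (hT.sm i j)).1 (hx.sm j k) (hy.sm j k)]
      have h1 := hx.co i j k
      have h2 := hy.co i j k
      rw [h1, h2]
      abel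
  zero_mem' := by
    have h0 : dec σ (0 : lp (fun _ : Z3 => V) 1) = 0 := (decL hσ).map_zero
    refine ⟨fun i j => (dec_props hσ _ 0 0).1, fun i j => ?_, fun i j k => ?_⟩
    · show Sup _ (dec σ (0 : lp (fun _ : Z3 => V) 1))
      rw [h0]
      intro k l _ _
      rfl
    · show dec σ (0 : lp (fun _ : Z3 => V) 1) = dec σ (0 : lp (fun _ : Z3 => V) 1) +
        cv (T i j) (dec σ (0 : lp (fun _ : Z3 => V) 1))
      rw [h0, cv_zero'_EG15, add_zero]
  smul_mem' := by
    intro c x hx
    have hsm : ∀ i j, dec σ ((c • x) i j) = c • dec σ (x i j) := fun i j =>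
      (dec_props hσ (x i j) (x i j) c).2.2.2.1
    refine ⟨fun i j => (dec_props hσ _ 0 0).1, fun i j => ?_, fun i j k => ?_⟩
    · show Sup _ (dec σ ((c • x) i j))
      rw [hsm]
      exact (hx.sup i j).smul c
    · show dec σ ((c • x) i k) = dec σ ((c • x) i j) + cv (T i j) (dec σ ((c • x) j k))
      rw [hsm, hsm, hsm, cv_smul]
      have h1 := hx.co i j k
      rw [h1, smul_add]

theorem tb_pi {V : Type} [NormedAddCommGroup V] [NormedSpace ℂ V] [CompleteSpace V]
    {S : Set (lp (fun _ : Z3 => V) 1)} (hS : TotallyBounded S) :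
    TotallyBounded {x : Fin 3 → Fin 3 → lp (fun _ : Z3 => V) 1 | ∀ i j, x i j ∈ S} := by
  have h1 : IsCompact (closure S) := hS.closure.isCompact_of_isClosed isClosed_closure
  have h2 : IsCompact (Set.pi univ fun _ : Fin 3 => Set.pi univ fun _ : Fin 3 => closure S) :=
    isCompact_univ_pi fun _ => isCompact_univ_pi fun _ => h1
  refine TotallyBounded.subset ?_ h2.totallyBounded
  exact fun x hx i _ j _ => subset_closure (hx i j)

theorem relation {V : Type} [NormedAddCommGroup V] [NormedSpace ℂ V] [FiniteDimensional ℂ V]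
    {β : Rd} (hβ : Ok β) {T : Fin 3 → Fin 3 → Z3 → (V →L[ℂ] V)} (hT : TT β T)
    {σ : Rd} (hσ : Ok σ) (hs : ∀ i, β.1 i < σ.1 i ∧ σ.2 i < β.2 i)
    (x : ℕ → Fin 3 → Fin 3 → Z3 → V) (hx : ∀ n, Cc σ T (x n)) :
    ∃ (μ : ℕ →₀ ℂ) (b : Fin 3 → Z3 → V), μ ≠ 0 ∧ (∀ i, Sm σ (b i) ∧ Sup {i} (b i)) ∧
      ∀ i j, (μ.sum fun n c => c • x n i j) = b i - cv (T i j) (b j) := by
  haveI : CompleteSpace V := FiniteDimensional.complete ℂ V
  have hsub : Sub σ β := fun i => ⟨(hs i).1.le, (hs i).2.le⟩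
  obtain ⟨C, hC0, hC⟩ := bumps hβ hT hσ hsub
  obtain ⟨d, hd⟩ := cob_exists hβ hT hσ hsub
  have hK := tb_pi (tb (V := V) hβ hσ hs (9 * C))
  choose X hX hXn using fun n i j => enc_exists hσ ((hx n).sm i j)
  have hXZ : ∀ n, X n ∈ cocZ hβ hT hσ hsub := by
    intro n
    show Cc σ T (fun i j => dec σ (X n i j))
    have : (fun i j => dec σ (X n i j)) = x n := by
      funext i j
      exact hX n i j
    rw [this]
    exact hx n
  obtain ⟨μ, hμ, b, hb⟩ := fin_lemma (cocZ hβ hT hσ hsub) d _ hK (9 * C) (by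
    intro ξ hξ hξ1
    have hξ' : Cc σ T (fun i j => dec σ (ξ i j)) := hξ
    obtain ⟨η, b', hη, hb', heq, hnη, hnb⟩ := hC _ hξ'
    have hn9 : nx σ (fun i j => dec σ (ξ i j)) ≤ 9 := by
      unfold nx
      have h1 : ∀ i j, nm σ (dec σ (ξ i j)) ≤ 1 := fun i j => by
        rw [(dec_props hσ (ξ i j) 0 0).2.1]
        exact ((norm_le_pi_norm (ξ i) j).trans (norm_le_pi_norm ξ i)).trans hξ1
      calc ∑ i, ∑ j, nm σ (dec σ (ξ i j)) ≤ ∑ _i : Fin 3, ∑ _j : Fin 3, (1 : ℝ) :=
            Finset.sum_le_sum fun i _ => Finset.sum_le_sum fun j _ => h1 i j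
        _ = 9 := by norm_num
    have hC9 : C * nx σ (fun i j => dec σ (ξ i j)) ≤ 9 * C := by nlinarith
    have hηs : ∀ i j, Sm σ (η i j) := fun i j => (Sm.mono hσ hβ hsub (hη.sm i j)).1
    choose y hy hyn using fun i j => enc_exists hσ (hηs i j)
    choose bb hbb hbbn using fun i => enc_exists hσ (hb' i).1
    refine ⟨y, ?_, ?_, bb, ?_, ?_⟩
    · show Cc σ T (fun i j => dec σ (y i j))
      have : (fun i j => dec σ (y i j)) = η := by
        funext i j
        exact hy i j
      rw [this]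
      exact ⟨hηs, hη.sup, hη.co⟩
    · intro i j
      show Sm β (dec σ (y i j)) ∧ nm β (dec σ (y i j)) ≤ 9 * C
      rw [hy]
      refine ⟨hη.sm i j, ?_⟩
      have h1 : nm β (η i j) ≤ nx β η := by
        unfold nx
        calc nm β (η i j) ≤ ∑ j, nm β (η i j) :=
              Finset.single_le_sum (f := fun j => nm β (η i j))
                (fun j _ => nm_nonneg hβ _) (Finset.mem_univ j)
          _ ≤ ∑ i, ∑ j, nm β (η i j) :=
              Finset.single_le_sum (f := fun i => ∑ j, nm β (η i j))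
                (fun i _ => Finset.sum_nonneg fun j _ => nm_nonneg hβ _) (Finset.mem_univ i)
      exact h1.trans (hnη.trans hC9)
    · funext i j
      refine (dec_props hσ (ξ i j) ((y + d bb) i j) 0).2.2.2.2 ?_
      have h2 : dec σ ((y + d bb) i j) = dec σ (y i j) + dec σ (d bb i j) :=
        (dec_props hσ (y i j) (d bb i j) 0).2.2.1
      rw [h2, hd, hy, hbb, hbb, Pr_eq_self (hb' i).2, Pr_eq_self (hb' j).2]
      exact heq i j
    · rw [pi_norm_le_iff_of_nonneg (by positivity)]
      intro i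
      rw [hbbn]
      exact (hnb i).trans hC9) X hXZ
  refine ⟨μ, fun i => EG.Pr i (dec σ (b i)), hμ, fun i =>
    ⟨(Sm.Pr hσ i (dec_props hσ (b i) 0 0).1).1, Sup_Pr i _⟩, ?_⟩
  intro i j
  have h1 : (μ.sum fun n c => c • X n) i j = d b i j := by rw [hb]
  rw [← hd, ← h1]
  have h2 : (μ.sum fun n c => c • X n) i j = μ.sum fun n c => c • X n i j := by
    unfold Finsupp.sum
    rw [Finset.sum_apply, Finset.sum_apply]
    rfl
  rw [h2]
  have h3 : dec σ (μ.sum fun n c => c • X n i j) = μ.sum fun n c => c • dec σ (X n i j) := by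
    have h4 := map_finsuppSum (decL (V := V) hσ) μ (fun n c => c • X n i j)
    simp only [map_smul] at h4
    exact h4
  rw [h3]
  simp only [hX]

end Pool.Agent.HP.EG
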