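import Pool.Agent.HopfPinch.EG15

set_option autoImplicit false

open Set Filter Topology Metric

namespace Pool.Agent.HP.EG

/-! ### block E1 : weights, norms, convolution -/

section
variable {V : Type*} [NormedAddCommGroup V] [NormedSpace ℂ V] {ρ β : Rd}

variable [CompleteSpace V]

/-! ### block E2 : evaluation -/

end

/-! ### block E3 : Laurent expansion -/

/-! ### block E4 : the bumps -/

/-! ### block E5 : abstract finiteness -/

/-! ### block E6 : coding in `ℓ¹` and total boundedness -/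

/-! ### block E7 : a linear relation between cocycles modulo coboundaries -/

/-! ### block E8 : coefficient families of the transition functions -/

theorem mkTT {V : Type} [NormedAddCommGroup V] [NormedSpace ℂ V] [FiniteDimensional ℂ V]
    {r R : ℝ} (hr : 0 < r) (hR : r < R) (Tf : Fin 3 → Fin 3 → (Fin 3 → ℂ) → (V →L[ℂ] V))
    (hd : ∀ i j, DifferentiableOn ℂ (Tf i j) (Om r R {i, j}))
    (h1 : ∀ i, ∀ z ∈ Om r R {i}, Tf i i z = 1)
    (h2 : ∀ i j k, ∀ z ∈ Om r R {i, j, k}, Tf i j z * Tf j k z = Tf i k z)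
    {β : Rd} (hβ : ∀ i, r < β.1 i ∧ β.1 i < β.2 i ∧ β.2 i < R) :
    ∃ T : Fin 3 → Fin 3 → Z3 → (V →L[ℂ] V), TT β T ∧
      ∀ i j, ∀ z ∈ Om r R {i, j}, ev z (T i j) = Tf i j z := by
  haveI : CompleteSpace V := FiniteDimensional.complete ℂ V
  have hen := fun i j => enter hr hR {i, j} (Tf i j) (hd i j)
  choose T hsup hsm hev using hen
  have hSu : ∀ (a : Z3 → V), Sup (univ : Set (Fin 3)) a := fun a k l hl => absurd (mem_univ l) hl
  have hST : ∀ (a : Z3 → (V →L[ℂ] V)), Sup (univ : Set (Fin 3)) a := fun a k l hl => absurd (mem_univ l) hl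
  have key : ∀ ρ, Ok ρ → Sub ρ β → ∀ D : Z3 → V, Sm ρ D →
      (∀ z : Fin 3 → ℂ, (∀ i, ‖z i‖ = ρ.2 i) → ev z D = 0) → D = 0 := by
    intro ρ hρ hs D hD h0
    refine ev_inj (t := ρ.2) (fun i => (hρ i).1.trans (hρ i).2) ?_ h0
    refine Summable.of_nonneg_of_le (fun k => ?_) (fun k => ?_) hD
    · apply mul_nonneg (norm_nonneg _)
      apply Finset.prod_nonneg
      intro i _
      exact zpow_nonneg ((hρ i).1.trans (hρ i).2).le _
    · apply mul_le_mul_of_nonneg_left _ (norm_nonneg _)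
      unfold w
      apply Finset.prod_le_prod
      · intro i _
        exact zpow_nonneg ((hρ i).1.trans (hρ i).2).le _
      · intro i _
        exact le_max_right _ _
  have hsmρ : ∀ ρ, Ok ρ → Sub ρ β → ∀ i j, Sm ρ (T i j) := by
    intro ρ hρ hs i j
    apply hsm i j ρ
    intro l
    exact ⟨(hβ l).1.trans_le (hs l).1, (hρ l).2, (hs l).2.trans_lt (hβ l).2.2⟩
  have hOm : ∀ ρ, Ok ρ → Sub ρ β → ∀ (J : Set (Fin 3)) (z : Fin 3 → ℂ), (∀ i, ‖z i‖ = ρ.2 i) →
      z ∈ Om r R J := by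
    intro ρ hρ hs J z hz
    refine ⟨fun i _ => ?_, fun j => ?_⟩
    · rw [hz i]
      exact ((hβ i).1.trans_le (hs i).1).trans (hρ i).2
    · rw [hz j]
      exact (hs j).2.trans_lt (hβ j).2.2
  have hCR : ∀ ρ, Ok ρ → ∀ (z : Fin 3 → ℂ), (∀ i, ‖z i‖ = ρ.2 i) → CR ρ univ z := by
    intro ρ hρ z hz
    refine ⟨fun i _ => ?_, fun j => (hz j).le⟩
    rw [hz i]
    exact (hρ i).2.le
  refine ⟨T, ⟨fun i j => hsm i j β hβ, hsup, ?_, ?_⟩, hev⟩
  · intro ρ hρ hs i j k a ha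
    have s1 := hsmρ ρ hρ hs i j
    have s2 := hsmρ ρ hρ hs j k
    have s3 := hsmρ ρ hρ hs i k
    have c2 := (cv_Sm hρ s2 ha).1
    have c1 := (cv_Sm hρ s1 c2).1
    have c3 := (cv_Sm hρ s3 ha).1
    have h3 := key ρ hρ hs (cv (T i j) (cv (T j k) a) - cv (T i k) a) (Sm.sub hρ c1 c3).1 (by
      intro z hz
      have hc := hCR ρ hρ z hz
      rw [ev_sub hρ (hSu _) c1 (hSu _) c3 hc, ev_cv hρ (hST _) s1 (hSu _) c2 hc,
        ev_cv hρ (hST _) s2 (hSu _) ha hc, ev_cv hρ (hST _) s3 (hSu _) ha hc,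
        hev i j z (hOm ρ hρ hs _ z hz), hev j k z (hOm ρ hρ hs _ z hz),
        hev i k z (hOm ρ hρ hs _ z hz), ← h2 i j k z (hOm ρ hρ hs _ z hz)]
      exact sub_self _)
    exact sub_eq_zero.1 h3
  · intro ρ hρ hs i a ha
    have s1 := hsmρ ρ hρ hs i i
    have c1 := (cv_Sm hρ s1 ha).1
    have h3 := key ρ hρ hs (cv (T i i) a - a) (Sm.sub hρ c1 ha).1 (by
      intro z hz
      have hc := hCR ρ hρ z hz
      rw [ev_sub hρ (hSu _) c1 (hSu _) ha hc, ev_cv hρ (hST _) s1 (hSu _) ha hc,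
        hev i i z (hOm ρ hρ hs _ z hz), h1 i z (hOm ρ hρ hs _ z hz)]
      exact sub_self _)
    exact sub_eq_zero.1 h3

end Pool.Agent.HP.EG
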