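import Pool.Agent.HopfPinch.EG16
import Pool.Agent.HopfPinch.GLib

set_option autoImplicit false

open Set Filter Topology Metric

namespace Pool.Agent.HP.EG

open Pool.Agent.HopfPinch (param_circle differentiableOn_of_uniform_limit)

/-! ### block E1 : weights, norms, convolution -/

section
variable {V : Type*} [NormedAddCommGroup V] [NormedSpace ℂ V] {ρ β : Rd}

variable [CompleteSpace V]

/-! ### block E2 : evaluation -/

end

/-! ### block E3 : Laurent expansion -/

/-! ### block E4 : the bumps -/

/-! ### block E5 : abstract finiteness -/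

/-! ### block E6 : coding in `ℓ¹` and total boundedness -/

/-! ### block E7 : a linear relation between cocycles modulo coboundaries -/

/-! ### block E8 : coefficient families of the transition functions -/

/-! ### block E9 : division by `z 0 - c` and the Cousin cocycles -/

/-- the map `(z, ξ) ↦ update z 0 (c + ξ)` is differentiable -/
theorem division_upd_diff (c : ℂ) :
    Differentiable ℂ (fun p : (Fin 3 → ℂ) × ℂ => Function.update p.1 0 (c + p.2)) := by
  rw [differentiable_pi]
  intro i
  by_cases hi : i = 0
  · subst hi
    simp only [Function.update_self]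
    fun_prop
  · simp only [Function.update_of_ne hi]
    fun_prop

theorem division_scalar {Ω : Set (Fin 3 → ℂ)} (hΩ : IsOpen Ω) (c : ℂ) {G : (Fin 3 → ℂ) → ℂ}
    (hG : DifferentiableOn ℂ G Ω) (h0 : ∀ z ∈ Ω, z 0 = c → G z = 0) :
    ∃ X : (Fin 3 → ℂ) → ℂ, DifferentiableOn ℂ X Ω ∧ ∀ z ∈ Ω, (z 0 - c) * X z = G z := by
  classical
  set f : (Fin 3 → ℂ) → ℂ → ℂ := fun z v => G (Function.update z 0 (c + v)) with hf
  set X : (Fin 3 → ℂ) → ℂ := fun z => if z 0 = c then deriv (f z) 0 else (z 0 - c)⁻¹ * G z with hX
  refine ⟨X, ?_, ?_⟩
  · intro z₀ hz₀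
    by_cases hc : z₀ 0 = c
    · -- near the slice
      obtain ⟨δ, hδ, hball⟩ := Metric.isOpen_iff.1 hΩ z₀ hz₀
      set ε : ℝ := δ / 3 with hε
      have hε0 : 0 < ε := by positivity
      have hδε : δ = 3 * ε := by rw [hε]; ring
      have hmem : ∀ z ∈ ball z₀ ε, ∀ v ∈ ball (0:ℂ) (3 * ε), Function.update z 0 (c + v) ∈ Ω := by
        intro z hz v hv
        apply hball
        rw [mem_ball, dist_pi_lt_iff hδ]
        intro i
        by_cases hi : i = 0
        · subst hi
          rw [Function.update_self, hc, hδε]
          rw [mem_ball_zero_iff] at hv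
          rw [dist_eq_norm]
          simpa using hv
        · rw [Function.update_of_ne hi]
          rw [mem_ball, dist_pi_lt_iff hε0] at hz
          have := hz i
          linarith
      set Ω' : Set ((Fin 3 → ℂ) × ℂ) :=
        {p | Function.update p.1 0 (c + p.2) ∈ Ω ∧ p.2 - (p.1 0 - c) ≠ 0 ∧ p.2 ≠ 0} with hΩ'
      have hΩ'o : IsOpen Ω' := by
        apply IsOpen.inter
        · exact hΩ.preimage (division_upd_diff c).continuous
        · apply IsOpen.inter
          · apply IsOpen.preimage (f := fun p : (Fin 3 → ℂ) × ℂ => p.2 - (p.1 0 - c)) (t := {x | x ≠ 0})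
            · fun_prop
            · exact isOpen_ne
          · apply IsOpen.preimage (f := fun p : (Fin 3 → ℂ) × ℂ => p.2) (t := {x | x ≠ 0})
            · fun_prop
            · exact isOpen_ne
      set F : (Fin 3 → ℂ) × ℂ → ℂ := fun p =>
        (p.2 - (p.1 0 - c))⁻¹ * (p.2⁻¹ * G (Function.update p.1 0 (c + p.2))) with hFdef
      have hF : DifferentiableOn ℂ F Ω' := by
        apply DifferentiableOn.mul
        · apply DifferentiableOn.inv
          · fun_prop
          · intro p hp; exact hp.2.1
        · apply DifferentiableOn.mul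
          · apply DifferentiableOn.inv
            · fun_prop
            · intro p hp; exact hp.2.2
          · exact hG.comp (division_upd_diff c).differentiableOn (fun p hp => hp.1)
      have hY : DifferentiableOn ℂ (fun p => ∮ ξ in C(0, 2 * ε), F (p, ξ)) (ball z₀ ε) := by
        apply param_circle hΩ'o hF isOpen_ball
        intro p hp ξ hξ
        rw [mem_sphere_zero_iff_norm, abs_of_pos (by positivity : (0:ℝ) < 2 * ε)] at hξ
        refine ⟨hmem p hp ξ ?_, ?_, ?_⟩
        · rw [mem_ball_zero_iff, hξ]; linarith
        · intro h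
          have h1 : ξ = p 0 - c := sub_eq_zero.1 h
          rw [mem_ball, dist_pi_lt_iff hε0] at hp
          have h2 := hp 0
          rw [hc, dist_eq_norm, ← h1, hξ] at h2
          linarith
        · intro h
          have h' : ξ = 0 := h
          rw [h', norm_zero] at hξ
          linarith
      have hXY : ∀ z ∈ ball z₀ ε, X z = (2 * Real.pi * Complex.I : ℂ)⁻¹ * ∮ ξ in C(0, 2 * ε), F (z, ξ) := by
        intro z hz
        have hz' := hz
        rw [mem_ball, dist_pi_lt_iff hε0] at hz'
        have hz0 : ‖z 0 - c‖ < ε := by
          have := hz' 0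
          rwa [hc, dist_eq_norm] at this
        have hfd : DifferentiableOn ℂ (f z) (ball 0 (3 * ε)) := by
          have h1 : DifferentiableOn ℂ (fun v : ℂ => Function.update z 0 (c + v)) (ball 0 (3 * ε)) := by
            have : Differentiable ℂ (fun v : ℂ => Function.update z 0 (c + v)) := by
              have h2 : Differentiable ℂ (fun v : ℂ => (z, v)) := by fun_prop
              exact (division_upd_diff c).comp h2
            exact this.differentiableOn
          exact hG.comp h1 (fun v hv => hmem z hz v hv)
        have hds : DifferentiableOn ℂ (dslope (f z) 0) (ball 0 (3 * ε)) :=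
          (Complex.differentiableOn_dslope (ball_mem_nhds _ (by positivity))).2 hfd
        have hf0 : f z 0 = 0 := by
          apply h0
          · exact hmem z hz 0 (mem_ball_self (by positivity))
          · simp
        have hXd : X z = dslope (f z) 0 (z 0 - c) := by
          by_cases hzc : z 0 = c
          · simp only [hX, hzc, if_true, sub_self, dslope_same]
          · have hne : z 0 - c ≠ 0 := sub_ne_zero.2 hzc
            rw [dslope_of_ne _ hne, slope_def_field, hf0]
            simp only [hX, hzc, if_false, hf]
            have : Function.update z 0 (c + (z 0 - c)) = z := by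
              rw [add_sub_cancel, Function.update_eq_self]
            rw [this]
            field_simp
            ring
        have hcau := (hds.mono (closedBall_subset_ball (by linarith : 2 * ε < 3 * ε))).circleIntegral_sub_inv_smul
          (w := z 0 - c) (by rw [mem_ball_zero_iff]; linarith)
        rw [hXd]
        have hpi : (2 * Real.pi * Complex.I : ℂ) ≠ 0 := Complex.two_pi_I_ne_zero
        rw [eq_inv_mul_iff_mul_eq₀ hpi]
        rw [smul_eq_mul] at hcau
        rw [← hcau]
        apply circleIntegral.integral_congr (by positivity)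
        intro ξ hξ
        rw [mem_sphere_zero_iff_norm] at hξ
        have hξ0 : ξ ≠ 0 := by
          intro h
          rw [h, norm_zero] at hξ
          linarith
        simp only [hFdef, smul_eq_mul]
        rw [dslope_of_ne _ hξ0, slope_def_field, hf0]
        simp only [hf]
        field_simp
        ring
      have hXd : DifferentiableAt ℂ X z₀ := by
        have h1 : DifferentiableAt ℂ (fun z => (2 * Real.pi * Complex.I : ℂ)⁻¹ * ∮ ξ in C(0, 2 * ε), F (z, ξ)) z₀ := by
          apply DifferentiableAt.const_mul
          exact hY.differentiableAt (ball_mem_nhds _ hε0)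
        apply h1.congr_of_eventuallyEq
        filter_upwards [ball_mem_nhds z₀ hε0] with z hz
        exact hXY z hz
      exact hXd.differentiableWithinAt
    · -- away from the slice
      have h1 : DifferentiableAt ℂ (fun z : Fin 3 → ℂ => (z 0 - c)⁻¹ * G z) z₀ := by
        apply DifferentiableAt.mul
        · apply DifferentiableAt.inv
          · fun_prop
          · exact sub_ne_zero.2 hc
        · exact hG.differentiableAt (hΩ.mem_nhds hz₀)
      have h2 : X =ᶠ[𝓝 z₀] (fun z : Fin 3 → ℂ => (z 0 - c)⁻¹ * G z) := by
        have h3 : {z : Fin 3 → ℂ | z 0 ≠ c} ∈ 𝓝 z₀ := by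
          apply IsOpen.mem_nhds _ hc
          exact isOpen_ne.preimage (continuous_apply 0)
        filter_upwards [h3] with z hz
        simp only [hX]
        rw [if_neg hz]
      exact (h1.congr_of_eventuallyEq h2).differentiableWithinAt
  · intro z hz
    by_cases hc : z 0 = c
    · rw [hc, sub_self, zero_mul, h0 z hz hc]
    · simp only [hX, if_neg hc]
      rw [mul_inv_cancel_left₀ (sub_ne_zero.2 hc)]

theorem division {V : Type} [NormedAddCommGroup V] [NormedSpace ℂ V] [FiniteDimensional ℂ V]
    {Ω : Set (Fin 3 → ℂ)} (hΩ : IsOpen Ω) (c : ℂ) {G : (Fin 3 → ℂ) → V}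
    (hG : DifferentiableOn ℂ G Ω) (h0 : ∀ z ∈ Ω, z 0 = c → G z = 0) :
    ∃ X : (Fin 3 → ℂ) → V, DifferentiableOn ℂ X Ω ∧ ∀ z ∈ Ω, (z 0 - c) • X z = G z := by
  let e : V ≃L[ℂ] (Fin (Module.finrank ℂ V) → ℂ) :=
    (Module.finBasis ℂ V).equivFun.toContinuousLinearEquiv
  have key : ∀ k, ∃ X : (Fin 3 → ℂ) → ℂ, DifferentiableOn ℂ X Ω ∧
      ∀ z ∈ Ω, (z 0 - c) * X z = e (G z) k := by
    intro k
    apply division_scalar hΩ c
    · have h1 : DifferentiableOn ℂ (fun z => e (G z)) Ω := e.differentiable.comp_differentiableOn hG
      exact (differentiableOn_pi.1 h1) k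
    · intro z hz hzc
      rw [h0 z hz hzc, map_zero]
      rfl
  choose X hXd hX using key
  refine ⟨fun z => e.symm (fun k => X k z), ?_, ?_⟩
  · apply e.symm.differentiable.comp_differentiableOn
    rw [differentiableOn_pi]
    exact hXd
  · intro z hz
    apply e.injective
    rw [map_smul, e.apply_symm_apply]
    ext k
    rw [Pi.smul_apply, smul_eq_mul, hX k z hz]

end Pool.Agent.HP.EG
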