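import Pool.Agent.HopfPinch.EG17

set_option autoImplicit false

open Set Filter Topology Metric

namespace Pool.Agent.HP.EG

/-! ### block E1 : weights, norms, convolution -/

section
variable {V : Type*} [NormedAddCommGroup V] [NormedSpace ℂ V] {ρ β : Rd}

variable [CompleteSpace V]

/-! ### block E2 : evaluation -/

end

/-! ### block E3 : Laurent expansion -/

/-! ### block E4 : the bumps -/

/-! ### block E5 : abstract finiteness -/

/-! ### block E6 : coding in `ℓ¹` and total boundedness -/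

/-! ### block E7 : a linear relation between cocycles modulo coboundaries -/

/-! ### block E8 : coefficient families of the transition functions -/

/-! ### block E9 : division by `z 0 - c` and the Cousin cocycles -/

theorem mkXi_om_anti {r R : ℝ} {I J : Set (Fin 3)} (h : I ⊆ J) : Om r R J ⊆ Om r R I := by
  intro z hz
  exact ⟨fun i hi => hz.1 i (h hi), hz.2⟩

theorem mkXi_om_open {r R : ℝ} (I : Set (Fin 3)) : IsOpen (Om r R I) := by
  have h1 : Om r R I = (⋂ i : Fin 3, {z : Fin 3 → ℂ | i ∈ I → r < ‖z i‖}) ∩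
      ⋂ j : Fin 3, {z : Fin 3 → ℂ | ‖z j‖ < R} := by
    ext z
    simp [Om]
  rw [h1]
  refine IsOpen.inter (isOpen_iInter_of_finite fun i => ?_) (isOpen_iInter_of_finite fun j => ?_)
  · by_cases hi : i ∈ I
    · simp only [hi, true_imp_iff]
      exact isOpen_lt continuous_const (continuous_apply i).norm
    · simp only [hi, false_imp_iff, Set.ofPred_true]
      exact isOpen_univ
  · exact isOpen_lt (continuous_apply j).norm continuous_const

theorem mkXi_upd {r R : ℝ} {c : ℂ} (hc : r < ‖c‖) (hc' : ‖c‖ < R) {i : Fin 3} {I : Set (Fin 3)}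
    (hi : i ∈ I) {z : Fin 3 → ℂ} (hz : z ∈ Om r R I) :
    Function.update z 0 c ∈ Om r R {i, 0} := by
  refine ⟨fun l hl => ?_, fun l => ?_⟩
  · by_cases h0 : l = 0
    · subst h0
      simpa using hc
    · rw [Function.update_of_ne h0]
      rcases hl with hl | hl
      · rw [hl]
        exact hz.1 i hi
      · exact absurd hl h0
  · by_cases h0 : l = 0
    · subst h0
      simpa using hc'
    · rw [Function.update_of_ne h0]
      exact hz.2 l

theorem mkXi_diff_upd (c : ℂ) :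
    Differentiable ℂ (fun z : Fin 3 → ℂ => Function.update z 0 c) := by
  rw [differentiable_pi]
  intro l
  by_cases h0 : l = 0
  · subst h0
    simp
  · simp only [Function.update_of_ne h0]
    exact differentiable_apply l

theorem mkXi_co {V : Type} [NormedAddCommGroup V] [NormedSpace ℂ V] [FiniteDimensional ℂ V]
    {r R : ℝ} (Tf : Fin 3 → Fin 3 → (Fin 3 → ℂ) → (V →L[ℂ] V))
    (h2 : ∀ i j k, ∀ z ∈ Om r R {i, j, k}, Tf i j z * Tf j k z = Tf i k z)
    {β : Rd} (hβ : ∀ i, r < β.1 i ∧ β.1 i < β.2 i ∧ β.2 i < R)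
    {T : Fin 3 → Fin 3 → Z3 → (V →L[ℂ] V)} (hT : TT β T)
    (hTe : ∀ i j, ∀ z ∈ Om r R {i, j}, ev z (T i j) = Tf i j z)
    {σ : Rd} (hr : 0 < r) (hσ : Ok σ) (hs : Sub σ β) (c : ℂ)
    (u : Fin 3 → (Fin 3 → ℂ) → V) (ξ : Fin 3 → Fin 3 → Z3 → V)
    (hsm : ∀ i j, Sm σ (ξ i j)) (hsup : ∀ i j, Sup {i, j} (ξ i j))
    (he : ∀ i j, ∀ z ∈ Om r R {i, j}, (z 0 - c) • ev z (ξ i j) = u i z - Tf i j z (u j z))
    (i j k : Fin 3) : ξ i k = ξ i j + cv (T i j) (ξ j k) := by
  have : CompleteSpace V := FiniteDimensional.complete ℂ V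
  have hOkβ : Ok β := fun i => ⟨hr.trans (hβ i).1, (hβ i).2.1⟩
  have hTs : Sm σ (T i j) := (Sm.mono hσ hOkβ hs (hT.sm i j)).1
  -- the radius in the variable `0`
  obtain ⟨t0, ht0, ht0'⟩ : ∃ t0 : ℝ, (t0 = σ.1 0 ∨ t0 = σ.2 0) ∧ t0 ≠ ‖c‖ := by
    by_cases h : σ.1 0 = ‖c‖
    · refine ⟨σ.2 0, Or.inr rfl, ?_⟩
      rw [← h]
      exact (hσ 0).2.ne'
    · exact ⟨σ.1 0, Or.inl rfl, h⟩
  let t : Fin 3 → ℝ := Function.update σ.1 0 t0
  have htσ : ∀ l, t l = σ.1 l ∨ t l = σ.2 l := by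
    intro l
    by_cases h0 : l = 0
    · subst h0
      simpa [t] using ht0
    · left
      simp [t, Function.update_of_ne h0]
  have htpos : ∀ l, 0 < t l := by
    intro l
    rcases htσ l with h | h
    · rw [h]; exact (hσ l).1
    · rw [h]; exact (hσ l).1.trans (hσ l).2
  have htb : ∀ l, σ.1 l ≤ t l ∧ t l ≤ σ.2 l := by
    intro l
    rcases htσ l with h | h
    · rw [h]; exact ⟨le_rfl, (hσ l).2.le⟩
    · rw [h]; exact ⟨(hσ l).2.le, le_rfl⟩
  have hU1 : Sup univ (ξ i k) := (hsup i k).mono (subset_univ _)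
  have hU2 : Sup univ (ξ i j) := (hsup i j).mono (subset_univ _)
  have hU3 : Sup univ (ξ j k) := (hsup j k).mono (subset_univ _)
  have hUT : Sup univ (T i j) := (hT.sup i j).mono (subset_univ _)
  have hcvs : Sm σ (cv (T i j) (ξ j k)) := (cv_Sm hσ hTs (hsm j k)).1
  have hcvu : Sup univ (cv (T i j) (ξ j k)) := Sup_cv hUT hU3
  have hadds : Sm σ (ξ i j + cv (T i j) (ξ j k)) := (Sm.add hσ (hsm i j) hcvs).1
  have haddu : Sup univ (ξ i j + cv (T i j) (ξ j k)) := Sup.add hU2 hcvu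
  have hDs : Sm σ (ξ i k - (ξ i j + cv (T i j) (ξ j k))) := (Sm.sub hσ (hsm i k) hadds).1
  have hD : ξ i k - (ξ i j + cv (T i j) (ξ j k)) = 0 := by
    refine ev_inj htpos ?_ ?_
    · refine Summable.of_nonneg_of_le (fun m => ?_) (fun m => ?_) hDs
      · exact mul_nonneg (norm_nonneg _) (Finset.prod_nonneg fun l _ => zpow_nonneg (htpos l).le _)
      · refine mul_le_mul_of_nonneg_left ?_ (norm_nonneg _)
        refine Finset.prod_le_prod (fun l _ => zpow_nonneg (htpos l).le _) fun l _ => ?_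
        rcases htσ l with h | h
        · rw [h]; exact le_max_left _ _
        · rw [h]; exact le_max_right _ _
    · intro z hz
      have hzU : z ∈ Om r R univ := by
        refine ⟨fun l _ => ?_, fun l => ?_⟩
        · rw [hz l]
          exact (hβ l).1.trans_le ((hs l).1.trans (htb l).1)
        · rw [hz l]
          exact ((htb l).2.trans (hs l).2).trans_lt (hβ l).2.2
      have hzO : ∀ I, z ∈ Om r R I := fun I => mkXi_om_anti (subset_univ _) hzU
      have hzC : CR σ univ z := by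
        refine ⟨fun l _ => ?_, fun l => ?_⟩
        · rw [hz l]; exact (htb l).1
        · rw [hz l]; exact (htb l).2
      have hz0 : z 0 - c ≠ 0 := by
        intro h
        apply ht0'
        have h1 : z 0 = c := sub_eq_zero.mp h
        rw [← h1, hz 0]
        simp [t]
      rw [ev_sub hσ hU1 (hsm i k) haddu hadds hzC, ev_add hσ hU2 (hsm i j) hcvu hcvs hzC,
        ev_cv hσ hUT hTs hU3 (hsm j k) hzC, hTe i j z (hzO _)]
      have e1 := he i k z (hzO _)
      have e2 := he i j z (hzO _)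
      have e3 := he j k z (hzO _)
      have e4 := h2 i j k z (hzO _)
      have key : (z 0 - c) • (ev z (ξ i k) - (ev z (ξ i j) + Tf i j z (ev z (ξ j k)))) = 0 := by
        rw [smul_sub, smul_add, ← map_smul, e1, e2, e3, map_sub]
        have e5 : Tf i j z (Tf j k z (u k z)) = Tf i k z (u k z) := by
          rw [← e4]; rfl
        rw [e5]
        abel
      exact (smul_eq_zero.mp key).resolve_left hz0
  exact sub_eq_zero.mp hD

theorem mkXi {V : Type} [NormedAddCommGroup V] [NormedSpace ℂ V] [FiniteDimensional ℂ V]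
    {r R : ℝ} (hr : 0 < r) (hR : r < R) (Tf : Fin 3 → Fin 3 → (Fin 3 → ℂ) → (V →L[ℂ] V))
    (hd : ∀ i j, DifferentiableOn ℂ (Tf i j) (Om r R {i, j}))
    (h1 : ∀ i, ∀ z ∈ Om r R {i}, Tf i i z = 1)
    (h2 : ∀ i j k, ∀ z ∈ Om r R {i, j, k}, Tf i j z * Tf j k z = Tf i k z)
    {β : Rd} (hβ : ∀ i, r < β.1 i ∧ β.1 i < β.2 i ∧ β.2 i < R)
    {T : Fin 3 → Fin 3 → Z3 → (V →L[ℂ] V)} (hT : TT β T)
    (hTe : ∀ i j, ∀ z ∈ Om r R {i, j}, ev z (T i j) = Tf i j z)
    {σ : Rd} (hσ : Ok σ) (hs : Sub σ β) (c : ℂ) (hc : r < ‖c‖) (hc' : ‖c‖ < R) (v : V) :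
    ∃ ξ : Fin 3 → Fin 3 → Z3 → V, Cc σ T ξ ∧ ∀ i j, ∀ z ∈ Om r R {i, j},
      (z 0 - c) • ev z (ξ i j) =
        Tf i 0 (Function.update z 0 c) v - Tf i j z (Tf j 0 (Function.update z 0 c) v) := by
  classical
  let u : Fin 3 → (Fin 3 → ℂ) → V := fun i z => Tf i 0 (Function.update z 0 c) v
  have hud : ∀ i (I : Set (Fin 3)), i ∈ I → DifferentiableOn ℂ (u i) (Om r R I) := by
    intro i I hi
    have h1 : DifferentiableOn ℂ (fun z => Tf i 0 (Function.update z 0 c)) (Om r R I) :=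
      (hd i 0).comp (mkXi_diff_upd c).differentiableOn (fun z hz => mkXi_upd hc hc' hi hz)
    exact h1.clm_apply (differentiableOn_const v)
  have hG : ∀ i j, DifferentiableOn ℂ (fun z => u i z - Tf i j z (u j z)) (Om r R {i, j}) := by
    intro i j
    exact (hud i _ (by simp)).sub ((hd i j).clm_apply (hud j _ (by simp)))
  have hG0 : ∀ i j, ∀ z ∈ Om r R {i, j}, z 0 = c → u i z - Tf i j z (u j z) = 0 := by
    intro i j z hz hzc
    have hupd : Function.update z 0 c = z := by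
      rw [← hzc]
      exact Function.update_eq_self 0 z
    have hz' : z ∈ Om r R {i, j, 0} := by
      refine ⟨fun l hl => ?_, hz.2⟩
      rcases hl with hl | hl | hl
      · exact hz.1 l (by simp [hl])
      · exact hz.1 l (by simp [hl])
      · rw [hl, hzc]
        exact hc
    have e := h2 i j 0 z hz'
    simp only [u, hupd]
    rw [← e]
    simp
  choose X hXd hXe using fun i j => division (mkXi_om_open (r := r) (R := R) {i, j}) c (hG i j) (hG0 i j)
  choose ξ hsup hsm hev using fun i j => enter hr hR {i, j} (X i j) (hXd i j)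
  have he : ∀ i j, ∀ z ∈ Om r R {i, j}, (z 0 - c) • ev z (ξ i j) = u i z - Tf i j z (u j z) := by
    intro i j z hz
    rw [hev i j z hz]
    exact hXe i j z hz
  have hsm' : ∀ i j, Sm σ (ξ i j) := fun i j => hsm i j σ fun l =>
    ⟨(hβ l).1.trans_le (hs l).1, (hσ l).2, (hs l).2.trans_lt (hβ l).2.2⟩
  exact ⟨ξ, ⟨hsm', hsup, fun i j k => mkXi_co Tf h2 hβ hT hTe hr hσ hs c u ξ hsm' hsup he i j k⟩, he⟩

end Pool.Agent.HP.EG
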