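import Pool.Agent.HopfPinch.EG18

set_option autoImplicit false

open Set Filter Topology Metric

namespace Pool.Agent.HP.EG

/-! ### block E1 : weights, norms, convolution -/

section
variable {V : Type*} [NormedAddCommGroup V] [NormedSpace ℂ V] {ρ β : Rd}

variable [CompleteSpace V]

/-! ### block E2 : evaluation -/

end

/-! ### block E3 : Laurent expansion -/

/-! ### block E4 : the bumps -/

/-! ### block E5 : abstract finiteness -/

/-! ### block E6 : coding in `ℓ¹` and total boundedness -/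

/-! ### block E7 : a linear relation between cocycles modulo coboundaries -/

/-! ### block E8 : coefficient families of the transition functions -/

/-! ### block E9 : division by `z 0 - c` and the Cousin cocycles -/

/-! ### block E10 : sections with prescribed value on a slice -/

theorem ev_fsum {V : Type} [NormedAddCommGroup V] [NormedSpace ℂ V] [CompleteSpace V]
    {ρ : Rd} (h : Ok ρ) {I : Set (Fin 3)} (s : Finset ℕ) (μ : ℕ → ℂ) (a : ℕ → Z3 → V)
    (ha : ∀ n, Sup I (a n)) (hs : ∀ n, Sm ρ (a n)) {z : Fin 3 → ℂ} (hz : CR ρ I z) :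
    Sup I (∑ n ∈ s, μ n • a n) ∧ Sm ρ (∑ n ∈ s, μ n • a n) ∧
      ev z (∑ n ∈ s, μ n • a n) = ∑ n ∈ s, μ n • ev z (a n) := by
  classical
  induction s using Finset.induction_on with
  | empty =>
    refine ⟨?_, ?_, ?_⟩
    · intro k l _ _; simp
    · unfold Sm; simpa using (summable_zero : Summable fun _ : Z3 => (0:ℝ))
    · simp [ev]
  | insert n s hn ih =>
    obtain ⟨i1, i2, i3⟩ := ih
    rw [Finset.sum_insert hn, Finset.sum_insert hn]
    have h1 : Sup I (μ n • a n) := Sup.smul (μ n) (ha n)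
    have h2 : Sm ρ (μ n • a n) := (Sm.smul (μ n) (hs n)).1
    refine ⟨Sup.add h1 i1, (Sm.add h h2 i2).1, ?_⟩
    rw [ev_add h h1 h2 i1 i2 hz, ev_smul, i3]

theorem upd_diff_EG19 (c : ℂ) : Differentiable ℂ (fun z : Fin 3 → ℂ => Function.update z 0 c) := by
  rw [differentiable_pi]
  intro j
  by_cases hj : j = 0
  · subst hj
    simp only [Function.update_self]
    exact differentiable_const c
  · simp only [Function.update_of_ne hj]
    exact differentiable_apply j

theorem prod_diff0 (s : Finset ℕ) (c : ℕ → ℂ) :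
    Differentiable ℂ (fun z : Fin 3 → ℂ => ∏ l ∈ s, (z 0 - c l)) := by
  classical
  induction s using Finset.induction_on with
  | empty => simp
  | insert n s hn ih =>
    simp only [Finset.prod_insert hn]
    exact ((differentiable_apply 0).sub_const (c n)).mul ih

theorem Om_sub {r R r' R' : ℝ} (hr' : r < r') (hR' : R' < R) {I : Set (Fin 3)} {z : Fin 3 → ℂ}
    (hz : z ∈ Om r' R' I) : z ∈ Om r R I :=
  ⟨fun i hi => hr'.trans (hz.1 i hi), fun j => (hz.2 j).trans hR'⟩

theorem upd_mem_EG19 {r R r' R' : ℝ} (hr' : r < r') (hR' : R' < R) {I : Set (Fin 3)} {c : ℂ}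
    (hc1 : r' < ‖c‖) (hc2 : ‖c‖ < R') {z : Fin 3 → ℂ} {i : Fin 3} (hi : i ∈ I)
    (hz : z ∈ Om r' R' I) : Function.update z 0 c ∈ Om r R {i, 0} := by
  constructor
  · intro l hl
    by_cases h0 : l = 0
    · subst h0
      rw [Function.update_self]
      exact hr'.trans hc1
    · rw [Function.update_of_ne h0]
      rcases hl with h | h
      · subst h; exact hr'.trans (hz.1 l hi)
      · exact absurd h h0
  · intro j
    by_cases h0 : j = 0
    · subst h0
      rw [Function.update_self]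
      exact hc2.trans hR'
    · rw [Function.update_of_ne h0]
      exact (hz.2 j).trans hR'

theorem sections {V : Type} [NormedAddCommGroup V] [NormedSpace ℂ V] [FiniteDimensional ℂ V]
    {r R : ℝ} (hr : 0 < r) (hR : r < R) (Tf : Fin 3 → Fin 3 → (Fin 3 → ℂ) → (V →L[ℂ] V))
    (hd : ∀ i j, DifferentiableOn ℂ (Tf i j) (Om r R {i, j}))
    (h1 : ∀ i, ∀ z ∈ Om r R {i}, Tf i i z = 1)
    (h2 : ∀ i j k, ∀ z ∈ Om r R {i, j, k}, Tf i j z * Tf j k z = Tf i k z)
    {r' R' : ℝ} (hr' : r < r') (hrR : r' < R') (hR' : R' < R) (v : V)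
    (c : ℕ → ℂ) (hc : Function.Injective c) (hc1 : ∀ n, r' < ‖c n‖) (hc2 : ∀ n, ‖c n‖ < R') :
    ∃ (n : ℕ) (f : Fin 3 → (Fin 3 → ℂ) → V), (∀ i, DifferentiableOn ℂ (f i) (Om r' R' {i})) ∧
      (∀ i j, ∀ z ∈ Om r' R' {i, j}, f i z = Tf i j z (f j z)) ∧ f 0 ![c n, 0, 0] = v := by
  classical
  have hr0 : 0 < r' := hr.trans hr'
  set σ : Rd := (fun _ => r', fun _ => R') with hσdef
  set β : Rd := (fun _ => (r + r') / 2, fun _ => (R + R') / 2) with hβdef
  have hσ : Ok σ := fun i => ⟨hr0, hrR⟩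
  have hβOk : Ok β := fun i => ⟨by simp only [hβdef]; linarith, by simp only [hβdef]; linarith⟩
  have hβ : ∀ i, r < β.1 i ∧ β.1 i < β.2 i ∧ β.2 i < R := fun i =>
    ⟨by simp only [hβdef]; linarith, by simp only [hβdef]; linarith, by simp only [hβdef]; linarith⟩
  have hs : ∀ i, β.1 i < σ.1 i ∧ σ.2 i < β.2 i := fun i =>
    ⟨by simp only [hβdef, hσdef]; linarith, by simp only [hβdef, hσdef]; linarith⟩
  have hsub : Sub σ β := fun i => ⟨(hs i).1.le, (hs i).2.le⟩
  obtain ⟨T, hT, hTe⟩ := mkTT hr hR Tf hd h1 h2 hβ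
  have hxi : ∀ n, ∃ ξ : Fin 3 → Fin 3 → Z3 → V, Cc σ T ξ ∧ ∀ i j, ∀ z ∈ Om r R {i, j},
      (z 0 - c n) • ev z (ξ i j) =
        Tf i 0 (Function.update z 0 (c n)) v - Tf i j z (Tf j 0 (Function.update z 0 (c n)) v) :=
    fun n => mkXi hr hR Tf hd h1 h2 hβ hT hTe hσ hsub (c n) (hr'.trans (hc1 n)) ((hc2 n).trans hR') v
  choose ξ hξ hξe using hxi
  obtain ⟨μ, b, hμ, hb, hrel⟩ := relation hβOk hT hσ hs ξ hξ
  set S := μ.support with hS
  set P : ℕ → (Fin 3 → ℂ) → ℂ := fun n z => ∏ l ∈ S.erase n, (z 0 - c l) with hP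
  set Q : (Fin 3 → ℂ) → ℂ := fun z => ∏ l ∈ S, (z 0 - c l) with hQ
  have hPQ : ∀ n ∈ S, ∀ z : Fin 3 → ℂ, P n z * (z 0 - c n) = Q z := by
    intro n hn z
    simp only [hP, hQ]
    rw [mul_comm]
    exact Finset.mul_prod_erase S (fun l => z 0 - c l) hn
  set F : Fin 3 → (Fin 3 → ℂ) → V := fun i z =>
    ∑ n ∈ S, (μ n * P n z) • Tf i 0 (Function.update z 0 (c n)) v - Q z • ev z (b i) with hF
  have hPd : ∀ n, Differentiable ℂ (P n) := by
    intro n
    exact prod_diff0 (S.erase n) c
  have hQd : Differentiable ℂ Q := prod_diff0 S c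
  have hFd : ∀ i, DifferentiableOn ℂ (F i) (Om r' R' {i}) := by
    intro i
    simp only [hF]
    apply DifferentiableOn.sub
    · apply DifferentiableOn.fun_sum
      intro n _
      apply DifferentiableOn.fun_smul
      · exact ((hPd n).const_mul (μ n)).differentiableOn
      · have hcomp : DifferentiableOn ℂ (fun z : Fin 3 → ℂ => Tf i 0 (Function.update z 0 (c n)))
            (Om r' R' {i}) := by
          apply (hd i 0).comp (upd_diff_EG19 (c n)).differentiableOn
          intro z hz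
          exact upd_mem_EG19 hr' hR' (hc1 n) (hc2 n) (mem_singleton i) hz
        exact hcomp.clm_apply (differentiableOn_const v)
    · apply DifferentiableOn.fun_smul
      · exact hQd.differentiableOn
      · exact ev_diff hσ (hb i).2 (hb i).1
  have hFt : ∀ i j, ∀ z ∈ Om r' R' {i, j}, F i z = Tf i j z (F j z) := by
    intro i j z hz
    have hz' : z ∈ Om r R {i, j} := Om_sub hr' hR' hz
    have hCR : CR σ {i, j} z := ⟨fun l hl => (hz.1 l hl).le, fun l => (hz.2 l).le⟩
    have hsupT := hT.sup i j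
    have hsmT : Sm σ (T i j) := (Sm.mono hσ hβOk hsub (hT.sm i j)).1
    have hbi : Sup {i, j} (b i) := Sup.mono (by intro x hx; exact Or.inl hx) (hb i).2
    have hbj : Sup {i, j} (b j) := Sup.mono (by intro x hx; exact Or.inr hx) (hb j).2
    have e1 : ev z (b i) - Tf i j z (ev z (b j)) = ∑ n ∈ S, μ n • ev z (ξ n i j) := by
      rw [← hTe i j z hz', ← ev_cv hσ hsupT hsmT hbj (hb j).1 hCR,
        ← ev_sub hσ hbi (hb i).1 (Sup_cv hsupT hbj) (cv_Sm hσ hsmT (hb j).1).1 hCR, ← hrel i j]
      exact (ev_fsum hσ S (fun n => μ n) (fun n => ξ n i j) (fun n => (hξ n).sup i j)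
        (fun n => (hξ n).sm i j) hCR).2.2
    have e2 : F i z - Tf i j z (F j z) = ∑ n ∈ S, (μ n * P n z) •
        (Tf i 0 (Function.update z 0 (c n)) v - Tf i j z (Tf j 0 (Function.update z 0 (c n)) v))
        - Q z • (ev z (b i) - Tf i j z (ev z (b j))) := by
      simp only [hF]
      rw [map_sub, map_sum, map_smul]
      simp only [map_smul, smul_sub, Finset.sum_sub_distrib]
      abel
    have e3 : ∑ n ∈ S, (μ n * P n z) •
        (Tf i 0 (Function.update z 0 (c n)) v - Tf i j z (Tf j 0 (Function.update z 0 (c n)) v))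
        = Q z • ∑ n ∈ S, μ n • ev z (ξ n i j) := by
      rw [Finset.smul_sum]
      refine Finset.sum_congr rfl fun n hn => ?_
      rw [← hξe n i j z hz', smul_smul, smul_smul, mul_assoc, hPQ n hn z, mul_comm]
    rw [e1, e3, sub_self, sub_eq_zero] at e2
    exact e2
  obtain ⟨m, hm⟩ : S.Nonempty := Finsupp.support_nonempty_iff.2 hμ
  have hμm : μ m ≠ 0 := Finsupp.mem_support_iff.1 hm
  set z0 : Fin 3 → ℂ := ![c m, 0, 0] with hz0
  have hz00 : z0 0 = c m := rfl
  have hz0m : z0 ∈ Om r' R' {0} := by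
    constructor
    · intro i hi
      rw [mem_singleton_iff] at hi
      subst hi
      exact hc1 m
    · intro j
      fin_cases j
      · exact hc2 m
      · simpa [hz0] using hr0.trans hrR
      · simpa [hz0] using hr0.trans hrR
  set κ : ℂ := μ m * P m z0 with hκ
  have hκ0 : κ ≠ 0 := by
    apply mul_ne_zero hμm
    simp only [hP]
    rw [Finset.prod_ne_zero_iff]
    intro l hl
    rw [hz00, sub_ne_zero]
    intro h
    exact (Finset.ne_of_mem_erase hl) (hc h).symm
  have hFz : F 0 z0 = κ • v := by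
    have hQ0 : Q z0 = 0 := by
      simp only [hQ]
      apply Finset.prod_eq_zero hm
      rw [hz00, sub_self]
    simp only [hF]
    rw [hQ0, zero_smul, sub_zero, Finset.sum_eq_single m]
    · have hu : Function.update z0 0 (c m) = z0 := by
        rw [← hz00]; exact Function.update_eq_self 0 z0
      rw [hu, h1 0 z0 (Om_sub hr' hR' hz0m)]
      rfl
    · intro n hn hnm
      have : P n z0 = 0 := by
        simp only [hP]
        apply Finset.prod_eq_zero (i := m)
        · exact Finset.mem_erase.2 ⟨hnm.symm, hm⟩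
        · rw [hz00, sub_self]
      rw [this, mul_zero, zero_smul]
    · intro h; exact absurd hm h
  refine ⟨m, fun i z => κ⁻¹ • F i z, ?_, ?_, ?_⟩
  · intro i
    exact (hFd i).const_smul κ⁻¹
  · intro i j z hz
    simp only
    rw [hFt i j z hz, map_smul]
  · show κ⁻¹ • F 0 z0 = v
    rw [hFz, smul_smul, inv_mul_cancel₀ hκ0, one_smul]

end Pool.Agent.HP.EG
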