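import Pool.Agent.HopfPinch.EG1

set_option autoImplicit false

open Set Filter Topology Metric

namespace Pool.Agent.HP.EG

/-! ### block E1 : weights, norms, convolution -/

section
variable {V : Type*} [NormedAddCommGroup V] [NormedSpace ℂ V] {ρ β : Rd}

theorem Sm.mono (h : Ok ρ) (hb : Ok β) (hs : Sub ρ β) {a : Z3 → V} (ha : Sm β a) :
    Sm ρ a ∧ nm ρ a ≤ nm β a := by
  have h1 : ∀ k, ‖a k‖ * w ρ k ≤ ‖a k‖ * w β k := fun k =>
    mul_le_mul_of_nonneg_left (w_mono h hb hs k) (norm_nonneg _)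
  have h2 : Sm ρ a := Summable.of_nonneg_of_le
    (fun k => mul_nonneg (norm_nonneg _) (w_pos h k).le) h1 ha
  exact ⟨h2, Summable.tsum_le_tsum h1 h2 ha⟩

theorem Sm.add (h : Ok ρ) {a b : Z3 → V} (ha : Sm ρ a) (hb : Sm ρ b) :
    Sm ρ (a + b) ∧ nm ρ (a + b) ≤ nm ρ a + nm ρ b := by
  have h0 : Summable fun k => ‖a k‖ * w ρ k + ‖b k‖ * w ρ k := Summable.add ha hb
  have h1 : ∀ k, ‖(a + b) k‖ * w ρ k ≤ ‖a k‖ * w ρ k + ‖b k‖ * w ρ k := fun k => by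
    rw [← add_mul]
    exact mul_le_mul_of_nonneg_right (norm_add_le _ _) (w_pos h k).le
  have h2 : Sm ρ (a + b) := Summable.of_nonneg_of_le
    (fun k => mul_nonneg (norm_nonneg _) (w_pos h k).le) h1 h0
  refine ⟨h2, ?_⟩
  have h3 : nm ρ a + nm ρ b = ∑' k, (‖a k‖ * w ρ k + ‖b k‖ * w ρ k) :=
    (Summable.tsum_add ha hb).symm
  rw [h3]
  exact Summable.tsum_le_tsum h1 h2 h0

theorem Sm.neg {a : Z3 → V} (ha : Sm ρ a) : Sm ρ (-a) ∧ nm ρ (-a) = nm ρ a := by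
  have h1 : (fun k => ‖(-a) k‖ * w ρ k) = fun k => ‖a k‖ * w ρ k := by
    funext k
    rw [Pi.neg_apply, norm_neg]
  constructor
  · unfold Sm at ha ⊢
    rw [h1]; exact ha
  · unfold nm
    rw [h1]

theorem Sm.sub (h : Ok ρ) {a b : Z3 → V} (ha : Sm ρ a) (hb : Sm ρ b) :
    Sm ρ (a - b) ∧ nm ρ (a - b) ≤ nm ρ a + nm ρ b := by
  have h1 := Sm.add h ha (Sm.neg hb).1
  rw [(Sm.neg hb).2, ← sub_eq_add_neg] at h1
  exact h1

theorem Sm.smul (c : ℂ) {a : Z3 → V} (ha : Sm ρ a) :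
    Sm ρ (c • a) ∧ nm ρ (c • a) = ‖c‖ * nm ρ a := by
  have h1 : (fun k => ‖(c • a) k‖ * w ρ k) = fun k => ‖c‖ * (‖a k‖ * w ρ k) := by
    funext k
    rw [Pi.smul_apply, norm_smul, mul_assoc]
  constructor
  · unfold Sm
    rw [h1]; exact Summable.mul_left _ ha
  · unfold nm
    rw [h1]; exact tsum_mul_left

/-- comparison: if `b` is termwise bounded by `a` and the weights agree where `b` does not vanish -/
theorem Sm.of_le (h : Ok ρ) (hb : Ok β) {a b : Z3 → V} (ha : Sm ρ a)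
    (hab : ∀ k, b k = 0 ∨ (‖b k‖ ≤ ‖a k‖ ∧ w β k = w ρ k)) :
    Sm β b ∧ nm β b ≤ nm ρ a := by
  have h1 : ∀ k, ‖b k‖ * w β k ≤ ‖a k‖ * w ρ k := fun k => by
    rcases hab k with h0 | ⟨h0, h0'⟩
    · rw [h0, norm_zero, zero_mul]
      exact mul_nonneg (norm_nonneg _) (w_pos h k).le
    · rw [h0']
      exact mul_le_mul_of_nonneg_right h0 (w_pos h k).le
  have h2 : Sm β b := Summable.of_nonneg_of_le
    (fun k => mul_nonneg (norm_nonneg _) (w_pos hb k).le) h1 ha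
  exact ⟨h2, Summable.tsum_le_tsum h1 h2 ha⟩

theorem Sm.Pp (h : Ok ρ) (j : Fin 3) {a : Z3 → V} (ha : Sm ρ a) :
    Sm ρ (EG.Pp j a) ∧ nm ρ (EG.Pp j a) ≤ nm ρ a := by
  refine Sm.of_le h h ha fun k => ?_
  by_cases hk : 0 ≤ k j
  · right
    simp [EG.Pp, hk]
  · left
    simp [EG.Pp, hk]

theorem Sm.Pm (h : Ok ρ) (j : Fin 3) {a : Z3 → V} (ha : Sm ρ a) :
    Sm ρ (EG.Pm j a) ∧ nm ρ (EG.Pm j a) ≤ nm ρ a := by
  refine Sm.of_le h h ha fun k => ?_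
  by_cases hk : 0 ≤ k j
  · left
    simp [EG.Pm, hk]
  · right
    simp [EG.Pm, hk]

theorem Sm.Pr (h : Ok ρ) (i : Fin 3) {a : Z3 → V} (ha : Sm ρ a) :
    Sm ρ (EG.Pr i a) ∧ nm ρ (EG.Pr i a) ≤ nm ρ a := by
  classical
  refine Sm.of_le h h ha fun k => ?_
  by_cases hk : ∀ l, l ≠ i → 0 ≤ k l
  · right
    unfold EG.Pr
    rw [if_pos hk]
    exact ⟨le_rfl, rfl⟩
  · left
    unfold EG.Pr
    rw [if_neg hk]

theorem Pp_add_Pm (j : Fin 3) (a : Z3 → V) : EG.Pp j a + EG.Pm j a = a := by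
  funext k
  by_cases hk : 0 ≤ k j <;> simp [EG.Pp, EG.Pm, hk]

theorem Sup_Pr (i : Fin 3) (a : Z3 → V) : Sup {i} (EG.Pr i a) := by
  classical
  intro k l hl hk
  unfold EG.Pr
  rw [if_neg]
  intro h'
  exact absurd (h' l (fun h2 => hl (by rw [h2]; exact Set.mem_singleton i))) (not_le.2 hk)

theorem Pr_eq_self {i : Fin 3} {a : Z3 → V} (ha : Sup {i} a) : EG.Pr i a = a := by
  classical
  funext k
  unfold EG.Pr
  split_ifs with hk
  · rfl
  · push Not at hk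
    obtain ⟨l, hl, hk⟩ := hk
    exact (ha k l (fun h' => hl (Set.mem_singleton_iff.1 h')) hk).symm

theorem Sup.mono {I J : Set (Fin 3)} (hIJ : I ⊆ J) {a : Z3 → V} (ha : Sup I a) : Sup J a := by
  intro k l hl hk
  exact ha k l (fun h' => hl (hIJ h')) hk

theorem Sup.add {I : Set (Fin 3)} {a b : Z3 → V} (ha : Sup I a) (hb : Sup I b) :
    Sup I (a + b) := by
  intro k l hl hk
  rw [Pi.add_apply, ha k l hl hk, hb k l hl hk, add_zero]

theorem Sup.sub {I : Set (Fin 3)} {a b : Z3 → V} (ha : Sup I a) (hb : Sup I b) :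
    Sup I (a - b) := by
  intro k l hl hk
  rw [Pi.sub_apply, ha k l hl hk, hb k l hl hk, sub_zero]

theorem Sup.neg {I : Set (Fin 3)} {a : Z3 → V} (ha : Sup I a) : Sup I (-a) := by
  intro k l hl hk
  rw [Pi.neg_apply, ha k l hl hk, neg_zero]

theorem Sup.smul {I : Set (Fin 3)} (c : ℂ) {a : Z3 → V} (ha : Sup I a) : Sup I (c • a) := by
  intro k l hl hk
  rw [Pi.smul_apply, ha k l hl hk, smul_zero]

end
end Pool.Agent.HP.EG
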