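import Pool.Agent.HopfPinch.EG2

set_option autoImplicit false

open Set Filter Topology Metric

namespace Pool.Agent.HP.EG

/-! ### block E1 : weights, norms, convolution -/

section
variable {V : Type*} [NormedAddCommGroup V] [NormedSpace ℂ V] {ρ β : Rd}

theorem Sup_cv {I : Set (Fin 3)} {T : Z3 → (V →L[ℂ] V)} {a : Z3 → V} (hT : Sup I T)
    (ha : Sup I a) : Sup I (cv T a) := by
  intro k l0 hl0 hk
  unfold cv
  rw [show (fun l => T l (a (k - l))) = fun _ => (0 : V) from ?_]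
  · exact tsum_zero
  · funext l
    by_cases h : l l0 < 0
    · rw [hT l l0 hl0 h]; rfl
    · have h2 : (k - l) l0 < 0 := by
        rw [Pi.sub_apply]; push Not at h; omega
      rw [ha (k - l) l0 hl0 h2, map_zero]

/-- the double family `(k, l) ↦ (‖T l‖ w l) (‖a (k - l)‖ w (k - l))` -/
noncomputable def cvG (ρ : Rd) (T : Z3 → (V →L[ℂ] V)) (a : Z3 → V) (x : Z3 × Z3) : ℝ :=
  (‖T x.2‖ * w ρ x.2) * (‖a (x.1 - x.2)‖ * w ρ (x.1 - x.2))

/-- `(k, l) ↦ (l, k - l)` -/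
def cvE : Z3 × Z3 ≃ Z3 × Z3 where
  toFun x := (x.2, x.1 - x.2)
  invFun y := (y.1 + y.2, y.1)
  left_inv x := by ext <;> simp
  right_inv y := by ext <;> simp

omit [NormedSpace ℂ V] [NormedAddCommGroup V] in
theorem cv_mulS {f g : Z3 → ℝ} (hf : Summable f) (hg : Summable g) (hf0 : 0 ≤ f) (hg0 : 0 ≤ g) :
    Summable fun x : Z3 × Z3 => f x.1 * g x.2 :=
  Summable.mul_of_nonneg hf hg hf0 hg0

theorem cvF_summable (h : Ok ρ) {T : Z3 → (V →L[ℂ] V)} {a : Z3 → V} (hT : Sm ρ T) (ha : Sm ρ a) :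
    Summable (fun x : Z3 × Z3 => (‖T x.1‖ * w ρ x.1) * (‖a x.2‖ * w ρ x.2)) := by
  have h1 : Summable (fun k : Z3 => ‖T k‖ * w ρ k) := hT
  have h2 : Summable (fun k : Z3 => ‖a k‖ * w ρ k) := ha
  have h3 : ∀ k : Z3, 0 ≤ ‖T k‖ * w ρ k := fun k => mul_nonneg (norm_nonneg _) (w_pos h k).le
  have h4 : ∀ k : Z3, 0 ≤ ‖a k‖ * w ρ k := fun k => mul_nonneg (norm_nonneg _) (w_pos h k).le
  generalize hf : (fun k : Z3 => ‖T k‖ * w ρ k) = f at *
  generalize hg : (fun k : Z3 => ‖a k‖ * w ρ k) = g at *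
  have hf' : ∀ k, ‖T k‖ * w ρ k = f k := fun k => congrFun hf k
  have hg' : ∀ k, ‖a k‖ * w ρ k = g k := fun k => congrFun hg k
  simp only [hf', hg'] at *
  exact cv_mulS h1 h2 h3 h4

theorem cvG_summable (h : Ok ρ) {T : Z3 → (V →L[ℂ] V)} {a : Z3 → V} (hT : Sm ρ T) (ha : Sm ρ a) :
    Summable (cvG ρ T a) := by
  have h1 := cvF_summable h hT ha
  have h2 := (cvE.summable_iff).2 h1
  exact h2

theorem cvG_tsum (h : Ok ρ) {T : Z3 → (V →L[ℂ] V)} {a : Z3 → V} (hT : Sm ρ T) (ha : Sm ρ a) :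
    ∑' x, cvG ρ T a x = nm ρ T * nm ρ a := by
  have h1 := cvF_summable h hT ha
  have h2 := cvE.tsum_eq (fun x : Z3 × Z3 => (‖T x.1‖ * w ρ x.1) * (‖a x.2‖ * w ρ x.2))
  have h3 : ∑' x, cvG ρ T a x = ∑' c, (fun x : Z3 × Z3 => (‖T x.1‖ * w ρ x.1) * (‖a x.2‖ * w ρ x.2)) (cvE c) := rfl
  rw [h3, h2]
  unfold nm
  exact (Summable.tsum_mul_tsum hT ha h1).symm

theorem cvG_le (h : Ok ρ) (T : Z3 → (V →L[ℂ] V)) (a : Z3 → V) (k l : Z3) :
    ‖T l (a (k - l))‖ * w ρ k ≤ cvG ρ T a (k, l) := by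
  unfold cvG
  have h1 : w ρ k ≤ w ρ l * w ρ (k - l) := by
    have := w_add_le h l (k - l)
    rwa [add_sub_cancel] at this
  have h2 : ‖T l (a (k - l))‖ ≤ ‖T l‖ * ‖a (k - l)‖ := (T l).le_opNorm _
  calc ‖T l (a (k - l))‖ * w ρ k ≤ (‖T l‖ * ‖a (k - l)‖) * (w ρ l * w ρ (k - l)) :=
        mul_le_mul h2 h1 (w_pos h k).le (mul_nonneg (norm_nonneg _) (norm_nonneg _))
    _ = _ := by ring

theorem cvG_le' (h : Ok ρ) (T : Z3 → (V →L[ℂ] V)) (a : Z3 → V) (k l : Z3) :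
    ‖T l (a (k - l))‖ ≤ cvG ρ T a (k, l) * (w ρ k)⁻¹ := by
  rw [← div_eq_mul_inv, le_div_iff₀ (w_pos h k)]
  exact cvG_le h T a k l

variable [CompleteSpace V]

theorem cv_summable (h : Ok ρ) {T : Z3 → (V →L[ℂ] V)} {a : Z3 → V} (hT : Sm ρ T) (ha : Sm ρ a)
    (k : Z3) : Summable fun l => T l (a (k - l)) := by
  have h1 : Summable fun l => cvG ρ T a (k, l) := (cvG_summable h hT ha).prod_factor k
  exact Summable.of_norm_bounded (h1.mul_right ((w ρ k)⁻¹)) (fun l => cvG_le' h T a k l)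

theorem cv_Sm (h : Ok ρ) {T : Z3 → (V →L[ℂ] V)} {a : Z3 → V} (hT : Sm ρ T) (ha : Sm ρ a) :
    Sm ρ (cv T a) ∧ nm ρ (cv T a) ≤ nm ρ T * nm ρ a := by
  have h1 : ∀ k, Summable fun l => cvG ρ T a (k, l) := fun k => (cvG_summable h hT ha).prod_factor k
  have h2 : ∀ k, ‖cv T a k‖ * w ρ k ≤ ∑' l, cvG ρ T a (k, l) := by
    intro k
    have h3 : ‖cv T a k‖ ≤ (∑' l, cvG ρ T a (k, l)) * (w ρ k)⁻¹ :=
      tsum_of_norm_bounded ((h1 k).hasSum.mul_right ((w ρ k)⁻¹)) (fun l => cvG_le' h T a k l)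
    rw [← div_eq_mul_inv, le_div_iff₀ (w_pos h k)] at h3
    exact h3
  have h4 : Summable fun k => ∑' l, cvG ρ T a (k, l) := (cvG_summable h hT ha).prod
  have h5 : Sm ρ (cv T a) :=
    Summable.of_nonneg_of_le (fun k => mul_nonneg (norm_nonneg _) (w_pos h k).le) h2 h4
  refine ⟨h5, ?_⟩
  rw [← cvG_tsum h hT ha, (cvG_summable h hT ha).tsum_prod]
  exact Summable.tsum_le_tsum h2 h5 h4

theorem cv_add (h : Ok ρ) {T : Z3 → (V →L[ℂ] V)} {a b : Z3 → V} (hT : Sm ρ T) (ha : Sm ρ a)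
    (hb : Sm ρ b) : cv T (a + b) = cv T a + cv T b := by
  funext k
  rw [Pi.add_apply]
  unfold cv
  rw [← (cv_summable h hT ha k).tsum_add (cv_summable h hT hb k)]
  refine tsum_congr fun l => ?_
  rw [Pi.add_apply, map_add]

theorem cv_sub (h : Ok ρ) {T : Z3 → (V →L[ℂ] V)} {a b : Z3 → V} (hT : Sm ρ T) (ha : Sm ρ a)
    (hb : Sm ρ b) : cv T (a - b) = cv T a - cv T b := by
  funext k
  rw [Pi.sub_apply]
  unfold cv
  rw [← (cv_summable h hT ha k).tsum_sub (cv_summable h hT hb k)]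
  refine tsum_congr fun l => ?_
  rw [Pi.sub_apply, map_sub]

theorem cv_neg (T : Z3 → (V →L[ℂ] V)) (a : Z3 → V) : cv T (-a) = -cv T a := by
  funext k
  rw [Pi.neg_apply]
  unfold cv
  rw [← tsum_neg]
  refine tsum_congr fun l => ?_
  rw [Pi.neg_apply, map_neg]

theorem cv_smul (T : Z3 → (V →L[ℂ] V)) (c : ℂ) (a : Z3 → V) : cv T (c • a) = c • cv T a := by
  funext k
  rw [Pi.smul_apply]
  unfold cv
  rw [← tsum_const_smul'']
  refine tsum_congr fun l => ?_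
  rw [Pi.smul_apply, map_smul]

end
end Pool.Agent.HP.EG
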