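import Pool.Agent.HopfPinch.EG3

set_option autoImplicit false

open Set Filter Topology Metric

namespace Pool.Agent.HP.EG

/-! ### block E1 : weights, norms, convolution -/

section
variable {V : Type*} [NormedAddCommGroup V] [NormedSpace ℂ V] {ρ β : Rd}

variable [CompleteSpace V]

/-! ### block E2 : evaluation -/

theorem aux833_fac (h : Ok ρ) {I : Set (Fin 3)} {z : Fin 3 → ℂ} (hz : CR ρ I z) (k : Z3)
    (hk : ∀ i, i ∉ I → 0 ≤ k i) (i : Fin 3) :
    ‖z i ^ k i‖ ≤ max (ρ.1 i ^ k i) (ρ.2 i ^ k i) := by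
  rw [norm_zpow]
  rcases le_or_gt 0 (k i) with h0 | h0
  · refine le_max_of_le_right ?_
    obtain ⟨n, hn⟩ := Int.eq_ofNat_of_zero_le h0
    rw [hn, zpow_natCast, zpow_natCast]
    exact pow_le_pow_left₀ (norm_nonneg _) (hz.2 i) n
  · refine le_max_of_le_left ?_
    have hi : i ∈ I := by
      by_contra hi
      have := hk i hi
      omega
    have h1 := hz.1 i hi
    have h2 := (h i).1
    obtain ⟨n, hn⟩ : ∃ n : ℕ, k i = -(n : ℤ) := ⟨(k i).natAbs, by omega⟩
    rw [hn, zpow_neg, zpow_neg, zpow_natCast, zpow_natCast]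
    exact inv_anti₀ (pow_pos h2 n) (pow_le_pow_left₀ h2.le h1 n)

omit [CompleteSpace V] in
theorem aux833_norm (h : Ok ρ) {I : Set (Fin 3)} {a : Z3 → V} (ha : Sup I a)
    {z : Fin 3 → ℂ} (hz : CR ρ I z) (k : Z3) : ‖mon z k • a k‖ ≤ ‖a k‖ * w ρ k := by
  by_cases hk : ∀ i, i ∉ I → 0 ≤ k i
  · rw [norm_smul, mul_comm]
    refine mul_le_mul_of_nonneg_left ?_ (norm_nonneg _)
    rw [mon, norm_prod, w]
    exact Finset.prod_le_prod (fun i _ => norm_nonneg _) (fun i _ => aux833_fac h hz k hk i)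
  · push Not at hk
    obtain ⟨i, hi, hki⟩ := hk
    rw [ha k i hi hki]
    simp

theorem norm_mon_smul_le (h : Ok ρ) {I : Set (Fin 3)} {a : Z3 → V} (ha : Sup I a)
    {z : Fin 3 → ℂ} (hz : CR ρ I z) (k : Z3) : ‖mon z k • a k‖ ≤ ‖a k‖ * w ρ k :=
  aux833_norm h ha hz k

theorem ev_summable (h : Ok ρ) {I : Set (Fin 3)} {a : Z3 → V} (ha : Sup I a) (hs : Sm ρ a)
    {z : Fin 3 → ℂ} (hz : CR ρ I z) : Summable fun k => mon z k • a k :=
  Summable.of_norm_bounded hs (fun k => aux833_norm h ha hz k)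

theorem ev_add (h : Ok ρ) {I : Set (Fin 3)} {a b : Z3 → V} (ha : Sup I a) (hs : Sm ρ a)
    (hb : Sup I b) (hs' : Sm ρ b) {z : Fin 3 → ℂ} (hz : CR ρ I z) :
    ev z (a + b) = ev z a + ev z b := by
  rw [ev, ev, ev, ← (ev_summable h ha hs hz).tsum_add (ev_summable h hb hs' hz)]
  refine tsum_congr (fun k => ?_)
  rw [Pi.add_apply, smul_add]

theorem ev_sub (h : Ok ρ) {I : Set (Fin 3)} {a b : Z3 → V} (ha : Sup I a) (hs : Sm ρ a)
    (hb : Sup I b) (hs' : Sm ρ b) {z : Fin 3 → ℂ} (hz : CR ρ I z) :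
    ev z (a - b) = ev z a - ev z b := by
  rw [ev, ev, ev, ← (ev_summable h ha hs hz).tsum_sub (ev_summable h hb hs' hz)]
  refine tsum_congr (fun k => ?_)
  rw [Pi.sub_apply, smul_sub]

theorem ev_smul (c : ℂ) (a : Z3 → V) (z : Fin 3 → ℂ) : ev z (c • a) = c • ev z a := by
  rw [ev, ev, ← tsum_const_smul'']
  refine tsum_congr (fun k => ?_)
  rw [Pi.smul_apply, smul_comm]

theorem aux833_mon (h : Ok ρ) {I : Set (Fin 3)} {z : Fin 3 → ℂ} (hz : CR ρ I z) (l m : Z3)
    (hl : ∀ i, i ∉ I → 0 ≤ l i) (hm : ∀ i, i ∉ I → 0 ≤ m i) :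
    mon z l * mon z m = mon z (l + m) := by
  rw [mon, mon, mon, ← Finset.prod_mul_distrib]
  refine Finset.prod_congr rfl (fun i _ => ?_)
  rw [Pi.add_apply]
  symm
  apply zpow_add'
  by_cases hzi : z i = 0
  · right
    have hi : i ∉ I := by
      intro hi
      have h1 := hz.1 i hi
      rw [hzi, norm_zero] at h1
      exact absurd (h i).1 (not_lt.2 h1)
    have h1 := hl i hi
    have h2 := hm i hi
    omega
  · left
    exact hzi

theorem ev_cv (h : Ok ρ) {I : Set (Fin 3)} {T : Z3 → (V →L[ℂ] V)} {a : Z3 → V}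
    (hT : Sup I T) (hTs : Sm ρ T) (ha : Sup I a) (hs : Sm ρ a) {z : Fin 3 → ℂ} (hz : CR ρ I z) :
    ev z (cv T a) = (ev z T) (ev z a) := by
  have hu : Summable (fun l => mon z l • T l) := ev_summable h hT hTs hz
  have hv : Summable (fun m => mon z m • a m) := ev_summable h ha hs hz
  have hun : Summable (fun l => ‖mon z l • T l‖) :=
    Summable.of_nonneg_of_le (fun _ => norm_nonneg _) (fun l => aux833_norm h hT hz l) hTs
  have hvn : Summable (fun m => ‖mon z m • a m‖) :=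
    Summable.of_nonneg_of_le (fun _ => norm_nonneg _) (fun m => aux833_norm h ha hz m) hs
  have hF : Summable (fun p : Z3 × Z3 => (mon z p.1 • T p.1) (mon z p.2 • a p.2)) := by
    refine Summable.of_norm_bounded
      (g := fun p : Z3 × Z3 => ‖mon z p.1 • T p.1‖ * ‖mon z p.2 • a p.2‖)
      (hun.mul_of_nonneg hvn (fun _ => norm_nonneg _) (fun _ => norm_nonneg _)) (fun p => ?_)
    exact ContinuousLinearMap.le_opNorm _ _
  have h1 : (ev z T) (ev z a) = ∑' p : Z3 × Z3, (mon z p.1 • T p.1) (mon z p.2 • a p.2) := by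
    rw [hF.tsum_prod]
    have e1 : (ev z T) (ev z a) = ∑' l, (mon z l • T l) (ev z a) := by
      have := (ContinuousLinearMap.apply ℂ V (ev z a)).map_tsum hu
      simpa [ev] using this
    rw [e1]
    refine tsum_congr (fun l => ?_)
    rw [ev]
    exact (mon z l • T l).map_tsum hv
  let e : Z3 × Z3 ≃ Z3 × Z3 :=
    { toFun := fun p => (p.2, p.1 - p.2)
      invFun := fun q => (q.1 + q.2, q.1)
      left_inv := fun p => by ext1 <;> simp
      right_inv := fun q => by ext1 <;> simp }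
  have h2 : ∑' p : Z3 × Z3, (mon z p.1 • T p.1) (mon z p.2 • a p.2)
      = ∑' p : Z3 × Z3, (mon z p.2 • T p.2) (mon z (p.1 - p.2) • a (p.1 - p.2)) :=
    (e.tsum_eq (fun p : Z3 × Z3 => (mon z p.1 • T p.1) (mon z p.2 • a p.2))).symm
  have hF2 : Summable (fun p : Z3 × Z3 =>
      (mon z p.2 • T p.2) (mon z (p.1 - p.2) • a (p.1 - p.2))) :=
    (e.summable_iff (f := fun p : Z3 × Z3 => (mon z p.1 • T p.1) (mon z p.2 • a p.2))).2 hF
  rw [h1, h2, hF2.tsum_prod, ev]
  refine tsum_congr (fun k => ?_)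
  rw [cv, ← tsum_const_smul'']
  refine tsum_congr (fun l => ?_)
  simp only [_root_.smul_apply, map_smul]
  rw [smul_smul]
  by_cases hT0 : T l = 0
  · rw [hT0]; simp
  by_cases ha0 : a (k - l) = 0
  · rw [ha0]; simp
  rw [mul_comm (mon z (k - l)), aux833_mon h hz l (k - l), add_sub_cancel]
  · intro i hi
    by_contra hc
    exact hT0 (hT l i hi (not_le.1 hc))
  · intro i hi
    by_contra hc
    exact ha0 (ha (k - l) i hi (not_le.1 hc))

end
end Pool.Agent.HP.EG
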