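import Pool.Agent.HopfPinch.EG4
import Pool.Agent.HopfPinch.GLib

set_option autoImplicit false

open Set Filter Topology Metric

namespace Pool.Agent.HP.EG

open Pool.Agent.HopfPinch (param_circle differentiableOn_of_uniform_limit)

/-! ### block E1 : weights, norms, convolution -/

section
variable {V : Type*} [NormedAddCommGroup V] [NormedSpace ℂ V] {ρ β : Rd}

variable [CompleteSpace V]

/-! ### block E2 : evaluation -/

omit [CompleteSpace V] in
theorem term_diff {I : Set (Fin 3)} {a : Z3 → V} (h : Ok ρ) (ha : Sup I a) (k : Z3)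
    {z : Fin 3 → ℂ} (hz : z ∈ Rg ρ I) :
    DifferentiableAt ℂ (fun z : Fin 3 → ℂ => mon z k • a k) z := by
  by_cases h0 : a k = 0
  · simp only [h0, smul_zero]
    exact differentiableAt_const _
  · apply DifferentiableAt.smul_const
    have h1 : ∀ i : Fin 3, DifferentiableAt ℂ (fun z : Fin 3 → ℂ => z i ^ k i) z := by
      intro i
      apply DifferentiableAt.zpow (differentiableAt_apply i z)
      by_cases hi : i ∈ I
      · left
        intro h2
        have h3 := hz.1 i hi
        rw [h2, norm_zero] at h3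
        have h4 := (h i).1
        linarith
      · right
        by_contra h2
        push Not at h2
        exact h0 (ha k i hi h2)
    have h2 : (fun z : Fin 3 → ℂ => mon z k) =
        fun z : Fin 3 → ℂ => z 0 ^ k 0 * z 1 ^ k 1 * z 2 ^ k 2 := by
      funext z
      unfold mon
      rw [Fin.prod_univ_three]
    rw [h2]
    exact ((h1 0).mul (h1 1)).mul (h1 2)

theorem isOpen_Rg (ρ : Rd) (I : Set (Fin 3)) : IsOpen (Rg ρ I) := by
  have h1 : Rg ρ I = (⋂ i : Fin 3, {z : Fin 3 → ℂ | i ∈ I → ρ.1 i < ‖z i‖}) ∩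
      (⋂ j : Fin 3, {z : Fin 3 → ℂ | ‖z j‖ < ρ.2 j}) := by
    ext z
    simp only [Rg, mem_inter_iff, mem_iInter]
    exact Iff.rfl
  rw [h1]
  apply IsOpen.inter
  · apply isOpen_iInter_of_finite
    intro i
    by_cases hi : i ∈ I
    · simp only [hi, true_implies]
      exact isOpen_lt continuous_const (continuous_apply i).norm
    · simp [hi]
  · apply isOpen_iInter_of_finite
    intro j
    exact isOpen_lt (continuous_apply j).norm continuous_const

theorem ev_diff (h : Ok ρ) {I : Set (Fin 3)} {a : Z3 → V} (ha : Sup I a) (hs : Sm ρ a) :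
    DifferentiableOn ℂ (fun z => ev z a) (Rg ρ I) := by
  obtain ⟨hD⟩ := nonempty_denumerable Z3
  obtain ⟨φ⟩ : Nonempty (ℕ ≃ Z3) := ⟨(Denumerable.eqv Z3).symm⟩
  intro z0 hz0
  apply DifferentiableAt.differentiableWithinAt
  obtain ⟨e, he, hball⟩ := Metric.isOpen_iff.1 (isOpen_Rg ρ I) z0 hz0
  have hu : Summable (fun n => ‖a (φ n)‖ * w ρ (φ n)) := (φ.summable_iff).2 hs
  have hlim := tendstoUniformlyOn_tsum_nat (f := fun (n : ℕ) (z : Fin 3 → ℂ) => mon z (φ n) • a (φ n)) hu
    (s := ball z0 e) (fun n z hz => norm_mon_smul_le h ha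
      ⟨fun i hi => ((hball hz).1 i hi).le, fun j => ((hball hz).2 j).le⟩ (φ n))
  have hts : (fun z : Fin 3 → ℂ => ∑' n, mon z (φ n) • a (φ n)) = fun z => ev z a := by
    funext z
    unfold ev
    exact φ.tsum_eq (fun k => mon z k • a k)
  rw [hts] at hlim
  have hd := differentiableOn_of_uniform_limit (f := fun N (z : Fin 3 → ℂ) =>
    ∑ n ∈ Finset.range N, mon z (φ n) • a (φ n)) (fun N z hz => by
      apply DifferentiableAt.differentiableWithinAt
      apply DifferentiableAt.fun_sum
      intro n _
      exact term_diff h ha (φ n) (hball hz)) hlim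
  exact (hd z0 (mem_ball_self (by positivity))).differentiableAt (ball_mem_nhds z0 (by positivity))

end
end Pool.Agent.HP.EG
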