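import Pool.Agent.HopfPinch.EG5

set_option autoImplicit false

open Set Filter Topology Metric

namespace Pool.Agent.HP.EG

section four
open MeasureTheory

noncomputable local instance : MeasureSpace UnitAddCircle := ⟨AddCircle.haarAddCircle⟩

local instance : Measure.IsAddHaarMeasure (volume : Measure UnitAddCircle) :=
  inferInstanceAs (Measure.IsAddHaarMeasure AddCircle.haarAddCircle)

local instance : IsProbabilityMeasure (volume : Measure UnitAddCircle) :=
  inferInstanceAs (IsProbabilityMeasure AddCircle.haarAddCircle)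

theorem four_inj {c : Z3 → ℂ} (hc : Summable fun k => ‖c k‖)
    (h0 : ∀ x : UnitAddTorus (Fin 3), ∑' k, c k * UnitAddTorus.mFourier k x = 0) (m : Z3) :
    c m = 0 := by
  classical
  have h1 : Summable fun k => c k • UnitAddTorus.mFourier (d := Fin 3) k := by
    refine Summable.of_norm ?_
    simpa only [norm_smul, UnitAddTorus.mFourier_norm, mul_one] using hc
  obtain ⟨S, hS⟩ := h1
  have hS0 : S = 0 := by
    ext x
    have h2 : HasSum (fun k => c k * UnitAddTorus.mFourier k x) (S x) := by
      simpa only [map_smul] using! (ContinuousMap.evalCLM ℂ x).hasSum hS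
    rw [← h2.tsum_eq, h0 x]; rfl
  rw [hS0] at hS
  have h3 : HasSum (fun k => c k • UnitAddTorus.mFourierLp (d := Fin 3) 2 k) 0 := by
    have := (ContinuousMap.toLp (E := ℂ) 2 (volume : Measure (UnitAddTorus (Fin 3))) ℂ).hasSum hS
    simpa only [map_smul, map_zero] using! this
  have h4 := (innerSL ℂ (UnitAddTorus.mFourierLp (d := Fin 3) 2 m)).hasSum h3
  have ho := orthonormal_iff_ite.1 (UnitAddTorus.orthonormal_mFourier (d := Fin 3))
  have h5 : HasSum (fun k => if m = k then c k else 0) (0 : ℂ) := by
    have e : (fun k => if m = k then c k else 0) = fun k =>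
        (innerSL ℂ (UnitAddTorus.mFourierLp (d := Fin 3) 2 m))
          (c k • UnitAddTorus.mFourierLp (d := Fin 3) 2 k) := by
      funext k
      rw [map_smul, innerSL_apply_apply, ho m k]
      simp
    rw [e]
    simpa using! h4
  have h6 : HasSum (fun k => if m = k then c k else 0) (c m) := by
    have := hasSum_ite_eq m (c m)
    refine this.congr_fun ?_
    intro k
    by_cases h : m = k
    · subst h; simp
    · simp [h, Ne.symm h]
  exact h6.unique h5

end four

/-! ### block E1 : weights, norms, convolution -/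

section
variable {V : Type*} [NormedAddCommGroup V] [NormedSpace ℂ V] {ρ β : Rd}

variable [CompleteSpace V]

/-! ### block E2 : evaluation -/

/-- uniqueness of Laurent coefficients, from the values on one torus -/
theorem ev_inj {t : Fin 3 → ℝ} (ht : ∀ i, 0 < t i) {a : Z3 → V}
    (hs : Summable fun k : Z3 => ‖a k‖ * ∏ i, t i ^ k i)
    (h0 : ∀ z : Fin 3 → ℂ, (∀ i, ‖z i‖ = t i) → ev z a = 0) : a = 0 := by
  funext m
  refine SeparatingDual.eq_zero_of_forall_dual_eq_zero (R := ℂ) (fun φ => ?_)
  set c : Z3 → ℂ := fun k => (∏ i, (t i : ℂ) ^ k i) * φ (a k) with hcdef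
  have hpos : ∀ k : Z3, 0 < ∏ i, t i ^ k i := fun k => Finset.prod_pos fun i _ => zpow_pos (ht i) _
  have hnt : ∀ k : Z3, ‖∏ i, (t i : ℂ) ^ k i‖ = ∏ i, t i ^ k i := by
    intro k
    rw [norm_prod]
    refine Finset.prod_congr rfl fun i _ => ?_
    rw [norm_zpow, Complex.norm_real, Real.norm_eq_abs, abs_of_pos (ht i)]
  have hc : Summable fun k => ‖c k‖ := by
    refine Summable.of_nonneg_of_le (fun _ => norm_nonneg _) (fun k => ?_) (hs.mul_left ‖φ‖)
    rw [hcdef, norm_mul, hnt]
    calc (∏ i, t i ^ k i) * ‖φ (a k)‖ ≤ (∏ i, t i ^ k i) * (‖φ‖ * ‖a k‖) := by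
          gcongr
          · exact (hpos k).le
          · exact φ.le_opNorm _
      _ = ‖φ‖ * (‖a k‖ * ∏ i, t i ^ k i) := by ring
  have hmain : c m = 0 := by
    refine four_inj hc (fun x => ?_) m
    set z : Fin 3 → ℂ := fun i => (t i : ℂ) * (AddCircle.toCircle (x i) : ℂ) with hz
    have hzn : ∀ i, ‖z i‖ = t i := by
      intro i
      rw [hz]
      show ‖(t i : ℂ) * (AddCircle.toCircle (x i) : ℂ)‖ = t i
      rw [norm_mul, Circle.norm_coe, mul_one, Complex.norm_real, Real.norm_eq_abs,
        abs_of_pos (ht i)]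
    have hmon : ∀ k : Z3, mon z k = (∏ i, (t i : ℂ) ^ k i) * UnitAddTorus.mFourier k x := by
      intro k
      simp only [mon, hz, UnitAddTorus.mFourier, ContinuousMap.coe_mk]
      rw [← Finset.prod_mul_distrib]
      refine Finset.prod_congr rfl fun i _ => ?_
      rw [mul_zpow, fourier_apply, AddCircle.toCircle_zsmul]
      simp
    have hsum : Summable fun k => mon z k • a k := by
      refine Summable.of_norm (hs.congr fun k => ?_)
      rw [norm_smul, hmon, norm_mul, hnt]
      have : ‖UnitAddTorus.mFourier k x‖ = 1 := by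
        simp only [UnitAddTorus.mFourier, ContinuousMap.coe_mk, norm_prod, fourier_apply]
        exact Finset.prod_eq_one fun i _ => Circle.norm_coe _
      rw [this]; ring
    have h1 := h0 z hzn
    unfold ev at h1
    have h2 := φ.map_tsum hsum
    rw [h1, map_zero] at h2
    rw [h2]
    refine tsum_congr fun k => ?_
    rw [map_smul, smul_eq_mul, hmon]
    simp only [hcdef]
    ring
  rw [hcdef] at hmain
  have : (∏ i, (t i : ℂ) ^ m i) ≠ 0 := by
    rw [← norm_pos_iff, hnt]; exact hpos m
  simpa [this] using hmain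

end
end Pool.Agent.HP.EG
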