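import Pool.Agent.HopfPinch.EG6

set_option autoImplicit false

open Set Filter Topology Metric

namespace Pool.Agent.HP.EG

/-! ### block E1 : weights, norms, convolution -/

section
variable {V : Type*} [NormedAddCommGroup V] [NormedSpace ℂ V] {ρ β : Rd}

variable [CompleteSpace V]

/-! ### block E2 : evaluation -/

end

/-! ### block E3 : Laurent expansion -/

/-- partial Laurent coefficient in the variable `i` -/
noncomputable def cof (t : ℝ) (i : Fin 3) (n : ℤ) (G : (Fin 3 → ℂ) → ℂ) (z : Fin 3 → ℂ) : ℂ :=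
  (2 * Real.pi * Complex.I)⁻¹ * ∮ ζ in C(0, t), G (Function.update z i ζ) * ζ ^ (-n - 1)

/-- independence of the radius, ordered version -/
theorem l1_radius_le {r R : ℝ} (hr : 0 < r) {t t' : ℝ} (ht : r < t) (htt : t ≤ t') (htR : t' < R)
    (g : ℂ → ℂ) (hg : ContinuousOn g {z | r < ‖z‖ ∧ ‖z‖ < R}) (S : Set ℂ) (hS : S.Countable)
    (hd : ∀ z, r < ‖z‖ → ‖z‖ < R → z ∉ S → DifferentiableAt ℂ g z) :
    (∮ z in C(0, t'), g z) = ∮ z in C(0, t), g z := by
  refine Complex.circleIntegral_eq_of_differentiable_on_annulus_off_countable (by linarith) htt hS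
    (hg.mono ?_) ?_
  · rintro z ⟨h1, h2⟩
    simp only [mem_closedBall, dist_zero_right, mem_ball, not_lt] at h1 h2
    exact ⟨by linarith, by linarith⟩
  · rintro z ⟨⟨h1, h2⟩, h3⟩
    simp only [mem_closedBall, dist_zero_right, mem_ball, not_le] at h1 h2
    exact hd z (by linarith) (by linarith) h3

theorem l1_ann_open (r R : ℝ) : IsOpen {z : ℂ | r < ‖z‖ ∧ ‖z‖ < R} :=
  (isOpen_lt continuous_const continuous_norm).inter (isOpen_lt continuous_norm continuous_const)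

theorem l1_radius {r R : ℝ} (hr : 0 < r) {t t' : ℝ} (ht : r < t) (htR : t < R) (ht' : r < t')
    (htR' : t' < R)
    (g : ℂ → ℂ) (hg : ContinuousOn g {z | r < ‖z‖ ∧ ‖z‖ < R}) (S : Set ℂ) (hS : S.Countable)
    (hd : ∀ z, r < ‖z‖ → ‖z‖ < R → z ∉ S → DifferentiableAt ℂ g z) :
    (∮ z in C(0, t), g z) = ∮ z in C(0, t'), g z := by
  rcases le_total t t' with h | h
  · exact (l1_radius_le hr ht h htR' g hg S hS hd).symm
  · exact l1_radius_le hr ht' h htR g hg S hS hd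

theorem l1_zpow_diff {r R : ℝ} (hr : 0 < r) (f : ℂ → ℂ)
    (hf : DifferentiableOn ℂ f {z | r < ‖z‖ ∧ ‖z‖ < R}) (n : ℤ) :
    DifferentiableOn ℂ (fun ζ => f ζ * ζ ^ n) {z | r < ‖z‖ ∧ ‖z‖ < R} := by
  refine hf.mul ?_
  intro z hz
  have hz0 : z ≠ 0 := by
    intro h
    have := hz.1
    simp [h] at this
    linarith
  exact (differentiableAt_zpow.2 (Or.inl hz0)).differentiableWithinAt

/-- exterior expansion -/
theorem l1_ext {f : ℂ → ℂ} {R : ℝ} {w : ℂ} (hR : 0 < R)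
    (hf : CircleIntegrable f 0 R) (hw : R < ‖w‖) :
    HasSum (fun n : ℕ => ∮ z in C(0, R), (z / w) ^ n • w⁻¹ • f z)
      (∮ z in C(0, R), (w - z)⁻¹ • f z) := by
  have hw0 : 0 < ‖w‖ := hR.trans hw
  have hwne : w ≠ 0 := norm_pos_iff.1 hw0
  have hwR : R / ‖w‖ ∈ Ico (0 : ℝ) 1 :=
    ⟨div_nonneg hR.le hw0.le, (div_lt_one hw0).2 hw⟩
  refine intervalIntegral.hasSum_integral_of_dominated_convergence
      (fun n θ => (R * ‖w‖⁻¹ * ‖f (circleMap 0 R θ)‖) * (R / ‖w‖) ^ n) (fun n => ?_) (fun n => ?_) ?_ ?_ ?_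
  · simp only [deriv_circleMap]
    have e1 : Measurable fun θ : ℝ => circleMap 0 R θ * Complex.I := by fun_prop
    have e2 : Measurable fun θ : ℝ => (circleMap 0 R θ / w) ^ n := by fun_prop
    have e3 : Measurable fun _ : ℝ => w⁻¹ := by fun_prop
    exact e1.aestronglyMeasurable.smul (e2.aestronglyMeasurable.smul
      (e3.aestronglyMeasurable.smul hf.def'.1))
  · refine Eventually.of_forall fun θ _ => ?_
    simp [abs_of_pos hR]
    apply le_of_eq
    ring
  · exact Eventually.of_forall fun _ _ => (summable_geometric_of_lt_one hwR.1 hwR.2).mul_left _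
  · simp only [tsum_mul_left, tsum_geometric_of_lt_one hwR.1 hwR.2]
    exact (hf.norm.const_mul _).mul_continuousOn continuousOn_const
  · refine Eventually.of_forall fun θ _ => HasSum.const_smul _ ?_
    simp only [smul_smul]
    refine HasSum.smul_const ?_ _
    have h1 : ‖(circleMap 0 R θ) / w‖ < 1 := by simpa [abs_of_pos hR] using hwR.2
    have h2 := (hasSum_geometric_of_norm_lt_one h1).mul_right (w⁻¹)
    have h3 : (1 - circleMap 0 R θ / w)⁻¹ * w⁻¹ = (w - circleMap 0 R θ)⁻¹ := by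
      rw [← mul_inv]
      congr 1
      field_simp
    rwa [h3] at h2

/-- positive part -/
theorem l1_pos {t : ℝ} (ht : 0 < t) {f : ℂ → ℂ} (hf : ContinuousOn f (sphere 0 t)) {z : ℂ}
    (hz : ‖z‖ < t) :
    HasSum (fun n : ℕ => z ^ (n : ℤ) * ∮ ζ in C(0, t), f ζ * ζ ^ (-(n : ℤ) - 1))
      (∮ ζ in C(0, t), (ζ - z)⁻¹ * f ζ) := by
  have h := hasSum_two_pi_I_cauchyPowerSeries_integral (c := 0) (w := z)
    (hf.circleIntegrable ht.le) hz
  simp only [zero_add] at h
  have e : (fun n : ℕ => z ^ (n : ℤ) * ∮ ζ in C(0, t), f ζ * ζ ^ (-(n : ℤ) - 1)) =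
      fun n : ℕ => ∮ ζ in C(0, t), (z / (ζ - 0)) ^ n • (ζ - 0)⁻¹ • f ζ := by
    funext n
    rw [← circleIntegral.integral_const_mul]
    refine circleIntegral.integral_congr ht.le fun ζ hζ => ?_
    have h0 : ζ ≠ 0 := by
      intro h
      have : ‖ζ‖ = t := by simpa using hζ
      simp [h] at this
      linarith
    simp only [sub_zero, smul_eq_mul]
    rw [sub_eq_add_neg, ← neg_add, zpow_neg, zpow_add₀ h0, zpow_natCast, zpow_natCast, zpow_one,
      div_pow, mul_inv]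
    ring
  rw [e]
  exact h

/-- negative part -/
theorem l1_neg {t : ℝ} (ht : 0 < t) {f : ℂ → ℂ} (hf : ContinuousOn f (sphere 0 t)) {z : ℂ}
    (hz : t < ‖z‖) :
    HasSum (fun n : ℕ => z ^ (-((n : ℤ) + 1)) *
        ∮ ζ in C(0, t), f ζ * ζ ^ (-(-((n : ℤ) + 1)) - 1))
      (∮ ζ in C(0, t), (z - ζ)⁻¹ * f ζ) := by
  have h := l1_ext (w := z) ht (hf.circleIntegrable ht.le) hz
  have e : (fun n : ℕ => z ^ (-((n : ℤ) + 1)) *
        ∮ ζ in C(0, t), f ζ * ζ ^ (-(-((n : ℤ) + 1)) - 1)) =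
      fun n : ℕ => ∮ ζ in C(0, t), (ζ / z) ^ n • z⁻¹ • f ζ := by
    funext n
    rw [← circleIntegral.integral_const_mul]
    refine circleIntegral.integral_congr ht.le fun ζ hζ => ?_
    have hz0 : z ≠ 0 := by
      intro h
      simp [h] at hz
      linarith
    simp only [smul_eq_mul]
    rw [neg_neg, add_sub_cancel_right, zpow_neg, zpow_add₀ hz0, zpow_natCast, zpow_natCast,
      zpow_one, div_pow, mul_inv]
    ring
  rw [e]
  exact h

/-- the Cauchy formula on the annulus -/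
theorem l1_cauchy {r R : ℝ} (hr : 0 < r) (f : ℂ → ℂ)
    (hf : DifferentiableOn ℂ f {z | r < ‖z‖ ∧ ‖z‖ < R}) {z : ℂ} {t1 t2 : ℝ}
    (h1 : r < t1) (h2 : t1 < ‖z‖) (h3 : ‖z‖ < t2) (h4 : t2 < R) :
    (∮ ζ in C(0, t2), (ζ - z)⁻¹ * f ζ) + (∮ ζ in C(0, t1), (z - ζ)⁻¹ * f ζ) =
      2 * Real.pi * Complex.I * f z := by
  have hzm : {z : ℂ | r < ‖z‖ ∧ ‖z‖ < R} ∈ 𝓝 z :=
    (l1_ann_open r R).mem_nhds ⟨by linarith, by linarith⟩
  have hda : ∀ w : ℂ, r < ‖w‖ → ‖w‖ < R → DifferentiableAt ℂ f w := fun w hw hw' =>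
    hf.differentiableAt ((l1_ann_open r R).mem_nhds ⟨hw, hw'⟩)
  have hcont : ContinuousOn (dslope f z) {z | r < ‖z‖ ∧ ‖z‖ < R} :=
    (continuousOn_dslope hzm).2 ⟨hf.continuousOn, hda z (by linarith) (by linarith)⟩
  have key := l1_radius hr h1 (by linarith : t1 < R) (by linarith : r < t2) h4 (dslope f z) hcont
    {z} (countable_singleton z) (fun w hw hw' hne =>
      (differentiableAt_dslope_of_ne (by simpa using hne)).2 (hda w hw hw'))
  have split : ∀ t : ℝ, r < t → t < R → t ≠ ‖z‖ → (∮ ζ in C(0, t), dslope f z ζ) =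
      (∮ ζ in C(0, t), (ζ - z)⁻¹ * f ζ) - f z * ∮ ζ in C(0, t), (ζ - z)⁻¹ := by
    intro t hrt htR htz
    have ht0 : 0 ≤ t := by linarith
    have hne : ∀ ζ ∈ sphere (0 : ℂ) t, ζ - z ≠ 0 := by
      intro ζ hζ h
      apply htz
      have : ‖ζ‖ = t := by simpa using hζ
      rw [← this, sub_eq_zero.1 h]
    have c1 : ContinuousOn (fun ζ : ℂ => (ζ - z)⁻¹) (sphere 0 t) :=
      (continuousOn_id.sub continuousOn_const).inv₀ hne
    have c2 : ContinuousOn f (sphere 0 t) := hf.continuousOn.mono (by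
      intro ζ hζ
      have : ‖ζ‖ = t := by simpa using hζ
      exact ⟨by linarith, by linarith⟩)
    have k1 : CircleIntegrable (fun ζ : ℂ => (ζ - z)⁻¹ * f ζ) 0 t :=
      (c1.mul c2).circleIntegrable ht0
    have k2 : CircleIntegrable (fun ζ : ℂ => f z * (ζ - z)⁻¹) 0 t :=
      (continuousOn_const.mul c1).circleIntegrable ht0
    rw [← circleIntegral.integral_const_mul, ← circleIntegral.integral_sub k1 k2]
    refine circleIntegral.integral_congr ht0 fun ζ hζ => ?_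
    have hz' : ζ ≠ z := fun h => hne ζ hζ (sub_eq_zero.2 h)
    rw [dslope_of_ne _ hz', slope_def_field, div_eq_mul_inv]
    ring
  rw [split t1 h1 (by linarith) h2.ne, split t2 (by linarith) h4 h3.ne'] at key
  have i2 : (∮ ζ in C(0, t2), (ζ - z)⁻¹) = 2 * Real.pi * Complex.I :=
    circleIntegral.integral_sub_inv_of_mem_ball (by simpa using h3)
  have i1 : (∮ ζ in C(0, t1), (ζ - z)⁻¹) = 0 := by
    have hne : ∀ ζ ∈ closedBall (0 : ℂ) t1, ζ - z ≠ 0 := by
      intro ζ hζ h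
      have : ‖ζ‖ ≤ t1 := by simpa using hζ
      rw [sub_eq_zero.1 h] at this
      linarith
    refine Complex.circleIntegral_eq_zero_of_differentiable_on_off_countable (by linarith)
      countable_empty ((continuousOn_id.sub continuousOn_const).inv₀ hne) ?_
    rintro ζ ⟨hζ, -⟩
    exact (differentiableAt_id.sub (differentiableAt_const z)).inv
      (hne ζ (ball_subset_closedBall hζ))
  have i3 : (∮ ζ in C(0, t1), (z - ζ)⁻¹ * f ζ) = -∮ ζ in C(0, t1), (ζ - z)⁻¹ * f ζ := by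
    rw [neg_eq_neg_one_mul, ← circleIntegral.integral_const_mul]
    refine circleIntegral.integral_congr (by linarith) fun ζ hζ => ?_
    rw [← neg_sub ζ z, inv_neg]
    ring
  rw [i2, i1] at key
  rw [i3]
  linear_combination -key

/-- Laurent expansion in one variable -/
theorem laurent1 {r R : ℝ} (hr : 0 < r) {t : ℝ} (ht : r < t) (htR : t < R) (f : ℂ → ℂ)
    (hf : DifferentiableOn ℂ f {z | r < ‖z‖ ∧ ‖z‖ < R}) :
    (∀ t', r < t' → t' < R → ∀ n : ℤ, (2 * Real.pi * Complex.I)⁻¹ * (∮ ζ in C(0, t), f ζ * ζ ^ (-n - 1)) =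
      (2 * Real.pi * Complex.I)⁻¹ * ∮ ζ in C(0, t'), f ζ * ζ ^ (-n - 1)) ∧
    (∀ z : ℂ, r < ‖z‖ → ‖z‖ < R → HasSum (fun n : ℤ => z ^ n *
      ((2 * Real.pi * Complex.I)⁻¹ * ∮ ζ in C(0, t), f ζ * ζ ^ (-n - 1))) (f z)) ∧
    (DifferentiableOn ℂ f (ball 0 R) →
      (∀ n : ℤ, n < 0 → (2 * Real.pi * Complex.I)⁻¹ * (∮ ζ in C(0, t), f ζ * ζ ^ (-n - 1)) = 0) ∧
      ∀ z ∈ ball (0 : ℂ) R, HasSum (fun n : ℤ => z ^ n *
        ((2 * Real.pi * Complex.I)⁻¹ * ∮ ζ in C(0, t), f ζ * ζ ^ (-n - 1))) (f z)) := by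
  have ind : ∀ t', r < t' → t' < R → ∀ n : ℤ, (∮ ζ in C(0, t), f ζ * ζ ^ (-n - 1)) =
      ∮ ζ in C(0, t'), f ζ * ζ ^ (-n - 1) := by
    intro t' h1 h2 n
    have hd := l1_zpow_diff hr f hf (-n - 1)
    exact l1_radius hr ht htR h1 h2 _ hd.continuousOn ∅ countable_empty (fun w hw hw' _ =>
      hd.differentiableAt ((l1_ann_open r R).mem_nhds ⟨hw, hw'⟩))
  have hsph : ∀ t', r < t' → t' < R → ContinuousOn f (sphere 0 t') := by
    intro t' h1 h2
    refine hf.continuousOn.mono ?_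
    intro ζ hζ
    have : ‖ζ‖ = t' := by simpa using hζ
    exact ⟨by linarith, by linarith⟩
  have hpi : (2 * Real.pi * Complex.I : ℂ) ≠ 0 := by simp [Real.pi_ne_zero]
  refine ⟨fun t' h1 h2 n => by rw [ind t' h1 h2 n], ?_, ?_⟩
  · intro z hz hzR
    obtain ⟨t1, h1, h1'⟩ := exists_between hz
    obtain ⟨t2, h2, h2'⟩ := exists_between hzR
    have p := l1_pos (by linarith) (hsph t2 (by linarith) h2') h2
    have q := l1_neg (by linarith) (hsph t1 h1 (by linarith)) h1'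
    have c := l1_cauchy hr f hf h1 h1' h2 h2'
    have s : HasSum (fun n : ℤ => z ^ n * ∮ ζ in C(0, t), f ζ * ζ ^ (-n - 1))
        ((∮ ζ in C(0, t2), (ζ - z)⁻¹ * f ζ) + (∮ ζ in C(0, t1), (z - ζ)⁻¹ * f ζ)) := by
      refine HasSum.of_nat_of_neg_add_one ?_ ?_
      · simpa only [ind t2 (by linarith) h2'] using p
      · simpa only [ind t1 h1 (by linarith)] using q
    rw [c] at s
    have s' := s.mul_left (2 * Real.pi * Complex.I : ℂ)⁻¹
    rw [inv_mul_cancel_left₀ hpi] at s'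
    have e : (fun n : ℤ => z ^ n *
        ((2 * Real.pi * Complex.I)⁻¹ * ∮ ζ in C(0, t), f ζ * ζ ^ (-n - 1))) =
        fun n : ℤ => (2 * Real.pi * Complex.I : ℂ)⁻¹ *
          (z ^ n * ∮ ζ in C(0, t), f ζ * ζ ^ (-n - 1)) := by
      funext n
      ring
    rw [e]
    exact s'
  · intro hfb
    have neg : ∀ n : ℤ, n < 0 → (∮ ζ in C(0, t), f ζ * ζ ^ (-n - 1)) = 0 := by
      intro n hn
      obtain ⟨m, hm⟩ : ∃ m : ℕ, -n - 1 = (m : ℤ) := Int.eq_ofNat_of_zero_le (by omega)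
      simp only [hm, zpow_natCast]
      have hd : DifferentiableOn ℂ (fun ζ => f ζ * ζ ^ m) (ball 0 R) :=
        hfb.mul (differentiable_pow m).differentiableOn
      have hsub : closedBall (0 : ℂ) t ⊆ ball 0 R := closedBall_subset_ball htR
      refine Complex.circleIntegral_eq_zero_of_differentiable_on_off_countable (by linarith)
        countable_empty (hd.continuousOn.mono hsub) ?_
      rintro ζ ⟨hζ, -⟩
      exact hd.differentiableAt (isOpen_ball.mem_nhds (hsub (ball_subset_closedBall hζ)))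
    refine ⟨fun n hn => by rw [neg n hn, mul_zero], ?_⟩
    intro z hz
    have hz' : ‖z‖ < R := by simpa using hz
    obtain ⟨t2, h2, h2'⟩ := exists_between (max_lt hz' htR)
    have hzt : ‖z‖ < t2 := lt_of_le_of_lt (le_max_left _ _) h2
    have htt : t < t2 := lt_of_le_of_lt (le_max_right _ _) h2
    have p := l1_pos (by linarith) (hsph t2 (by linarith) h2') hzt
    have c : (∮ ζ in C(0, t2), (ζ - z)⁻¹ * f ζ) = 2 * Real.pi * Complex.I * f z := by
      have := (hfb.mono (closedBall_subset_ball h2')).circleIntegral_sub_inv_smul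
        (w := z) (by simpa using hzt)
      simpa only [smul_eq_mul] using this
    have s : HasSum (fun n : ℤ => z ^ n * ∮ ζ in C(0, t), f ζ * ζ ^ (-n - 1))
        ((∮ ζ in C(0, t2), (ζ - z)⁻¹ * f ζ) + 0) := by
      refine HasSum.of_nat_of_neg_add_one ?_ ?_
      · simpa only [ind t2 (by linarith) h2'] using p
      · have e0 : (fun n : ℕ => z ^ (-((n : ℤ) + 1)) *
            ∮ ζ in C(0, t), f ζ * ζ ^ (-(-((n : ℤ) + 1)) - 1)) = fun _ => 0 := by
          funext n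
          rw [neg _ (by omega), mul_zero]
        rw [e0]
        exact hasSum_zero
    rw [c, add_zero] at s
    have s' := s.mul_left (2 * Real.pi * Complex.I : ℂ)⁻¹
    rw [inv_mul_cancel_left₀ hpi] at s'
    have e : (fun n : ℤ => z ^ n *
        ((2 * Real.pi * Complex.I)⁻¹ * ∮ ζ in C(0, t), f ζ * ζ ^ (-n - 1))) =
        fun n : ℤ => (2 * Real.pi * Complex.I : ℂ)⁻¹ *
          (z ^ n * ∮ ζ in C(0, t), f ζ * ζ ^ (-n - 1)) := by
      funext n
      ring
    rw [e]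
    exact s'

end Pool.Agent.HP.EG
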