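import Pool.Agent.HopfPinch.EG7a
import Pool.Agent.HopfPinch.GLib

set_option autoImplicit false

open Set Filter Topology Metric

namespace Pool.Agent.HP.EG

open Pool.Agent.HopfPinch (param_circle differentiableOn_of_uniform_limit)

/-! ### block E1 : weights, norms, convolution -/

section
variable {V : Type*} [NormedAddCommGroup V] [NormedSpace ℂ V] {ρ β : Rd}

variable [CompleteSpace V]

/-! ### block E2 : evaluation -/

end

/-! ### block E3 : Laurent expansion -/

theorem Om_isOpen (r R : ℝ) (I : Set (Fin 3)) : IsOpen (Om r R I) := by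
  have e : Om r R I = (⋂ i ∈ I, {z : Fin 3 → ℂ | r < ‖z i‖}) ∩ ⋂ j, {z : Fin 3 → ℂ | ‖z j‖ < R} := by
    ext z
    simp [Om]
  rw [e]
  refine IsOpen.inter ?_ ?_
  · refine (Set.toFinite I).isOpen_biInter fun l _ => ?_
    exact isOpen_lt continuous_const (continuous_apply l).norm
  · refine isOpen_iInter_of_finite fun j => ?_
    exact isOpen_lt (continuous_apply j).norm continuous_const

theorem upd_mem {r R : ℝ} {I : Set (Fin 3)} {i : Fin 3} {z : Fin 3 → ℂ} (hz : z ∈ Om r R (I \ {i}))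
    {ζ : ℂ} (h1 : i ∈ I → r < ‖ζ‖) (h2 : ‖ζ‖ < R) : Function.update z i ζ ∈ Om r R I := by
  refine ⟨fun l hl => ?_, fun l => ?_⟩
  · by_cases h : l = i
    · subst h
      rw [Function.update_self]
      exact h1 hl
    · rw [Function.update_of_ne h]
      exact hz.1 l ⟨hl, h⟩
  · by_cases h : l = i
    · subst h
      rw [Function.update_self]
      exact h2
    · rw [Function.update_of_ne h]
      exact hz.2 l

theorem upd_diff (i : Fin 3) : Differentiable ℂ (fun q : (Fin 3 → ℂ) × ℂ => Function.update q.1 i q.2) := by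
  rw [differentiable_pi]
  intro l
  by_cases h : l = i
  · subst h
    simp only [Function.update_self]
    exact differentiable_snd
  · simp only [Function.update_of_ne h]
    fun_prop

theorem upd_diff2 (i : Fin 3) (z : Fin 3 → ℂ) : Differentiable ℂ (fun ζ : ℂ => Function.update z i ζ) :=
  (upd_diff i).comp ((differentiable_const z).prodMk differentiable_id)

theorem cof_props {r R : ℝ} (hr : 0 < r) {t : ℝ} (ht : r < t) (htR : t < R) {I : Set (Fin 3)}
    {G : (Fin 3 → ℂ) → ℂ} (hG : DifferentiableOn ℂ G (Om r R I)) (i : Fin 3) :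
    (∀ n, DifferentiableOn ℂ (cof t i n G) (Om r R (I \ {i}))) ∧
    (∀ n t', r < t' → t' < R → ∀ z ∈ Om r R (I \ {i}), cof t i n G z = cof t' i n G z) ∧
    (∀ z ∈ Om r R I, HasSum (fun n : ℤ => z i ^ n * cof t i n G z) (G z)) ∧
    (i ∉ I → ∀ n : ℤ, n < 0 → ∀ z ∈ Om r R (I \ {i}), cof t i n G z = 0) := by
  have ht0 : 0 < t := hr.trans ht
  have hsl : ∀ z ∈ Om r R (I \ {i}), DifferentiableOn ℂ (fun ζ => G (Function.update z i ζ))
      {z | r < ‖z‖ ∧ ‖z‖ < R} := by
    intro z hz
    exact hG.comp (upd_diff2 i z).differentiableOn fun ζ hζ => upd_mem hz (fun _ => hζ.1) hζ.2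
  have hsl' : i ∉ I → ∀ z ∈ Om r R (I \ {i}), DifferentiableOn ℂ (fun ζ => G (Function.update z i ζ))
      (ball 0 R) := by
    intro hi z hz
    exact hG.comp (upd_diff2 i z).differentiableOn fun ζ hζ =>
      upd_mem hz (fun h => absurd h hi) (by simpa using hζ)
  have hsub : Om r R I ⊆ Om r R (I \ {i}) := fun z hz => ⟨fun l hl => hz.1 l hl.1, hz.2⟩
  refine ⟨fun n => ?_, fun n t' h1 h2 z hz => ?_, fun z hz => ?_, fun hi n hn z hz => ?_⟩
  · have hΩ : IsOpen {q : (Fin 3 → ℂ) × ℂ | Function.update q.1 i q.2 ∈ Om r R I ∧ q.2 ≠ 0} := by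
      have h1 : IsOpen {q : (Fin 3 → ℂ) × ℂ | Function.update q.1 i q.2 ∈ Om r R I} :=
        (Om_isOpen r R I).preimage (upd_diff i).continuous
      have h2 : IsOpen {q : (Fin 3 → ℂ) × ℂ | q.2 ≠ 0} :=
        isOpen_ne.preimage continuous_snd
      exact h1.inter h2
    have hF : DifferentiableOn ℂ (fun q : (Fin 3 → ℂ) × ℂ => G (Function.update q.1 i q.2) * q.2 ^ (-n - 1))
        {q : (Fin 3 → ℂ) × ℂ | Function.update q.1 i q.2 ∈ Om r R I ∧ q.2 ≠ 0} := by
      refine DifferentiableOn.mul ?_ ?_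
      · exact hG.comp (upd_diff i).differentiableOn fun q hq => hq.1
      · intro q hq
        exact ((differentiableAt_zpow.2 (Or.inl hq.2)).comp q differentiableAt_snd).differentiableWithinAt
    have h3 := param_circle hΩ hF (r := t) (Om_isOpen r R (I \ {i})) (by
      intro p hp ξ hξ
      rw [abs_of_pos ht0, mem_sphere_zero_iff_norm] at hξ
      refine ⟨upd_mem hp (fun _ => by rw [hξ]; exact ht) (by rw [hξ]; exact htR), ?_⟩
      rw [← norm_pos_iff]
      show 0 < ‖ξ‖
      rw [hξ]; exact ht0)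
    exact h3.const_mul _
  · exact (laurent1 hr ht htR _ (hsl z hz)).1 t' h1 h2 n
  · by_cases hi : i ∈ I
    · have h1 := (laurent1 hr ht htR _ (hsl z (hsub hz))).2.1 (z i) (hz.1 i hi) (hz.2 i)
      rw [Function.update_eq_self] at h1
      exact h1
    · have h1 := ((laurent1 hr ht htR _ (hsl z (hsub hz))).2.2 (hsl' hi z (hsub hz))).2 (z i)
        (by rw [mem_ball_zero_iff]; exact hz.2 i)
      rw [Function.update_eq_self] at h1
      exact h1
  · exact ((laurent1 hr ht htR _ (hsl z hz)).2.2 (hsl' hi z hz)).1 n hn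

end Pool.Agent.HP.EG
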