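import Pool.Agent.HopfPinch.EG7b
import Pool.Agent.HopfPinch.GLib

set_option autoImplicit false

open Set Filter Topology Metric

namespace Pool.Agent.HP.EG

open Pool.Agent.HopfPinch (param_circle differentiableOn_of_uniform_limit)

/-! ### block E1 : weights, norms, convolution -/

section
variable {V : Type*} [NormedAddCommGroup V] [NormedSpace ℂ V] {ρ β : Rd}

variable [CompleteSpace V]

/-! ### block E2 : evaluation -/

end

/-! ### block E3 : Laurent expansion -/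

theorem upd_mem_EG7c {r R : ℝ} {I : Set (Fin 3)} {i : Fin 3} {z : Fin 3 → ℂ}
    (hz : z ∈ Om r R (I \ {i})) {ζ : ℂ} (h1 : r < ‖ζ‖) (h2 : ‖ζ‖ < R) :
    Function.update z i ζ ∈ Om r R I := by
  constructor
  · intro j hj
    by_cases hji : j = i
    · subst hji; simpa using h1
    · rw [Function.update_of_ne hji]; exact hz.1 j ⟨hj, hji⟩
  · intro j
    by_cases hji : j = i
    · subst hji; simpa using h2
    · rw [Function.update_of_ne hji]; exact hz.2 j

theorem cof_congr' {r R t : ℝ} (hr : 0 < r) (ht : r < t) (htR : t < R) {I : Set (Fin 3)}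
    {i : Fin 3} {n : ℤ} {G G' : (Fin 3 → ℂ) → ℂ} (h : ∀ z ∈ Om r R I, G z = G' z)
    {z : Fin 3 → ℂ} (hz : z ∈ Om r R (I \ {i})) : cof t i n G z = cof t i n G' z := by
  unfold cof
  congr 1
  apply circleIntegral.integral_congr (by linarith)
  intro ζ hζ
  have h0 : ‖ζ‖ = t := by simpa using hζ
  simp only
  rw [h _ (upd_mem_EG7c hz (by rw [h0]; exact ht) (by rw [h0]; exact htR))]

theorem cof_zero (t : ℝ) (i : Fin 3) (n : ℤ) (z : Fin 3 → ℂ) : cof t i n (fun _ => 0) z = 0 := by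
  simp [cof, circleIntegral]

theorem cof_bound {s : ℝ} (hs : 0 < s) {i : Fin 3} {n : ℤ} {G : (Fin 3 → ℂ) → ℂ}
    {z : Fin 3 → ℂ} {M : ℝ} (h : ∀ ζ : ℂ, ‖ζ‖ = s → ‖G (Function.update z i ζ)‖ ≤ M) :
    ‖cof s i n G z‖ ≤ M * s ^ (-n) := by
  unfold cof
  rw [norm_mul]
  have hM : 0 ≤ M := le_trans (norm_nonneg _) (h (s : ℂ) (by simp [abs_of_pos hs]))
  have h1 := circleIntegral.norm_integral_le_of_norm_le_const
    (f := fun ζ => G (Function.update z i ζ) * ζ ^ (-n - 1)) (c := 0) (R := s)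
    (C := M * s ^ (-n - 1)) hs.le (by
      intro ζ hζ
      have h0 : ‖ζ‖ = s := by simpa using hζ
      rw [norm_mul, norm_zpow, h0]
      exact mul_le_mul_of_nonneg_right (h ζ h0) (zpow_nonneg hs.le _))
  have h2 : ‖(2 * (Real.pi : ℂ) * Complex.I)⁻¹‖ = (2 * Real.pi)⁻¹ := by
    rw [norm_inv, norm_mul, norm_mul]
    simp [abs_of_pos Real.pi_pos]
  rw [h2]
  have hpi := Real.pi_pos
  calc (2 * Real.pi)⁻¹ * ‖∮ (ζ : ℂ) in C(0, s), G (Function.update z i ζ) * ζ ^ (-n - 1)‖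
      ≤ (2 * Real.pi)⁻¹ * (2 * Real.pi * s * (M * s ^ (-n - 1))) :=
        mul_le_mul_of_nonneg_left h1 (by positivity)
    _ = M * (s * s ^ (-n - 1)) := by field_simp
    _ = M * s ^ (-n) := by
        congr 1
        rw [zpow_sub_one₀ hs.ne']
        field_simp

theorem upd3 (z : Fin 3 → ℂ) (a b c : ℂ) :
    Function.update (Function.update (Function.update z 0 a) 1 b) 2 c = ![a, b, c] := by
  ext i
  fin_cases i <;> simp

noncomputable def AA (F : (Fin 3 → ℂ) → ℂ) (τ : Fin 3 → ℝ) (k : Z3) : (Fin 3 → ℂ) → ℂ :=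
  cof (τ 0) 0 (k 0) (cof (τ 1) 1 (k 1) (cof (τ 2) 2 (k 2) F))

theorem AA_const (F : (Fin 3 → ℂ) → ℂ) (τ : Fin 3 → ℝ) (k : Z3) (z z' : Fin 3 → ℂ) :
    AA F τ k z = AA F τ k z' := by
  unfold AA cof
  simp only [upd3]

theorem AA_tau {r R : ℝ} (hr : 0 < r) {I : Set (Fin 3)} {F : (Fin 3 → ℂ) → ℂ}
    (hF : DifferentiableOn ℂ F (Om r R I)) {τ τ' : Fin 3 → ℝ} (h : ∀ i, r < τ i ∧ τ i < R)
    (h' : ∀ i, r < τ' i ∧ τ' i < R) (k : Z3) {z : Fin 3 → ℂ}
    (hz : z ∈ Om r R (((I \ {2}) \ {1}) \ {0})) : AA F τ k z = AA F τ' k z := by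
  have e2 : ∀ z ∈ Om r R (I \ {2}), cof (τ 2) 2 (k 2) F z = cof (τ' 2) 2 (k 2) F z :=
    (cof_props hr (h 2).1 (h 2).2 hF 2).2.1 (k 2) (τ' 2) (h' 2).1 (h' 2).2
  have d2 := (cof_props hr (h' 2).1 (h' 2).2 hF 2).1 (k 2)
  have e1 : ∀ z ∈ Om r R ((I \ {2}) \ {1}), cof (τ 1) 1 (k 1) (cof (τ 2) 2 (k 2) F) z =
      cof (τ' 1) 1 (k 1) (cof (τ' 2) 2 (k 2) F) z := by
    intro z hz
    rw [cof_congr' hr (h 1).1 (h 1).2 e2 hz]
    exact (cof_props hr (h 1).1 (h 1).2 d2 1).2.1 (k 1) (τ' 1) (h' 1).1 (h' 1).2 z hz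
  have d1 := (cof_props hr (h' 1).1 (h' 1).2 d2 1).1 (k 1)
  unfold AA
  rw [cof_congr' hr (h 0).1 (h 0).2 e1 hz]
  exact (cof_props hr (h 0).1 (h 0).2 d1 0).2.1 (k 0) (τ' 0) (h' 0).1 (h' 0).2 z hz

theorem AA_bound {F : (Fin 3 → ℂ) → ℂ} {τ : Fin 3 → ℝ} (h : ∀ i, 0 < τ i) (k : Z3) {M : ℝ}
    (hM : ∀ z : Fin 3 → ℂ, (∀ i, ‖z i‖ = τ i) → ‖F z‖ ≤ M) :
    ‖AA F τ k 0‖ ≤ M * ∏ i, τ i ^ (-k i) := by
  have b2 : ∀ z : Fin 3 → ℂ, ‖z 0‖ = τ 0 → ‖z 1‖ = τ 1 →
      ‖cof (τ 2) 2 (k 2) F z‖ ≤ M * τ 2 ^ (-k 2) := by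
    intro z h0 h1
    apply cof_bound (h 2)
    intro ζ hζ
    apply hM
    intro i
    fin_cases i
    · simpa using h0
    · simpa using h1
    · simpa using hζ
  have b1 : ∀ z : Fin 3 → ℂ, ‖z 0‖ = τ 0 →
      ‖cof (τ 1) 1 (k 1) (cof (τ 2) 2 (k 2) F) z‖ ≤ (M * τ 2 ^ (-k 2)) * τ 1 ^ (-k 1) := by
    intro z h0
    apply cof_bound (h 1)
    intro ζ hζ
    apply b2
    · simpa using h0
    · simpa using hζ
  have b0 : ‖AA F τ k 0‖ ≤ ((M * τ 2 ^ (-k 2)) * τ 1 ^ (-k 1)) * τ 0 ^ (-k 0) := by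
    apply cof_bound (h 0)
    intro ζ hζ
    apply b1
    simpa using hζ
  rw [Fin.prod_univ_three]
  calc ‖AA F τ k 0‖ ≤ _ := b0
    _ = _ := by ring

theorem zero_mem {r R : ℝ} (hr : 0 < r) (hR : r < R) (I : Set (Fin 3)) :
    (0 : Fin 3 → ℂ) ∈ Om r R (((I \ {2}) \ {1}) \ {0}) := by
  constructor
  · intro i hi
    exfalso
    fin_cases i
    · exact hi.2 rfl
    · exact hi.1.2 rfl
    · exact hi.1.1.2 rfl
  · intro j; simp; linarith

def eq3 : ℤ × ℤ × ℤ ≃ Z3 where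
  toFun p := ![p.2.2, p.2.1, p.1]
  invFun k := (k 2, k 1, k 0)
  left_inv p := by simp
  right_inv k := by ext i; fin_cases i <;> simp

theorem summable_geom_int {q : ℝ} (h0 : 0 ≤ q) (h1 : q < 1) :
    Summable fun n : ℤ => q ^ n.natAbs := by
  apply Summable.of_nat_of_neg
  · simpa using summable_geometric_of_lt_one h0 h1
  · simpa using summable_geometric_of_lt_one h0 h1

theorem summable_prod3' {g : ℤ → ℝ} (h0 : ∀ n, 0 ≤ g n) (h : Summable g) :
    Summable fun k : Z3 => ∏ i, g (k i) := by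
  rw [← eq3.summable_iff]
  have h2 : Summable fun p : ℤ × ℤ => g p.1 * g p.2 := h.mul_of_nonneg h h0 h0
  have h3 : Summable fun p : ℤ × ℤ × ℤ => g p.1 * (g p.2.1 * g p.2.2) :=
    h.mul_of_nonneg h2 h0 (fun _ => mul_nonneg (h0 _) (h0 _))
  refine h3.congr ?_
  intro p
  rw [Function.comp_apply, Fin.prod_univ_three]
  have e0 : eq3 p 0 = p.2.2 := rfl
  have e1 : eq3 p 1 = p.2.1 := rfl
  have e2 : eq3 p 2 = p.1 := rfl
  rw [e0, e1, e2]
  ring

theorem summable_prod3 {q : ℝ} (h0 : 0 ≤ q) (h1 : q < 1) :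
    Summable fun k : Z3 => ∏ i, q ^ (k i).natAbs :=
  summable_prod3' (g := fun n : ℤ => q ^ n.natAbs) (fun _ => pow_nonneg h0 _)
    (summable_geom_int h0 h1)

theorem Om_mono {r R : ℝ} {I J : Set (Fin 3)} (h : J ⊆ I) {z : Fin 3 → ℂ} (hz : z ∈ Om r R I) :
    z ∈ Om r R J := ⟨fun i hi => hz.1 i (h hi), hz.2⟩

theorem max_zpow_nonneg {a b : ℝ} (ha : 0 < a) (hab : a < b) {n : ℤ} (hn : 0 ≤ n) :
    max (a ^ n) (b ^ n) = b ^ n := by
  apply max_eq_right
  exact zpow_le_zpow_left₀ hn ha.le hab.le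

theorem max_zpow_neg {a b : ℝ} (ha : 0 < a) (hab : a < b) {n : ℤ} (hn : n < 0) :
    max (a ^ n) (b ^ n) = a ^ n := by
  apply max_eq_left
  obtain ⟨m, rfl⟩ : ∃ m : ℕ, n = -(m : ℤ) := ⟨n.natAbs, by omega⟩
  rw [zpow_neg, zpow_neg, zpow_natCast, zpow_natCast]
  have h1 : a ^ m ≤ b ^ m := pow_le_pow_left₀ ha.le hab.le m
  exact inv_anti₀ (pow_pos ha m) h1

theorem enter_scalar {r R : ℝ} (hr : 0 < r) (hR : r < R) (I : Set (Fin 3)) (F : (Fin 3 → ℂ) → ℂ)
    (hF : DifferentiableOn ℂ F (Om r R I)) :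
    ∃ a : Z3 → ℂ, Sup I a ∧
      (∀ ρ : Rd, (∀ i, r < ρ.1 i ∧ ρ.1 i < ρ.2 i ∧ ρ.2 i < R) → Sm ρ a) ∧
      ∀ z ∈ Om r R I, ev z a = F z := by
  classical
  set t := (r + R) / 2 with ht
  have ht1 : r < t := by rw [ht]; linarith
  have ht2 : t < R := by rw [ht]; linarith
  have hconst : ∀ i : Fin 3, r < (fun _ : Fin 3 => t) i ∧ (fun _ : Fin 3 => t) i < R :=
    fun _ => ⟨ht1, ht2⟩
  have hSup : Sup I (fun k => AA F (fun _ => t) k 0) := by
    intro k l hl hk
    have d2 := (cof_props hr ht1 ht2 hF 2).1 (k 2)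
    have d1 := (cof_props hr ht1 ht2 d2 1).1 (k 1)
    have hz := zero_mem hr hR I
    show cof t 0 (k 0) (cof t 1 (k 1) (cof t 2 (k 2) F)) 0 = 0
    fin_cases l
    · refine (cof_props hr ht1 ht2 d1 0).2.2.2 ?_ (k 0) hk 0 hz
      intro h; exact hl h.1.1
    · have e1 : ∀ z ∈ Om r R ((I \ {2}) \ {1}), cof t 1 (k 1) (cof t 2 (k 2) F) z =
          (fun _ => (0 : ℂ)) z := (cof_props hr ht1 ht2 d2 1).2.2.2 (fun h => hl h.1) (k 1) hk
      rw [cof_congr' hr ht1 ht2 e1 hz, cof_zero]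
    · have e2 : ∀ z ∈ Om r R (I \ {2}), cof t 2 (k 2) F z =
          (fun _ => (0 : ℂ)) z := (cof_props hr ht1 ht2 hF 2).2.2.2 hl (k 2) hk
      have e1 : ∀ z ∈ Om r R ((I \ {2}) \ {1}), cof t 1 (k 1) (cof t 2 (k 2) F) z =
          (fun _ => (0 : ℂ)) z := by
        intro z hz
        rw [cof_congr' hr ht1 ht2 e2 hz, cof_zero]
      rw [cof_congr' hr ht1 ht2 e1 hz, cof_zero]
  have hSm : ∀ ρ : Rd, (∀ i, r < ρ.1 i ∧ ρ.1 i < ρ.2 i ∧ ρ.2 i < R) →
      Sm ρ (fun k => AA F (fun _ => t) k 0) := by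
    intro ρ hρ
    -- choose radii
    have hx : ∀ i, ∃ x : ℝ, r < x ∧ x < ρ.1 i := fun i => exists_between (hρ i).1
    have hy : ∀ i, ∃ y : ℝ, ρ.2 i < y ∧ y < R := fun i => exists_between (hρ i).2.2
    choose x hx1 hx2 using hx
    choose y hy1 hy2 using hy
    -- bound on the polyannulus
    let K : Set (Fin 3 → ℂ) := {z | ∀ i, x i ≤ ‖z i‖ ∧ ‖z i‖ ≤ y i}
    have hKc : IsCompact K := by
      have h1 : K = (Set.univ.pi fun i => closedBall (0 : ℂ) (y i)) ∩ {z | ∀ i, x i ≤ ‖z i‖} := by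
        ext z
        simp only [K, Set.mem_ofPred_eq, Set.mem_inter_iff, Set.mem_pi, Set.mem_univ,
          forall_true_left, mem_closedBall_zero_iff]
        constructor
        · intro h; exact ⟨fun i => (h i).2, fun i => (h i).1⟩
        · rintro ⟨h1, h2⟩ i; exact ⟨h2 i, h1 i⟩
      rw [h1]
      apply IsCompact.inter_right
      · exact isCompact_univ_pi fun i => isCompact_closedBall _ _
      · have : {z : Fin 3 → ℂ | ∀ i, x i ≤ ‖z i‖} = ⋂ i, {z : Fin 3 → ℂ | x i ≤ ‖z i‖} := by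
          ext z; simp
        rw [this]
        exact isClosed_iInter fun i => isClosed_le continuous_const (by fun_prop)
    have hKO : K ⊆ Om r R I := by
      intro z hz
      refine ⟨fun i _ => lt_of_lt_of_le (hx1 i) (hz i).1, fun j => lt_of_le_of_lt (hz j).2 (hy2 j)⟩
    obtain ⟨M, hM⟩ := hKc.exists_bound_of_continuousOn (hF.continuousOn.mono hKO)
    have hxy : ∀ i, x i < y i := fun i => by
      have := hρ i; have := hx2 i; have := hy1 i; linarith
    have hM0 : 0 ≤ M := by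
      have hmem : (fun i => (x i : ℂ)) ∈ K := by
        intro i
        have h0 : ‖(x i : ℂ)‖ = x i := by
          rw [Complex.norm_real]; exact abs_of_pos (lt_trans hr (hx1 i))
        rw [h0]; exact ⟨le_rfl, (hxy i).le⟩
      exact le_trans (norm_nonneg _) (hM _ hmem)
    -- the ratio
    let qi : Fin 3 → ℝ := fun i => max (x i / ρ.1 i) (ρ.2 i / y i)
    have hρ1 : ∀ i, 0 < ρ.1 i := fun i => lt_trans hr (hρ i).1
    have hρ2 : ∀ i, 0 < ρ.2 i := fun i => lt_trans (hρ1 i) (hρ i).2.1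
    have hx0 : ∀ i, 0 < x i := fun i => lt_trans hr (hx1 i)
    have hy0 : ∀ i, 0 < y i := fun i => lt_trans (hρ2 i) (hy1 i)
    have hqi0 : ∀ i, 0 ≤ qi i := fun i => le_max_of_le_left (div_nonneg (hx0 i).le (hρ1 i).le)
    have hqi1 : ∀ i, qi i < 1 := fun i =>
      max_lt ((div_lt_one (hρ1 i)).mpr (hx2 i)) ((div_lt_one (hy0 i)).mpr (hy1 i))
    let q : ℝ := Finset.univ.sup' Finset.univ_nonempty qi
    have hq1 : q < 1 := (Finset.sup'_lt_iff _).mpr fun i _ => hqi1 i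
    have hqle : ∀ i, qi i ≤ q := fun i => Finset.le_sup' qi (Finset.mem_univ i)
    have hq0 : 0 ≤ q := le_trans (hqi0 0) (hqle 0)
    refine Summable.of_nonneg_of_le (fun k => mul_nonneg (norm_nonneg _) ?_) ?_
      ((summable_prod3 hq0 hq1).mul_left M)
    · exact Finset.prod_nonneg fun i _ => le_max_of_le_left (zpow_nonneg (hρ1 i).le _)
    · intro k
      let τ : Fin 3 → ℝ := fun i => if 0 ≤ k i then y i else x i
      have hτ : ∀ i, r < τ i ∧ τ i < R := by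
        intro i
        simp only [τ]
        split_ifs
        · exact ⟨lt_trans (hx1 i) (hxy i), hy2 i⟩
        · exact ⟨hx1 i, lt_trans (hxy i) (hy2 i)⟩
      have hτ0 : ∀ i, 0 < τ i := fun i => lt_trans hr (hτ i).1
      have e1 : AA F (fun _ => t) k 0 = AA F τ k 0 :=
        AA_tau hr hF hconst hτ k (zero_mem hr hR I)
      have b1 : ‖AA F τ k 0‖ ≤ M * ∏ i, τ i ^ (-k i) := by
        apply AA_bound hτ0
        intro z hz
        apply hM
        intro i
        rw [hz i]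
        simp only [τ]
        split_ifs
        · exact ⟨(hxy i).le, le_rfl⟩
        · exact ⟨le_rfl, (hxy i).le⟩
      simp only
      rw [e1]
      have hw0 : 0 ≤ w ρ k := Finset.prod_nonneg fun i _ => le_max_of_le_left (zpow_nonneg (hρ1 i).le _)
      calc ‖AA F τ k 0‖ * w ρ k ≤ (M * ∏ i, τ i ^ (-k i)) * w ρ k :=
            mul_le_mul_of_nonneg_right b1 hw0
        _ = M * ∏ i, (τ i ^ (-k i) * max (ρ.1 i ^ k i) (ρ.2 i ^ k i)) := by
            rw [Finset.prod_mul_distrib, mul_assoc]; rfl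
        _ ≤ M * ∏ i, q ^ (k i).natAbs := by
            apply mul_le_mul_of_nonneg_left _ hM0
            apply Finset.prod_le_prod
            · intro i _
              exact mul_nonneg (zpow_nonneg (hτ0 i).le _)
                (le_max_of_le_left (zpow_nonneg (hρ1 i).le _))
            · intro i _
              by_cases hk : 0 ≤ k i
              · rw [max_zpow_nonneg (hρ1 i) (hρ i).2.1 hk]
                have : τ i = y i := by simp only [τ]; rw [if_pos hk]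
                rw [this]
                obtain ⟨m, hm⟩ := Int.eq_ofNat_of_zero_le hk
                rw [hm]
                simp only [zpow_neg, zpow_natCast, Int.natAbs_natCast]
                have h2 : (y i ^ m)⁻¹ * ρ.2 i ^ m = (ρ.2 i / y i) ^ m := by
                  rw [div_pow]; ring
                rw [h2]
                exact pow_le_pow_left₀ (div_nonneg (hρ2 i).le (hy0 i).le)
                  (le_trans (le_max_right _ _) (hqle i)) m
              · push Not at hk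
                rw [max_zpow_neg (hρ1 i) (hρ i).2.1 hk]
                have : τ i = x i := by simp only [τ]; rw [if_neg (not_le.mpr hk)]
                rw [this]
                obtain ⟨m, hm⟩ : ∃ m : ℕ, k i = -(m : ℤ) := ⟨(k i).natAbs, by omega⟩
                rw [hm]
                simp only [neg_neg, zpow_neg, zpow_natCast, Int.natAbs_neg, Int.natAbs_natCast]
                have h2 : x i ^ m * (ρ.1 i ^ m)⁻¹ = (x i / ρ.1 i) ^ m := by
                  rw [div_pow]; ring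
                rw [h2]
                exact pow_le_pow_left₀ (div_nonneg (hx0 i).le (hρ1 i).le)
                  (le_trans (le_max_left _ _) (hqle i)) m
  refine ⟨fun k => AA F (fun _ => t) k 0, hSup, hSm, ?_⟩
  intro z hz
  let ρ : Rd := (fun i => if i ∈ I then (r + ‖z i‖) / 2 else (r + (max r ‖z i‖ + R) / 2) / 2,
    fun i => (max r ‖z i‖ + R) / 2)
  have hmax : ∀ i, max r ‖z i‖ < R := fun i => max_lt hR (hz.2 i)
  have hρ : ∀ i, r < ρ.1 i ∧ ρ.1 i < ρ.2 i ∧ ρ.2 i < R := by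
    intro i
    have h1 := hmax i
    have h2 := le_max_left r ‖z i‖
    have h3 := le_max_right r ‖z i‖
    simp only [ρ]
    refine ⟨?_, ?_, by linarith⟩
    · split_ifs with h
      · have := hz.1 i h; linarith
      · linarith
    · split_ifs with h
      · linarith
      · linarith
  have hok : Ok ρ := fun i => ⟨lt_trans hr (hρ i).1, (hρ i).2.1⟩
  have hCR : CR ρ I z := by
    constructor
    · intro i hi
      have := hz.1 i hi
      simp only [ρ]
      rw [if_pos hi]; linarith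
    · intro j
      have h3 := le_max_right r ‖z j‖
      have h1 := hz.2 j
      simp only [ρ]
      linarith
  have hs := ev_summable hok hSup (hSm ρ hρ) hCR
  have h0 : HasSum (fun k => mon z k • AA F (fun _ => t) k 0)
    (ev z (fun k => AA F (fun _ => t) k 0)) := hs.hasSum
  set f : ℤ × ℤ × ℤ → ℂ := fun p =>
    z 2 ^ p.1 * (z 1 ^ p.2.1 * (z 0 ^ p.2.2 * AA F (fun _ => t) (eq3 p) 0)) with hf
  have h1 : HasSum f (ev z (fun k => AA F (fun _ => t) k 0)) := by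
    have h2 := (eq3.hasSum_iff).mpr h0
    refine h2.congr_fun ?_
    intro p
    simp only [hf, Function.comp_apply, smul_eq_mul, mon, Fin.prod_univ_three]
    show z 2 ^ p.1 * (z 1 ^ p.2.1 * (z 0 ^ p.2.2 * AA F (fun _ => t) (eq3 p) 0)) =
      z 0 ^ p.2.2 * z 1 ^ p.2.1 * z 2 ^ p.1 * AA F (fun _ => t) (eq3 p) 0
    ring
  have hz2 : z ∈ Om r R (I \ {2}) := Om_mono Set.sdiff_subset hz
  have hz1 : z ∈ Om r R ((I \ {2}) \ {1}) := Om_mono Set.sdiff_subset hz2
  have d2 : ∀ n2, DifferentiableOn ℂ (cof t 2 n2 F) (Om r R (I \ {2})) := fun n2 =>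
    (cof_props hr ht1 ht2 hF 2).1 n2
  have d1 : ∀ n2 n1, DifferentiableOn ℂ (cof t 1 n1 (cof t 2 n2 F)) (Om r R ((I \ {2}) \ {1})) :=
    fun n2 n1 => (cof_props hr ht1 ht2 (d2 n2) 1).1 n1
  have i0 : ∀ n2 n1, HasSum (fun n0 => f (n2, (n1, n0)))
      (z 2 ^ n2 * (z 1 ^ n1 * cof t 1 n1 (cof t 2 n2 F) z)) := by
    intro n2 n1
    have h := (cof_props hr ht1 ht2 (d1 n2 n1) 0).2.2.1 z hz1
    have h2 := (h.mul_left (z 1 ^ n1)).mul_left (z 2 ^ n2)
    refine h2.congr_fun ?_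
    intro n0
    have e : AA F (fun _ => t) (eq3 (n2, (n1, n0))) 0 = cof t 0 n0 (cof t 1 n1 (cof t 2 n2 F)) z :=
      AA_const F (fun _ => t) (eq3 (n2, (n1, n0))) 0 z
    simp only [hf]
    rw [e]
  have i1 : ∀ n2, HasSum (fun p => f (n2, p)) (z 2 ^ n2 * cof t 2 n2 F z) := by
    intro n2
    have hsum : Summable (fun p => f (n2, p)) := h1.summable.prod_factor n2
    have h2 := hsum.hasSum.prod_fiberwise (i0 n2)
    have h3 := ((cof_props hr ht1 ht2 (d2 n2) 1).2.2.1 z hz2).mul_left (z 2 ^ n2)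
    rw [← h2.unique h3]
    exact hsum.hasSum
  have h4 := h1.prod_fiberwise i1
  have h5 := (cof_props hr ht1 ht2 hF 2).2.2.1 z hz
  exact h4.unique h5

end Pool.Agent.HP.EG
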