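import Pool.Agent.HopfPinch.EG7c

set_option autoImplicit false

open Set Filter Topology Metric

namespace Pool.Agent.HP.EG

/-! ### block E1 : weights, norms, convolution -/

section
variable {V : Type*} [NormedAddCommGroup V] [NormedSpace ℂ V] {ρ β : Rd}

variable [CompleteSpace V]

/-! ### block E2 : evaluation -/

end

/-! ### block E3 : Laurent expansion -/

theorem j4879_radii {r R : ℝ} (hr : 0 < r) (hR : r < R) (I : Set (Fin 3)) {z : Fin 3 → ℂ}
    (hz : z ∈ Om r R I) : ∃ ρ : Rd, (∀ i, r < ρ.1 i ∧ ρ.1 i < ρ.2 i ∧ ρ.2 i < R) ∧ CR ρ I z := by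
  have h : ∀ i, ∃ pq : ℝ × ℝ, r < pq.1 ∧ pq.1 < pq.2 ∧ pq.2 < R ∧ (i ∈ I → pq.1 ≤ ‖z i‖) ∧
      ‖z i‖ ≤ pq.2 := by
    intro i
    have hzR := hz.2 i
    by_cases hi : i ∈ I
    · have hzr := hz.1 i hi
      refine ⟨((r + ‖z i‖) / 2, (‖z i‖ + R) / 2), ?_, ?_, ?_, ?_, ?_⟩ <;> simp only <;>
        first | (intro _; linarith) | linarith
    · by_cases hzr : r ≤ ‖z i‖
      · refine ⟨((r + (‖z i‖ + R) / 2) / 2, (‖z i‖ + R) / 2), ?_, ?_, ?_, ?_, ?_⟩
        · simp only; linarith
        · simp only; linarith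
        · simp only; linarith
        · intro h; exact absurd h hi
        · simp only; linarith
      · push Not at hzr
        refine ⟨((r + (r + R) / 2) / 2, (r + R) / 2), ?_, ?_, ?_, ?_, ?_⟩
        · simp only; linarith
        · simp only; linarith
        · simp only; linarith
        · intro h; exact absurd h hi
        · simp only; linarith
  choose pq h1 h2 h3 h4 h5 using h
  exact ⟨(fun i => (pq i).1, fun i => (pq i).2), fun i => ⟨h1 i, h2 i, h3 i⟩,
    fun i hi => h4 i hi, fun i => h5 i⟩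

theorem enter {V : Type} [NormedAddCommGroup V] [NormedSpace ℂ V] [FiniteDimensional ℂ V]
    {r R : ℝ} (hr : 0 < r) (hR : r < R) (I : Set (Fin 3)) (F : (Fin 3 → ℂ) → V)
    (hF : DifferentiableOn ℂ F (Om r R I)) :
    ∃ a : Z3 → V, Sup I a ∧
      (∀ ρ : Rd, (∀ i, r < ρ.1 i ∧ ρ.1 i < ρ.2 i ∧ ρ.2 i < R) → Sm ρ a) ∧
      ∀ z ∈ Om r R I, ev z a = F z := by
  let b := Module.finBasis ℂ V
  let φ : Fin (Module.finrank ℂ V) → (V →L[ℂ] ℂ) := fun e => LinearMap.toContinuousLinearMap (b.coord e)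
  have hφ : ∀ v : V, ∑ e, φ e v • b e = v := fun v => b.sum_repr v
  have hsc : ∀ e, ∃ a : Z3 → ℂ, Sup I a ∧
      (∀ ρ : Rd, (∀ i, r < ρ.1 i ∧ ρ.1 i < ρ.2 i ∧ ρ.2 i < R) → Sm ρ a) ∧
      ∀ z ∈ Om r R I, ev z a = φ e (F z) := by
    intro e
    exact enter_scalar hr hR I (fun z => φ e (F z)) ((φ e).differentiable.comp_differentiableOn hF)
  choose a' hSup hSm hev using hsc
  refine ⟨fun k => ∑ e, a' e k • b e, ?_, ?_, ?_⟩
  · intro k l hl hk
    refine Finset.sum_eq_zero ?_
    intro e _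
    rw [hSup e k l hl hk, zero_smul]
  · intro ρ hρ
    have hok : Ok ρ := fun i => ⟨lt_trans hr (hρ i).1, (hρ i).2.1⟩
    have hsum : Summable fun k : Z3 => ∑ e, (‖a' e k‖ * w ρ k) * ‖b e‖ :=
      summable_sum fun e _ => (hSm e ρ hρ).mul_right _
    refine Summable.of_nonneg_of_le ?_ ?_ hsum
    · intro k
      exact mul_nonneg (norm_nonneg _) (w_pos hok k).le
    · intro k
      calc ‖∑ e, a' e k • b e‖ * w ρ k ≤ (∑ e, ‖a' e k‖ * ‖b e‖) * w ρ k := by
            refine mul_le_mul_of_nonneg_right ?_ (w_pos hok k).le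
            refine (norm_sum_le _ _).trans ?_
            refine Finset.sum_le_sum fun e _ => ?_
            exact norm_smul_le _ _
        _ = ∑ e, (‖a' e k‖ * w ρ k) * ‖b e‖ := by
            rw [Finset.sum_mul]
            refine Finset.sum_congr rfl fun e _ => ?_
            ring
  · intro z hz
    obtain ⟨ρ, hρ, hCR⟩ := j4879_radii hr hR I hz
    have hok : Ok ρ := fun i => ⟨lt_trans hr (hρ i).1, (hρ i).2.1⟩
    have hs : ∀ e, Summable fun k => mon z k • a' e k :=
      fun e => ev_summable hok (hSup e) (hSm e ρ hρ) hCR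
    have hs2 : ∀ e ∈ (Finset.univ : Finset (Fin (Module.finrank ℂ V))),
        Summable fun k => (mon z k • a' e k) • b e := fun e _ => (hs e).smul_const _
    calc ev z (fun k => ∑ e, a' e k • b e) = ∑' k, ∑ e, (mon z k • a' e k) • b e := by
          unfold ev
          refine tsum_congr fun k => ?_
          rw [Finset.smul_sum]
          refine Finset.sum_congr rfl fun e _ => ?_
          rw [smul_assoc]
      _ = ∑ e, ∑' k, (mon z k • a' e k) • b e := Summable.tsum_finsetSum hs2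
      _ = ∑ e, (ev z (a' e)) • b e := by
          refine Finset.sum_congr rfl fun e _ => ?_
          exact (hs e).tsum_smul_const _
      _ = ∑ e, φ e (F z) • b e := by
          refine Finset.sum_congr rfl fun e _ => ?_
          rw [hev e z hz]
      _ = F z := hφ _

end Pool.Agent.HP.EG
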