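import Pool.Agent.HopfPinch.EG7d

set_option autoImplicit false

open Set Filter Topology Metric

namespace Pool.Agent.HP.EG

/-! ### block E1 : weights, norms, convolution -/

section
variable {V : Type*} [NormedAddCommGroup V] [NormedSpace ℂ V] {ρ β : Rd}

variable [CompleteSpace V]

/-! ### block E2 : evaluation -/

end

/-! ### block E3 : Laurent expansion -/

/-! ### block E4 : the bumps -/

theorem cv_zero' {V : Type} [NormedAddCommGroup V] [NormedSpace ℂ V] (T : Z3 → (V →L[ℂ] V)) :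
    cv T (0 : Z3 → V) = 0 := by
  funext k
  simp [cv]

theorem nm_le_nx {V : Type} [NormedAddCommGroup V] [NormedSpace ℂ V] {ρ : Rd} (h : Ok ρ)
    (ξ : Fin 3 → Fin 3 → Z3 → V) (i j : Fin 3) : nm ρ (ξ i j) ≤ nx ρ ξ := by
  unfold nx
  calc nm ρ (ξ i j) ≤ ∑ j, nm ρ (ξ i j) :=
        Finset.single_le_sum (f := fun j => nm ρ (ξ i j)) (fun j _ => nm_nonneg h _)
          (Finset.mem_univ j)
    _ ≤ ∑ i, ∑ j, nm ρ (ξ i j) :=
        Finset.single_le_sum (f := fun i => ∑ j, nm ρ (ξ i j))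
          (fun i _ => Finset.sum_nonneg (fun j _ => nm_nonneg h _)) (Finset.mem_univ i)

theorem nx_nonneg {V : Type} [NormedAddCommGroup V] [NormedSpace ℂ V] {ρ : Rd} (h : Ok ρ)
    (ξ : Fin 3 → Fin 3 → Z3 → V) : 0 ≤ nx ρ ξ :=
  Finset.sum_nonneg (fun _ _ => Finset.sum_nonneg (fun _ _ => nm_nonneg h _))

theorem bump_outer {V : Type} [NormedAddCommGroup V] [NormedSpace ℂ V] [CompleteSpace V]
    {β : Rd} (hβ : Ok β) {T : Fin 3 → Fin 3 → Z3 → (V →L[ℂ] V)} (hT : TT β T)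
    {ρ : Rd} (hρ : Ok ρ) (hs : Sub ρ β) (p : Fin 3) :
    ∃ C : ℝ, 0 ≤ C ∧ ∀ ξ, Cc ρ T ξ → ∃ (η : Fin 3 → Fin 3 → Z3 → V) (b : Fin 3 → Z3 → V),
      Cc (ρ.1, Function.update ρ.2 p (β.2 p)) T η ∧ (∀ i, Sm ρ (b i) ∧ Sup {i} (b i)) ∧
      (∀ i j, ξ i j = η i j + (b i - cv (T i j) (b j))) ∧
      nx (ρ.1, Function.update ρ.2 p (β.2 p)) η ≤ C * nx ρ ξ ∧ ∀ i, nm ρ (b i) ≤ C * nx ρ ξ := by
  classical
  set ρ' : Rd := (ρ.1, Function.update ρ.2 p (β.2 p)) with hρ'def
  have hok' : Ok ρ' := by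
    intro i
    refine ⟨(hρ i).1, ?_⟩
    show ρ.1 i < Function.update ρ.2 p (β.2 p) i
    by_cases hi : i = p
    · subst hi
      rw [Function.update_self]
      exact (hρ i).2.trans_le (hs i).2
    · rw [Function.update_of_ne hi]
      exact (hρ i).2
  have hsub' : Sub ρ' β := by
    intro i
    refine ⟨(hs i).1, ?_⟩
    show Function.update ρ.2 p (β.2 p) i ≤ β.2 i
    by_cases hi : i = p
    · subst hi
      rw [Function.update_self]
    · rw [Function.update_of_ne hi]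
      exact (hs i).2
  set t : ℝ := ∑ i, ∑ j, nm β (T i j) with ht
  have ht0 : 0 ≤ t := Finset.sum_nonneg (fun _ _ => Finset.sum_nonneg (fun _ _ => nm_nonneg hβ _))
  have hTt : ∀ i j, nm β (T i j) ≤ t := by
    intro i j
    calc nm β (T i j) ≤ ∑ j, nm β (T i j) :=
          Finset.single_le_sum (f := fun j => nm β (T i j)) (fun j _ => nm_nonneg hβ _)
            (Finset.mem_univ j)
      _ ≤ ∑ i, ∑ j, nm β (T i j) :=
          Finset.single_le_sum (f := fun i => ∑ j, nm β (T i j))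
            (fun i _ => Finset.sum_nonneg (fun j _ => nm_nonneg hβ _)) (Finset.mem_univ i)
  have hTρ : ∀ i j, Sm ρ (T i j) := fun i j => (Sm.mono hρ hβ hs (hT.sm i j)).1
  have hTρ' : ∀ i j, Sm ρ' (T i j) ∧ nm ρ' (T i j) ≤ nm β (T i j) :=
    fun i j => Sm.mono hok' hβ hsub' (hT.sm i j)
  refine ⟨9 * (1 + t), by positivity, fun ξ hξ => ?_⟩
  have hN0 : 0 ≤ nx ρ ξ := nx_nonneg hρ ξ
  have hz : ∀ i, ξ i i = 0 := by
    intro i
    have h1 := hξ.co i i i
    rw [hT.one ρ hρ hs i _ (hξ.sm i i)] at h1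
    exact left_eq_add.mp h1
  set b : Fin 3 → Z3 → V := fun j => EG.Pp p (ξ j p) with hb
  have hbs : ∀ j, Sm ρ (b j) ∧ nm ρ (b j) ≤ nm ρ (ξ j p) := fun j => Sm.Pp hρ p (hξ.sm j p)
  have hbsup : ∀ j, Sup {j} (b j) := by
    intro j k l hl hk
    show (if 0 ≤ k p then ξ j p k else 0) = 0
    split_ifs with h
    · apply hξ.sup j p k l _ hk
      intro hmem
      rcases hmem with h2 | h2
      · exact hl h2
      · have h3 : l = p := h2
        rw [h3] at hk
        omega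
    · rfl
  have hbp : b p = 0 := by
    rw [hb]
    simp only
    rw [hz p]
    funext k
    simp [EG.Pp]
  set η : Fin 3 → Fin 3 → Z3 → V := fun i j => ξ i j - (b i - cv (T i j) (b j)) with hη
  have hcvb : ∀ i j, Sm ρ (cv (T i j) (b j)) := fun i j => (cv_Sm hρ (hTρ i j) (hbs j).1).1
  have hco : ∀ i j k, η i k = η i j + cv (T i j) (η j k) := by
    intro i j k
    have e1 : cv (T i j) (η j k) = cv (T i j) (ξ j k) - (cv (T i j) (b j) - cv (T i k) (b k)) := by
      rw [hη]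
      simp only
      rw [cv_sub hρ (hTρ i j) (hξ.sm j k) (Sm.sub hρ (hbs j).1 (hcvb j k)).1,
        cv_sub hρ (hTρ i j) (hbs j).1 (hcvb j k), hT.mul ρ hρ hs i j k _ (hbs k).1]
    rw [e1]
    show ξ i k - (b i - cv (T i k) (b k)) = ξ i j - (b i - cv (T i j) (b j)) +
      (cv (T i j) (ξ j k) - (cv (T i j) (b j) - cv (T i k) (b k)))
    rw [hξ.co i j k]
    abel
  have hip : ∀ i, Sm ρ' (η i p) ∧ nm ρ' (η i p) ≤ nm ρ (ξ i p) := by
    intro i
    have e1 : η i p = EG.Pm p (ξ i p) := by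
      show ξ i p - (b i - cv (T i p) (b p)) = EG.Pm p (ξ i p)
      rw [hbp, cv_zero', sub_zero, sub_eq_iff_eq_add]
      have := Pp_add_Pm p (ξ i p)
      rw [add_comm] at this
      exact this.symm
    rw [e1]
    apply Sm.of_le hρ hok' (hξ.sm i p)
    intro k
    by_cases hk : 0 ≤ k p
    · left
      show (if 0 ≤ k p then 0 else ξ i p k) = 0
      rw [if_pos hk]
    · right
      constructor
      · show ‖(if 0 ≤ k p then 0 else ξ i p k)‖ ≤ _
        rw [if_neg hk]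
      · apply w_outer hρ hok' p (fun i _ => rfl) _ rfl k (by omega)
        intro i hi
        show Function.update ρ.2 p (β.2 p) i = ρ.2 i
        rw [Function.update_of_ne hi]
  have hgen : ∀ i j, Sm ρ' (η i j) ∧ nm ρ' (η i j) ≤ (1 + t) * nx ρ ξ := by
    intro i j
    have e1 : η i j = η i p - cv (T i j) (η j p) := by
      rw [hco i j p]
      abel
    have h1 := cv_Sm hok' (hTρ' i j).1 (hip j).1
    have h2 := Sm.sub hok' (hip i).1 h1.1
    rw [← e1] at h2
    refine ⟨h2.1, ?_⟩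
    have h3 : nm ρ' (T i j) * nm ρ' (η j p) ≤ t * nx ρ ξ := by
      apply mul_le_mul ((hTρ' i j).2.trans (hTt i j))
        ((hip j).2.trans (nm_le_nx hρ ξ j p)) (nm_nonneg hok' _) ht0
    have h4 := (hip i).2.trans (nm_le_nx hρ ξ i p)
    calc nm ρ' (η i j) ≤ nm ρ' (η i p) + nm ρ' (cv (T i j) (η j p)) := h2.2
      _ ≤ nx ρ ξ + t * nx ρ ξ := add_le_add h4 (h1.2.trans h3)
      _ = (1 + t) * nx ρ ξ := by ring
  refine ⟨η, b, ⟨fun i j => (hgen i j).1, ?_, hco⟩, fun i => ⟨(hbs i).1, hbsup i⟩, ?_, ?_, ?_⟩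
  · intro i j
    apply Sup.sub (hξ.sup i j)
    apply Sup.sub ((hbsup i).mono (by intro x hx; exact Or.inl hx))
    apply Sup_cv (hT.sup i j)
    exact (hbsup j).mono (by intro x hx; exact Or.inr hx)
  · intro i j
    show ξ i j = ξ i j - (b i - cv (T i j) (b j)) + (b i - cv (T i j) (b j))
    abel
  · calc nx ρ' η = ∑ i, ∑ j, nm ρ' (η i j) := rfl
      _ ≤ ∑ _i : Fin 3, ∑ _j : Fin 3, (1 + t) * nx ρ ξ :=
          Finset.sum_le_sum (fun i _ => Finset.sum_le_sum (fun j _ => (hgen i j).2))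
      _ = 9 * (1 + t) * nx ρ ξ := by
          simp only [Finset.sum_const, Finset.card_univ, Fintype.card_fin, nsmul_eq_mul]
          push_cast
          ring
  · intro i
    have h1 := (hbs i).2.trans (nm_le_nx hρ ξ i p)
    have h2 : nx ρ ξ ≤ 9 * (1 + t) * nx ρ ξ := by
      have : 1 ≤ 9 * (1 + t) := by linarith
      nlinarith
    exact h1.trans h2

end Pool.Agent.HP.EG
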