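import Pool.Agent.HopfPinch.EG8

set_option autoImplicit false

open Set Filter Topology Metric

namespace Pool.Agent.HP.EG

/-! ### block E1 : weights, norms, convolution -/

section
variable {V : Type*} [NormedAddCommGroup V] [NormedSpace ℂ V] {ρ β : Rd}

variable [CompleteSpace V]

/-! ### block E2 : evaluation -/

end

/-! ### block E3 : Laurent expansion -/

/-! ### block E4 : the bumps -/

theorem bi_cv_zero {V : Type} [NormedAddCommGroup V] [NormedSpace ℂ V] (T : Z3 → (V →L[ℂ] V)) :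
    cv T (0 : Z3 → V) = 0 := by
  funext k; simp [cv]

theorem bi_Sm_zero {V : Type} [NormedAddCommGroup V] [NormedSpace ℂ V] (ρ : Rd) :
    Sm ρ (0 : Z3 → V) := by
  unfold Sm; simpa using (summable_zero : Summable fun _ : Z3 => (0 : ℝ))

theorem bi_nm_zero {V : Type} [NormedAddCommGroup V] [NormedSpace ℂ V] (ρ : Rd) :
    nm ρ (0 : Z3 → V) = 0 := by
  unfold nm; simp

theorem bi_Sup_zero {V : Type} [NormedAddCommGroup V] [NormedSpace ℂ V] (I : Set (Fin 3)) :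
    Sup I (0 : Z3 → V) := fun _ _ _ _ => rfl

theorem bi_nm_le_nx {V : Type} [NormedAddCommGroup V] [NormedSpace ℂ V] {ρ : Rd} (h : Ok ρ)
    (ξ : Fin 3 → Fin 3 → Z3 → V) (i l : Fin 3) : nm ρ (ξ i l) ≤ nx ρ ξ := by
  unfold nx
  have h1 : nm ρ (ξ i l) ≤ ∑ m, nm ρ (ξ i m) :=
    Finset.single_le_sum (f := fun m => nm ρ (ξ i m)) (fun m _ => nm_nonneg h _) (Finset.mem_univ l)
  have h2 : ∑ m, nm ρ (ξ i m) ≤ ∑ i, ∑ m, nm ρ (ξ i m) :=
    Finset.single_le_sum (f := fun i => ∑ m, nm ρ (ξ i m))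
      (fun i _ => Finset.sum_nonneg fun m _ => nm_nonneg h _) (Finset.mem_univ i)
  exact le_trans h1 h2

theorem bi_nx_le {V : Type} [NormedAddCommGroup V] [NormedSpace ℂ V] {ρ : Rd}
    (ξ : Fin 3 → Fin 3 → Z3 → V) (M : ℝ) (h : ∀ i l, nm ρ (ξ i l) ≤ M) : nx ρ ξ ≤ 9 * M := by
  unfold nx
  have h1 : ∑ i : Fin 3, ∑ m : Fin 3, nm ρ (ξ i m) ≤ ∑ i : Fin 3, ∑ m : Fin 3, M :=
    Finset.sum_le_sum fun i _ => Finset.sum_le_sum fun m _ => h i m
  refine le_trans h1 (le_of_eq ?_)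
  simp only [Finset.sum_const, Finset.card_univ, Fintype.card_fin, nsmul_eq_mul]
  push_cast
  ring

theorem bi_main {V : Type} [NormedAddCommGroup V] [NormedSpace ℂ V] [CompleteSpace V]
    {β : Rd} (hβ : Ok β) {T : Fin 3 → Fin 3 → Z3 → (V →L[ℂ] V)} (hT : TT β T)
    {ρ ρ' : Rd} (hρ : Ok ρ) (hρ' : Ok ρ') (hs : Sub ρ β) (hs1 : Sub ρ ρ') (hs2 : Sub ρ' β)
    (p j k : Fin 3) (hpj : p ≠ j) (hpk : p ≠ k) (hjk : j ≠ k) (hall : ∀ i, i = p ∨ i = j ∨ i = k)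
    (hw : ∀ m : Z3, 0 ≤ m p → w ρ' m = w ρ m)
    (t : ℝ) (ht0 : 0 ≤ t) (ht : ∀ i l, nm β (T i l) ≤ t)
    (ξ : Fin 3 → Fin 3 → Z3 → V) (hξ : Cc ρ T ξ) :
    ∃ (η : Fin 3 → Fin 3 → Z3 → V) (b : Fin 3 → Z3 → V),
      Cc ρ' T η ∧ (∀ i, Sm ρ (b i) ∧ Sup {i} (b i)) ∧
      (∀ i j, ξ i j = η i j + (b i - cv (T i j) (b j))) ∧
      nx ρ' η ≤ 9 * (1 + t) ^ 2 * nx ρ ξ ∧ ∀ i, nm ρ (b i) ≤ 9 * (1 + t) ^ 2 * nx ρ ξ := by
  classical
  have hTρ : ∀ i l, Sm ρ (T i l) := fun i l => (Sm.mono hρ hβ hs (hT.sm i l)).1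
  have hTρ' : ∀ i l, Sm ρ' (T i l) ∧ nm ρ' (T i l) ≤ t := fun i l =>
    ⟨(Sm.mono hρ' hβ hs2 (hT.sm i l)).1, le_trans (Sm.mono hρ' hβ hs2 (hT.sm i l)).2 (ht i l)⟩
  obtain ⟨N, hN⟩ : ∃ N : ℝ, N = nx ρ ξ := ⟨_, rfl⟩
  have hξN : ∀ i l, nm ρ (ξ i l) ≤ N := fun i l => by rw [hN]; exact bi_nm_le_nx hρ ξ i l
  have hN0 : 0 ≤ N := le_trans (nm_nonneg hρ _) (hξN p p)
  -- exponents nonnegative in p
  have hin : ∀ i l, i ≠ p → l ≠ p → Sm ρ' (ξ i l) ∧ nm ρ' (ξ i l) ≤ N := by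
    intro i l hi hl
    have h1 := Sm.of_le hρ hρ' (hξ.sm i l) (b := ξ i l) (by
      intro m
      by_cases hm : 0 ≤ m p
      · exact Or.inr ⟨le_rfl, hw m hm⟩
      · left
        refine hξ.sup i l m p ?_ (not_le.mp hm)
        simp only [Set.mem_insert_iff, Set.mem_singleton_iff, not_or]
        exact ⟨fun h => hi h.symm, fun h => hl h.symm⟩)
    exact ⟨h1.1, le_trans h1.2 (hξN i l)⟩
  obtain ⟨a, ha⟩ : ∃ a : Z3 → V, a = cv (T p j) (ξ j k) := ⟨_, rfl⟩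
  have haρ' : Sm ρ' a ∧ nm ρ' a ≤ t * N := by
    have h1 := cv_Sm hρ' (hTρ' p j).1 (hin j k hpj.symm hpk.symm).1
    rw [ha]
    refine ⟨h1.1, le_trans h1.2 ?_⟩
    exact mul_le_mul (hTρ' p j).2 (hin j k hpj.symm hpk.symm).2 (nm_nonneg hρ' _) ht0
  have haρ : Sm ρ a ∧ nm ρ a ≤ t * N := by
    have h1 := Sm.mono hρ hρ' hs1 haρ'.1
    exact ⟨h1.1, le_trans h1.2 haρ'.2⟩
  have hak : ξ p k = ξ p j + a := by rw [ha]; exact hξ.co p j k
  obtain ⟨B, hB⟩ : ∃ B : Z3 → V, B = ξ p j + Pm j a := ⟨_, rfl⟩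
  have hPP : Pp j a + Pm j a = a := Pp_add_Pm j a
  have hB' : B = ξ p k - Pp j a := by
    rw [hB, hak]
    nth_rw 2 [← hPP]
    abel
  have hSmPm : Sm ρ (Pm j a) ∧ nm ρ (Pm j a) ≤ t * N :=
    ⟨(Sm.Pm hρ j haρ.1).1, le_trans (Sm.Pm hρ j haρ.1).2 haρ.2⟩
  have hBS : Sm ρ B ∧ nm ρ B ≤ N + t * N := by
    rw [hB]
    have h1 := Sm.add hρ (hξ.sm p j) hSmPm.1
    exact ⟨h1.1, le_trans h1.2 (add_le_add (hξN p j) hSmPm.2)⟩
  have hξpk : ∀ m : Z3, m j < 0 → ξ p k m = 0 := fun m hm =>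
    hξ.sup p k m j (by
      simp only [Set.mem_insert_iff, Set.mem_singleton_iff, not_or]
      exact ⟨hpj.symm, hjk⟩) hm
  have hξpj : ∀ m : Z3, m k < 0 → ξ p j m = 0 := fun m hm =>
    hξ.sup p j m k (by
      simp only [Set.mem_insert_iff, Set.mem_singleton_iff, not_or]
      exact ⟨hpk.symm, hjk.symm⟩) hm
  have hBsup : Sup {p} B := by
    intro m l hl hm
    have hl' : l ≠ p := fun h => hl h
    rcases hall l with h | h | h
    · exact absurd h hl'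
    · rw [h] at hm
      rw [hB', Pi.sub_apply, hξpk m hm]
      have : Pp j a m = 0 := if_neg (not_le.mpr hm)
      rw [this, sub_zero]
    · rw [h] at hm
      rw [hB, Pi.add_apply, hξpj m hm, zero_add]
      by_cases hmj : 0 ≤ m j
      · exact if_pos hmj
      · have h1 : Pm j a m = a m := if_neg hmj
        rw [h1]
        have h2 := congrFun hak m
        rw [Pi.add_apply, hξpk m (not_le.mp hmj), hξpj m hm, zero_add] at h2
        exact h2.symm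
  obtain ⟨b, hb⟩ : ∃ b : Fin 3 → Z3 → V, b = fun i => if i = p then B else 0 := ⟨_, rfl⟩
  have hbp : b p = B := by rw [hb]; exact if_pos rfl
  have hbj : ∀ i, i ≠ p → b i = 0 := fun i hi => by rw [hb]; exact if_neg hi
  have hbS : ∀ i, Sm ρ (b i) ∧ Sup {i} (b i) := by
    intro i
    by_cases hi : i = p
    · rw [hi, hbp]; exact ⟨hBS.1, hBsup⟩
    · rw [hbj i hi]; exact ⟨bi_Sm_zero ρ, bi_Sup_zero _⟩
  obtain ⟨η, hη⟩ : ∃ η : Fin 3 → Fin 3 → Z3 → V,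
      ∀ i l, η i l = ξ i l - (b i - cv (T i l) (b l)) := ⟨fun i l => _, fun i l => rfl⟩
  have hcvb : ∀ i l m, Sm ρ (cv (T i l) (b m)) := fun i l m => (cv_Sm hρ (hTρ i l) (hbS m).1).1
  have hηS : ∀ i l, Sm ρ (η i l) := fun i l => by
    rw [hη]
    exact (Sm.sub hρ (hξ.sm i l) (Sm.sub hρ (hbS i).1 (hcvb i l l)).1).1
  have hηsup : ∀ i l, Sup {i, l} (η i l) := by
    intro i l
    rw [hη]
    refine Sup.sub (hξ.sup i l) (Sup.sub ((hbS i).2.mono ?_) (Sup_cv (hT.sup i l) ((hbS l).2.mono ?_)))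
    · intro x hx; exact Or.inl hx
    · intro x hx; exact Or.inr hx
  have hηco : ∀ i l m, η i m = η i l + cv (T i l) (η l m) := by
    intro i l m
    have h1 : cv (T i l) (η l m) = cv (T i l) (ξ l m) - (cv (T i l) (b l) - cv (T i m) (b m)) := by
      rw [hη l m, cv_sub hρ (hTρ i l) (hξ.sm l m) (Sm.sub hρ (hbS l).1 (hcvb l m m)).1,
        cv_sub hρ (hTρ i l) (hbS l).1 (hcvb l m m), hT.mul ρ hρ hs i l m _ (hbS m).1]
    rw [h1, hη i m, hη i l, hξ.co i l m]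
    abel
  have hηii : ∀ i, η i i = 0 := by
    intro i
    have h1 := hηco i i i
    rw [hT.one ρ hρ hs i _ (hηS i i)] at h1
    exact left_eq_add.mp h1
  have hηpj : η p j = -Pm j a := by
    rw [hη, hbp, hbj j hpj.symm, bi_cv_zero, hB]; abel
  have hηpk : η p k = Pp j a := by
    rw [hη, hbp, hbj k hpk.symm, bi_cv_zero, hB']; abel
  have hηjk : η j k = ξ j k := by
    rw [hη, hbj j hpj.symm, hbj k hpk.symm, bi_cv_zero]; abel
  have hηkj : η k j = ξ k j := by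
    rw [hη, hbj j hpj.symm, hbj k hpk.symm, bi_cv_zero]; abel
  have hηip : ∀ i, η i p = -cv (T i p) (η p i) := by
    intro i
    have h1 := hηco i p i
    rw [hηii] at h1
    exact eq_neg_of_add_eq_zero_left h1.symm
  have htN : 0 ≤ t * N := mul_nonneg ht0 hN0
  have htN2 : 0 ≤ t * (t * N) := mul_nonneg ht0 htN
  obtain ⟨M, hM⟩ : ∃ M : ℝ, M = (1 + t) ^ 2 * N := ⟨_, rfl⟩
  have hM' : M = N + 2 * (t * N) + t * (t * N) := by rw [hM]; ring
  have k1 : Sm ρ' (η p j) ∧ nm ρ' (η p j) ≤ t * N := by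
    rw [hηpj]
    have h1 := Sm.Pm hρ' j haρ'.1
    have h2 := Sm.neg h1.1
    exact ⟨h2.1, by rw [h2.2]; exact le_trans h1.2 haρ'.2⟩
  have k2 : Sm ρ' (η p k) ∧ nm ρ' (η p k) ≤ t * N := by
    rw [hηpk]
    have h1 := Sm.Pp hρ' j haρ'.1
    exact ⟨h1.1, le_trans h1.2 haρ'.2⟩
  have k3 : ∀ i, (Sm ρ' (η p i) ∧ nm ρ' (η p i) ≤ t * N) →
      Sm ρ' (η i p) ∧ nm ρ' (η i p) ≤ t * (t * N) := by
    intro i hi
    rw [hηip i]
    have h1 := cv_Sm hρ' (hTρ' i p).1 hi.1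
    have h2 := Sm.neg h1.1
    refine ⟨h2.1, ?_⟩
    rw [h2.2]
    refine le_trans h1.2 ?_
    exact mul_le_mul (hTρ' i p).2 hi.2 (nm_nonneg hρ' _) ht0
  have hall2 : ∀ i l, Sm ρ' (η i l) ∧ nm ρ' (η i l) ≤ M := by
    intro i l
    by_cases hil : i = l
    · rw [hil, hηii, bi_nm_zero]
      exact ⟨bi_Sm_zero ρ', by rw [hM']; linarith⟩
    rcases hall i with hi | hi | hi <;> rcases hall l with hl | hl | hl
    · exact absurd (hi.trans hl.symm) hil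
    · rw [hi, hl]; exact ⟨k1.1, by rw [hM']; linarith [k1.2]⟩
    · rw [hi, hl]; exact ⟨k2.1, by rw [hM']; linarith [k2.2]⟩
    · rw [hi, hl]; exact ⟨(k3 j k1).1, by rw [hM']; linarith [(k3 j k1).2]⟩
    · exact absurd (hi.trans hl.symm) hil
    · rw [hi, hl, hηjk]
      have := hin j k hpj.symm hpk.symm
      exact ⟨this.1, by rw [hM']; linarith [this.2]⟩
    · rw [hi, hl]; exact ⟨(k3 k k2).1, by rw [hM']; linarith [(k3 k k2).2]⟩
    · rw [hi, hl, hηkj]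
      have := hin k j hpk.symm hpj.symm
      exact ⟨this.1, by rw [hM']; linarith [this.2]⟩
    · exact absurd (hi.trans hl.symm) hil
  have hM0 : 0 ≤ M := by rw [hM']; linarith
  have e9 : 9 * (1 + t) ^ 2 * nx ρ ξ = 9 * M := by rw [hM, ← hN]; ring
  refine ⟨η, b, ⟨fun i l => (hall2 i l).1, hηsup, hηco⟩, hbS, ?_, ?_, ?_⟩
  · intro i l
    rw [hη]; abel
  · rw [e9]
    exact bi_nx_le η M fun i l => (hall2 i l).2
  · intro i
    rw [e9]
    by_cases hi : i = p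
    · rw [hi, hbp]
      have := hBS.2
      have h2 : N + t * N ≤ M := by rw [hM']; linarith
      linarith
    · rw [hbj i hi, bi_nm_zero]
      linarith

theorem bump_inner {V : Type} [NormedAddCommGroup V] [NormedSpace ℂ V] [CompleteSpace V]
    {β : Rd} (hβ : Ok β) {T : Fin 3 → Fin 3 → Z3 → (V →L[ℂ] V)} (hT : TT β T)
    {ρ : Rd} (hρ : Ok ρ) (hs : Sub ρ β) (p : Fin 3) :
    ∃ C : ℝ, 0 ≤ C ∧ ∀ ξ, Cc ρ T ξ → ∃ (η : Fin 3 → Fin 3 → Z3 → V) (b : Fin 3 → Z3 → V),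
      Cc (Function.update ρ.1 p (β.1 p), ρ.2) T η ∧ (∀ i, Sm ρ (b i) ∧ Sup {i} (b i)) ∧
      (∀ i j, ξ i j = η i j + (b i - cv (T i j) (b j))) ∧
      nx (Function.update ρ.1 p (β.1 p), ρ.2) η ≤ C * nx ρ ξ ∧ ∀ i, nm ρ (b i) ≤ C * nx ρ ξ := by
  have hρ' : Ok (Function.update ρ.1 p (β.1 p), ρ.2) := by
    intro i
    by_cases hi : i = p
    · subst hi
      simp only [Function.update_self]
      exact ⟨(hβ i).1, lt_of_le_of_lt (hs i).1 (hρ i).2⟩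
    · simp only [Function.update_of_ne hi]
      exact hρ i
  have hs1 : Sub ρ (Function.update ρ.1 p (β.1 p), ρ.2) := by
    intro i
    by_cases hi : i = p
    · subst hi
      simp only [Function.update_self]
      exact ⟨(hs i).1, le_rfl⟩
    · simp only [Function.update_of_ne hi]
      exact ⟨le_rfl, le_rfl⟩
  have hs2 : Sub (Function.update ρ.1 p (β.1 p), ρ.2) β := by
    intro i
    by_cases hi : i = p
    · subst hi
      simp only [Function.update_self]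
      exact ⟨le_rfl, (hs i).2⟩
    · simp only [Function.update_of_ne hi]
      exact hs i
  have hw : ∀ m : Z3, 0 ≤ m p → w (Function.update ρ.1 p (β.1 p), ρ.2) m = w ρ m := by
    intro m hm
    refine w_inner hρ hρ' p ?_ ?_ ?_ m hm
    · intro i hi; exact Function.update_of_ne hi _ _
    · intro i hi; rfl
    · rfl
  have hTn : ∀ i l, 0 ≤ nm β (T i l) := fun i l => nm_nonneg hβ _
  have hT0 : 0 ≤ ∑ i, ∑ l, nm β (T i l) :=
    Finset.sum_nonneg fun i _ => Finset.sum_nonneg fun l _ => hTn i l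
  have hTle : ∀ i l, nm β (T i l) ≤ ∑ i, ∑ l, nm β (T i l) := by
    intro i l
    have h1 : nm β (T i l) ≤ ∑ m, nm β (T i m) :=
      Finset.single_le_sum (f := fun m => nm β (T i m)) (fun m _ => hTn i m) (Finset.mem_univ l)
    have h2 : ∑ m, nm β (T i m) ≤ ∑ i, ∑ m, nm β (T i m) :=
      Finset.single_le_sum (f := fun i => ∑ m, nm β (T i m))
        (fun i _ => Finset.sum_nonneg fun m _ => hTn i m) (Finset.mem_univ i)
    exact le_trans h1 h2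
  have hex : ∀ q : Fin 3, ∃ j k : Fin 3, q ≠ j ∧ q ≠ k ∧ j ≠ k ∧ ∀ i, i = q ∨ i = j ∨ i = k := by
    decide
  obtain ⟨j, k, hpj, hpk, hjk, hall⟩ := hex p
  refine ⟨9 * (1 + ∑ i, ∑ l, nm β (T i l)) ^ 2, by positivity, fun ξ hξ => ?_⟩
  exact bi_main hβ hT hρ hρ' hs hs1 hs2 p j k hpj hpk hjk hall hw _ hT0 hTle ξ hξ

end Pool.Agent.HP.EG
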