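import Pool.Agent.HopfPinch.PC
import Pool.Agent.HopfPinch.Iface
set_option autoImplicit false
open Set Metric Filter Topology
namespace Pool.Agent.HP

theorem cauchy0 {G : Type} [NormedAddCommGroup G] [NormedSpace ℂ G] [CompleteSpace G] {φ : ℂ → G} {R ρ : ℝ}
    (hρR : ρ < R) (hφ : DifferentiableOn ℂ φ (ball 0 R)) {w : ℂ} (hw : ‖w‖ < ρ) : 
    (2 * Real.pi * Complex.I : ℂ)⁻¹ • (∮ ζ in C(0, ρ), (ζ - w)⁻¹ • φ ζ) = φ w := by
  have h1 : DiffContOnCl ℂ φ (ball 0 ρ) := by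
    refine DifferentiableOn.diffContOnCl ?_
    refine hφ.mono ?_
    exact closure_ball_subset_closedBall.trans (closedBall_subset_ball hρR)
  have h2 : w ∈ ball (0 : ℂ) ρ := by simpa using hw
  exact h1.two_pi_i_inv_smul_circleIntegral_sub_inv_smul h2

theorem diff_vec3 {X : Type} [NormedAddCommGroup X] [NormedSpace ℂ X] {a b c : X → ℂ} 
    (ha : Differentiable ℂ a) (hb : Differentiable ℂ b) (hc : Differentiable ℂ c) : 
    Differentiable ℂ (fun x => ![a x, b x, c x]) := by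
  rw [differentiable_pi]
  intro i
  fin_cases i
  · simpa using ha
  · simpa using hb
  · simpa using hc

theorem endB {N : ℕ} (r R : ℝ) (hr : 0 < r) (hrR : r < R) (δ : ℕ → ℝ) (hδ : ∀ k, 0 < δ k)
    (g : Fin 3 ⊕ ℕ → Fin 3 ⊕ ℕ → (Fin 3 → ℂ) → ((Fin N → ℂ) →L[ℂ] (Fin N → ℂ)))
    (hg : ∀ i j, DifferentiableOn ℂ (g i j) (V r R δ i ∩ V r R δ j))
    (g2 : ∀ i j k, ∀ z ∈ V r R δ i ∩ V r R δ j ∩ V r R δ k, g i j z * g j k z = g i k z)
    (s : Fin 3 ⊕ ℕ → (Fin 3 → ℂ) → (Fin N → ℂ))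
    (hs : ∀ i, DifferentiableOn ℂ (s i) (V r R δ i))
    (hsg : ∀ i j, ∀ z ∈ V r R δ i ∩ V r R δ j, s i z = g i j z (s j z))
    (h0 : ∀ k : ℕ, s (Sum.inr k) ![(2 : ℂ)⁻¹ ^ k, 0, 0] = 0)
    (f : Fin 3 → (Fin 3 → ℂ) → ((Fin N → ℂ) →L[ℂ] ℂ)) (hf : ∀ a, DifferentiableOn ℂ (f a) (W r R a))
    (hfg : ∀ a b, ∀ z ∈ W r R a ∩ W r R b, f b z = (f a z).comp (g (Sum.inl a) (Sum.inl b) z))
    (c : ℂ) (hc1 : r < ‖c‖) (hc2 : ‖c‖ < R) 
    (hne : f 0 ![c, 0, 0] (s (Sum.inl 0) ![c, 0, 0]) ≠ 0) : False := by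
  obtain ⟨ρ, hρ1, hρ2⟩ := exists_between hrR
  obtain ⟨ρ', hρ'1, hρ'2⟩ := exists_between hρ2
  have hρ0 : 0 < ρ := hr.trans hρ1
  have hρ'0 : 0 < ρ' := hρ0.trans hρ'1
  have hR0 : 0 < R := hr.trans hrR
  -- membership
  have mW0 : ∀ t u v : ℂ, r < ‖t‖ → ‖t‖ < R → ‖u‖ < R → ‖v‖ < R → ![t, u, v] ∈ W r R 0 := by
    intro t u v h1 h2 h3 h4
    refine ⟨by simpa using h1, fun j => ?_⟩
    fin_cases j
    · simpa using h2
    · simpa using h3
    · simpa using h4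
  have mW1 : ∀ t u v : ℂ, r < ‖u‖ → ‖t‖ < R → ‖u‖ < R → ‖v‖ < R → ![t, u, v] ∈ W r R 1 := by
    intro t u v h1 h2 h3 h4
    refine ⟨by simpa using h1, fun j => ?_⟩
    fin_cases j
    · simpa using h2
    · simpa using h3
    · simpa using h4
  have mW2 : ∀ t u v : ℂ, r < ‖v‖ → ‖t‖ < R → ‖u‖ < R → ‖v‖ < R → ![t, u, v] ∈ W r R 2 := by
    intro t u v h1 h2 h3 h4
    refine ⟨by simpa using h1, fun j => ?_⟩
    fin_cases j
    · simpa using h2
    · simpa using h3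
    · simpa using h4
  have mO : ∀ (k : ℕ) (u v : ℂ), ‖u‖ < R → ‖v‖ < R → ![(2 : ℂ)⁻¹ ^ k, u, v] ∈ O R δ k := by
    intro k u v h1 h2
    exact ⟨by simpa using hδ k, by simpa using h1, by simpa using h2⟩
  -- the functions `F a`
  set F : Fin 3 → (Fin 3 → ℂ) → ℂ := fun a z => f a z (s (Sum.inl a) z) with hF
  have hFd : ∀ a, DifferentiableOn ℂ (F a) (W r R a) := fun a => (hf a).clm_apply (hs (Sum.inl a))
  have hFF : ∀ a b, ∀ z ∈ W r R a ∩ W r R b, F a z = F b z := by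
    intro a b z hz
    simp only [hF]
    rw [hfg a b z hz, hsg (Sum.inl a) (Sum.inl b) z hz]
    rfl
  have hWo : ∀ a, IsOpen (W r R a) := by
    intro a
    have : W r R a = {z | r < ‖z a‖} ∩ ⋂ j, {z | ‖z j‖ < R} := by
      ext z; simp [W]
    rw [this]
    refine (isOpen_lt continuous_const (by fun_prop)).inter (isOpen_iInter_of_finite fun j => ?_)
    exact isOpen_lt (by fun_prop) continuous_const
  -- the function `H`
  set H : ℂ → ℂ := fun t => (2 * Real.pi * Complex.I : ℂ)⁻¹ • ∮ ζ in C(0, ρ), (ζ - 0)⁻¹ • F 1 ![t, ζ, 0] with hH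
  have hHd : DifferentiableOn ℂ H (ball 0 R) := by
    suffices base : DifferentiableOn ℂ (fun t => ∮ ζ in C(0, ρ), (ζ - 0)⁻¹ • F 1 ![t, ζ, 0]) (ball 0 R) from
      base.const_smul (2 * Real.pi * Complex.I : ℂ)⁻¹
    have hΩ : IsOpen {p : ℂ × ℂ | ‖p.1‖ < R ∧ r < ‖p.2‖ ∧ ‖p.2‖ < R} := by
      exact (isOpen_lt (by fun_prop) continuous_const).and 
        ((isOpen_lt continuous_const (by fun_prop)).and (isOpen_lt (by fun_prop) continuous_const))
    refine PC.param_circle (Ω := {p : ℂ × ℂ | ‖p.1‖ < R ∧ r < ‖p.2‖ ∧ ‖p.2‖ < R}) 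
      (F := fun p : ℂ × ℂ => (p.2 - 0)⁻¹ • F 1 ![p.1, p.2, 0]) hΩ ?_ isOpen_ball ?_
    · refine DifferentiableOn.fun_smul ?_ ?_
      · refine DifferentiableOn.inv (by fun_prop) ?_
        rintro p ⟨_, hp, _⟩
        rw [sub_zero]
        exact norm_pos_iff.1 (hr.trans hp)
      · refine (hFd 1).comp (diff_vec3 (by fun_prop) (by fun_prop) (by fun_prop)).differentiableOn ?_
        rintro p ⟨hp1, hp2, hp3⟩
        exact mW1 _ _ _ hp2 hp1 hp3 (by simpa using hR0)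
    · intro p hp ξ hξ
      rw [abs_of_pos hρ0, mem_sphere_zero_iff_norm] at hξ
      refine ⟨by simpa using hp, ?_, ?_⟩
      · change r < ‖ξ‖
        rw [hξ]; exact hρ1
      · change ‖ξ‖ < R
        rw [hξ]; exact hρ2
  have hHF : ∀ t : ℂ, r < ‖t‖ → ‖t‖ < R → H t = F 0 ![t, 0, 0] := by
    intro t ht1 ht2
    have h1 : DifferentiableOn ℂ (fun ζ : ℂ => F 0 ![t, ζ, 0]) (ball 0 R) := by
      refine (hFd 0).comp (diff_vec3 (by fun_prop) (by fun_prop) (by fun_prop)).differentiableOn ?_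
      intro ζ hζ
      exact mW0 _ _ _ ht1 ht2 (by simpa using hζ) (by simpa using hR0)
    have h2 := cauchy0 hρ2 h1 (w := 0) (by simpa using hρ0)
    rw [hH]
    beta_reduce
    rw [← h2]
    congr 1
    refine circleIntegral.integral_congr hρ0.le (fun ζ hζ => ?_)
    rw [mem_sphere_zero_iff_norm] at hζ
    beta_reduce
    rw [hFF 1 0 _ ⟨mW1 _ _ _ (by rw [hζ]; exact hρ1) ht2 (by rw [hζ]; exact hρ2) (by simpa using hR0), 
      mW0 _ _ _ ht1 ht2 (by rw [hζ]; exact hρ2) (by simpa using hR0)⟩]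
  -- the zeros
  have hzero : ∀ k : ℕ, ‖(2 : ℂ)⁻¹ ^ k‖ < R → H ((2 : ℂ)⁻¹ ^ k) = 0 := by
    intro k hk
    set t : ℂ := (2 : ℂ)⁻¹ ^ k with ht
    set φ1 : ℂ × ℂ → ((Fin N → ℂ) →L[ℂ] ℂ) := 
      fun p => (f 1 ![t, p.1, p.2]).comp (g (Sum.inl 1) (Sum.inr k) ![t, p.1, p.2]) with hφ1
    set φ2 : ℂ × ℂ → ((Fin N → ℂ) →L[ℂ] ℂ) := 
      fun p => (f 2 ![t, p.1, p.2]).comp (g (Sum.inl 2) (Sum.inr k) ![t, p.1, p.2]) with hφ2
    have dφ1 : DifferentiableOn ℂ φ1 {p | r < ‖p.1‖ ∧ ‖p.1‖ < R ∧ ‖p.2‖ < R} := by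
      have e : Differentiable ℂ (fun p : ℂ × ℂ => ![t, p.1, p.2]) := 
        diff_vec3 (by fun_prop) (by fun_prop) (by fun_prop)
      refine DifferentiableOn.clm_comp ((hf 1).comp e.differentiableOn ?_) ((hg _ _).comp e.differentiableOn ?_)
      · rintro p ⟨h1, h2, h3⟩
        exact mW1 _ _ _ h1 hk h2 h3
      · rintro p ⟨h1, h2, h3⟩
        exact ⟨mW1 _ _ _ h1 hk h2 h3, mO k _ _ h2 h3⟩
    have dφ2 : DifferentiableOn ℂ φ2 {p | r < ‖p.2‖ ∧ ‖p.1‖ < R ∧ ‖p.2‖ < R} := by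
      have e : Differentiable ℂ (fun p : ℂ × ℂ => ![t, p.1, p.2]) := 
        diff_vec3 (by fun_prop) (by fun_prop) (by fun_prop)
      refine DifferentiableOn.clm_comp ((hf 2).comp e.differentiableOn ?_) ((hg _ _).comp e.differentiableOn ?_)
      · rintro p ⟨h1, h2, h3⟩
        exact mW2 _ _ _ h1 hk h2 h3
      · rintro p ⟨h1, h2, h3⟩
        exact ⟨mW2 _ _ _ h1 hk h2 h3, mO k _ _ h2 h3⟩
    have φ12 : ∀ u v : ℂ, r < ‖u‖ → r < ‖v‖ → ‖u‖ < R → ‖v‖ < R → φ1 (u, v) = φ2 (u, v) := by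
      intro u v h1 h2 h3 h4
      have m1 := mW1 t u v h1 hk h3 h4
      have m2 := mW2 t u v h2 hk h3 h4
      have m3 := mO k u v h3 h4
      simp only [hφ1, hφ2]
      rw [hfg 1 2 _ ⟨m1, m2⟩, ← g2 (Sum.inl 1) (Sum.inl 2) (Sum.inr k) _ ⟨⟨m1, m2⟩, m3⟩]
      rfl
    set φt : ℂ × ℂ → ((Fin N → ℂ) →L[ℂ] ℂ) := 
      fun p => (2 * Real.pi * Complex.I : ℂ)⁻¹ • ∮ w in C(0, ρ'), (w - p.1)⁻¹ • φ1 (w, p.2) with hφt
    have dφt : DifferentiableOn ℂ φt {p | ‖p.1‖ < ρ' ∧ ‖p.2‖ < R} := by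
      suffices base : DifferentiableOn ℂ (fun p : ℂ × ℂ => ∮ w in C(0, ρ'), (w - p.1)⁻¹ • φ1 (w, p.2)) 
          {p | ‖p.1‖ < ρ' ∧ ‖p.2‖ < R} from base.const_smul (2 * Real.pi * Complex.I : ℂ)⁻¹
      have hΩ : IsOpen {q : (ℂ × ℂ) × ℂ | (q.2 ≠ q.1.1) ∧ (r < ‖q.2‖ ∧ ‖q.2‖ < R) ∧ ‖q.1.2‖ < R} := by
        exact (isOpen_ne_fun (by fun_prop) (by fun_prop)).and 
          (((isOpen_lt continuous_const (by fun_prop)).and (isOpen_lt (by fun_prop) continuous_const)).and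
            (isOpen_lt (by fun_prop) continuous_const))
      refine PC.param_circle (Ω := {q : (ℂ × ℂ) × ℂ | (q.2 ≠ q.1.1) ∧ (r < ‖q.2‖ ∧ ‖q.2‖ < R) ∧ ‖q.1.2‖ < R}) 
        (F := fun q : (ℂ × ℂ) × ℂ => (q.2 - q.1.1)⁻¹ • φ1 (q.2, q.1.2)) hΩ ?_ 
        ((isOpen_lt (by fun_prop) continuous_const).and (isOpen_lt (by fun_prop) continuous_const)) ?_
      · refine DifferentiableOn.fun_smul ?_ ?_
        · refine DifferentiableOn.inv (by fun_prop) ?_
          rintro q ⟨hq, _⟩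
          exact sub_ne_zero.2 hq
        · refine dφ1.comp (by fun_prop) ?_
          rintro q ⟨hq1, hq2, hq3⟩
          exact ⟨hq2.1, hq2.2, hq3⟩
      · rintro p ⟨hp1, hp2⟩ ξ hξ
        rw [abs_of_pos hρ'0, mem_sphere_zero_iff_norm] at hξ
        refine ⟨?_, ⟨?_, ?_⟩, hp2⟩
        · change ξ ≠ p.1
          rintro rfl
          exact absurd hξ (ne_of_lt hp1)
        · change r < ‖ξ‖
          rw [hξ]; exact hρ1.trans hρ'1
        · change ‖ξ‖ < R
          rw [hξ]; exact hρ'2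
    -- (a)
    have ha : ∀ u v : ℂ, ‖u‖ < ρ' → r < ‖v‖ → ‖v‖ < R → φt (u, v) = φ2 (u, v) := by
      intro u v h1 h2 h3
      have e1 : DifferentiableOn ℂ (fun w : ℂ => φ2 (w, v)) (ball 0 R) := by
        refine dφ2.comp (by fun_prop) ?_
        intro w hw
        exact ⟨h2, by simpa using hw, h3⟩
      have e2 := cauchy0 hρ'2 e1 (w := u) h1
      simp only [hφt]
      rw [← e2]
      congr 1
      refine circleIntegral.integral_congr hρ'0.le (fun ζ hζ => ?_)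
      rw [mem_sphere_zero_iff_norm] at hζ
      beta_reduce
      rw [φ12 ζ v (by rw [hζ]; exact hρ1.trans hρ'1) h2 (by rw [hζ]; exact hρ'2) h3]
    -- (b)
    have hb : ∀ u : ℂ, ‖u‖ = ρ → φt (u, 0) = φ1 (u, 0) := by
      intro u hu
      have e1 : DifferentiableOn ℂ (fun v : ℂ => φt (u, v)) (ball 0 R) := by
        refine dφt.comp (by fun_prop) ?_
        intro v hv
        exact ⟨by rw [← hu] at hρ'1; exact hρ'1, by simpa using hv⟩
      have e2 : DifferentiableOn ℂ (fun v : ℂ => φ1 (u, v)) (ball 0 R) := by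
        refine dφ1.comp (by fun_prop) ?_
        intro v hv
        exact ⟨by rw [← hu] at hρ1; exact hρ1, by rw [← hu] at hρ2; exact hρ2, by simpa using hv⟩
      have e3 := cauchy0 hρ2 e1 (w := 0) (by simpa using hρ0)
      have e4 := cauchy0 hρ2 e2 (w := 0) (by simpa using hρ0)
      rw [← e3, ← e4]
      congr 1
      refine circleIntegral.integral_congr hρ0.le (fun v hv => ?_)
      rw [mem_sphere_zero_iff_norm] at hv
      beta_reduce
      rw [ha u v (by rw [hu]; exact hρ'1) (by rw [hv]; exact hρ1) (by rw [hv]; exact hρ2), 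
        φ12 u v (by rw [hu]; exact hρ1) (by rw [hv]; exact hρ1) (by rw [hu]; exact hρ2) (by rw [hv]; exact hρ2)]
    -- (c)
    have e1 : DifferentiableOn ℂ (fun u : ℂ => φt (u, 0) (s (Sum.inr k) ![t, u, 0])) (ball 0 ρ') := by
      refine DifferentiableOn.clm_apply (dφt.comp (by fun_prop) ?_) ((hs (Sum.inr k)).comp 
        (diff_vec3 (by fun_prop) (by fun_prop) (by fun_prop)).differentiableOn ?_)
      · intro u hu
        exact ⟨by simpa using hu, by simpa using hR0⟩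
      · intro u hu
        refine mO k u 0 ?_ (by simpa using hR0)
        rw [mem_ball_zero_iff] at hu
        exact hu.trans hρ'2
    have e2 := cauchy0 hρ'1 e1 (w := 0) (by simpa using hρ0)
    have e3 : H t = φt (0, 0) (s (Sum.inr k) ![t, 0, 0]) := by
      rw [← e2, hH]
      beta_reduce
      congr 1
      refine circleIntegral.integral_congr hρ0.le (fun u hu => ?_)
      rw [mem_sphere_zero_iff_norm] at hu
      beta_reduce
      rw [hb u hu]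
      congr 1
      simp only [hF, hφ1]
      rw [hsg (Sum.inl 1) (Sum.inr k) ![t, u, 0] ⟨mW1 _ _ _ (by rw [hu]; exact hρ1) hk (by rw [hu]; exact hρ2) (by simpa using hR0), 
        mO k u 0 (by rw [hu]; exact hρ2) (by simpa using hR0)⟩]
      rfl
    rw [e3, h0 k, map_zero]
  -- identity theorem
  have han : AnalyticOnNhd ℂ H (ball 0 R) := hHd.analyticOnNhd isOpen_ball
  have hlim : Tendsto (fun k : ℕ => (2 : ℂ)⁻¹ ^ k) atTop (𝓝[≠] 0) := by
    refine tendsto_nhdsWithin_iff.2 ⟨tendsto_pow_atTop_nhds_zero_of_norm_lt_one (by norm_num), 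
      Filter.Eventually.of_forall fun k => pow_ne_zero _ (by norm_num)⟩
  have hfreq : ∃ᶠ z in 𝓝[≠] (0 : ℂ), H z = 0 := by
    refine hlim.frequently (Filter.Eventually.frequently ?_)
    have h1 : ∀ᶠ k : ℕ in atTop, (2 : ℂ)⁻¹ ^ k ∈ ball (0 : ℂ) R := 
      (hlim.mono_right nhdsWithin_le_nhds).eventually (isOpen_ball.mem_nhds (by simpa using hR0))
    filter_upwards [h1] with k hk
    exact hzero k (by simpa using hk)
  have hH0 := han.eqOn_zero_of_preconnected_of_frequently_eq_zero (convex_ball 0 R).isPreconnected 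
    (by simpa using hR0) hfreq
  have h3 : H c = 0 := hH0 (by simpa using hc2)
  rw [hHF c hc1 hc2] at h3
  exact hne h3

end Pool.Agent.HP
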