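import Pool.Agent.HopfPinch.Iface
set_option autoImplicit false
namespace Pool.Agent.HP

/-- FINITENESS of H^1 of the shell (function form), for a cocycle `T` of rank `dim E` on the three sets
`W r R a`: among `m` cocycles there is a nontrivial linear combination which is a coboundary on the
smaller shell `W r' R'`. -/
def FIN : Prop := ∀ (E : Type) [NormedAddCommGroup E] [NormedSpace ℂ E] [FiniteDimensional ℂ E]
    (r R r' R' : ℝ) (_ : 0 < r) (_ : r < r') (_ : r' < R') (_ : R' < R)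
    (T : Fin 3 → Fin 3 → (Fin 3 → ℂ) → (E →L[ℂ] E))
    (_ : ∀ a b, DifferentiableOn ℂ (T a b) (W r R a ∩ W r R b))
    (_ : ∀ a, ∀ z ∈ W r R a, T a a z = 1)
    (_ : ∀ a b c, ∀ z ∈ W r R a ∩ W r R b ∩ W r R c, T a b z * T b c z = T a c z),
    ∃ m : ℕ, ∀ ξ : Fin m → Fin 3 → Fin 3 → (Fin 3 → ℂ) → E,
      (∀ i a b, DifferentiableOn ℂ (ξ i a b) (W r R a ∩ W r R b)) →
      (∀ i a b c, ∀ z ∈ W r R a ∩ W r R b ∩ W r R c, ξ i a b z + T a b z (ξ i b c z) = ξ i a c z) →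
      ∃ (l : Fin m → ℂ) (η : Fin 3 → (Fin 3 → ℂ) → E), l ≠ 0 ∧
        (∀ a, DifferentiableOn ℂ (η a) (W r' R' a)) ∧
        ∀ a b, ∀ z ∈ W r' R' a ∩ W r' R' b, ∑ i, l i • ξ i a b z = T a b z (η b z) - η a z

end Pool.Agent.HP
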