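import Pool.Agent.HopfPinch.CartanA
set_option autoImplicit false
open Set Metric Filter Topology
open scoped Ring
namespace Pool.Agent.HP

section Frames
variable {Z Z' A : Type} [NormedAddCommGroup Z] [NormedSpace ℂ Z] [NormedAddCommGroup Z'] 
  [NormedSpace ℂ Z'] [NormedRing A] [NormedAlgebra ℂ A] {I : Type*}

/-- A frame of the cocycle `g` on `W`. -/
structure IsFrame (U : I → Set Z) (g : I → I → Z → A) (W : Set Z) (F : I → Z → A) : Prop where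
  diff : ∀ i, DifferentiableOn ℂ (F i) (W ∩ U i)
  unit : ∀ i, ∀ z ∈ W ∩ U i, IsUnit (F i z)
  rel : ∀ i j, ∀ z ∈ W, z ∈ U i → z ∈ U j → F i z = g i j z * F j z

/-- there is a frame near `K` -/
def HasFrame (U : I → Set Z) (g : I → I → Z → A) (K : Set Z) : Prop :=
  ∃ W : Set Z, IsOpen W ∧ K ⊆ W ∧ ∃ F : I → Z → A, IsFrame U g W F

theorem IsFrame.mono {U : I → Set Z} {g : I → I → Z → A} {W W' : Set Z} {F : I → Z → A}
    (h : IsFrame U g W F) (hW : W' ⊆ W) : IsFrame U g W' F :=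
  ⟨fun i => (h.diff i).mono (inter_subset_inter_left _ hW), 
   fun i z hz => h.unit i z ⟨hW hz.1, hz.2⟩, fun i j z hz => h.rel i j z (hW hz)⟩

theorem HasFrame.mono {U : I → Set Z} {g : I → I → Z → A} {K K' : Set Z} 
    (h : HasFrame U g K) (hK : K' ⊆ K) : HasFrame U g K' := by
  obtain ⟨W, hW, hKW, F, hF⟩ := h
  exact ⟨W, hW, hK.trans hKW, F, hF⟩

/-- transport along a linear isomorphism -/
theorem HasFrame.transport {U : I → Set Z} {g : I → I → Z → A} {K : Set Z} (Φ : Z' ≃L[ℂ] Z) :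
    HasFrame U g K ↔ HasFrame (fun i => Φ ⁻¹' U i) (fun i j z => g i j (Φ z)) (Φ ⁻¹' K) := by
  constructor
  · rintro ⟨W, hW, hKW, F, hF⟩
    refine ⟨Φ ⁻¹' W, hW.preimage Φ.continuous, preimage_mono hKW, fun i z => F i (Φ z), ?_, ?_, ?_⟩
    · intro i
      exact (hF.diff i).comp Φ.differentiable.differentiableOn (fun z hz => hz)
    · intro i z hz
      exact hF.unit i _ hz
    · intro i j z hz hi hj
      exact hF.rel i j _ hz hi hj
  · rintro ⟨W, hW, hKW, F, hF⟩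
    refine ⟨Φ.symm ⁻¹' W, hW.preimage Φ.symm.continuous, ?_, fun i z => F i (Φ.symm z), ?_, ?_, ?_⟩
    · intro z hz
      exact hKW (by simpa using hz)
    · intro i
      refine (hF.diff i).comp Φ.symm.differentiable.differentiableOn (fun z hz => ⟨hz.1, ?_⟩)
      simpa using hz.2
    · intro i z hz
      exact hF.unit i _ ⟨hz.1, by simpa using hz.2⟩
    · intro i j z hz hi hj
      simpa using hF.rel i j _ hz (by simpa using hi) (by simpa using hj)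

/-- the transition function between two frames -/
theorem exists_transition [CompleteSpace A] {U : I → Set Z} (hU : ∀ i, IsOpen (U i)) 
    {g : I → I → Z → A} {W W' : Set Z} (hW : IsOpen W) (hW' : IsOpen W') {F F' : I → Z → A} 
    (hF : IsFrame U g W F) (hF' : IsFrame U g W' F') :
    ∃ h : Z → A, DifferentiableOn ℂ h (W ∩ W' ∩ ⋃ i, U i) ∧ 
      (∀ z ∈ W ∩ W' ∩ ⋃ i, U i, IsUnit (h z)) ∧
      ∀ i, ∀ z ∈ W ∩ W', z ∈ U i → F' i z = F i z * h z := by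
  classical
  have key : ∀ i j, ∀ z ∈ W ∩ W', z ∈ U i → z ∈ U j → (F i z)⁻¹ʳ * F' i z = (F j z)⁻¹ʳ * F' j z := by
    intro i j z hz hi hj
    have h1 := hF.unit i z ⟨hz.1, hi⟩
    have h2 := hF.unit j z ⟨hz.1, hj⟩
    have h3 := hF.rel i j z hz.1 hi hj
    have h4 := hF'.rel i j z hz.2 hi hj
    have h5 : g i j z = F i z * (F j z)⁻¹ʳ := by
      rw [h3, mul_assoc, Ring.mul_inverse_cancel _ h2, mul_one]
    rw [h4, h5, mul_assoc, ← mul_assoc, Ring.inverse_mul_cancel _ h1, one_mul]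
  refine ⟨fun z => if h : ∃ i, z ∈ U i then (F h.choose z)⁻¹ʳ * F' h.choose z else 1, ?_, ?_, ?_⟩
  · rintro z ⟨hz, hzU⟩
    obtain ⟨i, hi⟩ := mem_iUnion.1 hzU
    have heq : (fun z => if h : ∃ i, z ∈ U i then (F h.choose z)⁻¹ʳ * F' h.choose z else 1) =ᶠ[𝓝 z] 
        fun z => (F i z)⁻¹ʳ * F' i z := by
      filter_upwards [(hW.inter hW').mem_nhds hz, (hU i).mem_nhds hi] with w hw hwi
      have hex : ∃ i, w ∈ U i := ⟨i, hwi⟩
      rw [dif_pos hex]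
      exact key _ _ w hw hex.choose_spec hwi
    refine (DifferentiableAt.congr_of_eventuallyEq ?_ heq).differentiableWithinAt
    have h1 : DifferentiableAt ℂ (F i) z := (hF.diff i).differentiableAt ((hW.inter (hU i)).mem_nhds ⟨hz.1, hi⟩)
    have h2 : DifferentiableAt ℂ (F' i) z := (hF'.diff i).differentiableAt ((hW'.inter (hU i)).mem_nhds ⟨hz.2, hi⟩)
    exact (h1.inverse (hF.unit i z ⟨hz.1, hi⟩)).mul h2
  · rintro z ⟨hz, hzU⟩
    obtain ⟨i, hi⟩ := mem_iUnion.1 hzU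
    have hex : ∃ i, z ∈ U i := ⟨i, hi⟩
    simp only [dif_pos hex]
    rw [key _ i z hz hex.choose_spec hi]
    exact (hF.unit i z ⟨hz.1, hi⟩).ringInverse.mul (hF'.unit i z ⟨hz.2, hi⟩)
  · intro i z hz hi
    have hex : ∃ i, z ∈ U i := ⟨i, hi⟩
    simp only [dif_pos hex]
    rw [key _ i z hz hex.choose_spec hi, ← mul_assoc, Ring.mul_inverse_cancel _ (hF.unit i z ⟨hz.1, hi⟩), one_mul]

omit [NormedSpace ℂ Z] in
/-- separation of compact sets relative to a neighbourhood of their intersection -/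
theorem exists_open_sep (K K' : Set Z) (hK : IsCompact K) (hK' : IsCompact K') (O : Set Z) (hO : IsOpen O)
    (h : K ∩ K' ⊆ O) : ∃ N N' : Set Z, IsOpen N ∧ IsOpen N' ∧ K ⊆ N ∧ K' ⊆ N' ∧ N ∩ N' ⊆ O := by
  obtain ⟨N1, N2, hN1, hN2, hK1, hK2, hd⟩ := SeparatedNhds.of_isCompact_isCompact (hK.diff hO) hK' 
    (by
      rw [Set.disjoint_left]
      rintro z ⟨hz, hzO⟩ hz'
      exact hzO (h ⟨hz, hz'⟩))
  refine ⟨N1 ∪ O, N2, hN1.union hO, hN2, ?_, hK2, ?_⟩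
  · intro z hz
    by_cases hzO : z ∈ O
    · exact Or.inr hzO
    · exact Or.inl (hK1 ⟨hz, hzO⟩)
  · rintro z ⟨hz | hz, hz'⟩
    · exact absurd hz' (Set.disjoint_left.1 hd hz)
    · exact hz

end Frames

/-- good sets for cutting -/
def Fine (S : Set ℂ) : Prop := ∀ O : Set ℂ, IsOpen O → S ⊆ O → ∃ R1 R2 : Set ℂ, IsCompact R1 ∧ 
  IsCompact R2 ∧ Convex ℝ R1 ∧ Convex ℝ R2 ∧ Disjoint R1 R2 ∧ IsPreconnected (R1 ∪ R2)ᶜ ∧
  S ⊆ interior (R1 ∪ R2) ∧ R1 ∪ R2 ⊆ O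

section Glue
variable {Y A : Type} [NormedAddCommGroup Y] [NormedSpace ℂ Y] [FiniteDimensional ℂ Y]
  [NormedRing A] [NormedAlgebra ℂ A] [FiniteDimensional ℂ A] {I : Type*}

theorem glue (U : I → Set (ℂ × Y)) (hU : ∀ i, IsOpen (U i)) (g : I → I → ℂ × Y → A) 
    (D' D'' : Set ℂ) (hD' : IsCompact D') (hD'' : IsCompact D'') (B : Set Y) (hB : IsCompact B)
    (hBc : Convex ℝ B) (hfine : Fine (D' ∩ D'')) (hcov : (D' ∩ D'') ×ˢ B ⊆ ⋃ i, U i) 
    (h1 : HasFrame U g (D' ×ˢ B)) (h2 : HasFrame U g (D'' ×ˢ B)) : 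
    HasFrame U g ((D' ∪ D'') ×ˢ B) := by
  classical
  have hcomp : CompleteSpace A := FiniteDimensional.complete ℂ A
  have hprop : ProperSpace Y := FiniteDimensional.proper ℂ Y
  obtain ⟨W', hW', hKW', F', hF'⟩ := h1
  obtain ⟨W'', hW'', hKW'', F'', hF''⟩ := h2
  obtain ⟨h, hh, hu, hrel⟩ := exists_transition hU hW' hW'' hF' hF''
  set O := W' ∩ W'' ∩ ⋃ i, U i with hOdef
  have hO : IsOpen O := (hW'.inter hW'').inter (isOpen_iUnion hU)
  have hDO : (D' ∩ D'') ×ˢ B ⊆ O := by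
    rintro ⟨z, y⟩ ⟨⟨hz1, hz2⟩, hy⟩
    exact ⟨⟨hKW' ⟨hz1, hy⟩, hKW'' ⟨hz2, hy⟩⟩, hcov ⟨⟨hz1, hz2⟩, hy⟩⟩
  obtain ⟨u, v, huo, hvo, hDu, hBv, huv⟩ := generalized_tube_lemma (hD'.inter hD'') hB hO hDO
  obtain ⟨R1, R2, hR1, hR2, hR1c, hR2c, hdisj, hcompl, hint, hRu⟩ := hfine u huo hDu
  obtain ⟨δ, hδ, hδv⟩ := hB.exists_cthickening_subset_open hvo hBv
  obtain ⟨Oa, Ob, Oc, a, b, hOa, hOb, hOc, hDa, hDb, hDc, ha, hb, hua, hub, hab⟩ := 
    cartan_factor D' D'' hD' hD'' B (cthickening δ B) hB.cthickening 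
      (hBc.cthickening δ) ((self_subset_thickening hδ B).trans 
        (isOpen_thickening.subset_interior_iff.2 (thickening_subset_cthickening δ B)))
      R1 R2 hR1 hR2 hR1c hR2c hdisj hcompl hint O hO ((prod_mono hRu hδv).trans huv) h hh hu
  obtain ⟨N', N'', hN', hN'', hDN', hDN'', hNN⟩ := exists_open_sep (D' ×ˢ B) (D'' ×ˢ B) 
    (hD'.prod hB) (hD''.prod hB) (Oc ∩ O) (hOc.inter hO) (by
      rw [← inter_prod]
      exact subset_inter hDc hDO)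
  have hO1o : IsOpen (N' ∩ Oa ∩ W') := (hN'.inter hOa).inter hW'
  have hO2o : IsOpen (N'' ∩ Ob ∩ W'') := (hN''.inter hOb).inter hW''
  have agree : ∀ i z, z ∈ N' ∩ Oa ∩ W' → z ∈ N'' ∩ Ob ∩ W'' → z ∈ U i → 
      F' i z * a z = F'' i z * b z := by
    intro i z hz1 hz2 hi
    have hz3 := hNN ⟨hz1.1.1, hz2.1.1⟩
    rw [hrel i z ⟨hz1.2, hz2.2⟩ hi, mul_assoc, hab z hz3.1]
  refine ⟨(N' ∩ Oa ∩ W') ∪ (N'' ∩ Ob ∩ W''), hO1o.union hO2o, ?_, 
    fun i z => if z ∈ N' ∩ Oa ∩ W' then F' i z * a z else F'' i z * b z, ?_, ?_, ?_⟩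
  · rintro ⟨z, y⟩ ⟨hz | hz, hy⟩
    · exact Or.inl ⟨⟨hDN' ⟨hz, hy⟩, hDa ⟨hz, hy⟩⟩, hKW' ⟨hz, hy⟩⟩
    · exact Or.inr ⟨⟨hDN'' ⟨hz, hy⟩, hDb ⟨hz, hy⟩⟩, hKW'' ⟨hz, hy⟩⟩
  · rintro i z ⟨hz | hz, hi⟩
    · have heq : (fun z => if z ∈ N' ∩ Oa ∩ W' then F' i z * a z else F'' i z * b z) =ᶠ[𝓝 z] 
          fun z => F' i z * a z := by
        filter_upwards [hO1o.mem_nhds hz] with w hw
        rw [if_pos hw]
      refine (DifferentiableAt.congr_of_eventuallyEq ?_ heq).differentiableWithinAt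
      exact ((hF'.diff i).differentiableAt ((hW'.inter (hU i)).mem_nhds ⟨hz.2, hi⟩)).mul 
        (ha.differentiableAt (hOa.mem_nhds hz.1.2))
    · have heq : (fun z => if z ∈ N' ∩ Oa ∩ W' then F' i z * a z else F'' i z * b z) =ᶠ[𝓝 z] 
          fun z => F'' i z * b z := by
        filter_upwards [hO2o.mem_nhds hz, (hU i).mem_nhds hi] with w hw hwi
        split_ifs with hc
        · exact agree i w hc hw hwi
        · rfl
      refine (DifferentiableAt.congr_of_eventuallyEq ?_ heq).differentiableWithinAt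
      exact ((hF''.diff i).differentiableAt ((hW''.inter (hU i)).mem_nhds ⟨hz.2, hi⟩)).mul 
        (hb.differentiableAt (hOb.mem_nhds hz.1.2))
  · rintro i z ⟨hz, hi⟩
    beta_reduce
    split_ifs with hc
    · exact (hF'.unit i z ⟨hc.2, hi⟩).mul (hua z hc.1.2)
    · have hz' := hz.resolve_left hc
      exact (hF''.unit i z ⟨hz'.2, hi⟩).mul (hub z hz'.1.2)
  · intro i j z hz hi hj
    beta_reduce
    split_ifs with hc
    · rw [hF'.rel i j z hc.2 hi hj, mul_assoc]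
    · have hz' := hz.resolve_left hc
      rw [hF''.rel i j z hz'.2 hi hj, mul_assoc]

end Glue

end Pool.Agent.HP
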