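import Pool.Agent.HopfPinch.FramesA
set_option autoImplicit false
open Set Metric Filter Topology
open scoped Ring
namespace Pool.Agent.HP

theorem interval_induction (P : ℝ → ℝ → Prop) (s t : ℝ) (hst : s ≤ t)
    (h0 : ∀ x ∈ Icc s t, ∃ ε : ℝ, 0 < ε ∧ ∀ u v, x - ε ≤ u → u ≤ v → v ≤ x + ε → P u v)
    (hglue : ∀ u v w, s ≤ u → u ≤ v → v ≤ w → w ≤ t → P u v → P v w → P u w) : P s t := by
  choose! ε hε h1 using h0
  obtain ⟨δ, hδ, hL⟩ := lebesgue_number_lemma_of_metric (s := Icc s t) isCompact_Icc 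
    (c := fun x : Icc s t => ball (x : ℝ) (ε x)) (fun _ => isOpen_ball) (by
      intro x hx
      exact mem_iUnion.2 ⟨⟨x, hx⟩, mem_ball_self (hε x hx)⟩)
  have hsmall : ∀ u v, s ≤ u → u ≤ v → v ≤ t → v - u < δ → P u v := by
    intro u v hsu huv hvt hd
    obtain ⟨⟨x, hx⟩, hx2⟩ := hL u ⟨hsu, huv.trans hvt⟩
    have hu : u ∈ ball x (ε x) := hx2 (mem_ball_self hδ)
    have hv : v ∈ ball x (ε x) := hx2 (by rw [mem_ball, Real.dist_eq, abs_of_nonneg (by linarith)]; exact hd)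
    rw [mem_ball, Real.dist_eq, abs_lt] at hu hv
    exact h1 x hx u v (by linarith [hu.1]) huv (by linarith [hv.2])
  have hind : ∀ n : ℕ, P s (min t (s + n * (δ / 2))) := by
    intro n
    induction n with
    | zero => 
      simp only [Nat.cast_zero, zero_mul, add_zero, min_eq_right hst]
      exact hsmall s s le_rfl le_rfl hst (by simpa using hδ)
    | succ n ih => 
      refine hglue s (min t (s + n * (δ / 2))) _ le_rfl (le_min hst (by
        have : (0 : ℝ) ≤ n * (δ / 2) := by positivity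
        linarith)) ?_ (min_le_left _ _) ih ?_
      · refine min_le_min_left _ ?_
        push_cast
        nlinarith
      · refine hsmall _ _ (le_min hst (by
          have : (0 : ℝ) ≤ n * (δ / 2) := by positivity
          linarith)) ?_ (min_le_left _ _) ?_
        · refine min_le_min_left _ ?_
          push_cast
          nlinarith
        · have h2 : s + ((n + 1 : ℕ) : ℝ) * (δ / 2) = (s + n * (δ / 2)) + δ / 2 := by
            push_cast; ring
          rw [h2]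
          rcases le_total t (s + n * (δ / 2)) with h | h
          · rw [min_eq_left h, min_eq_left (by linarith)]
            linarith
          · rw [min_eq_right h]
            have := min_le_right t ((s + n * (δ / 2)) + δ / 2)
            linarith
  obtain ⟨n, hn⟩ := exists_nat_gt ((t - s) / (δ / 2))
  have h3 : t ≤ s + n * (δ / 2) := by
    rw [div_lt_iff₀ (by positivity)] at hn
    linarith
  have := hind n
  rwa [min_eq_left h3] at this

theorem rect_isCompact (a b c d : ℝ) : IsCompact (Icc a b ×ℂ Icc c d) :=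
  isCompact_Icc.reProdIm isCompact_Icc

theorem rect_convex (a b c d : ℝ) : Convex ℝ (Icc a b ×ℂ Icc c d) :=
  by
  intro x hx y hy s t hs ht hst
  rw [Complex.mem_reProdIm] at *
  refine ⟨?_, ?_⟩
  · have := convex_Icc a b hx.1 hy.1 hs ht hst
    simpa using this
  · have := convex_Icc c d hx.2 hy.2 hs ht hst
    simpa using this

theorem fine_empty (S : Set ℂ) (hS : S = ∅) : Fine S := by
  intro O hO hSO
  refine ⟨∅, ∅, isCompact_empty, isCompact_empty, convex_empty, convex_empty, disjoint_empty _, ?_, ?_, ?_⟩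
  · simpa using isPreconnected_univ
  · simp [hS]
  · simp

theorem rect_enlarge (a b c d : ℝ) (hab : a ≤ b) (hcd : c ≤ d) (O : Set ℂ) (hO : IsOpen O) 
    (hSO : Icc a b ×ℂ Icc c d ⊆ O) : ∃ ε : ℝ, 0 < ε ∧ ∀ ε', ε' ≤ ε → 
      Icc (a - ε') (b + ε') ×ℂ Icc (c - ε') (d + ε') ⊆ O := by
  obtain ⟨δ, hδ, h⟩ := (rect_isCompact a b c d).exists_cthickening_subset_open hO hSO
  refine ⟨δ / 2, by positivity, fun ε' hε' z hz => h ?_⟩
  rw [Complex.mem_reProdIm, mem_Icc, mem_Icc] at hz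
  obtain ⟨⟨h1, h2⟩, ⟨h3, h4⟩⟩ := hz
  refine mem_cthickening_of_dist_le z ⟨max a (min z.re b), max c (min z.im d)⟩ δ _ ?_ ?_
  · rw [Complex.mem_reProdIm]
    exact ⟨⟨le_max_left _ _, max_le hab (min_le_right _ _)⟩, ⟨le_max_left _ _, max_le hcd (min_le_right _ _)⟩⟩
  · rw [dist_eq_norm]
    refine (Complex.norm_le_abs_re_add_abs_im _).trans ?_
    simp only [Complex.sub_re, Complex.sub_im]
    have e1 : |z.re - max a (min z.re b)| ≤ δ / 2 := by
      rw [abs_le]
      rcases le_total a (min z.re b) with h | h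
      · rw [max_eq_right h]
        rcases le_total z.re b with h' | h'
        · rw [min_eq_left h']; constructor <;> linarith
        · rw [min_eq_right h']; constructor <;> linarith
      · rw [max_eq_left h]
        rcases le_total z.re b with h' | h'
        · rw [min_eq_left h'] at h; constructor <;> linarith
        · rw [min_eq_right h'] at h; constructor <;> linarith
    have e2 : |z.im - max c (min z.im d)| ≤ δ / 2 := by
      rw [abs_le]
      rcases le_total c (min z.im d) with h | h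
      · rw [max_eq_right h]
        rcases le_total z.im d with h' | h'
        · rw [min_eq_left h']; constructor <;> linarith
        · rw [min_eq_right h']; constructor <;> linarith
      · rw [max_eq_left h]
        rcases le_total z.im d with h' | h'
        · rw [min_eq_left h'] at h; constructor <;> linarith
        · rw [min_eq_right h'] at h; constructor <;> linarith
    linarith

theorem rect_subset_interior (a b c d ε : ℝ) (hε : 0 < ε) : 
    Icc a b ×ℂ Icc c d ⊆ interior (Icc (a - ε) (b + ε) ×ℂ Icc (c - ε) (d + ε)) := by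
  have ho : IsOpen (Ioo (a - ε) (b + ε) ×ℂ Ioo (c - ε) (d + ε)) := isOpen_Ioo.reProdIm isOpen_Ioo
  refine Subset.trans ?_ (interior_maximal ?_ ho)
  · intro z hz
    rw [Complex.mem_reProdIm, mem_Icc, mem_Icc] at hz
    rw [Complex.mem_reProdIm, mem_Ioo, mem_Ioo]
    refine ⟨⟨?_, ?_⟩, ?_, ?_⟩ <;> linarith [hz.1.1, hz.1.2, hz.2.1, hz.2.2]
  · intro z hz
    rw [Complex.mem_reProdIm] at *
    exact ⟨Ioo_subset_Icc_self hz.1, Ioo_subset_Icc_self hz.2⟩

theorem rect_empty1 (a b c d : ℝ) (h : b < a) : Icc a b ×ℂ Icc c d = ∅ := by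
  ext z
  simp only [Complex.mem_reProdIm, mem_Icc, mem_empty_iff_false, iff_false, not_and]
  intro h1
  linarith [h1.1, h1.2]

theorem rect_empty2 (a b c d : ℝ) (h : d < c) : Icc a b ×ℂ Icc c d = ∅ := by
  ext z
  simp only [Complex.mem_reProdIm, mem_Icc, mem_empty_iff_false, iff_false, not_and]
  intro _ h1
  linarith

theorem fine_rect (a b c d : ℝ) : Fine (Icc a b ×ℂ Icc c d) := by
  rcases lt_or_ge b a with hab | hab
  · exact fine_empty _ (rect_empty1 a b c d hab)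
  rcases lt_or_ge d c with hcd | hcd
  · exact fine_empty _ (rect_empty2 a b c d hcd)
  intro O hO hSO
  obtain ⟨ε, hε, h⟩ := rect_enlarge a b c d hab hcd O hO hSO
  refine ⟨Icc (a - ε) (b + ε) ×ℂ Icc (c - ε) (d + ε), ∅, rect_isCompact _ _ _ _, isCompact_empty, 
    rect_convex _ _ _ _, convex_empty, disjoint_empty _, ?_, ?_, ?_⟩
  · rw [union_empty]
    exact preconnected_compl_rect _ _ _ _
  · rw [union_empty]
    exact rect_subset_interior _ _ _ _ _ hε
  · rw [union_empty]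
    exact h ε le_rfl

theorem fine_rects (a b c d c' d' : ℝ) (hcd : c ≤ d) (hcd' : c' ≤ d') (h : d < c') : 
    Fine ((Icc a b ×ℂ Icc c d) ∪ (Icc a b ×ℂ Icc c' d')) := by
  rcases lt_or_ge b a with hab | hab
  · exact fine_empty _ (by rw [rect_empty1 a b c d hab, rect_empty1 a b c' d' hab, union_empty])
  intro O hO hSO
  obtain ⟨ε1, hε1, h1⟩ := rect_enlarge a b c d hab hcd O hO (subset_union_left.trans hSO)
  obtain ⟨ε2, hε2, h2⟩ := rect_enlarge a b c' d' hab hcd' O hO (subset_union_right.trans hSO)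
  obtain ⟨ε, hε, hεe1, hεe2, hεe3⟩ : ∃ ε : ℝ, 0 < ε ∧ ε ≤ ε1 ∧ ε ≤ ε2 ∧ ε ≤ (c' - d) / 3 := 
    ⟨min ε1 (min ε2 ((c' - d) / 3)), by
      have : 0 < (c' - d) / 3 := by linarith
      positivity, min_le_left _ _, 
      (min_le_right _ _).trans (min_le_left _ _), (min_le_right _ _).trans (min_le_right _ _)⟩
  refine ⟨Icc (a - ε) (b + ε) ×ℂ Icc (c - ε) (d + ε), Icc (a - ε) (b + ε) ×ℂ Icc (c' - ε) (d' + ε), 
    rect_isCompact _ _ _ _, rect_isCompact _ _ _ _, rect_convex _ _ _ _, rect_convex _ _ _ _, ?_, ?_, ?_, ?_⟩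
  · rw [Set.disjoint_left]
    intro z hz hz'
    rw [Complex.mem_reProdIm, mem_Icc, mem_Icc] at hz hz'
    linarith [hz.2.2, hz'.2.1]
  · exact preconnected_compl_rects _ _ _ _ _ _ (by linarith) (by linarith) (by linarith)
  · refine union_subset ?_ ?_
    · exact (rect_subset_interior _ _ _ _ _ hε).trans (interior_mono subset_union_left)
    · exact (rect_subset_interior _ _ _ _ _ hε).trans (interior_mono subset_union_right)
  · exact union_subset (h1 ε hεe1) (h2 ε hεe2)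

section
variable {Y A : Type} [NormedAddCommGroup Y] [NormedSpace ℂ Y] [FiniteDimensional ℂ Y]
  [NormedRing A] [NormedAlgebra ℂ A] [FiniteDimensional ℂ A] {I : Type*}

omit [FiniteDimensional ℂ Y] [FiniteDimensional ℂ A] in
theorem HasFrame.nhd {U : I → Set (ℂ × Y)} {g : I → I → ℂ × Y → A} {D : Set ℂ} (hD : IsCompact D)
    {B : Set Y} (hB : IsCompact B) (h : HasFrame U g (D ×ˢ B)) : 
    ∃ u : Set ℂ, IsOpen u ∧ D ⊆ u ∧ HasFrame U g (u ×ˢ B) := by
  obtain ⟨W, hW, hKW, F, hF⟩ := h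
  obtain ⟨u, v, huo, hvo, hDu, hBv, huv⟩ := generalized_tube_lemma hD hB hW hKW
  exact ⟨u, huo, hDu, W, hW, (prod_mono Subset.rfl hBv).trans huv, F, hF⟩

theorem frame_rect (U : I → Set (ℂ × Y)) (hU : ∀ i, IsOpen (U i)) (g : I → I → ℂ × Y → A) 
    (a b c d : ℝ) (B : Set Y) (hB : IsCompact B) (hBc : Convex ℝ B) 
    (hcov : (Icc a b ×ℂ Icc c d) ×ˢ B ⊆ ⋃ i, U i) 
    (h : ∀ p ∈ Icc a b ×ℂ Icc c d, HasFrame U g ({p} ×ˢ B)) :
    HasFrame U g ((Icc a b ×ℂ Icc c d) ×ˢ B) := by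
  have hempty : HasFrame U g ∅ := ⟨∅, isOpen_empty, Subset.rfl, fun _ _ => 1, 
    ⟨fun i => differentiableOn_const _, fun i z hz => isUnit_one, fun i j z hz => absurd hz (notMem_empty z)⟩⟩
  rcases lt_or_ge b a with hab | hab
  · rw [rect_empty1 a b c d hab, empty_prod]; exact hempty
  rcases lt_or_ge d c with hcd | hcd
  · rw [rect_empty2 a b c d hcd, empty_prod]; exact hempty
  -- vertical segments
  have hv : ∀ x ∈ Icc a b, HasFrame U g (({x} ×ℂ Icc c d) ×ˢ B) := by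
    intro x hx
    refine interval_induction (fun s t => HasFrame U g (({x} ×ℂ Icc s t) ×ˢ B)) c d hcd ?_ ?_
    · intro y hy
      obtain ⟨u, huo, hDu, hu⟩ := (h ⟨x, y⟩ ⟨hx, hy⟩).nhd isCompact_singleton hB
      obtain ⟨ε, hε, hεu⟩ := Metric.isOpen_iff.1 huo ⟨x, y⟩ (hDu rfl)
      refine ⟨ε / 2, by positivity, fun s t h1 h2 h3 => hu.mono (prod_mono (fun z hz => hεu ?_) Subset.rfl)⟩
      rw [Complex.mem_reProdIm, mem_singleton_iff, mem_Icc] at hz
      rw [mem_ball, dist_eq_norm]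
      refine (Complex.norm_le_abs_re_add_abs_im _).trans_lt ?_
      simp only [Complex.sub_re, Complex.sub_im, hz.1, sub_self, abs_zero, zero_add]
      refine lt_of_le_of_lt (abs_le.2 ⟨?_, ?_⟩) (half_lt_self hε) <;> linarith [hz.2.1, hz.2.2]
    · intro u v w hsu huv hvw hwt h1 h2
      have hun : {x} ×ℂ Icc u w = ({x} ×ℂ Icc u v) ∪ ({x} ×ℂ Icc v w) := by
        ext z
        simp only [Complex.mem_reProdIm, mem_union, mem_singleton_iff, mem_Icc]
        constructor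
        · rintro ⟨h1, h2, h3⟩
          rcases le_total z.im v with h | h
          · exact Or.inl ⟨h1, h2, h⟩
          · exact Or.inr ⟨h1, h, h3⟩
        · rintro (⟨h1, h2, h3⟩ | ⟨h1, h2, h3⟩)
          · exact ⟨h1, h2, h3.trans hvw⟩
          · exact ⟨h1, huv.trans h2, h3⟩
      have hin : ({x} ×ℂ Icc u v) ∩ ({x} ×ℂ Icc v w) = Icc x x ×ℂ Icc v v := by
        ext z
        simp only [Complex.mem_reProdIm, mem_inter_iff, mem_singleton_iff, mem_Icc]
        constructor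
        · rintro ⟨⟨h1, h2, h3⟩, ⟨_, h4, h5⟩⟩
          exact ⟨⟨h1.ge, h1.le⟩, h4, h3⟩
        · rintro ⟨⟨h1, h2⟩, h3, h4⟩
          exact ⟨⟨le_antisymm h2 h1, huv.trans h3, h4⟩, le_antisymm h2 h1, h3, h4.trans hvw⟩
      rw [hun]
      refine glue U hU g _ _ (isCompact_singleton.reProdIm isCompact_Icc) 
        (isCompact_singleton.reProdIm isCompact_Icc) B hB hBc (by rw [hin]; exact fine_rect _ _ _ _) 
        (Subset.trans (prod_mono ?_ Subset.rfl) hcov) h1 h2
      intro z hz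
      rw [hin, Complex.mem_reProdIm, mem_Icc, mem_Icc] at hz
      rw [Complex.mem_reProdIm, mem_Icc, mem_Icc]
      exact ⟨⟨hx.1.trans hz.1.1, hz.1.2.trans hx.2⟩, (hsu.trans huv).trans hz.2.1, hz.2.2.trans (hvw.trans hwt)⟩
  refine interval_induction (fun s t => HasFrame U g ((Icc s t ×ℂ Icc c d) ×ˢ B)) a b hab ?_ ?_
  · intro x hx
    obtain ⟨u, huo, hDu, hu⟩ := (hv x hx).nhd (isCompact_singleton.reProdIm isCompact_Icc) hB
    have h1 : {x} ×ℂ Icc c d = Icc x x ×ℂ Icc c d := by rw [Icc_self]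
    rw [h1] at hDu
    obtain ⟨ε, hε, hεu⟩ := rect_enlarge x x c d le_rfl hcd u huo hDu
    refine ⟨ε, hε, fun s t h1 h2 h3 => hu.mono (prod_mono (fun z hz => hεu ε le_rfl ?_) Subset.rfl)⟩
    rw [Complex.mem_reProdIm, mem_Icc, mem_Icc] at hz ⊢
    refine ⟨⟨?_, ?_⟩, ?_, ?_⟩ <;> linarith [hz.1.1, hz.1.2, hz.2.1, hz.2.2]
  · intro u v w hsu huv hvw hwt h1 h2
    have hun : Icc u w ×ℂ Icc c d = (Icc u v ×ℂ Icc c d) ∪ (Icc v w ×ℂ Icc c d) := by
      ext z
      simp only [Complex.mem_reProdIm, mem_union, mem_Icc]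
      constructor
      · rintro ⟨⟨h1, h2⟩, h3⟩
        rcases le_total z.re v with h | h
        · exact Or.inl ⟨⟨h1, h⟩, h3⟩
        · exact Or.inr ⟨⟨h, h2⟩, h3⟩
      · rintro (⟨⟨h1, h2⟩, h3⟩ | ⟨⟨h1, h2⟩, h3⟩)
        · exact ⟨⟨h1, h2.trans hvw⟩, h3⟩
        · exact ⟨⟨huv.trans h1, h2⟩, h3⟩
    have hin : (Icc u v ×ℂ Icc c d) ∩ (Icc v w ×ℂ Icc c d) = Icc v v ×ℂ Icc c d := by
      ext z
      simp only [Complex.mem_reProdIm, mem_inter_iff, mem_Icc]
      constructor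
      · rintro ⟨⟨⟨h1, h2⟩, h3⟩, ⟨⟨h4, h5⟩, _⟩⟩
        exact ⟨⟨h4, h2⟩, h3⟩
      · rintro ⟨⟨h1, h2⟩, h3⟩
        exact ⟨⟨⟨huv.trans h1, h2⟩, h3⟩, ⟨h1, h2.trans hvw⟩, h3⟩
    rw [hun]
    refine glue U hU g _ _ (rect_isCompact _ _ _ _) (rect_isCompact _ _ _ _) B hB hBc 
      (by rw [hin]; exact fine_rect _ _ _ _) 
      (Subset.trans (prod_mono ?_ Subset.rfl) hcov) h1 h2
    intro z hz
    rw [hin, Complex.mem_reProdIm, mem_Icc, mem_Icc] at hz
    rw [Complex.mem_reProdIm, mem_Icc, mem_Icc]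
    exact ⟨⟨(hsu.trans huv).trans hz.1.1, hz.1.2.trans (hvw.trans hwt)⟩, hz.2⟩

/-- The square annulus. -/
def SqAnn (r R : ℝ) : Set ℂ := {z | |z.re| ≤ R ∧ |z.im| ≤ R ∧ (r ≤ |z.re| ∨ r ≤ |z.im|)}

theorem frame_annulus (U : I → Set (ℂ × Y)) (hU : ∀ i, IsOpen (U i)) (g : I → I → ℂ × Y → A) 
    (r R : ℝ) (hr : 0 < r) (hrR : r ≤ R) (B : Set Y) (hB : IsCompact B) (hBc : Convex ℝ B) 
    (hcov : SqAnn r R ×ˢ B ⊆ ⋃ i, U i) 
    (h : ∀ p ∈ SqAnn r R, HasFrame U g ({p} ×ˢ B)) :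
    HasFrame U g (SqAnn r R ×ˢ B) := by
  -- a rectangle inside the annulus
  have hrect : ∀ a b c d : ℝ, (Icc a b ×ℂ Icc c d) ⊆ SqAnn r R → HasFrame U g ((Icc a b ×ℂ Icc c d) ×ˢ B) := by
    intro a b c d hsub
    exact frame_rect U hU g a b c d B hB hBc ((prod_mono hsub Subset.rfl).trans hcov) 
      (fun p hp => h p (hsub hp))
  -- a half annulus: gluing three rectangles 
  have hhalf : ∀ a b a' b' : ℝ, (Icc a b ×ℂ Icc r R) ⊆ SqAnn r R → (Icc a b ×ℂ Icc (-R) (-r)) ⊆ SqAnn r R → 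
      (Icc a' b' ×ℂ Icc (-r) r) ⊆ SqAnn r R → Icc a' b' ⊆ Icc a b → 
      HasFrame U g ((((Icc a b ×ℂ Icc r R) ∪ (Icc a' b' ×ℂ Icc (-r) r)) ∪ (Icc a b ×ℂ Icc (-R) (-r))) ×ˢ B) := by
    intro a b a' b' h1 h2 h3 h4
    have hin1 : (Icc a b ×ℂ Icc r R) ∩ (Icc a' b' ×ℂ Icc (-r) r) = Icc a' b' ×ℂ Icc r r := by
      ext z
      simp only [Complex.mem_reProdIm, mem_inter_iff]
      constructor
      · rintro ⟨⟨e1, e2⟩, ⟨e3, e4⟩⟩
        exact ⟨e3, e2.1, e4.2⟩
      · rintro ⟨e1, e2, e3⟩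
        exact ⟨⟨h4 e1, e2, e3.trans hrR⟩, ⟨e1, by linarith, e3⟩⟩
    have hin2 : ((Icc a b ×ℂ Icc r R) ∪ (Icc a' b' ×ℂ Icc (-r) r)) ∩ (Icc a b ×ℂ Icc (-R) (-r)) = 
        Icc a' b' ×ℂ Icc (-r) (-r) := by
      ext z
      simp only [Complex.mem_reProdIm, mem_inter_iff, mem_union]
      constructor
      · rintro ⟨⟨e1, e2⟩ | ⟨e1, e2⟩, ⟨e3, e4⟩⟩
        · exact absurd (e2.1.trans e4.2) (by linarith)
        · exact ⟨e1, e2.1, e4.2⟩
      · rintro ⟨e1, e2, e3⟩
        exact ⟨Or.inr ⟨e1, e2, by linarith⟩, ⟨h4 e1, by linarith, e3⟩⟩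
    have hf1 : HasFrame U g (((Icc a b ×ℂ Icc r R) ∪ (Icc a' b' ×ℂ Icc (-r) r)) ×ˢ B) := by
      refine glue U hU g _ _ (rect_isCompact _ _ _ _) (rect_isCompact _ _ _ _) B hB hBc 
        (by rw [hin1]; exact fine_rect _ _ _ _) ?_ (hrect _ _ _ _ h1) (hrect _ _ _ _ h3)
      exact (prod_mono (inter_subset_left.trans h1) Subset.rfl).trans hcov
    refine glue U hU g _ _ ((rect_isCompact _ _ _ _).union (rect_isCompact _ _ _ _)) (rect_isCompact _ _ _ _) 
      B hB hBc (by rw [hin2]; exact fine_rect _ _ _ _) ?_ hf1 (hrect _ _ _ _ h2)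
    exact (prod_mono (inter_subset_right.trans h2) Subset.rfl).trans hcov
  have hright := hhalf 0 R r R ?_ ?_ ?_ ?_
  have hleft := hhalf (-R) 0 (-R) (-r) ?_ ?_ ?_ ?_
  · have hin : (((Icc 0 R ×ℂ Icc r R) ∪ (Icc r R ×ℂ Icc (-r) r)) ∪ (Icc 0 R ×ℂ Icc (-R) (-r))) ∩ 
        (((Icc (-R) 0 ×ℂ Icc r R) ∪ (Icc (-R) (-r) ×ℂ Icc (-r) r)) ∪ (Icc (-R) 0 ×ℂ Icc (-R) (-r))) = 
        (Icc 0 0 ×ℂ Icc (-R) (-r)) ∪ (Icc 0 0 ×ℂ Icc r R) := by
      ext z
      simp only [Complex.mem_reProdIm, mem_inter_iff, mem_union, mem_Icc]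
      constructor
      · rintro ⟨h1, h2⟩
        have h3 : 0 ≤ z.re := by
          rcases h1 with (h1 | h1) | h1 <;> linarith [h1.1.1]
        have h4 : z.re ≤ 0 := by
          rcases h2 with (h1 | h1) | h1 <;> linarith [h1.1.2]
        rcases h1 with (h1 | h1) | h1
        · exact Or.inr ⟨⟨h3, h4⟩, h1.2⟩
        · linarith [h1.1.1]
        · exact Or.inl ⟨⟨h3, h4⟩, h1.2⟩
      · rintro (⟨⟨h1, h2⟩, h3⟩ | ⟨⟨h1, h2⟩, h3⟩)
        · exact ⟨Or.inr ⟨⟨h1, by linarith⟩, h3⟩, Or.inr ⟨⟨by linarith, h2⟩, h3⟩⟩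
        · exact ⟨Or.inl (Or.inl ⟨⟨h1, by linarith⟩, h3⟩), Or.inl (Or.inl ⟨⟨by linarith, h2⟩, h3⟩)⟩
    have hcomp : ∀ a b a' b' : ℝ, IsCompact (((Icc a b ×ℂ Icc r R) ∪ (Icc a' b' ×ℂ Icc (-r) r)) ∪ (Icc a b ×ℂ Icc (-R) (-r))) := 
      fun a b a' b' => ((rect_isCompact _ _ _ _).union (rect_isCompact _ _ _ _)).union (rect_isCompact _ _ _ _)
    have := glue U hU g _ _ (hcomp _ _ _ _) (hcomp _ _ _ _) B hB hBc 
      (by rw [hin]; exact fine_rects _ _ _ _ _ _ (by linarith) (by linarith) (by linarith)) 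
      ?_ hright hleft
    · refine this.mono (prod_mono ?_ Subset.rfl)
      rintro z ⟨h1, h2, h3⟩
      simp only [mem_union, Complex.mem_reProdIm, mem_Icc]
      rw [abs_le] at h1 h2
      rcases le_total 0 z.re with hz | hz
      · left
        rcases lt_or_ge z.im r with h4 | h4
        · rcases lt_or_ge (-r) z.im with h5 | h5
          · have h6 : r ≤ z.re := by
              rcases h3 with h3 | h3
              · rwa [abs_of_nonneg hz] at h3
              · exact absurd (abs_lt.2 ⟨h5, h4⟩) (not_lt.2 h3)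
            exact Or.inl (Or.inr ⟨⟨h6, h1.2⟩, h5.le, h4.le⟩)
          · exact Or.inr ⟨⟨hz, h1.2⟩, h2.1, h5⟩
        · exact Or.inl (Or.inl ⟨⟨hz, h1.2⟩, h4, h2.2⟩)
      · right
        rcases lt_or_ge z.im r with h4 | h4
        · rcases lt_or_ge (-r) z.im with h5 | h5
          · have h6 : r ≤ -z.re := by
              rcases h3 with h3 | h3
              · rwa [abs_of_nonpos hz] at h3
              · exact absurd (abs_lt.2 ⟨h5, h4⟩) (not_lt.2 h3)
            exact Or.inl (Or.inr ⟨⟨h1.1, by linarith⟩, h5.le, h4.le⟩)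
          · exact Or.inr ⟨⟨h1.1, hz⟩, h2.1, h5⟩
        · exact Or.inl (Or.inl ⟨⟨h1.1, hz⟩, h4, h2.2⟩)
    · rw [hin]
      refine Subset.trans (prod_mono ?_ Subset.rfl) hcov
      intro z hz
      simp only [mem_union, Complex.mem_reProdIm, mem_Icc] at hz
      rcases hz with ⟨h1, h2⟩ | ⟨h1, h2⟩
      · refine ⟨abs_le.2 ⟨by linarith, by linarith⟩, abs_le.2 ⟨by linarith, by linarith⟩, Or.inr ?_⟩
        exact le_abs.2 (Or.inr (by linarith))
      · refine ⟨abs_le.2 ⟨by linarith, by linarith⟩, abs_le.2 ⟨by linarith, by linarith⟩, Or.inr ?_⟩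
        exact le_abs.2 (Or.inl (by linarith))
  all_goals
    intro z hz
    simp only [Complex.mem_reProdIm, mem_Icc] at hz
    first
    | (refine ⟨abs_le.2 ⟨by linarith, by linarith⟩, abs_le.2 ⟨by linarith, by linarith⟩, Or.inr ?_⟩
       exact le_abs.2 (Or.inl (by linarith)))
    | (refine ⟨abs_le.2 ⟨by linarith, by linarith⟩, abs_le.2 ⟨by linarith, by linarith⟩, Or.inr ?_⟩
       exact le_abs.2 (Or.inr (by linarith)))
    | (refine ⟨abs_le.2 ⟨by linarith, by linarith⟩, abs_le.2 ⟨by linarith, by linarith⟩, Or.inl ?_⟩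
       exact le_abs.2 (Or.inl (by linarith)))
    | (refine ⟨abs_le.2 ⟨by linarith, by linarith⟩, abs_le.2 ⟨by linarith, by linarith⟩, Or.inl ?_⟩
       exact le_abs.2 (Or.inr (by linarith)))
    | exact ⟨by linarith, by linarith⟩
end

end Pool.Agent.HP
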