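import Pool.Agent.HopfPinch.FramesB
set_option autoImplicit false
open Set Metric Filter Topology
open scoped Ring
namespace Pool.Agent.HP

/-- coordinates `(z_a, the other two)` -/
noncomputable def insL (a : Fin 3) : (ℂ × (Fin 2 → ℂ)) ≃L[ℂ] (Fin 3 → ℂ) :=
  LinearEquiv.toContinuousLinearEquiv
    { toFun := fun p => a.insertNth p.1 p.2
      invFun := fun z => (z a, fun j => z (a.succAbove j))
      left_inv := by
        rintro ⟨x, y⟩
        simp
      right_inv := by
        intro z
        exact Fin.insertNth_self_removeNth a z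
      map_add' := by
        intro p q
        ext j
        refine Fin.succAboveCases a ?_ (fun k => ?_) j
        · simp
        · simp
      map_smul' := by
        intro c p
        ext j
        refine Fin.succAboveCases a ?_ (fun k => ?_) j
        · simp
        · simp }

theorem insL_apply_same (a : Fin 3) (p : ℂ × (Fin 2 → ℂ)) : insL a p a = p.1 := by
  change (a.insertNth p.1 p.2 : Fin 3 → ℂ) a = p.1
  simp

theorem insL_apply_succAbove (a : Fin 3) (p : ℂ × (Fin 2 → ℂ)) (j : Fin 2) : 
    insL a p (a.succAbove j) = p.2 j := by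
  change (a.insertNth p.1 p.2 : Fin 3 → ℂ) (a.succAbove j) = p.2 j
  simp

theorem preimage_pi (a : Fin 3) (D : Fin 3 → Set ℂ) : 
    (insL a) ⁻¹' (Set.pi univ D) = D a ×ˢ Set.pi univ (fun j => D (a.succAbove j)) := by
  ext p
  simp only [mem_preimage, mem_univ_pi, mem_prod]
  constructor
  · intro h
    refine ⟨by simpa [insL_apply_same] using h a, fun j => by simpa [insL_apply_succAbove] using h (a.succAbove j)⟩
  · rintro ⟨h1, h2⟩ j
    refine Fin.succAboveCases a ?_ (fun k => ?_) j
    · rw [insL_apply_same]; exact h1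
    · rw [insL_apply_succAbove]; exact h2 k

section
variable {A : Type} [NormedRing A] [NormedAlgebra ℂ A] [FiniteDimensional ℂ A] {I : Type*}

theorem preimage_iUnion_cov (a : Fin 3) (U : I → Set (Fin 3 → ℂ)) (D : Fin 3 → Set ℂ) 
    (hcov : Set.pi univ D ⊆ ⋃ i, U i) : 
    D a ×ˢ Set.pi univ (fun j => D (a.succAbove j)) ⊆ ⋃ i, (insL a) ⁻¹' (U i) := by
  rw [← preimage_pi, ← preimage_iUnion]
  exact preimage_mono hcov

theorem preimage_pi_update (a : Fin 3) (D : Fin 3 → Set ℂ) (p : ℂ) : 
    (insL a) ⁻¹' (Set.pi univ (Function.update D a {p})) = {p} ×ˢ Set.pi univ (fun j => D (a.succAbove j)) := by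
  rw [preimage_pi, Function.update_self]
  congr 1
  ext q
  simp [Fin.succAbove_ne]

theorem step_rect (U : I → Set (Fin 3 → ℂ)) (hU : ∀ i, IsOpen (U i)) (g : I → I → (Fin 3 → ℂ) → A) 
    (a : Fin 3) (D : Fin 3 → Set ℂ) (hcov : Set.pi univ D ⊆ ⋃ i, U i) 
    (x y x' y' : ℝ) (hDa : D a = Icc x y ×ℂ Icc x' y') 
    (hDc : ∀ j : Fin 2, IsCompact (D (a.succAbove j))) (hDcv : ∀ j : Fin 2, Convex ℝ (D (a.succAbove j)))
    (h : ∀ p ∈ D a, HasFrame U g (Set.pi univ (Function.update D a {p}))) : 
    HasFrame U g (Set.pi univ D) := by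
  rw [HasFrame.transport (insL a), preimage_pi, hDa]
  refine frame_rect _ (fun i => (hU i).preimage (insL a).continuous) _ x y x' y' _ 
    (isCompact_univ_pi hDc) (convex_pi fun j _ => hDcv j) ?_ ?_
  · rw [← hDa]
    exact preimage_iUnion_cov a U D hcov
  · intro p hp
    have := h p (by rw [hDa]; exact hp)
    rw [HasFrame.transport (insL a), preimage_pi_update] at this
    exact this

theorem step_annulus (U : I → Set (Fin 3 → ℂ)) (hU : ∀ i, IsOpen (U i)) (g : I → I → (Fin 3 → ℂ) → A) 
    (a : Fin 3) (D : Fin 3 → Set ℂ) (hcov : Set.pi univ D ⊆ ⋃ i, U i) 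
    (r R : ℝ) (hr : 0 < r) (hrR : r ≤ R) (hDa : D a = SqAnn r R) 
    (hDc : ∀ j : Fin 2, IsCompact (D (a.succAbove j))) (hDcv : ∀ j : Fin 2, Convex ℝ (D (a.succAbove j)))
    (h : ∀ p ∈ D a, HasFrame U g (Set.pi univ (Function.update D a {p}))) : 
    HasFrame U g (Set.pi univ D) := by
  rw [HasFrame.transport (insL a), preimage_pi, hDa]
  refine frame_annulus _ (fun i => (hU i).preimage (insL a).continuous) _ r R hr hrR _ 
    (isCompact_univ_pi hDc) (convex_pi fun j _ => hDcv j) ?_ ?_
  · rw [← hDa]
    exact preimage_iUnion_cov a U D hcov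
  · intro p hp
    have := h p (by rw [hDa]; exact hp)
    rw [HasFrame.transport (insL a), preimage_pi_update] at this
    exact this

/-- a closed rectangle -/
def IsRect (S : Set ℂ) : Prop := ∃ a b c d : ℝ, S = Icc a b ×ℂ Icc c d

theorem IsRect.isCompact {S : Set ℂ} (h : IsRect S) : IsCompact S := by
  obtain ⟨a, b, c, d, rfl⟩ := h
  exact rect_isCompact a b c d

theorem IsRect.convex {S : Set ℂ} (h : IsRect S) : Convex ℝ S := by
  obtain ⟨a, b, c, d, rfl⟩ := h
  exact rect_convex a b c d

theorem isRect_singleton (p : ℂ) : IsRect {p} := by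
  refine ⟨p.re, p.re, p.im, p.im, ?_⟩
  ext z
  simp [Complex.mem_reProdIm, Complex.ext_iff]

/-- frames near closed boxes (products of rectangles) -/
theorem frame_box (U : I → Set (Fin 3 → ℂ)) (hU : ∀ i, IsOpen (U i)) (g : I → I → (Fin 3 → ℂ) → A) 
    (hpt : ∀ z ∈ ⋃ i, U i, HasFrame U g {z}) (D : Fin 3 → Set ℂ) (hcov : Set.pi univ D ⊆ ⋃ i, U i) 
    (hD : ∀ j, IsRect (D j)) : HasFrame U g (Set.pi univ D) := by
  -- induction over the set of non-degenerate coordinates
  have key : ∀ s : Finset (Fin 3), ∀ D : Fin 3 → Set ℂ, Set.pi univ D ⊆ ⋃ i, U i → 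
      (∀ j, IsRect (D j)) → (∀ j ∉ s, ∃ p, D j = {p}) → HasFrame U g (Set.pi univ D) := by
    intro s
    induction s using Finset.induction_on with
    | empty => 
      intro D hcov hD hs
      choose p hp using fun j => hs j (Finset.notMem_empty j)
      have h1 : Set.pi univ D = {p} := by
        ext z
        simp [hp, funext_iff]
      rw [h1] at hcov ⊢
      exact hpt p (hcov rfl)
    | insert a s ha ih =>
      intro D hcov hD hs
      obtain ⟨x, y, x', y', hxy⟩ := hD a
      refine step_rect U hU g a D hcov x y x' y' hxy (fun j => (hD _).isCompact) 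
        (fun j => (hD _).convex) (fun p hp => ih _ ?_ ?_ ?_)
      · refine Subset.trans (fun z hz => ?_) hcov
        rw [mem_univ_pi] at hz ⊢
        intro j
        have := hz j
        by_cases hj : j = a
        · subst hj
          rw [Function.update_self, mem_singleton_iff] at this
          rw [this]; exact hp
        · rwa [Function.update_of_ne hj] at this
      · intro j
        by_cases hj : j = a
        · subst hj
          rw [Function.update_self]
          exact isRect_singleton p
        · rw [Function.update_of_ne hj]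
          exact hD j
      · intro j hj
        by_cases hja : j = a
        · subst hja
          rw [Function.update_self]
          exact ⟨p, rfl⟩
        · rw [Function.update_of_ne hja]
          exact hs j (by simp [hja, hj])
  exact key Finset.univ D hcov hD (fun j hj => absurd (Finset.mem_univ j) hj)

theorem frame_shell (U : I → Set (Fin 3 → ℂ)) (hU : ∀ i, IsOpen (U i)) (g : I → I → (Fin 3 → ℂ) → A) 
    (hpt : ∀ z ∈ ⋃ i, U i, HasFrame U g {z}) (a : Fin 3) (D : Fin 3 → Set ℂ) (hcov : Set.pi univ D ⊆ ⋃ i, U i) 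
    (r R : ℝ) (hr : 0 < r) (hrR : r ≤ R) (hDa : D a = SqAnn r R) 
    (hD : ∀ j : Fin 2, IsRect (D (a.succAbove j))) : HasFrame U g (Set.pi univ D) := by
  refine step_annulus U hU g a D hcov r R hr hrR hDa (fun j => (hD j).isCompact) (fun j => (hD j).convex) 
    (fun p hp => frame_box U hU g hpt _ ?_ ?_)
  · refine Subset.trans (fun z hz => ?_) hcov
    rw [mem_univ_pi] at hz ⊢
    intro j
    have := hz j
    by_cases hj : j = a
    · subst hj
      rw [Function.update_self, mem_singleton_iff] at this
      rw [this]; exact hp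
    · rwa [Function.update_of_ne hj] at this
  · intro j
    refine Fin.succAboveCases a ?_ (fun k => ?_) j
    · rw [Function.update_self]
      exact isRect_singleton p
    · rw [Function.update_of_ne (Fin.succAbove_ne a k)]
      exact hD k

end

end Pool.Agent.HP
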