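import Pool.Agent.HopfPinch.Hopf0

set_option autoImplicit false

open Set Filter Topology Metric
open scoped Manifold

namespace Pool.Agent.HopfPinch

lemma pr_of_ne {z : C3} (hz : z ≠ 0) : pr z = Quotient.mk _ (⟨z, hz⟩ : C3s) := dif_pos hz

lemma pr_surj (x : HX) : ∃ z : C3, z ≠ 0 ∧ pr z = x := by
  induction x using Quotient.inductionOn with
  | h z => exact ⟨z.1, z.2, pr_of_ne z.2⟩

lemma pr_eq_iff' {z w : C3} (hz : z ≠ 0) (hw : w ≠ 0) :
    pr z = pr w ↔ ∃ k : ℤ, w = (2 : ℂ) ^ k • z := by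
  rw [pr_of_ne hz, pr_of_ne hw]
  constructor
  · intro h
    have h2 : MulAction.orbitRel (Multiplicative ℤ) C3s ⟨z, hz⟩ ⟨w, hw⟩ := Quotient.exact h
    rw [MulAction.orbitRel_apply, MulAction.mem_orbit_iff] at h2
    obtain ⟨g, hg⟩ := h2
    have h3 : (2 : ℂ) ^ (Multiplicative.toAdd g) • w = z := congrArg Subtype.val hg
    refine ⟨-(Multiplicative.toAdd g), ?_⟩
    rw [← h3, smul_smul, ← zpow_add₀ two_ne_zero, neg_add_cancel, zpow_zero, one_smul]
  · rintro ⟨k, rfl⟩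
    apply Quotient.sound
    show MulAction.orbitRel (Multiplicative ℤ) C3s ⟨z, hz⟩ ⟨(2 : ℂ) ^ k • z, hw⟩
    rw [MulAction.orbitRel_apply, MulAction.mem_orbit_iff]
    refine ⟨Multiplicative.ofAdd (-k), ?_⟩
    apply Subtype.ext
    show (2 : ℂ) ^ (-k) • ((2 : ℂ) ^ k • z) = z
    rw [smul_smul, ← zpow_add₀ two_ne_zero, neg_add_cancel, zpow_zero, one_smul]

lemma pr_smul {z : C3} (hz : z ≠ 0) (k : ℤ) : pr ((2 : ℂ) ^ k • z) = pr z :=
  ((pr_eq_iff' hz (smul_ne_zero (zpow_ne_zero _ two_ne_zero) hz)).2 ⟨k, rfl⟩).symm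

lemma pr_eq_iff {z w : C3} (hz : z ≠ 0) (hw : w ≠ 0) :
    pr z = pr w ↔ ∃ k : ℤ, w = (2 : ℂ) ^ k • z := pr_eq_iff' hz hw

lemma pr_comp_val : pr ∘ (Subtype.val : C3s → C3) =
    (Quotient.mk (MulAction.orbitRel (Multiplicative ℤ) C3s) : C3s → HX) :=
  funext fun y => pr_of_ne y.2

lemma continuous_mk : Continuous
    (Quotient.mk (MulAction.orbitRel (Multiplicative ℤ) C3s) : C3s → HX) :=
  continuous_quot_mk

lemma isOpen_C3s : IsOpen {z : C3 | z ≠ 0} := isOpen_ne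

lemma pr_continuousAt {z : C3} (hz : z ≠ 0) : ContinuousAt pr z := by
  have h := (isOpen_C3s.isOpenEmbedding_subtypeVal.continuousAt_iff (x := (⟨z, hz⟩ : C3s))
    (g := pr)).1
  have h2 : ContinuousAt (pr ∘ (Subtype.val : C3s → C3)) ⟨z, hz⟩ := by
    rw [pr_comp_val]
    exact continuous_mk.continuousAt
  exact h h2

instance : ContinuousConstSMul (Multiplicative ℤ) C3s where
  continuous_const_smul k := by
    apply Continuous.subtype_mk
    exact (continuous_const_smul ((2 : ℂ) ^ (Multiplicative.toAdd k))).comp continuous_subtype_val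

lemma isOpenMap_mk : IsOpenMap
    (Quotient.mk (MulAction.orbitRel (Multiplicative ℤ) C3s) : C3s → HX) :=
  isOpenMap_quotient_mk'_mul

lemma pr_map_nhds {z : C3} (hz : z ≠ 0) : map pr (𝓝 z) = 𝓝 (pr z) := by
  have h1 : map (Subtype.val : C3s → C3) (𝓝 (⟨z, hz⟩ : C3s)) = 𝓝 z :=
    map_nhds_subtype_coe_eq_nhds (p := fun z : C3 => z ≠ 0) hz (isOpen_C3s.mem_nhds hz)
  rw [← h1, Filter.map_map, pr_comp_val, pr_of_ne hz]
  exact le_antisymm (continuous_mk.tendsto _) (isOpenMap_mk.nhds_le _)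

lemma norm_two_zpow_smul (k : ℤ) (z : C3) : ‖(2 : ℂ) ^ k • z‖ = (2 : ℝ) ^ k * ‖z‖ := by
  rw [norm_smul, norm_zpow]
  simp

instance : ProperlyDiscontinuousSMul (Multiplicative ℤ) C3s where
  finite_disjoint_inter_image := by
    intro K L hK hL
    have hc : Continuous (fun z : C3s => ‖z.1‖) := continuous_norm.comp continuous_subtype_val
    have hpos : ∀ z : C3s, 0 < ‖z.1‖ := fun z => norm_pos_iff.2 z.2
    have hc2 : Continuous (fun z : C3s => ‖z.1‖⁻¹) := hc.inv₀ (fun z => (hpos z).ne')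
    obtain ⟨B, hB⟩ := (hK.union hL).exists_bound_of_continuousOn hc.continuousOn
    obtain ⟨C, hC⟩ := (hK.union hL).exists_bound_of_continuousOn hc2.continuousOn
    obtain ⟨n, hn⟩ := pow_unbounded_of_one_lt (B * C) (one_lt_two (α := ℝ))
    have hfin : (Multiplicative.toAdd ⁻¹' (Icc (-(n : ℤ)) n) : Set (Multiplicative ℤ)).Finite :=
      (Set.finite_Icc (-(n : ℤ)) n).preimage Multiplicative.toAdd.injective.injOn
    refine hfin.subset ?_
    intro g hg
    obtain ⟨w, ⟨z, hzK, rfl⟩, hwL⟩ := hg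
    set k : ℤ := Multiplicative.toAdd g with hk
    have hval : ((fun x => g • x) z).1 = (2 : ℂ) ^ k • z.1 := rfl
    have hnorm : ‖((fun x => g • x) z).1‖ = (2 : ℝ) ^ k * ‖z.1‖ := by
      rw [hval, norm_two_zpow_smul]
    have b1 := hB z (Or.inl hzK)
    have b2 := hB _ (Or.inr hwL)
    have c1 := hC z (Or.inl hzK)
    have c2 := hC _ (Or.inr hwL)
    rw [Real.norm_of_nonneg (norm_nonneg _)] at b1 b2
    rw [Real.norm_of_nonneg (inv_nonneg.2 (norm_nonneg _))] at c1 c2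
    have hB0 : 0 ≤ B := (norm_nonneg _).trans b1
    have hz0 := hpos z
    have h2k : (0 : ℝ) < 2 ^ k := zpow_pos two_pos k
    have e1 : (2 : ℝ) ^ k ≤ B * C := by
      calc (2 : ℝ) ^ k = ‖((fun x => g • x) z).1‖ * ‖z.1‖⁻¹ := by
            rw [hnorm, mul_assoc, mul_inv_cancel₀ hz0.ne', mul_one]
        _ ≤ B * C := mul_le_mul b2 c1 (inv_nonneg.2 hz0.le) hB0
    have e2 : (2 : ℝ) ^ (-k) ≤ B * C := by
      calc (2 : ℝ) ^ (-k) = ‖z.1‖ * ‖((fun x => g • x) z).1‖⁻¹ := by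
            rw [hnorm, mul_inv, mul_comm ((2 : ℝ) ^ k)⁻¹, ← mul_assoc, mul_inv_cancel₀ hz0.ne',
              one_mul, zpow_neg]
        _ ≤ B * C := mul_le_mul b1 c2 (inv_nonneg.2 (norm_nonneg _)) hB0
    have e3 : k < n := by
      have : (2 : ℝ) ^ k < (2 : ℝ) ^ (n : ℤ) := by rw [zpow_natCast]; exact lt_of_le_of_lt e1 hn
      exact (zpow_lt_zpow_iff_right₀ one_lt_two).1 this
    have e4 : -k < n := by
      have : (2 : ℝ) ^ (-k) < (2 : ℝ) ^ (n : ℤ) := by
        rw [zpow_natCast]; exact lt_of_le_of_lt e2 hn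
      exact (zpow_lt_zpow_iff_right₀ one_lt_two).1 this
    show k ∈ Icc (-(n : ℤ)) n
    exact ⟨by omega, by omega⟩

instance : LocallyCompactSpace C3s := isOpen_C3s.locallyCompactSpace

instance HX_t2 : T2Space HX :=
  inferInstanceAs (T2Space (Quotient (MulAction.orbitRel (Multiplicative ℤ) C3s)))

instance HX_compact : CompactSpace HX := by
  have hK : IsCompact {z : C3 | 1 ≤ ‖z‖ ∧ ‖z‖ ≤ 2} := by
    apply Metric.isCompact_of_isClosed_isBounded
    · exact (isClosed_le continuous_const continuous_norm).inter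
        (isClosed_le continuous_norm continuous_const)
    · rw [Metric.isBounded_iff_subset_closedBall 0]
      exact ⟨2, fun z hz => mem_closedBall_zero_iff.2 hz.2⟩
  have hpr : ContinuousOn pr {z : C3 | 1 ≤ ‖z‖ ∧ ‖z‖ ≤ 2} := by
    intro z hz
    apply (pr_continuousAt _).continuousWithinAt
    intro h0
    have := hz.1
    rw [h0, norm_zero] at this
    linarith
  refine ⟨?_⟩
  have : (univ : Set HX) = pr '' {z : C3 | 1 ≤ ‖z‖ ∧ ‖z‖ ≤ 2} := by
    apply (eq_univ_of_forall _).symm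
    intro x
    obtain ⟨z, hz, rfl⟩ := pr_surj x
    obtain ⟨n, hn1, hn2⟩ := exists_mem_Ico_zpow (norm_pos_iff.2 hz) (one_lt_two (α := ℝ))
    refine ⟨(2 : ℂ) ^ (-n) • z, ⟨?_, ?_⟩, pr_smul hz _⟩
    · rw [norm_two_zpow_smul, zpow_neg]
      have h2 : (0 : ℝ) < 2 ^ n := zpow_pos two_pos n
      rw [← inv_mul_cancel₀ h2.ne']
      exact mul_le_mul_of_nonneg_left hn1 (inv_nonneg.2 h2.le)
    · rw [norm_two_zpow_smul, zpow_neg]
      have h2 : (0 : ℝ) < 2 ^ n := zpow_pos two_pos n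
      rw [zpow_add₀ two_ne_zero, zpow_one] at hn2
      calc ((2 : ℝ) ^ n)⁻¹ * ‖z‖ ≤ ((2 : ℝ) ^ n)⁻¹ * (2 ^ n * 2) :=
            mul_le_mul_of_nonneg_left hn2.le (inv_nonneg.2 h2.le)
        _ = 2 := by rw [← mul_assoc, inv_mul_cancel₀ h2.ne', one_mul]
  rw [this]
  exact hK.image_of_continuousOn hpr

end Pool.Agent.HopfPinch
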