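import Pool.Agent.HopfPinch.Spaces

set_option autoImplicit false

open Set Filter Topology Metric
open scoped Manifold

namespace Pool.Agent.HopfPinch

/-! ## The pinched Hopf threefold -/

/-- `ℂ³` -/
abbrev C3 := Fin 3 → ℂ

/-- `ℂ³ ∖ 0` -/
abbrev C3s := {z : C3 // z ≠ 0}

/-- the group `ℤ` acts on `ℂ³ ∖ 0` by `k • z = 2 ^ k z` -/
noncomputable instance : MulAction (Multiplicative ℤ) C3s where
  smul k z := ⟨(2 : ℂ) ^ (Multiplicative.toAdd k) • z.1,
    smul_ne_zero (zpow_ne_zero _ two_ne_zero) z.2⟩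
  one_smul z := by
    apply Subtype.ext
    change (2 : ℂ) ^ (Multiplicative.toAdd (1 : Multiplicative ℤ)) • z.1 = z.1
    simp
  mul_smul k l z := by
    apply Subtype.ext
    change (2 : ℂ) ^ (Multiplicative.toAdd (k * l)) • z.1 =
      (2 : ℂ) ^ (Multiplicative.toAdd k) • ((2 : ℂ) ^ (Multiplicative.toAdd l) • z.1)
    rw [toAdd_mul, zpow_add₀ two_ne_zero, mul_smul]

/-- the Hopf threefold `(ℂ³ ∖ 0) / (z ∼ 2 z)` as a topological space -/
def HX : Type := Quotient (MulAction.orbitRel (Multiplicative ℤ) C3s)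

instance : TopologicalSpace HX :=
  inferInstanceAs (TopologicalSpace (Quotient (MulAction.orbitRel (Multiplicative ℤ) C3s)))

/-- the first unit vector -/
noncomputable def e1 : C3 := Pi.single 0 1

lemma e1_ne : e1 ≠ 0 := by
  intro h
  have := congrFun h 0
  simp [e1] at this

/-- the projection `ℂ³ ∖ 0 → HX` (with a junk value at `0`) -/
noncomputable def pr (z : C3) : HX :=
  open Classical in
  if h : z ≠ 0 then Quotient.mk _ (⟨z, h⟩ : C3s) else Quotient.mk _ (⟨e1, e1_ne⟩ : C3s)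

/-- the orbit of `e1` -/
def orb : Set C3 := {z | ∃ k : ℤ, z = (2 : ℂ) ^ k • e1}

/-- germs at `x` of the pinched structure sheaf: holomorphic functions on the Hopf threefold whose
derivative in the direction `e1` vanishes at the point `pr e1` -/
def PHol (x : HX) (f : HX → ℂ) : Prop :=
  ∀ z : C3, z ≠ 0 → pr z = x → (∀ᶠ w in 𝓝 z, DifferentiableAt ℂ (f ∘ pr) w) ∧
    (z ∈ orb → fderiv ℂ (f ∘ pr) z e1 = 0)

end Pool.Agent.HopfPinch
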