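import Pool.Agent.HopfPinch.GLib
import Pool.Agent.HopfPinch.Hopf0

set_option autoImplicit false

open Set Filter Topology Metric
open scoped Manifold

namespace Pool.Agent.HopfPinch


section Data

variable {N : ℕ} {M : Type*} [TopologicalSpace M] [ChartedSpace (Fin N → ℂ) M]

/-- the open sets -/
def dU (N : ℕ) (Φ : C3 → M) [ChartedSpace (Fin N → ℂ) M] (q : M) : Set C3 :=
  {z | z ≠ 0 ∧ Φ z ∈ (chartAt (Fin N → ℂ) q).source}

/-- the map in a chart -/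
noncomputable def dφ (N : ℕ) (Φ : C3 → M) [ChartedSpace (Fin N → ℂ) M] (q : M) (z : C3) : Fin N → ℂ :=
  chartAt (Fin N → ℂ) q (Φ z)

/-- the section -/
noncomputable def ds (N : ℕ) (Φ : C3 → M) [ChartedSpace (Fin N → ℂ) M] (q : M) (z : C3) : Fin N → ℂ :=
  fderiv ℂ (dφ N Φ q) z e1

/-- the transition functions -/
noncomputable def dg (N : ℕ) (Φ : C3 → M) [ChartedSpace (Fin N → ℂ) M] (q r : M) (z : C3) :
    (Fin N → ℂ) →L[ℂ] (Fin N → ℂ) :=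
  fderiv ℂ ((chartAt (Fin N → ℂ) q) ∘ (chartAt (Fin N → ℂ) r).symm) (dφ N Φ r z)

variable {Φ : C3 → M} (hc : ∀ z : C3, z ≠ 0 → ContinuousAt Φ z)
  (hp : ∀ z : C3, z ≠ 0 → ∀ F : M → ℂ,
    (∀ᶠ y in 𝓝 (Φ z), MDifferentiableAt 𝓘(ℂ, Fin N → ℂ) 𝓘(ℂ, ℂ) F y) →
    (∀ᶠ w in 𝓝 z, DifferentiableAt ℂ (fun w => F (Φ w)) w) ∧
      (z ∈ orb → fderiv ℂ (fun w => F (Φ w)) z e1 = 0))

include hc in
lemma dU_open (q : M) : IsOpen (dU N Φ q) := by
  rw [isOpen_iff_mem_nhds]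
  rintro z ⟨hz, hs⟩
  have h1 : ∀ᶠ w in 𝓝 z, w ≠ 0 := isOpen_ne.mem_nhds hz
  have h2 : ∀ᶠ w in 𝓝 z, Φ w ∈ (chartAt (Fin N → ℂ) q).source :=
    (hc z hz).eventually ((chartAt (Fin N → ℂ) q).open_source.mem_nhds hs)
  filter_upwards [h1, h2] with w a b using ⟨a, b⟩

section
variable [IsManifold 𝓘(ℂ, Fin N → ℂ) 1 M]

/-- chart components are holomorphic -/
lemma j10_comp (q y : M) (hy : y ∈ (chartAt (Fin N → ℂ) q).source) (j : Fin N) :
    MDifferentiableAt 𝓘(ℂ, Fin N → ℂ) 𝓘(ℂ, ℂ) (fun y => chartAt (Fin N → ℂ) q y j) y := by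
  have h1 : MDifferentiableAt 𝓘(ℂ, Fin N → ℂ) 𝓘(ℂ, Fin N → ℂ) (chartAt (Fin N → ℂ) q) y :=
    mdifferentiableAt_atlas (chart_mem_atlas _ q) hy
  have h2 : MDifferentiableAt 𝓘(ℂ, Fin N → ℂ) 𝓘(ℂ, ℂ)
      (ContinuousLinearMap.proj (R := ℂ) (φ := fun _ : Fin N => ℂ) j) (chartAt (Fin N → ℂ) q y) :=
    (ContinuousLinearMap.differentiableAt _).mdifferentiableAt
  exact MDifferentiableAt.comp y h2 h1

/-- transition maps are holomorphic -/
lemma j10_trans (q r : M) (x : Fin N → ℂ)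
    (hx : x ∈ (chartAt (Fin N → ℂ) r).target ∩
      (chartAt (Fin N → ℂ) r).symm ⁻¹' (chartAt (Fin N → ℂ) q).source) :
    DifferentiableAt ℂ ((chartAt (Fin N → ℂ) q) ∘ (chartAt (Fin N → ℂ) r).symm) x := by
  rw [← mdifferentiableAt_iff_differentiableAt]
  have h1 : MDifferentiableAt 𝓘(ℂ, Fin N → ℂ) 𝓘(ℂ, Fin N → ℂ) (chartAt (Fin N → ℂ) r).symm x :=
    mdifferentiableAt_atlas_symm (chart_mem_atlas _ r) hx.1
  have h2 : MDifferentiableAt 𝓘(ℂ, Fin N → ℂ) 𝓘(ℂ, Fin N → ℂ) (chartAt (Fin N → ℂ) q)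
      ((chartAt (Fin N → ℂ) r).symm x) :=
    mdifferentiableAt_atlas (chart_mem_atlas _ q) hx.2
  exact MDifferentiableAt.comp x h2 h1

omit [IsManifold 𝓘(ℂ, Fin N → ℂ) 1 M] in
lemma j10_mem (q r : M) (z : C3) (hz : z ∈ dU N Φ q ∩ dU N Φ r) :
    dφ N Φ r z ∈ (chartAt (Fin N → ℂ) r).target ∩
      (chartAt (Fin N → ℂ) r).symm ⁻¹' (chartAt (Fin N → ℂ) q).source := by
  refine ⟨(chartAt (Fin N → ℂ) r).map_source hz.2.2, ?_⟩
  rw [mem_preimage, dφ, (chartAt (Fin N → ℂ) r).left_inv hz.2.2]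
  exact hz.1.2

include hc hp in
lemma dφ_diff (q : M) : DifferentiableOn ℂ (dφ N Φ q) (dU N Φ q) := by
  intro z hz
  refine DifferentiableAt.differentiableWithinAt (differentiableAt_pi.2 fun j => ?_)
  have h1 : ∀ᶠ y in 𝓝 (Φ z), MDifferentiableAt 𝓘(ℂ, Fin N → ℂ) 𝓘(ℂ, ℂ)
      (fun y => chartAt (Fin N → ℂ) q y j) y := by
    filter_upwards [(chartAt (Fin N → ℂ) q).open_source.mem_nhds hz.2] with y hy
    exact j10_comp q y hy j
  exact (hp z hz.1 _ h1).1.self_of_nhds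

include hc hp in
lemma j10_dφ_at (q : M) (z : C3) (hz : z ∈ dU N Φ q) : DifferentiableAt ℂ (dφ N Φ q) z :=
  (dφ_diff hc hp q).differentiableAt ((dU_open hc q).mem_nhds hz)

include hc hp in
lemma ds_diff (q : M) : DifferentiableOn ℂ (ds N Φ q) (dU N Φ q) := by
  have h1 : ContDiffOn ℂ (2 : ℕ) (dφ N Φ q) (dU N Φ q) :=
    contDiffOn_of_differentiableOn (dU_open hc q) (dφ_diff hc hp q) 2
  have h2 : ContDiffOn ℂ (1 : ℕ) (fderiv ℂ (dφ N Φ q)) (dU N Φ q) :=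
    h1.fderiv_of_isOpen (dU_open hc q) (by norm_num)
  have h3 : DifferentiableOn ℂ (fderiv ℂ (dφ N Φ q)) (dU N Φ q) :=
    h2.differentiableOn (by norm_num)
  exact h3.clm_apply (differentiableOn_const e1)

include hc hp in
lemma dg_diff (q r : M) : DifferentiableOn ℂ (dg N Φ q r) (dU N Φ q ∩ dU N Φ r) := by
  set O : Set (Fin N → ℂ) := (chartAt (Fin N → ℂ) r).target ∩
      (chartAt (Fin N → ℂ) r).symm ⁻¹' (chartAt (Fin N → ℂ) q).source with hO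
  have hOo : IsOpen O :=
    (chartAt (Fin N → ℂ) r).isOpen_inter_preimage_symm (chartAt (Fin N → ℂ) q).open_source
  have hT : DifferentiableOn ℂ ((chartAt (Fin N → ℂ) q) ∘ (chartAt (Fin N → ℂ) r).symm) O :=
    fun x hx => (j10_trans q r x hx).differentiableWithinAt
  have h1 := contDiffOn_of_differentiableOn hOo hT 2
  have h2 : ContDiffOn ℂ (1 : ℕ)
      (fderiv ℂ ((chartAt (Fin N → ℂ) q) ∘ (chartAt (Fin N → ℂ) r).symm)) O :=
    h1.fderiv_of_isOpen hOo (by norm_num)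
  have h3 := h2.differentiableOn (by norm_num)
  have h4 : DifferentiableOn ℂ (dφ N Φ r) (dU N Φ q ∩ dU N Φ r) :=
    (dφ_diff hc hp r).mono inter_subset_right
  exact h3.comp h4 fun z hz => j10_mem q r z hz

lemma dg_one (q : M) (z : C3) (hz : z ∈ dU N Φ q) : dg N Φ q q z = 1 := by
  have h : ((chartAt (Fin N → ℂ) q) ∘ (chartAt (Fin N → ℂ) q).symm) =ᶠ[𝓝 (dφ N Φ q z)] id := by
    filter_upwards [(chartAt (Fin N → ℂ) q).open_target.mem_nhds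
      ((chartAt (Fin N → ℂ) q).map_source hz.2)] with y hy
    exact (chartAt (Fin N → ℂ) q).right_inv hy
  rw [dg, h.fderiv_eq, fderiv_id]
  rfl

lemma dg_mul (q r t : M) (z : C3) (hz : z ∈ dU N Φ q ∩ dU N Φ r ∩ dU N Φ t) :
    dg N Φ q r z * dg N Φ r t z = dg N Φ q t z := by
  have hm := j10_mem r t z ⟨hz.1.2, hz.2⟩
  have hOo : IsOpen ((chartAt (Fin N → ℂ) t).target ∩
      (chartAt (Fin N → ℂ) t).symm ⁻¹' (chartAt (Fin N → ℂ) r).source) :=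
    (chartAt (Fin N → ℂ) t).isOpen_inter_preimage_symm (chartAt (Fin N → ℂ) r).open_source
  have h : ((chartAt (Fin N → ℂ) q) ∘ (chartAt (Fin N → ℂ) t).symm) =ᶠ[𝓝 (dφ N Φ t z)]
      (((chartAt (Fin N → ℂ) q) ∘ (chartAt (Fin N → ℂ) r).symm) ∘
        ((chartAt (Fin N → ℂ) r) ∘ (chartAt (Fin N → ℂ) t).symm)) := by
    filter_upwards [hOo.mem_nhds hm] with y hy
    simp only [Function.comp_apply]
    rw [(chartAt (Fin N → ℂ) r).left_inv hy.2]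
  have hval : ((chartAt (Fin N → ℂ) r) ∘ (chartAt (Fin N → ℂ) t).symm) (dφ N Φ t z) =
      dφ N Φ r z := by
    simp only [Function.comp_apply, dφ]
    rw [(chartAt (Fin N → ℂ) t).left_inv hz.2.2]
  have hd1 : DifferentiableAt ℂ ((chartAt (Fin N → ℂ) q) ∘ (chartAt (Fin N → ℂ) r).symm)
      (((chartAt (Fin N → ℂ) r) ∘ (chartAt (Fin N → ℂ) t).symm) (dφ N Φ t z)) := by
    rw [hval]
    exact j10_trans q r _ (j10_mem q r z hz.1)
  have hd2 := j10_trans r t _ hm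
  rw [dg, dg, dg, h.fderiv_eq, fderiv_comp _ hd1 hd2, hval]
  rfl

include hc hp in
lemma ds_trans (q r : M) (z : C3) (hz : z ∈ dU N Φ q ∩ dU N Φ r) :
    ds N Φ q z = dg N Φ q r z (ds N Φ r z) := by
  have h : dφ N Φ q =ᶠ[𝓝 z]
      (((chartAt (Fin N → ℂ) q) ∘ (chartAt (Fin N → ℂ) r).symm) ∘ dφ N Φ r) := by
    filter_upwards [(dU_open hc r).mem_nhds hz.2] with w hw
    simp only [Function.comp_apply, dφ]
    rw [(chartAt (Fin N → ℂ) r).left_inv hw.2]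
  rw [ds, ds, dg, h.fderiv_eq, fderiv_comp _ (j10_trans q r _ (j10_mem q r z hz))
    (j10_dφ_at hc hp r z hz.2)]
  rfl

include hc hp in
lemma ds_zero (q : M) (z : C3) (hz : z ∈ dU N Φ q) (ho : z ∈ orb) : ds N Φ q z = 0 := by
  funext j
  have h1 : ∀ᶠ y in 𝓝 (Φ z), MDifferentiableAt 𝓘(ℂ, Fin N → ℂ) 𝓘(ℂ, ℂ)
      (fun y => chartAt (Fin N → ℂ) q y j) y := by
    filter_upwards [(chartAt (Fin N → ℂ) q).open_source.mem_nhds hz.2] with y hy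
    exact j10_comp q y hy j
  have h2 := (hp z hz.1 _ h1).2 ho
  have h3 := hasFDerivAt_pi'.1 (j10_dφ_at hc hp q z hz).hasFDerivAt j
  have h4 : fderiv ℂ (fun w => chartAt (Fin N → ℂ) q (Φ w) j) z =
      (ContinuousLinearMap.proj j).comp (fderiv ℂ (dφ N Φ q) z) := h3.fderiv
  rw [h4] at h2
  exact h2

include hc hp in
lemma ds_ne (q : M) (z : C3) (hz : z ∈ dU N Φ q)
    (h : ∃ F : M → ℂ, (∀ᶠ y in 𝓝 (Φ z), MDifferentiableAt 𝓘(ℂ, Fin N → ℂ) 𝓘(ℂ, ℂ) F y) ∧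
      ∀ᶠ w in 𝓝 z, F (Φ w) = w 0) : ds N Φ q z ≠ 0 := by
  obtain ⟨F, hF, hFw⟩ := h
  intro h0
  have hm : dφ N Φ q z ∈ (chartAt (Fin N → ℂ) q).target := (chartAt (Fin N → ℂ) q).map_source hz.2
  have hinv : (chartAt (Fin N → ℂ) q).symm (dφ N Φ q z) = Φ z :=
    (chartAt (Fin N → ℂ) q).left_inv hz.2
  have hG : DifferentiableAt ℂ (F ∘ (chartAt (Fin N → ℂ) q).symm) (dφ N Φ q z) := by
    rw [← mdifferentiableAt_iff_differentiableAt]
    have h1 : MDifferentiableAt 𝓘(ℂ, Fin N → ℂ) 𝓘(ℂ, Fin N → ℂ) (chartAt (Fin N → ℂ) q).symm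
        (dφ N Φ q z) := mdifferentiableAt_atlas_symm (chart_mem_atlas _ q) hm
    have h2 : MDifferentiableAt 𝓘(ℂ, Fin N → ℂ) 𝓘(ℂ, ℂ) F
        ((chartAt (Fin N → ℂ) q).symm (dφ N Φ q z)) := by
      rw [hinv]; exact hF.self_of_nhds
    exact MDifferentiableAt.comp _ h2 h1
  have he : (fun w : C3 => w 0) =ᶠ[𝓝 z] (F ∘ (chartAt (Fin N → ℂ) q).symm) ∘ dφ N Φ q := by
    filter_upwards [hFw, (dU_open hc q).mem_nhds hz] with w hw hwU
    simp only [Function.comp_apply, dφ]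
    rw [(chartAt (Fin N → ℂ) q).left_inv hwU.2, hw]
  have h1 : fderiv ℂ (fun w : C3 => w 0) z e1 = 1 := by
    have h2 : HasFDerivAt (fun w : C3 => w 0)
        (ContinuousLinearMap.proj (R := ℂ) (φ := fun _ : Fin 3 => ℂ) 0) z :=
      (ContinuousLinearMap.proj (R := ℂ) (φ := fun _ : Fin 3 => ℂ) 0).hasFDerivAt
    rw [h2.fderiv]
    simp [e1]
  rw [he.fderiv_eq, fderiv_comp _ hG (j10_dφ_at hc hp q z hz)] at h1
  have h2 : (fderiv ℂ (F ∘ (chartAt (Fin N → ℂ) q).symm) (dφ N Φ q z)) (ds N Φ q z) = 1 := h1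
  rw [h0, map_zero] at h2
  exact zero_ne_one h2

end

end Data

end Pool.Agent.HopfPinch
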