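import Pool.Agent.HopfPinch.Geo1

set_option autoImplicit false

open Set Filter Topology Metric
open scoped Manifold

namespace Pool.Agent.HopfPinch

lemma pr_isOpen_image {W : Set C3} (hW : IsOpen W) (hne : ∀ z ∈ W, z ≠ 0) :
    IsOpen (pr '' W) := by
  rw [isOpen_iff_mem_nhds]
  rintro _ ⟨z, hz, rfl⟩
  rw [← pr_map_nhds (hne z hz)]
  exact image_mem_map (hW.mem_nhds hz)

lemma key_ball {z0 z w : C3} (hz0 : z0 ≠ 0) (hz : z ∈ ball z0 (‖z0‖ / 8))
    (hw : w ∈ ball z0 (‖z0‖ / 8)) {k : ℤ} (h : w = (2 : ℂ) ^ k • z) : w = z := by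
  have hN : 0 < ‖z0‖ := norm_pos_iff.mpr hz0
  rw [mem_ball_iff_norm] at hz hw
  have hn : ‖w‖ = (2 : ℝ) ^ k * ‖z‖ := by
    rw [h, norm_smul, norm_zpow]
    norm_num
  have hz1 : ‖z0‖ - ‖z - z0‖ ≤ ‖z‖ := by
    have := norm_sub_norm_le z0 z
    rw [norm_sub_rev] at this
    linarith
  have hz2 : ‖z‖ ≤ ‖z0‖ + ‖z - z0‖ := by
    have := norm_sub_norm_le z z0
    linarith
  have hw1 : ‖z0‖ - ‖w - z0‖ ≤ ‖w‖ := by
    have := norm_sub_norm_le z0 w
    rw [norm_sub_rev] at this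
    linarith
  have hw2 : ‖w‖ ≤ ‖z0‖ + ‖w - z0‖ := by
    have := norm_sub_norm_le w z0
    linarith
  rcases lt_trichotomy k 0 with hk | hk | hk
  · exfalso
    have h2 : (2 : ℝ) ^ k ≤ 2 ^ (-1 : ℤ) := zpow_le_zpow_right₀ (by norm_num) (by lia)
    have h3 : (2 : ℝ) ^ (-1 : ℤ) = 1 / 2 := by norm_num
    rw [h3] at h2
    have h4 : ‖w‖ ≤ 1 / 2 * ‖z‖ := by
      rw [hn]
      exact mul_le_mul_of_nonneg_right h2 (norm_nonneg _)
    linarith
  · rw [h, hk, zpow_zero, one_smul]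
  · exfalso
    have h2 : (2 : ℝ) ^ (1 : ℤ) ≤ 2 ^ k := zpow_le_zpow_right₀ (by norm_num) (by lia)
    rw [zpow_one] at h2
    have h4 : 2 * ‖z‖ ≤ ‖w‖ := by
      rw [hn]
      exact mul_le_mul_of_nonneg_right h2 (norm_nonneg _)
    linarith

/-- balls on which `pr` is injective and which do not meet the orbit of `e1` except possibly at the
centre -/
structure Good (z0 : C3) (r : ℝ) : Prop where
  pos : 0 < r
  ne : ∀ z ∈ ball z0 r, z ≠ 0
  inj : InjOn pr (ball z0 r)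
  orb : ∀ z ∈ ball z0 r, z ∈ Pool.Agent.HopfPinch.orb → z = z0

lemma good_exists {z0 : C3} (hz0 : z0 ≠ 0) : ∃ r, Good z0 r := by
  have hN : 0 < ‖z0‖ := norm_pos_iff.mpr hz0
  set R := ‖z0‖ / 8 with hR
  have hR0 : 0 < R := by positivity
  have hne : ∀ z ∈ ball z0 R, z ≠ 0 := by
    intro z hz h0
    rw [h0, mem_ball_iff_norm, zero_sub, norm_neg] at hz
    linarith
  have hinj : InjOn pr (ball z0 R) := by
    intro z hz w hw hzw
    obtain ⟨k, hk⟩ := (pr_eq_iff (hne z hz) (hne w hw)).mp hzw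
    exact (key_ball hz0 hz hw hk).symm
  have horb : ∀ z ∈ ball z0 R, ∀ w ∈ ball z0 R, z ∈ orb → w ∈ orb → w = z := by
    rintro z hz w hw ⟨k, hk⟩ ⟨l, hl⟩
    refine key_ball hz0 hz hw (k := l - k) ?_
    rw [hl, hk, smul_smul, ← zpow_add₀ two_ne_zero]
    congr 2
    ring
  by_cases hex : ∃ z ∈ ball z0 R, z ∈ orb ∧ z ≠ z0
  · obtain ⟨z, hz, hzo, hzne⟩ := hex
    have hd : 0 < dist z z0 := dist_pos.mpr hzne
    have hsub : ball z0 (dist z z0) ⊆ ball z0 R := ball_subset_ball (le_of_lt hz)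
    refine ⟨dist z z0, hd, fun w hw => hne w (hsub hw), hinj.mono hsub, ?_⟩
    intro w hw hwo
    exfalso
    have : w = z := horb z hz w (hsub hw) hzo hwo
    rw [this, mem_ball] at hw
    exact lt_irrefl _ hw
  · push Not at hex
    exact ⟨R, hR0, hne, hinj, fun z hz hzo => hex z hz hzo⟩

lemma Good.isOpen {z0 : C3} {r : ℝ} (h : Good z0 r) : IsOpen (pr '' ball z0 r) :=
  pr_isOpen_image isOpen_ball h.ne

lemma Good.homeo {z0 : C3} {r : ℝ} (h : Good z0 r) :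
    ∃ e : ↥(pr '' ball z0 r) ≃ₜ ↥(ball z0 r),
      ∀ (z : C3) (hz : z ∈ ball z0 r), e ⟨pr z, mem_image_of_mem pr hz⟩ = ⟨z, hz⟩ := by
  let E : ↥(ball z0 r) ≃ ↥(pr '' ball z0 r) := Equiv.Set.imageOfInjOn pr (ball z0 r) h.inj
  have hE : ∀ z : ↥(ball z0 r), E z = ⟨pr z.1, mem_image_of_mem pr z.2⟩ := fun z => rfl
  have hcont : Continuous E := by
    refine Continuous.subtype_mk (f := fun z : ↥(ball z0 r) => pr z.1) ?_
      (fun z => mem_image_of_mem pr z.2)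
    rw [continuous_iff_continuousAt]
    intro z
    exact (pr_continuousAt (h.ne z.1 z.2)).comp continuousAt_subtype_val
  have hopen : IsOpenMap E := by
    rintro U hU
    obtain ⟨V, hV, rfl⟩ := isOpen_induced_iff.mp hU
    have himg : E '' (Subtype.val ⁻¹' V) = Subtype.val ⁻¹' (pr '' (V ∩ ball z0 r)) := by
      ext y
      constructor
      · rintro ⟨z, hz, rfl⟩
        exact ⟨z.1, ⟨hz, z.2⟩, rfl⟩
      · rintro ⟨z, ⟨hzV, hzB⟩, hzy⟩
        exact ⟨⟨z, hzB⟩, hzV, Subtype.ext hzy⟩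
    rw [himg]
    exact (pr_isOpen_image (hV.inter isOpen_ball) (fun z hz => h.ne z hz.2)).preimage
      continuous_subtype_val
  refine ⟨(E.toHomeomorphOfContinuousOpen hcont hopen).symm, fun z hz => ?_⟩
  rw [Homeomorph.symm_apply_eq]
  rfl

end Pool.Agent.HopfPinch
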