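import Pool.Agent.HopfPinch.Geo2

set_option autoImplicit false

open Set Filter Topology Metric
open scoped Manifold

namespace Pool.Agent.HopfPinch

theorem hj3_orb {z : C3} {k : ℤ} (h : (2 : ℂ) ^ k • z ∈ orb) : z ∈ orb := by
  obtain ⟨m, hm⟩ := h
  refine ⟨-k + m, ?_⟩
  have h2 : ((2 : ℂ) ^ k) ≠ 0 := zpow_ne_zero _ two_ne_zero
  rw [zpow_add₀ two_ne_zero, mul_smul, ← hm, smul_smul, zpow_neg, inv_mul_cancel₀ h2, one_smul]

theorem hj3_scale {z : C3} (hz : z ≠ 0) (k : ℤ) {f : HX → ℂ}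
    (hd : ∀ᶠ w in 𝓝 z, DifferentiableAt ℂ (f ∘ pr) w) :
    (∀ᶠ w in 𝓝 ((2 : ℂ) ^ k • z), DifferentiableAt ℂ (f ∘ pr) w) ∧
      fderiv ℂ (f ∘ pr) ((2 : ℂ) ^ k • z) e1 = ((2 : ℂ) ^ k)⁻¹ • fderiv ℂ (f ∘ pr) z e1 := by
  have h2 : ((2 : ℂ) ^ k) ≠ 0 := zpow_ne_zero _ two_ne_zero
  have hw : (2 : ℂ) ^ k • z ≠ 0 := smul_ne_zero h2 hz
  -- the linear map
  have heq : ∀ u : C3, u ≠ 0 → (f ∘ pr) u = (f ∘ pr) (((2 : ℂ) ^ k)⁻¹ • u) := by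
    intro u hu
    have := pr_smul hu (-k)
    rw [zpow_neg] at this
    simp only [Function.comp_apply, this]
  have heqn : ∀ u : C3, u ≠ 0 → (f ∘ pr) =ᶠ[𝓝 u] fun v => (f ∘ pr) (((2 : ℂ) ^ k)⁻¹ • v) := by
    intro u hu
    filter_upwards [isOpen_compl_singleton.mem_nhds hu] with v hv
    exact heq v hv
  have hlin : ∀ u : C3, HasFDerivAt (fun v : C3 => ((2 : ℂ) ^ k)⁻¹ • v)
      (((2 : ℂ) ^ k)⁻¹ • ContinuousLinearMap.id ℂ C3) u := by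
    intro u
    exact (hasFDerivAt_id (𝕜 := ℂ) u).const_smul ((2 : ℂ) ^ k)⁻¹
  have hback : ((2 : ℂ) ^ k)⁻¹ • ((2 : ℂ) ^ k • z) = z := by
    rw [smul_smul, inv_mul_cancel₀ h2, one_smul]
  constructor
  · have hc : Tendsto (fun v : C3 => ((2 : ℂ) ^ k)⁻¹ • v) (𝓝 ((2 : ℂ) ^ k • z)) (𝓝 z) := by
      have := (hlin ((2 : ℂ) ^ k • z)).continuousAt.tendsto
      rwa [hback] at this
    filter_upwards [hc.eventually hd, isOpen_compl_singleton.mem_nhds hw] with u hu hu0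
    exact (DifferentiableAt.comp u hu (hlin u).differentiableAt).congr_of_eventuallyEq (heqn u hu0)
  · rw [(heqn _ hw).fderiv_eq]
    have hdz : DifferentiableAt ℂ (f ∘ pr) (((2 : ℂ) ^ k)⁻¹ • ((2 : ℂ) ^ k • z)) := by
      rw [hback]; exact hd.self_of_nhds
    have h3 := (hdz.hasFDerivAt.comp _ (hlin ((2 : ℂ) ^ k • z))).fderiv
    have h4 : fderiv ℂ (fun v => (f ∘ pr) (((2 : ℂ) ^ k)⁻¹ • v)) ((2 : ℂ) ^ k • z) =
        (fderiv ℂ (f ∘ pr) (((2 : ℂ) ^ k)⁻¹ • (2 : ℂ) ^ k • z)).comp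
          (((2 : ℂ) ^ k)⁻¹ • ContinuousLinearMap.id ℂ C3) := h3
    rw [h4, hback]
    simp

lemma PHol_iff {z : C3} (hz : z ≠ 0) {f : HX → ℂ} :
    PHol (pr z) f ↔ (∀ᶠ w in 𝓝 z, DifferentiableAt ℂ (f ∘ pr) w) ∧
      (z ∈ orb → fderiv ℂ (f ∘ pr) z e1 = 0) := by
  constructor
  · intro h
    exact h z hz rfl
  · rintro ⟨h1, h2⟩ w hw hwz
    obtain ⟨k, rfl⟩ := (pr_eq_iff hz hw).1 hwz.symm
    obtain ⟨h3, h4⟩ := hj3_scale hz k h1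
    refine ⟨h3, fun ho => ?_⟩
    rw [h4, h2 (hj3_orb ho), smul_zero]

lemma PHol_congr {x : HX} {f g : HX → ℂ} (hfg : f =ᶠ[𝓝 x] g) (hf : PHol x f) : PHol x g := by
  intro z hz hzx
  obtain ⟨h1, h2⟩ := hf z hz hzx
  subst hzx
  have he : (f ∘ pr) =ᶠ[𝓝 z] (g ∘ pr) := (pr_continuousAt hz).eventually hfg
  refine ⟨?_, fun ho => ?_⟩
  · filter_upwards [h1, he.eventuallyEq_nhds] with w hw1 hw2
    exact hw1.congr_of_eventuallyEq hw2.symm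
  · rw [← he.fderiv_eq]
    exact h2 ho

lemma PHol_nhds {x : HX} {f : HX → ℂ} (hf : PHol x f) : ∀ᶠ y in 𝓝 x, PHol y f := by
  obtain ⟨z0, hz0, rfl⟩ := pr_surj x
  obtain ⟨h1, h2⟩ := hf z0 hz0 rfl
  obtain ⟨r, hr⟩ := good_exists hz0
  rw [← pr_map_nhds hz0, eventually_map]
  filter_upwards [h1.eventually_nhds, ball_mem_nhds z0 hr.pos] with w hw1 hw2
  rw [PHol_iff (hr.ne w hw2)]
  refine ⟨hw1, fun ho => ?_⟩
  have := hr.orb w hw2 ho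
  subst this
  exact h2 ho

/-- the structure sheaf of the pinched Hopf threefold -/
def pinched : FunSheaf HX where
  hol := PHol
  hol_congr := PHol_congr
  hol_nhds := PHol_nhds

end Pool.Agent.HopfPinch
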