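import Pool.Agent.HopfPinch.Geo3

set_option autoImplicit false

open Set Filter Topology Metric
open scoped Manifold

namespace Pool.Agent.HopfPinch

lemma chart_of {z0 : C3} {r : ℝ} (hg : Good z0 r) {n : ℕ} {A : Set (Fin n → ℂ)}
    (h : ↥(ball z0 r) ≃ₜ A)
    (hh : ∀ (z : C3) (hz : z ∈ ball z0 r) (f : A → ℂ), (modelSheaf A).hol (h ⟨z, hz⟩) f ↔
      (∀ᶠ w in 𝓝 z, DifferentiableAt ℂ (Function.extend Subtype.val (f ∘ h) 0) w) ∧
      (z ∈ orb → fderiv ℂ (Function.extend Subtype.val (f ∘ h) 0) z e1 = 0)) :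
    (pinched.restrict (pr '' ball z0 r) hg.isOpen).Isomorphic (modelSheaf A) := by
  obtain ⟨e, he⟩ := hg.homeo
  refine ⟨e.trans h, ?_⟩
  rintro ⟨x, z, hz, rfl⟩ f
  have h1 : (e.trans h) ⟨pr z, ⟨z, hz, rfl⟩⟩ = h ⟨z, hz⟩ := by
    rw [Homeomorph.trans_apply]
    exact congrArg h (he z hz)
  rw [h1, hh z hz f]
  change _ ↔ PHol (pr z) (Function.extend Subtype.val (f ∘ (e.trans h)) 0)
  rw [PHol_iff (hg.ne z hz)]
  have hev : (Function.extend Subtype.val (f ∘ (e.trans h)) 0) ∘ pr =ᶠ[𝓝 z]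
      Function.extend Subtype.val (f ∘ h) 0 := by
    filter_upwards [isOpen_ball.mem_nhds hz] with w hw
    have h2 : Function.extend (Subtype.val : ↥(pr '' ball z0 r) → HX) (f ∘ (e.trans h)) 0
        ((⟨pr w, mem_image_of_mem pr hw⟩ : ↥(pr '' ball z0 r)) : HX) =
        (f ∘ (e.trans h)) ⟨pr w, mem_image_of_mem pr hw⟩ :=
      Subtype.val_injective.extend_apply _ _ _
    have h3 : Function.extend (Subtype.val : ↥(ball z0 r) → C3) (f ∘ h) 0
        ((⟨w, hw⟩ : ↥(ball z0 r)) : C3) = (f ∘ h) ⟨w, hw⟩ :=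
      Subtype.val_injective.extend_apply _ _ _
    have h4 : (f ∘ (e.trans h)) ⟨pr w, mem_image_of_mem pr hw⟩ = (f ∘ h) ⟨w, hw⟩ := by
      simp only [Function.comp_apply, Homeomorph.trans_apply]
      rw [he w hw]
    exact h2.trans (h4.trans h3.symm)
  have hd : (∀ᶠ w in 𝓝 z, DifferentiableAt ℂ (Function.extend Subtype.val (f ∘ h) 0) w) ↔
      ∀ᶠ w in 𝓝 z, DifferentiableAt ℂ
        ((Function.extend Subtype.val (f ∘ (e.trans h)) 0) ∘ pr) w := by
    apply eventually_congr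
    filter_upwards [hev.eventuallyEq_nhds] with w hw
    exact hw.differentiableAt_iff.symm
  rw [hd, hev.fderiv_eq]

lemma chart_regular {z0 : C3} (hz0 : z0 ≠ 0) (ho : z0 ∉ orb) :
    ∃ (U : Set HX) (hU : IsOpen U), pr z0 ∈ U ∧
      ∃ (n : ℕ) (D A : Set (Fin n → ℂ)), IsAnalyticSubset D A ∧
        (pinched.restrict U hU).Isomorphic (modelSheaf A) := by
  obtain ⟨r, hg⟩ := good_exists hz0
  refine ⟨pr '' ball z0 r, hg.isOpen, mem_image_of_mem pr (mem_ball_self hg.pos), 3, ball z0 r,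
    ball z0 r, ⟨isOpen_ball, Subset.refl _, ?_⟩, ?_⟩
  · intro x hx
    refine ⟨ball z0 r, isOpen_ball, hx, Subset.refl _, 0, fun j => j.elim0, fun j => j.elim0, ?_⟩
    ext z
    constructor
    · intro hz
      exact ⟨hz.1, fun j => j.elim0⟩
    · intro hz
      exact ⟨hz.1, hz.1⟩
  · apply chart_of hg (Homeomorph.refl _)
    intro z hz f
    have hext : ∀ y : ↥(ball z0 r), Function.extend (Subtype.val : ↥(ball z0 r) → C3)
        (f ∘ (Homeomorph.refl ↥(ball z0 r))) 0 (y : C3) = f y := by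
      intro y
      exact Subtype.val_injective.extend_apply _ _ _
    constructor
    · rintro ⟨F, hF, hf⟩
      have hev : Function.extend (Subtype.val : ↥(ball z0 r) → C3)
          (f ∘ (Homeomorph.refl ↥(ball z0 r))) 0 =ᶠ[𝓝 z] F := by
        rw [EventuallyEq, ← map_nhds_subtype_coe_eq_nhds hz (isOpen_ball.mem_nhds hz),
          eventually_map]
        have hf' : ∀ᶠ y : ↥(ball z0 r) in 𝓝 ⟨z, hz⟩, f y = F y := hf
        filter_upwards [hf'] with y hy
        rw [hext y, hy]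
      have hF' : ∀ᶠ w in 𝓝 z, DifferentiableAt ℂ F w := hF
      refine ⟨?_, ?_⟩
      · filter_upwards [hev.eventuallyEq_nhds, hF'] with w hw hFw
        exact hw.differentiableAt_iff.2 hFw
      · intro hzo
        exfalso
        apply ho
        rw [← hg.orb z hz hzo]
        exact hzo
    · rintro ⟨h1, -⟩
      refine ⟨Function.extend (Subtype.val : ↥(ball z0 r) → C3)
          (f ∘ (Homeomorph.refl ↥(ball z0 r))) 0, h1, ?_⟩
      exact Eventually.of_forall fun y => (hext y).symm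

end Pool.Agent.HopfPinch
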