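import Pool.Agent.HopfPinch.Hopf0

set_option autoImplicit false

open Set Filter Topology Metric
open scoped Manifold

namespace Pool.Agent.HopfPinch

/-- the local model map `(u,v,w) ↦ (u²,u³,v,w,uv,uw)`, where `(u,v,w) = z - e1` -/
noncomputable def psi (z : C3) : Fin 6 → ℂ :=
  ![(z 0 - 1) ^ 2, (z 0 - 1) ^ 3, z 1, z 2, (z 0 - 1) * z 1, (z 0 - 1) * z 2]

/-- the open set of the local model -/
def PD (r : ℝ) : Set (Fin 6 → ℂ) := {y | ‖y 0‖ < r ^ 2 ∧ ‖y 2‖ < r ∧ ‖y 3‖ < r}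

/-- the analytic set of the local model -/
def PA (r : ℝ) : Set (Fin 6 → ℂ) := {y | y ∈ PD r ∧ y 0 ^ 3 = y 1 ^ 2 ∧ y 1 * y 2 = y 0 * y 4 ∧
  y 1 * y 3 = y 0 * y 5 ∧ y 4 ^ 2 = y 0 * y 2 ^ 2 ∧ y 5 ^ 2 = y 0 * y 3 ^ 2}

lemma PD_open (r : ℝ) : IsOpen (PD r) := by
  have h1 : IsOpen {y : Fin 6 → ℂ | ‖y 0‖ < r ^ 2} :=
    isOpen_lt (continuous_apply 0).norm continuous_const
  have h2 : IsOpen {y : Fin 6 → ℂ | ‖y 2‖ < r} :=
    isOpen_lt (continuous_apply 2).norm continuous_const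
  have h3 : IsOpen {y : Fin 6 → ℂ | ‖y 3‖ < r} :=
    isOpen_lt (continuous_apply 3).norm continuous_const
  exact h1.inter (h2.inter h3)

lemma PA_analytic (r : ℝ) : IsAnalyticSubset (PD r) (PA r) := by
  refine ⟨PD_open r, fun y hy => hy.1, fun x hx => ⟨PD r, PD_open r, hx, Subset.rfl, 5,
    ![fun y => y 0 ^ 3 - y 1 ^ 2, fun y => y 1 * y 2 - y 0 * y 4, fun y => y 1 * y 3 - y 0 * y 5,
      fun y => y 4 ^ 2 - y 0 * y 2 ^ 2, fun y => y 5 ^ 2 - y 0 * y 3 ^ 2], ?_, ?_⟩⟩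
  · intro j
    apply Differentiable.differentiableOn
    fin_cases j <;> simp <;> fun_prop
  · ext y
    constructor
    · rintro ⟨⟨h0, h1, h2, h3, h4, h5⟩, -⟩
      refine ⟨h0, fun j => ?_⟩
      fin_cases j
      · exact sub_eq_zero.2 h1
      · exact sub_eq_zero.2 h2
      · exact sub_eq_zero.2 h3
      · exact sub_eq_zero.2 h4
      · exact sub_eq_zero.2 h5
    · rintro ⟨h0, h⟩
      exact ⟨⟨h0, sub_eq_zero.1 (h 0), sub_eq_zero.1 (h 1), sub_eq_zero.1 (h 2),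
        sub_eq_zero.1 (h 3), sub_eq_zero.1 (h 4)⟩, h0⟩

lemma hp_ball {r : ℝ} (hr : 0 < r) (z : C3) :
    z ∈ ball e1 r ↔ ‖z 0 - 1‖ < r ∧ ‖z 1‖ < r ∧ ‖z 2‖ < r := by
  rw [mem_ball, dist_eq_norm, pi_norm_lt_iff hr]
  rw [Fin.forall_fin_succ, Fin.forall_fin_succ, Fin.forall_fin_succ]
  simp [e1]

open Classical in
noncomputable def hpu (y : Fin 6 → ℂ) : ℂ := if y 0 = 0 then 0 else y 1 / y 0

lemma hpu_spec {r : ℝ} {y : Fin 6 → ℂ} (hy : y ∈ PA r) :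
    hpu y ^ 2 = y 0 ∧ hpu y ^ 3 = y 1 ∧ hpu y * y 2 = y 4 ∧ hpu y * y 3 = y 5 := by
  obtain ⟨-, h1, h2, h3, h4, h5⟩ := hy
  unfold hpu
  by_cases h0 : y 0 = 0
  · rw [if_pos h0]
    rw [h0] at h1 h4 h5
    have e1 : y 1 = 0 := by
      have : y 1 ^ 2 = 0 := by rw [← h1]; ring
      exact pow_eq_zero_iff (two_ne_zero) |>.1 this
    have e4 : y 4 = 0 := by
      have : y 4 ^ 2 = 0 := by rw [h4]; ring
      exact pow_eq_zero_iff (two_ne_zero) |>.1 this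
    have e5 : y 5 = 0 := by
      have : y 5 ^ 2 = 0 := by rw [h5]; ring
      exact pow_eq_zero_iff (two_ne_zero) |>.1 this
    rw [h0, e1, e4, e5]
    refine ⟨by ring, by ring, by ring, by ring⟩
  · rw [if_neg h0]
    have e2 : (y 1 / y 0) ^ 2 = y 0 := by
      rw [div_pow, ← h1]; field_simp
    refine ⟨e2, ?_, ?_, ?_⟩
    · rw [pow_succ, e2]; field_simp
    · field_simp; linear_combination h2
    · field_simp; linear_combination h3

lemma hpu_cont {r : ℝ} : Continuous (fun y : PA r => hpu y.1) := by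
  rw [continuous_iff_continuousAt]
  intro y
  have c0 : Continuous (fun z : PA r => z.1 0) := (continuous_apply 0).comp continuous_subtype_val
  have c1 : Continuous (fun z : PA r => z.1 1) := (continuous_apply 1).comp continuous_subtype_val
  by_cases h0 : (y : Fin 6 → ℂ) 0 = 0
  · have hy0 : hpu y.1 = 0 := by unfold hpu; rw [if_pos h0]
    rw [ContinuousAt, hy0, tendsto_zero_iff_norm_tendsto_zero]
    have h1 : ∀ z : PA r, ‖hpu z.1‖ = Real.sqrt ‖(z : Fin 6 → ℂ) 0‖ := by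
      intro z
      rw [← (hpu_spec z.2).1, norm_pow, Real.sqrt_sq (norm_nonneg _)]
    simp_rw [h1]
    have h2 : Continuous (fun z : PA r => Real.sqrt ‖(z : Fin 6 → ℂ) 0‖) :=
      Real.continuous_sqrt.comp c0.norm
    have h3 := h2.tendsto y
    rw [h0, norm_zero, Real.sqrt_zero] at h3
    exact h3
  · have h1 : ContinuousAt (fun z : PA r => (z : Fin 6 → ℂ) 1 / (z : Fin 6 → ℂ) 0) y :=
      c1.continuousAt.div c0.continuousAt h0
    refine h1.congr ?_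
    have h2 : ∀ᶠ z : PA r in 𝓝 y, (z : Fin 6 → ℂ) 0 ≠ 0 :=
      c0.continuousAt.eventually_ne h0
    filter_upwards [h2] with z hz
    unfold hpu
    rw [if_neg hz]

lemma psi_mem {r : ℝ} (hr : 0 < r) {z : C3} (hz : z ∈ ball e1 r) : psi z ∈ PA r := by
  rw [hp_ball hr] at hz
  obtain ⟨h0, h1, h2⟩ := hz
  refine ⟨⟨?_, ?_, ?_⟩, ?_, ?_, ?_, ?_, ?_⟩
  · show ‖(z 0 - 1) ^ 2‖ < r ^ 2
    rw [norm_pow]
    exact pow_lt_pow_left₀ h0 (norm_nonneg _) two_ne_zero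
  · exact h1
  · exact h2
  · show ((z 0 - 1) ^ 2) ^ 3 = ((z 0 - 1) ^ 3) ^ 2
    ring
  · show (z 0 - 1) ^ 3 * z 1 = (z 0 - 1) ^ 2 * ((z 0 - 1) * z 1)
    ring
  · show (z 0 - 1) ^ 3 * z 2 = (z 0 - 1) ^ 2 * ((z 0 - 1) * z 2)
    ring
  · show ((z 0 - 1) * z 1) ^ 2 = (z 0 - 1) ^ 2 * z 1 ^ 2
    ring
  · show ((z 0 - 1) * z 2) ^ 2 = (z 0 - 1) ^ 2 * z 2 ^ 2
    ring

lemma psi_cont : Continuous psi := by
  unfold psi
  apply continuous_pi
  intro i
  fin_cases i <;> simp <;> fun_prop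

lemma hp_inv_mem {r : ℝ} (hr : 0 < r) {y : Fin 6 → ℂ} (hy : y ∈ PA r) :
    (![1 + hpu y, y 2, y 3] : C3) ∈ ball e1 r := by
  rw [hp_ball hr]
  obtain ⟨h1, h2, h3, h4⟩ := hpu_spec hy
  obtain ⟨⟨g0, g1, g2⟩, -⟩ := hy
  refine ⟨?_, g1, g2⟩
  show ‖(1 + hpu y) - 1‖ < r
  rw [add_sub_cancel_left]
  rw [← h1, norm_pow] at g0
  exact lt_of_pow_lt_pow_left₀ 2 hr.le g0

lemma hp_right {r : ℝ} {y : Fin 6 → ℂ} (hy : y ∈ PA r) :
    psi (![1 + hpu y, y 2, y 3] : C3) = y := by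
  obtain ⟨h1, h2, h3, h4⟩ := hpu_spec hy
  funext i
  fin_cases i
  · show ((1 + hpu y) - 1) ^ 2 = y 0
    rw [add_sub_cancel_left, h1]
  · show ((1 + hpu y) - 1) ^ 3 = y 1
    rw [add_sub_cancel_left, h2]
  · rfl
  · rfl
  · show ((1 + hpu y) - 1) * y 2 = y 4
    rw [add_sub_cancel_left, h3]
  · show ((1 + hpu y) - 1) * y 3 = y 5
    rw [add_sub_cancel_left, h4]

lemma hp_left (z : C3) : (![1 + hpu (psi z), psi z 2, psi z 3] : C3) = z := by
  have h1 : hpu (psi z) = z 0 - 1 := by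
    unfold hpu
    have e0 : psi z 0 = (z 0 - 1) ^ 2 := rfl
    have e1 : psi z 1 = (z 0 - 1) ^ 3 := rfl
    rw [e0, e1]
    by_cases h : z 0 - 1 = 0
    · rw [if_pos (by rw [h]; ring), h]
    · rw [if_neg (pow_ne_zero _ h)]
      field_simp
  funext i
  fin_cases i
  · show 1 + hpu (psi z) = z 0
    rw [h1]; ring
  · rfl
  · rfl

lemma psi_homeo {r : ℝ} (hr : 0 < r) :
    ∃ h : ↥(ball e1 r) ≃ₜ ↥(PA r), ∀ (z : C3) (hz : z ∈ ball e1 r), (h ⟨z, hz⟩ : Fin 6 → ℂ) = psi z := by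
  refine ⟨{ toFun := fun z => ⟨psi z.1, psi_mem hr z.2⟩
            invFun := fun y => ⟨![1 + hpu y.1, y.1 2, y.1 3], hp_inv_mem hr y.2⟩
            left_inv := fun z => Subtype.ext (hp_left z.1)
            right_inv := fun y => Subtype.ext (hp_right y.2)
            continuous_toFun := ?_
            continuous_invFun := ?_ }, fun z hz => rfl⟩
  · exact (psi_cont.comp continuous_subtype_val).subtype_mk _
  · apply Continuous.subtype_mk
    apply continuous_pi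
    intro i
    fin_cases i
    · exact continuous_const.add hpu_cont
    · exact (continuous_apply 2).comp continuous_subtype_val
    · exact (continuous_apply 3).comp continuous_subtype_val

end Pool.Agent.HopfPinch
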