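import Pool.Agent.HopfPinch.GLib
import Pool.Agent.HopfPinch.Hopf0

set_option autoImplicit false

open Set Filter Topology Metric
open scoped Manifold

namespace Pool.Agent.HopfPinch


/-- replace the coordinate `i` -/
lemma upd_diff (i : Fin 3) : Differentiable ℂ (fun q : C3 × ℂ => Function.update q.1 i q.2) := by
  rw [differentiable_pi]
  intro j
  by_cases h : j = i
  · subst h; simp only [Function.update_self]; fun_prop
  · simp only [Function.update_of_ne h]; fun_prop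

lemma upd_norm {z : C3} {i : Fin 3} {a : ℂ} {R : ℝ} (hz : ‖z‖ < R) (ha : ‖a‖ < R) :
    ‖Function.update z i a‖ < R := by
  have hR : 0 < R := (norm_nonneg _).trans_lt hz
  rw [pi_norm_lt_iff hR] at hz ⊢
  intro j
  by_cases h : j = i
  · subst h; rwa [Function.update_self]
  · rw [Function.update_of_ne h]; exact hz j

lemma coord_norm {z : C3} (i : Fin 3) {R : ℝ} (hz : ‖z‖ < R) : ‖z i‖ < R :=
  (norm_le_pi_norm z i).trans_lt hz

/-- choice of a ball -/
lemma exists_ball {G : C3 → ℂ} (hG : ∀ᶠ z in 𝓝 (0 : C3), DifferentiableAt ℂ G z) :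
    ∃ R : ℝ, 0 < R ∧ R ≤ 1 ∧ DifferentiableOn ℂ G (ball 0 R) := by
  obtain ⟨R, hR, h⟩ := Metric.eventually_nhds_iff_ball.1 hG
  refine ⟨min R 1, lt_min hR one_pos, min_le_right _ _, fun z hz => ?_⟩
  exact (h z (ball_subset_ball (min_le_left _ _) hz)).differentiableWithinAt

lemma slice_diff {G : C3 → ℂ} {R : ℝ} (hG : DifferentiableOn ℂ G (ball 0 R)) {z : C3}
    (hz : ‖z‖ < R) (i : Fin 3) : DifferentiableOn ℂ (fun ζ : ℂ => G (Function.update z i ζ)) (ball 0 R) := by
  refine hG.comp ?_ ?_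
  · have h1 : Differentiable ℂ (fun ζ : ℂ => ((z, ζ) : C3 × ℂ)) := by fun_prop
    exact ((upd_diff i).comp h1).differentiableOn
  · intro ζ hζ
    rw [mem_ball_zero_iff] at hζ ⊢
    exact upd_norm hz hζ

/-- Hadamard's lemma in one coordinate -/
lemma hadamard (G : C3 → ℂ) (hG : ∀ᶠ z in 𝓝 (0 : C3), DifferentiableAt ℂ G z) (i : Fin 3) :
    ∃ H : C3 → ℂ, (∀ᶠ z in 𝓝 (0 : C3), DifferentiableAt ℂ H z) ∧
      ∀ᶠ z in 𝓝 (0 : C3), G z - G (Function.update z i 0) = z i * H z := by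
  obtain ⟨R, hR, -, hGR⟩ := exists_ball hG
  set ρ : ℝ := R / 2 with hρ
  have hρ0 : 0 < ρ := by positivity
  have hρR : ρ < R := by linarith
  let Ω : Set (C3 × ℂ) := {q | ‖q.1‖ < R ∧ ‖q.2‖ < R ∧ q.2 ≠ 0 ∧ q.2 - q.1 i ≠ 0}
  have hΩ : IsOpen Ω := by
    have o1 : IsOpen {q : C3 × ℂ | ‖q.1‖ < R} := isOpen_lt continuous_fst.norm continuous_const
    have o2 : IsOpen {q : C3 × ℂ | ‖q.2‖ < R} := isOpen_lt continuous_snd.norm continuous_const
    have o3 : IsOpen {q : C3 × ℂ | q.2 ≠ 0} := isOpen_ne_fun continuous_snd continuous_const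
    have k4 : Continuous (fun q : C3 × ℂ => q.2 - q.1 i) := by fun_prop
    have o4 : IsOpen {q : C3 × ℂ | q.2 - q.1 i ≠ 0} := isOpen_ne_fun k4 continuous_const
    exact o1.inter (o2.inter (o3.inter o4))
  let F : C3 × ℂ → ℂ := fun q => G (Function.update q.1 i q.2) / (q.2 * (q.2 - q.1 i))
  have hF : DifferentiableOn ℂ F Ω := by
    have a1 : DifferentiableOn ℂ (fun q : C3 × ℂ => G (Function.update q.1 i q.2)) Ω := by
      refine hGR.comp (upd_diff i).differentiableOn ?_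
      rintro q ⟨h1, h2, -, -⟩
      rw [mem_ball_zero_iff]; exact upd_norm h1 h2
    have a2 : Differentiable ℂ (fun q : C3 × ℂ => q.2 * (q.2 - q.1 i)) := by fun_prop
    have a3 : DifferentiableOn ℂ (fun q : C3 × ℂ => (q.2 * (q.2 - q.1 i))⁻¹) Ω := by
      refine a2.differentiableOn.fun_inv ?_
      rintro q ⟨-, -, h3, h4⟩
      exact mul_ne_zero h3 h4
    simp only [F, div_eq_mul_inv]
    exact a1.fun_mul a3
  have hd := param_circle hΩ hF (r := ρ) (U := ball (0 : C3) ρ) isOpen_ball (by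
    intro p hp ξ hξ
    rw [abs_of_pos hρ0, mem_sphere_zero_iff_norm] at hξ
    rw [mem_ball_zero_iff] at hp
    refine ⟨hp.trans hρR, by rw [hξ]; exact hρR, ?_, ?_⟩
    · intro h0; change ξ = 0 at h0; rw [h0, norm_zero] at hξ; linarith
    · intro h0
      change ξ - p i = 0 at h0
      have h1 := coord_norm i hp
      rw [← sub_eq_zero.1 h0, hξ] at h1
      exact lt_irrefl _ h1)
  refine ⟨fun p => (2 * Real.pi * Complex.I : ℂ)⁻¹ * ∮ ξ in C(0, ρ), F (p, ξ), ?_, ?_⟩
  · filter_upwards [ball_mem_nhds (0 : C3) hρ0] with z hz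
    exact ((hd.differentiableAt (isOpen_ball.mem_nhds hz)).const_mul _)
  · filter_upwards [ball_mem_nhds (0 : C3) hρ0] with z hz
    rw [mem_ball_zero_iff] at hz
    have hs := slice_diff hGR (hz.trans hρR) i
    have hs' : DifferentiableOn ℂ (fun ζ : ℂ => G (Function.update z i ζ)) (closedBall 0 ρ) :=
      hs.mono (closedBall_subset_ball hρR)
    have c1 := hs'.circleIntegral_sub_inv_smul (w := z i) (by
      rw [mem_ball_zero_iff]; exact coord_norm i hz)
    have c2 := hs'.circleIntegral_sub_inv_smul (w := 0) (mem_ball_self hρ0)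
    rw [Function.update_eq_self] at c1
    have hcont : ContinuousOn (fun ζ : ℂ => G (Function.update z i ζ)) (sphere 0 ρ) :=
      hs'.continuousOn.mono sphere_subset_closedBall
    have hne0 : ∀ ζ ∈ sphere (0:ℂ) ρ, ζ ≠ 0 := by
      intro ζ hζ h0
      rw [mem_sphere_zero_iff_norm, h0, norm_zero] at hζ; linarith
    have hne1 : ∀ ζ ∈ sphere (0:ℂ) ρ, ζ - z i ≠ 0 := by
      intro ζ hζ h0
      rw [mem_sphere_zero_iff_norm] at hζ
      have h1 := coord_norm i hz
      rw [← sub_eq_zero.1 h0, hζ] at h1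
      exact lt_irrefl _ h1
    have i1 : CircleIntegrable (fun ζ : ℂ => (ζ - z i)⁻¹ • G (Function.update z i ζ)) 0 ρ := by
      apply ContinuousOn.circleIntegrable hρ0.le
      have k1 : ContinuousOn (fun ζ : ℂ => ζ - z i) (sphere 0 ρ) := by fun_prop
      exact (k1.inv₀ hne1).smul hcont
    have i2 : CircleIntegrable (fun ζ : ℂ => (ζ - 0)⁻¹ • G (Function.update z i ζ)) 0 ρ := by
      apply ContinuousOn.circleIntegrable hρ0.le
      have k1 : ContinuousOn (fun ζ : ℂ => ζ - 0) (sphere 0 ρ) := by fun_prop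
      exact (k1.inv₀ (fun ζ hζ => by simpa using hne0 ζ hζ)).smul hcont
    have key : (∮ ζ in C(0, ρ), (ζ - z i)⁻¹ • G (Function.update z i ζ)) -
        (∮ ζ in C(0, ρ), (ζ - 0)⁻¹ • G (Function.update z i ζ)) =
        z i * ∮ ζ in C(0, ρ), F (z, ζ) := by
      rw [← circleIntegral.integral_sub i1 i2, ← circleIntegral.integral_const_mul]
      apply circleIntegral.integral_congr hρ0.le
      intro ζ hζ
      have h0 := hne0 ζ hζ
      have h1 := hne1 ζ hζ
      simp only [F, smul_eq_mul, sub_zero]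
      field_simp
      ring
    rw [c1, c2] at key
    simp only [smul_eq_mul] at key
    have hpi : (2 * Real.pi * Complex.I : ℂ) ≠ 0 := by
      simp [Real.pi_ne_zero, Complex.I_ne_zero]
    rw [mul_left_comm, ← key]
    field_simp

/-- decomposition in even and odd part with respect to the first coordinate -/
lemma even_odd (f : C3 → ℂ) (hf : ∀ᶠ z in 𝓝 (0 : C3), DifferentiableAt ℂ f z)
    (h0 : fderiv ℂ f 0 (Pi.single 0 1) = 0) :
    ∃ Ev Od : C3 → ℂ, (∀ᶠ z in 𝓝 (0 : C3), DifferentiableAt ℂ Ev z) ∧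
      (∀ᶠ z in 𝓝 (0 : C3), DifferentiableAt ℂ Od z) ∧ Od 0 = 0 ∧
      ∀ᶠ z in 𝓝 (0 : C3), f z = Ev (Function.update z 0 (z 0 ^ 2)) +
        z 0 * Od (Function.update z 0 (z 0 ^ 2)) := by
  obtain ⟨R, hR, hR1, hfR⟩ := exists_ball hf
  set ρ : ℝ := R / 2 with hρ
  have hρ0 : 0 < ρ := by positivity
  have hρR : ρ < R := by linarith
  have hρ1 : ρ < 1 := by linarith
  have hρ2 : 0 < ρ ^ 2 := by positivity
  have hρ2' : ρ ^ 2 < ρ := by nlinarith
  let Ω : Set (C3 × ℂ) := {q | ‖q.1‖ < R ∧ ‖q.2‖ < R ∧ q.2 ^ 2 - q.1 0 ≠ 0}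
  have hΩ : IsOpen Ω := by
    have o1 : IsOpen {q : C3 × ℂ | ‖q.1‖ < R} := isOpen_lt continuous_fst.norm continuous_const
    have o2 : IsOpen {q : C3 × ℂ | ‖q.2‖ < R} := isOpen_lt continuous_snd.norm continuous_const
    have k4 : Continuous (fun q : C3 × ℂ => q.2 ^ 2 - q.1 0) := by fun_prop
    have o4 : IsOpen {q : C3 × ℂ | q.2 ^ 2 - q.1 0 ≠ 0} := isOpen_ne_fun k4 continuous_const
    exact o1.inter (o2.inter o4)
  let F1 : C3 × ℂ → ℂ := fun q => f (Function.update q.1 0 q.2) * q.2 / (q.2 ^ 2 - q.1 0)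
  let F2 : C3 × ℂ → ℂ := fun q => f (Function.update q.1 0 q.2) / (q.2 ^ 2 - q.1 0)
  have hfu : DifferentiableOn ℂ (fun q : C3 × ℂ => f (Function.update q.1 0 q.2)) Ω := by
    refine hfR.comp (upd_diff 0).differentiableOn ?_
    rintro q ⟨h1, h2, -⟩
    rw [mem_ball_zero_iff]; exact upd_norm h1 h2
  have a2 : Differentiable ℂ (fun q : C3 × ℂ => q.2 ^ 2 - q.1 0) := by fun_prop
  have a3 : Differentiable ℂ (fun q : C3 × ℂ => q.2) := by fun_prop
  have a4 : DifferentiableOn ℂ (fun q : C3 × ℂ => (q.2 ^ 2 - q.1 0)⁻¹) Ω := by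
    refine a2.differentiableOn.fun_inv ?_
    rintro q ⟨-, -, h4⟩
    exact h4
  have hF1 : DifferentiableOn ℂ F1 Ω := by
    simp only [F1, div_eq_mul_inv]
    exact (hfu.fun_mul a3.differentiableOn).fun_mul a4
  have hF2 : DifferentiableOn ℂ F2 Ω := by
    simp only [F2, div_eq_mul_inv]
    exact hfu.fun_mul a4
  have hsub : ∀ p ∈ ball (0 : C3) (ρ ^ 2), ∀ ξ ∈ sphere (0:ℂ) |ρ|, (p, ξ) ∈ Ω := by
    intro p hp ξ hξ
    rw [abs_of_pos hρ0, mem_sphere_zero_iff_norm] at hξ
    rw [mem_ball_zero_iff] at hp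
    refine ⟨by change ‖p‖ < R; linarith, by rw [hξ]; exact hρR, ?_⟩
    intro h0
    change ξ ^ 2 - p 0 = 0 at h0
    have h1 := coord_norm 0 hp
    rw [← sub_eq_zero.1 h0, norm_pow, hξ] at h1
    exact lt_irrefl _ h1
  have hd1 := param_circle hΩ hF1 (r := ρ) (U := ball (0 : C3) (ρ ^ 2)) isOpen_ball hsub
  have hd2 := param_circle hΩ hF2 (r := ρ) (U := ball (0 : C3) (ρ ^ 2)) isOpen_ball hsub
  refine ⟨fun p => (2 * Real.pi * Complex.I : ℂ)⁻¹ * ∮ ξ in C(0, ρ), F1 (p, ξ),
    fun p => (2 * Real.pi * Complex.I : ℂ)⁻¹ * ∮ ξ in C(0, ρ), F2 (p, ξ), ?_, ?_, ?_, ?_⟩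
  · filter_upwards [ball_mem_nhds (0 : C3) hρ2] with z hz
    exact ((hd1.differentiableAt (isOpen_ball.mem_nhds hz)).const_mul _)
  · filter_upwards [ball_mem_nhds (0 : C3) hρ2] with z hz
    exact ((hd2.differentiableAt (isOpen_ball.mem_nhds hz)).const_mul _)
  · -- the derivative at zero
    have hs := slice_diff hfR (z := 0) (by rw [norm_zero]; exact hR) 0
    have hs' : DifferentiableOn ℂ (fun ζ : ℂ => f (Function.update (0 : C3) 0 ζ)) (closedBall 0 ρ) :=
      hs.mono (closedBall_subset_ball hρR)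
    have h1 := hs'.deriv_eq_smul_circleIntegral hρ0
    have h2 : deriv (fun ζ : ℂ => f (Function.update (0 : C3) 0 ζ)) 0 = 0 := by
      have h3 : HasDerivAt (fun ζ : ℂ => ζ • (Pi.single 0 1 : C3)) (Pi.single 0 1 : C3) 0 := by
        simpa using (hasDerivAt_id (0:ℂ)).smul_const (Pi.single 0 1 : C3)
      have h4 : HasFDerivAt f (fderiv ℂ f 0) ((fun ζ : ℂ => ζ • (Pi.single 0 1 : C3)) 0) := by
        simp only [zero_smul]
        exact hf.self_of_nhds.hasFDerivAt
      have h5 := h4.comp_hasDerivAt (0:ℂ) h3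
      rw [h0] at h5
      have h6 : (fun ζ : ℂ => f (Function.update (0 : C3) 0 ζ)) =
          f ∘ (fun ζ : ℂ => ζ • (Pi.single 0 1 : C3)) := by
        funext ζ
        simp only [Function.comp_apply]
        congr 1
        funext j
        by_cases hj : j = 0
        · subst hj; simp
        · simp [Function.update_of_ne hj, Pi.single_eq_of_ne hj]
      rw [h6]; exact h5.deriv
    rw [h2, smul_zero] at h1
    have h3 : (∮ ξ in C(0, ρ), F2 (0, ξ)) =
        ∮ z in C(0, ρ), (1 / (z - 0) ^ 2) • f (Function.update (0 : C3) 0 z) := by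
      apply circleIntegral.integral_congr hρ0.le
      intro ζ hζ
      simp only [F2, Pi.zero_apply, sub_zero, smul_eq_mul]
      ring
    show (2 * Real.pi * Complex.I : ℂ)⁻¹ * ∮ ξ in C(0, ρ), F2 (0, ξ) = 0
    rw [h3, h1, mul_zero]
  · filter_upwards [ball_mem_nhds (0 : C3) hρ2] with z hz
    rw [mem_ball_zero_iff] at hz
    have hzρ : ‖z‖ < ρ := hz.trans hρ2'
    have hs := slice_diff hfR (hzρ.trans hρR) 0
    have hs' : DifferentiableOn ℂ (fun ζ : ℂ => f (Function.update z 0 ζ)) (closedBall 0 ρ) :=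
      hs.mono (closedBall_subset_ball hρR)
    have c1 := hs'.circleIntegral_sub_inv_smul (w := z 0) (by
      rw [mem_ball_zero_iff]; exact coord_norm 0 hzρ)
    rw [Function.update_eq_self] at c1
    have hcont : ContinuousOn (fun ζ : ℂ => f (Function.update z 0 ζ)) (sphere 0 ρ) :=
      hs'.continuousOn.mono sphere_subset_closedBall
    have hne : ∀ ζ ∈ sphere (0:ℂ) ρ, ζ ^ 2 - z 0 ^ 2 ≠ 0 := by
      intro ζ hζ h0
      rw [mem_sphere_zero_iff_norm] at hζ
      have h1 := coord_norm 0 hzρ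
      have h2 : ‖ζ ^ 2‖ = ‖z 0 ^ 2‖ := by rw [sub_eq_zero.1 h0]
      rw [norm_pow, norm_pow, hζ] at h2
      have := norm_nonneg (z 0)
      nlinarith
    have i1 : CircleIntegrable (fun ζ : ℂ => F1 (Function.update z 0 (z 0 ^ 2), ζ)) 0 ρ := by
      apply ContinuousOn.circleIntegrable hρ0.le
      simp only [F1, Function.update_idem, Function.update_self]
      have k1 : ContinuousOn (fun ζ : ℂ => ζ ^ 2 - z 0 ^ 2) (sphere 0 ρ) := by fun_prop
      exact (hcont.mul continuousOn_id).div k1 hne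
    have i2 : CircleIntegrable (fun ζ : ℂ => z 0 * F2 (Function.update z 0 (z 0 ^ 2), ζ)) 0 ρ := by
      apply ContinuousOn.circleIntegrable hρ0.le
      simp only [F2, Function.update_idem, Function.update_self]
      have k1 : ContinuousOn (fun ζ : ℂ => ζ ^ 2 - z 0 ^ 2) (sphere 0 ρ) := by fun_prop
      exact continuousOn_const.mul (hcont.div k1 hne)
    have key : (∮ ζ in C(0, ρ), (ζ - z 0)⁻¹ • f (Function.update z 0 ζ)) =
        (∮ ζ in C(0, ρ), F1 (Function.update z 0 (z 0 ^ 2), ζ)) +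
        z 0 * ∮ ζ in C(0, ρ), F2 (Function.update z 0 (z 0 ^ 2), ζ) := by
      rw [← circleIntegral.integral_const_mul, ← circleIntegral.integral_add i1 i2]
      apply circleIntegral.integral_congr hρ0.le
      intro ζ hζ
      have h1 := hne ζ hζ
      have h2 : ζ - z 0 ≠ 0 := by
        intro h; apply h1; rw [sub_eq_zero.1 h]; ring
      have h3 : ζ ^ 2 - z 0 ^ 2 = (ζ - z 0) * (ζ + z 0) := by ring
      have h4 : ζ + z 0 ≠ 0 := by
        intro h; apply h1; rw [h3, h, mul_zero]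
      simp only [F1, F2, smul_eq_mul, Function.update_idem, Function.update_self]
      rw [h3]
      field_simp
    rw [c1] at key
    simp only [smul_eq_mul] at key
    have hpi : (2 * Real.pi * Complex.I : ℂ) ≠ 0 := by
      simp [Real.pi_ne_zero, Complex.I_ne_zero]
    have : f z = (2 * Real.pi * Complex.I : ℂ)⁻¹ * ((2 * Real.pi * Complex.I : ℂ) * f z) := by
      field_simp
    rw [this, key]
    ring

/-- the main function lemma at the pinched point -/
lemma pinch_fun (f : C3 → ℂ) (hf : ∀ᶠ z in 𝓝 (0 : C3), DifferentiableAt ℂ f z)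
    (h0 : fderiv ℂ f 0 (Pi.single 0 1) = 0) :
    ∃ F : (Fin 6 → ℂ) → ℂ, (∀ᶠ y in 𝓝 (0 : Fin 6 → ℂ), DifferentiableAt ℂ F y) ∧
      ∀ᶠ z in 𝓝 (0 : C3), f z = F ![z 0 ^ 2, z 0 ^ 3, z 1, z 2, z 0 * z 1, z 0 * z 2] := by
  obtain ⟨Ev, Od, dE, dO, hO0, hfEO⟩ := even_odd f hf h0
  -- update maps
  have hu : ∀ i : Fin 3, Differentiable ℂ (fun z : C3 => Function.update z i 0) := by
    intro i
    have h1 : Differentiable ℂ (fun z : C3 => ((z, 0) : C3 × ℂ)) := by fun_prop
    exact (upd_diff i).comp h1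
  have hcomp : ∀ (G : C3 → ℂ) (i : Fin 3), (∀ᶠ z in 𝓝 (0 : C3), DifferentiableAt ℂ G z) →
      ∀ᶠ z in 𝓝 (0 : C3), DifferentiableAt ℂ (fun z => G (Function.update z i 0)) z := by
    intro G i hG
    have ht : Tendsto (fun z : C3 => Function.update z i 0) (𝓝 0) (𝓝 0) := by
      have := (hu i).continuous.tendsto (0 : C3)
      have e : Function.update (0 : C3) i 0 = 0 := by
        rw [Function.update_eq_self_iff]; rfl
      rwa [e] at this
    filter_upwards [ht.eventually hG] with z hz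
    exact hz.comp z (hu i z)
  obtain ⟨H1, dH1, e1⟩ := hadamard Od dO 0
  obtain ⟨H2, dH2, e2⟩ := hadamard (fun z => Od (Function.update z 0 0)) (hcomp Od 0 dO) 1
  obtain ⟨H3, dH3, e3⟩ := hadamard (fun z => Od (Function.update (Function.update z 1 0) 0 0))
    (hcomp (fun z => Od (Function.update z 0 0)) 1 (hcomp Od 0 dO)) 2
  have eO : ∀ᶠ z in 𝓝 (0 : C3), Od z = z 0 * H1 z + z 1 * H2 z + z 2 * H3 z := by
    filter_upwards [e1, e2, e3] with z h1 h2 h3
    have h4 : Function.update (Function.update (Function.update z 2 0) 1 0) 0 0 = (0 : C3) := by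
      funext j
      fin_cases j <;> simp [Function.update]
    rw [h4, hO0] at h3
    linear_combination h1 + h2 + h3
  have hsq : Tendsto (fun z : C3 => Function.update z 0 (z 0 ^ 2)) (𝓝 0) (𝓝 0) := by
    have h1 : Continuous (fun z : C3 => Function.update z 0 (z 0 ^ 2)) := by
      have h2 : Continuous (fun z : C3 => ((z, z 0 ^ 2) : C3 × ℂ)) := by fun_prop
      exact (upd_diff 0).continuous.comp h2
    have h2 := h1.tendsto (0 : C3)
    have e : Function.update (0 : C3) 0 ((0 : C3) 0 ^ 2) = 0 := by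
      rw [Function.update_eq_self_iff]; simp
    rwa [e] at h2
  let q : (Fin 6 → ℂ) → C3 := fun y => ![y 0, y 2, y 3]
  have hq : Differentiable ℂ q := by
    rw [differentiable_pi]
    intro j
    fin_cases j
    · exact (by fun_prop : Differentiable ℂ fun y : Fin 6 → ℂ => y 0)
    · exact (by fun_prop : Differentiable ℂ fun y : Fin 6 → ℂ => y 2)
    · exact (by fun_prop : Differentiable ℂ fun y : Fin 6 → ℂ => y 3)
  have hqt : Tendsto q (𝓝 0) (𝓝 0) := by
    have h2 := hq.continuous.tendsto (0 : Fin 6 → ℂ)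
    have e : q 0 = 0 := by
      funext j; fin_cases j <;> rfl
    rwa [e] at h2
  refine ⟨fun y => Ev (q y) + y 1 * H1 (q y) + y 4 * H2 (q y) + y 5 * H3 (q y), ?_, ?_⟩
  · filter_upwards [hqt.eventually dE, hqt.eventually dH1, hqt.eventually dH2,
      hqt.eventually dH3] with y a0 a1 a2 a3
    have b0 : DifferentiableAt ℂ (fun y => Ev (q y)) y := a0.comp y (hq y)
    have b1 : DifferentiableAt ℂ (fun y => H1 (q y)) y := a1.comp y (hq y)
    have b2 : DifferentiableAt ℂ (fun y => H2 (q y)) y := a2.comp y (hq y)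
    have b3 : DifferentiableAt ℂ (fun y => H3 (q y)) y := a3.comp y (hq y)
    have c1 : DifferentiableAt ℂ (fun y : Fin 6 → ℂ => y 1) y := by fun_prop
    have c4 : DifferentiableAt ℂ (fun y : Fin 6 → ℂ => y 4) y := by fun_prop
    have c5 : DifferentiableAt ℂ (fun y : Fin 6 → ℂ => y 5) y := by fun_prop
    exact ((b0.add (c1.mul b1)).add (c4.mul b2)).add (c5.mul b3)
  · filter_upwards [hfEO, hsq.eventually eO] with z h1 h2
    have hqz : q ![z 0 ^ 2, z 0 ^ 3, z 1, z 2, z 0 * z 1, z 0 * z 2] =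
        Function.update z 0 (z 0 ^ 2) := by
      funext j
      fin_cases j <;> simp [q, Function.update]
    rw [hqz, h1, h2]
    have u0 : Function.update z 0 (z 0 ^ 2) 0 = z 0 ^ 2 := Function.update_self ..
    have u1 : Function.update z 0 (z 0 ^ 2) 1 = z 1 := Function.update_of_ne (by decide) ..
    have u2 : Function.update z 0 (z 0 ^ 2) 2 = z 2 := Function.update_of_ne (by decide) ..
    rw [u0, u1, u2]
    have v1 : (![z 0 ^ 2, z 0 ^ 3, z 1, z 2, z 0 * z 1, z 0 * z 2] : Fin 6 → ℂ) 1 = z 0 ^ 3 := rfl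
    have v4 : (![z 0 ^ 2, z 0 ^ 3, z 1, z 2, z 0 * z 1, z 0 * z 2] : Fin 6 → ℂ) 4 = z 0 * z 1 := rfl
    have v5 : (![z 0 ^ 2, z 0 ^ 3, z 1, z 2, z 0 * z 1, z 0 * z 2] : Fin 6 → ℂ) 5 = z 0 * z 2 := rfl
    rw [v1, v4, v5]
    ring

end Pool.Agent.HopfPinch
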