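import Pool.Agent.HopfPinch.Geo4
import Pool.Agent.HopfPinch.Geo5
import Pool.Agent.HopfPinch.Geo6

set_option autoImplicit false

open Set Filter Topology Metric
open scoped Manifold

namespace Pool.Agent.HopfPinch

lemma psi_diff : Differentiable ℂ psi := by
  rw [differentiable_pi]
  intro i
  fin_cases i <;> simp [psi] <;> fun_prop

lemma pinch_comp {z : C3} (f : C3 → ℂ) (hf : ∀ᶠ w in 𝓝 z, DifferentiableAt ℂ f w)
    (g : (Fin 6 → ℂ) → C3) (hg : ∀ᶠ y in 𝓝 (psi z), DifferentiableAt ℂ g y)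
    (hgz : ∀ᶠ w in 𝓝 z, g (psi w) = w) :
    ∃ F : (Fin 6 → ℂ) → ℂ, (∀ᶠ y in 𝓝 (psi z), DifferentiableAt ℂ F y) ∧
      ∀ᶠ w in 𝓝 z, f w = F (psi w) := by
  refine ⟨f ∘ g, ?_, ?_⟩
  · have hgc : Tendsto g (𝓝 (psi z)) (𝓝 z) := by
      have h1 : ContinuousAt g (psi z) := hg.self_of_nhds.continuousAt
      have h2 : g (psi z) = z := hgz.self_of_nhds
      unfold ContinuousAt at h1
      rwa [h2] at h1
    filter_upwards [hg, hgc.eventually hf] with y h1 h2
    exact h2.comp y h1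
  · filter_upwards [hgz] with w hw
    simp only [Function.comp_apply, hw]

lemma pinch_ne_aux {z : C3} (i j : Fin 6) (hj : psi z j ≠ 0) (hij : ∀ w, psi w i = (w 0 - 1) * psi w j)
    (f : C3 → ℂ) (hf : ∀ᶠ w in 𝓝 z, DifferentiableAt ℂ f w) :
    ∃ F : (Fin 6 → ℂ) → ℂ, (∀ᶠ y in 𝓝 (psi z), DifferentiableAt ℂ F y) ∧
      ∀ᶠ w in 𝓝 z, f w = F (psi w) := by
  refine pinch_comp f hf (fun y => ![1 + y i / y j, y 2, y 3]) ?_ ?_
  · have h1 : ∀ᶠ y : Fin 6 → ℂ in 𝓝 (psi z), y j ≠ 0 :=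
      (continuous_apply j).continuousAt.eventually_ne hj
    filter_upwards [h1] with y hy
    rw [differentiableAt_pi]
    intro k
    fin_cases k
    · simp
      have h2 : DifferentiableAt ℂ (fun y : Fin 6 → ℂ => y i) y := differentiableAt_apply i y
      have h3 : DifferentiableAt ℂ (fun y : Fin 6 → ℂ => y j) y := differentiableAt_apply j y
      have h4 : DifferentiableAt ℂ (fun y : Fin 6 → ℂ => y i * (y j)⁻¹) y := h2.fun_mul (h3.fun_inv hy)
      simpa only [div_eq_mul_inv] using h4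
    · simp
      exact differentiableAt_apply 2 y
    · simp
      exact differentiableAt_apply 3 y
  · have h1 : ∀ᶠ w in 𝓝 z, psi w j ≠ 0 :=
      ((continuous_apply j).comp psi_diff.continuous).continuousAt.eventually_ne hj
    filter_upwards [h1] with w hw
    funext k
    fin_cases k
    · simp [hij w]
      field_simp
      ring
    · simp [psi]
    · simp [psi]

lemma pinch_fun_ne {z : C3} (hz : z ≠ e1) (f : C3 → ℂ)
    (hf : ∀ᶠ w in 𝓝 z, DifferentiableAt ℂ f w) :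
    ∃ F : (Fin 6 → ℂ) → ℂ, (∀ᶠ y in 𝓝 (psi z), DifferentiableAt ℂ F y) ∧
      ∀ᶠ w in 𝓝 z, f w = F (psi w) := by
  by_cases h0 : z 0 - 1 = 0
  · by_cases h1 : z 1 = 0
    · by_cases h2 : z 2 = 0
      · exfalso
        apply hz
        funext k
        fin_cases k
        · simp [e1]; exact sub_eq_zero.mp h0
        · simp [e1, h1]
        · simp [e1, h2]
      · exact pinch_ne_aux 5 3 (by simpa [psi] using h2) (fun w => by simp [psi]) f hf
    · exact pinch_ne_aux 4 2 (by simpa [psi] using h1) (fun w => by simp [psi]) f hf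
  · exact pinch_ne_aux 1 0 (by simpa [psi] using h0) (fun w => by simp [psi]; ring) f hf

lemma psi_e1 : psi e1 = 0 := by
  funext k
  fin_cases k <;> simp [psi, e1]

lemma pinch_fun_e1 (f : C3 → ℂ) (hf : ∀ᶠ w in 𝓝 e1, DifferentiableAt ℂ f w)
    (h0 : fderiv ℂ f e1 e1 = 0) :
    ∃ F : (Fin 6 → ℂ) → ℂ, (∀ᶠ y in 𝓝 (psi e1), DifferentiableAt ℂ F y) ∧
      ∀ᶠ w in 𝓝 e1, f w = F (psi w) := by
  have ht : Tendsto (fun v : C3 => e1 + v) (𝓝 0) (𝓝 e1) := by
    have : ContinuousAt (fun v : C3 => e1 + v) 0 := by fun_prop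
    unfold ContinuousAt at this
    simpa using this
  have h1 : ∀ᶠ v in 𝓝 (0 : C3), DifferentiableAt ℂ (fun v => f (e1 + v)) v := by
    filter_upwards [ht.eventually hf] with v hv
    exact hv.comp v (by fun_prop)
  have h2 : fderiv ℂ (fun v => f (e1 + v)) 0 (Pi.single 0 1) = 0 := by
    rw [fderiv_comp_add_left, add_zero]
    exact h0
  obtain ⟨F, hF1, hF2⟩ := pinch_fun (fun v => f (e1 + v)) h1 h2
  refine ⟨F, by rw [psi_e1]; exact hF1, ?_⟩
  have ht2 : Tendsto (fun w : C3 => w - e1) (𝓝 e1) (𝓝 0) := by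
    have : ContinuousAt (fun w : C3 => w - e1) e1 := by fun_prop
    unfold ContinuousAt at this
    simpa using this
  filter_upwards [ht2.eventually hF2] with w hw
  rw [add_sub_cancel] at hw
  rw [hw]
  congr 1
  unfold psi
  simp [e1]

lemma fderiv_psi_e1 : fderiv ℂ psi e1 e1 = 0 := by
  have h1 : lineDeriv ℂ psi e1 e1 = fderiv ℂ psi e1 e1 := (psi_diff e1).lineDeriv_eq_fderiv
  rw [← h1]
  unfold lineDeriv
  have h2 : (fun t : ℂ => psi (e1 + t • e1)) = fun t : ℂ => ![t ^ 2, t ^ 3, 0, 0, 0, 0] := by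
    funext t
    unfold psi
    simp [e1]
  rw [h2]
  apply HasDerivAt.deriv
  rw [hasDerivAt_pi]
  intro k
  fin_cases k
  · simpa using (hasDerivAt_pow 2 (0 : ℂ))
  · simpa using (hasDerivAt_pow 3 (0 : ℂ))
  · simpa using (hasDerivAt_const (0 : ℂ) (0 : ℂ))
  · simpa using (hasDerivAt_const (0 : ℂ) (0 : ℂ))
  · simpa using (hasDerivAt_const (0 : ℂ) (0 : ℂ))
  · simpa using (hasDerivAt_const (0 : ℂ) (0 : ℂ))

lemma pinch_fun_conv {z : C3} (F : (Fin 6 → ℂ) → ℂ)
    (hF : ∀ᶠ y in 𝓝 (psi z), DifferentiableAt ℂ F y) :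
    (∀ᶠ w in 𝓝 z, DifferentiableAt ℂ (F ∘ psi) w) ∧
      (z = e1 → fderiv ℂ (F ∘ psi) z e1 = 0) := by
  refine ⟨?_, ?_⟩
  · filter_upwards [psi_diff.continuous.continuousAt.eventually hF] with w hw
    exact hw.comp w (psi_diff w)
  · rintro rfl
    rw [fderiv_comp _ hF.self_of_nhds (psi_diff e1), ContinuousLinearMap.comp_apply, fderiv_psi_e1, map_zero]

lemma chart_pinch : ∃ (U : Set HX) (hU : IsOpen U), pr e1 ∈ U ∧
      ∃ (n : ℕ) (D A : Set (Fin n → ℂ)), IsAnalyticSubset D A ∧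
        (pinched.restrict U hU).Isomorphic (modelSheaf A) := by
  obtain ⟨r, hr⟩ := good_exists e1_ne
  obtain ⟨h, hh⟩ := psi_homeo hr.pos
  refine ⟨pr '' ball e1 r, hr.isOpen, mem_image_of_mem pr (mem_ball_self hr.pos), 6, PD r, PA r,
    PA_analytic r, chart_of hr h ?_⟩
  intro z hz f
  set e : C3 → ℂ := Function.extend Subtype.val (f ∘ h) 0 with he
  have hE : ∀ w : ball e1 r, e w = f (h w) := fun w => by
    rw [he, Subtype.val_injective.extend_apply]; rfl
  constructor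
  · rintro ⟨F, hF, hFf⟩
    rw [hh z hz] at hF
    have h1 : ∀ᶠ w : ball e1 r in 𝓝 ⟨z, hz⟩, f (h w) = F (h w) := h.continuous.continuousAt.eventually hFf
    have h2 : e =ᶠ[𝓝 z] F ∘ psi := by
      rw [EventuallyEq, ← map_nhds_subtype_coe_eq_nhds hz (isOpen_ball.mem_nhds hz), eventually_map]
      filter_upwards [h1] with w hw
      rw [hE, hw, hh w.1 w.2]; rfl
    obtain ⟨h3, h4⟩ := pinch_fun_conv F hF
    refine ⟨?_, ?_⟩
    · filter_upwards [h3, h2.eventuallyEq_nhds] with w hw1 hw2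
      exact hw1.congr_of_eventuallyEq hw2
    · intro ho
      have hze := hr.orb z hz ho
      rw [h2.fderiv_eq]
      exact h4 hze
  · rintro ⟨hd, ho⟩
    obtain ⟨F, hF, hFe⟩ : ∃ F : (Fin 6 → ℂ) → ℂ, (∀ᶠ y in 𝓝 (psi z), DifferentiableAt ℂ F y) ∧
        ∀ᶠ w in 𝓝 z, e w = F (psi w) := by
      rcases eq_or_ne z e1 with hze | hze
      · subst hze
        exact pinch_fun_e1 e hd (ho ⟨0, by simp⟩)
      · exact pinch_fun_ne hze e hd
    refine ⟨F, by rw [hh]; exact hF, ?_⟩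
    have h1 : ∀ᶠ w : ball e1 r in 𝓝 ⟨z, hz⟩, e w = F (psi w) := by
      have h0 : Tendsto (Subtype.val : ball e1 r → C3) (𝓝 ⟨z, hz⟩) (𝓝 z) :=
        continuous_subtype_val.continuousAt
      exact h0.eventually hFe
    have h2 : Tendsto h.symm (𝓝 (h ⟨z, hz⟩)) (𝓝 ⟨z, hz⟩) := by
      have := h.symm.continuous.continuousAt (x := h ⟨z, hz⟩)
      unfold ContinuousAt at this
      rwa [Homeomorph.symm_apply_apply] at this
    filter_upwards [h2.eventually h1] with y hy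
    rw [hE, Homeomorph.apply_symm_apply] at hy
    rw [hy, ← hh (h.symm y).1 (h.symm y).2]
    congr 1
    have : h ⟨(h.symm y).1, (h.symm y).2⟩ = y := h.apply_symm_apply y
    rw [this]

end Pool.Agent.HopfPinch
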