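import Pool.Agent.HopfPinch.Geo7

set_option autoImplicit false

open Set Filter Topology Metric
open scoped Manifold

namespace Pool.Agent.HopfPinch

theorem pinched_isReduced : IsReducedComplexSpace pinched := by
  refine ⟨inferInstance, inferInstance, fun x => ?_⟩
  obtain ⟨z, hz, rfl⟩ := pr_surj x
  by_cases ho : z ∈ orb
  · obtain ⟨k, rfl⟩ := ho
    rw [pr_smul e1_ne k]
    exact chart_pinch
  · exact chart_regular hz ho

end Pool.Agent.HopfPinch
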