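import Pool.Agent.HopfPinch.Geo4

set_option autoImplicit false

open Set Filter Topology Metric
open scoped Manifold

namespace Pool.Agent.HopfPinch

section Emb

variable {N : ℕ} {M : Type*} [TopologicalSpace M] [ChartedSpace (Fin N → ℂ) M]

lemma emb_pull {Y : Set M} (e : HX ≃ₜ Y)
    (he : ∀ (x : HX) (f : Y → ℂ), (subvarietySheaf N Y).hol (e x) f ↔ pinched.hol x (f ∘ e))
    {z : C3} (hz : z ≠ 0) (F : M → ℂ)
    (hF : ∀ᶠ y in 𝓝 ((e (pr z) : Y) : M), MDifferentiableAt 𝓘(ℂ, Fin N → ℂ) 𝓘(ℂ, ℂ) F y) :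
    (∀ᶠ w in 𝓝 z, DifferentiableAt ℂ (fun w => F (e (pr w))) w) ∧
      (z ∈ orb → fderiv ℂ (fun w => F (e (pr w))) z e1 = 0) := by
  have h1 : (subvarietySheaf N Y).hol (e (pr z)) (fun y : Y => F y) :=
    ⟨F, hF, Eventually.of_forall (fun _ => rfl)⟩
  have h2 : PHol (pr z) ((fun y : Y => F y) ∘ e) := (he (pr z) _).1 h1
  exact (PHol_iff hz).1 h2

lemma emb_coord {Y : Set M} (e : HX ≃ₜ Y)
    (he : ∀ (x : HX) (f : Y → ℂ), (subvarietySheaf N Y).hol (e x) f ↔ pinched.hol x (f ∘ e))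
    {z : C3} (hz : z ≠ 0) (ho : z ∉ orb) :
    ∃ F : M → ℂ, (∀ᶠ y in 𝓝 ((e (pr z) : Y) : M), MDifferentiableAt 𝓘(ℂ, Fin N → ℂ) 𝓘(ℂ, ℂ) F y) ∧
      ∀ᶠ w in 𝓝 z, F (e (pr w)) = w 0 := by
  classical
  obtain ⟨r, hr⟩ := good_exists hz
  obtain ⟨ε, hε⟩ := hr.homeo
  obtain ⟨f, hfd⟩ : ∃ f : HX → ℂ, f = fun y => if h : y ∈ pr '' ball z r then
    (ε ⟨y, h⟩ : C3) 0 else 0 := ⟨_, rfl⟩
  have hf : ∀ w ∈ ball z r, f (pr w) = w 0 := by
    intro w hw
    rw [hfd]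
    simp only
    rw [dif_pos (mem_image_of_mem pr hw), hε w hw]
  have hev : (f ∘ pr) =ᶠ[𝓝 z] fun w => w 0 := by
    filter_upwards [ball_mem_nhds z hr.pos] with w hw
    exact hf w hw
  have hP : PHol (pr z) f := by
    refine (PHol_iff hz).2 ⟨?_, fun h => absurd h ho⟩
    filter_upwards [hev.eventually_nhds] with w hw
    rw [Filter.EventuallyEq.differentiableAt_iff hw]
    fun_prop
  have hfe : (f ∘ e.symm) ∘ e = f := by
    funext x
    simp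
  have h1 : (subvarietySheaf N Y).hol (e (pr z)) (f ∘ e.symm) := by
    rw [he, hfe]
    exact hP
  obtain ⟨F, hF, hfF⟩ := h1
  refine ⟨F, hF, ?_⟩
  have h2 := (e.continuous.continuousAt.comp (pr_continuousAt hz)).eventually hfF
  filter_upwards [h2, hev] with w h3 h4
  have h5 : (f ∘ e.symm) (e (pr w)) = F (e (pr w)) := h3
  rw [← h5]
  simpa using h4

end Emb

end Pool.Agent.HopfPinch
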