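import Pool.Agent.HopfPinch.Geo8
import Pool.Agent.HopfPinch.Geo9
import Pool.Agent.HopfPinch.Geo10
import Pool.Agent.HopfPinch.Core

set_option autoImplicit false

open Set Filter Topology Metric
open scoped Manifold

namespace Pool.Agent.HopfPinch

theorem no_embedding (N : ℕ) (M : Type*) [TopologicalSpace M] [T2Space M]
    [SecondCountableTopology M] [ChartedSpace (Fin N → ℂ) M]
    [IsManifold 𝓘(ℂ, Fin N → ℂ) 1 M] (Y : Set M) (hY : IsSubvariety N Y)
    (h : pinched.Isomorphic (subvarietySheaf N Y)) : False := by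
  obtain ⟨e, he⟩ := h
  have hc : ∀ z : C3, z ≠ 0 → ContinuousAt (fun z => ((e (pr z) : Y) : M)) z := by
    intro z hz
    exact (continuous_subtype_val.comp e.continuous).continuousAt.comp (pr_continuousAt hz)
  have hp : ∀ z : C3, z ≠ 0 → ∀ F : M → ℂ,
      (∀ᶠ y in 𝓝 ((fun z => ((e (pr z) : Y) : M)) z),
        MDifferentiableAt 𝓘(ℂ, Fin N → ℂ) 𝓘(ℂ, ℂ) F y) →
      (∀ᶠ w in 𝓝 z, DifferentiableAt ℂ (fun w => F ((fun z => ((e (pr z) : Y) : M)) w)) w) ∧
        (z ∈ orb → fderiv ℂ (fun w => F ((fun z => ((e (pr z) : Y) : M)) w)) z e1 = 0) := by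
    intro z hz F hF
    exact emb_pull e he hz F hF
  have hvec : ∀ c : ℂ, (![c, 0, 0] : C3) = c • e1 := by
    intro c
    ext i
    fin_cases i <;> simp [e1]
  refine Pool.Agent.HP.core (N := N) (I := M) (fun q => dU N (fun z => ((e (pr z) : Y) : M)) q)
    (fun q => dU_open hc q) (fun q hq => hq.1 rfl)
    (fun z hz => ⟨((e (pr z) : Y) : M), hz, mem_chart_source _ _⟩)
    (fun q r => dg N (fun z => ((e (pr z) : Y) : M)) q r)
    (fun q r => dg_diff hc hp q r) (fun q z hz => dg_one q z hz)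
    (fun q r t z hz => dg_mul q r t z hz)
    (fun q => ds N (fun z => ((e (pr z) : Y) : M)) q)
    (fun q => ds_diff hc hp q) (fun q r z hz => ds_trans hc hp q r z hz) ?_ ?_
  · intro k q hq
    exact ds_zero hc hp q _ hq ⟨k, hvec _⟩
  · intro c hc0 hck q hq
    refine ds_ne hc hp q _ hq ?_
    refine emb_coord e he hq.1 ?_
    rintro ⟨k, hk⟩
    apply hck k
    have := congrFun hk 0
    simpa [e1] using this

theorem result : ∃ (X : Type) (_ : TopologicalSpace X) (O : FunSheaf X),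
    CompactSpace X ∧ IsReducedComplexSpace O ∧
    ∀ (N : ℕ) (M : Type*) [TopologicalSpace M] [T2Space M] [SecondCountableTopology M]
      [ChartedSpace (Fin N → ℂ) M] [IsManifold 𝓘(ℂ, Fin N → ℂ) 1 M] (Y : Set M),
      IsSubvariety N Y → ¬ O.Isomorphic (subvarietySheaf N Y) := by
  refine ⟨HX, inferInstance, pinched, HX_compact, pinched_isReduced, ?_⟩
  intro N M _ _ _ _ _ Y hY h
  exact no_embedding N M Y hY h

end Pool.Agent.HopfPinch
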