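import Pool.Agent.HopfPinch.Ringed
import Pool.Agent.HopfPinch.Geo3

set_option autoImplicit false

open Set Filter Topology Metric
open scoped Manifold

namespace Pool.Agent.HopfPinch

/-- good function sheaves: sheaves of algebras of continuous functions, closed under inverses -/
structure Nice {X : Type*} [TopologicalSpace X] (O : FunSheaf X) : Prop where
  const : ∀ x (c : ℂ), O.hol x (fun _ => c)
  add : ∀ {x f g}, O.hol x f → O.hol x g → O.hol x (f + g)
  mul : ∀ {x f g}, O.hol x f → O.hol x g → O.hol x (f * g)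
  cont : ∀ {x f}, O.hol x f → ContinuousAt f x
  inv : ∀ {x f}, O.hol x f → f x ≠ 0 → O.hol x (fun y => (f y)⁻¹)


theorem nice_subvariety (N : ℕ) {M : Type*} [TopologicalSpace M] [ChartedSpace (Fin N → ℂ) M]
    (Y : Set M) : Nice (subvarietySheaf N Y) := by
  refine ⟨?_, ?_, ?_, ?_, ?_⟩
  · intro x c
    exact ⟨fun _ => c, Filter.Eventually.of_forall fun z => mdifferentiableAt_const,
      Filter.Eventually.of_forall fun y => rfl⟩
  · rintro x f g ⟨F, hF, hf⟩ ⟨G, hG, hg⟩
    refine ⟨F + G, ?_, ?_⟩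
    · filter_upwards [hF, hG] with z h1 h2
      exact h1.add h2
    · filter_upwards [hf, hg] with y h1 h2
      simp only [Pi.add_apply, h1, h2]
  · rintro x f g ⟨F, hF, hf⟩ ⟨G, hG, hg⟩
    refine ⟨F * G, ?_, ?_⟩
    · filter_upwards [hF, hG] with z h1 h2
      exact h1.mul h2
    · filter_upwards [hf, hg] with y h1 h2
      simp only [Pi.mul_apply, h1, h2]
  · rintro x f ⟨F, hF, hf⟩
    have h1 : ContinuousAt F (x : M) := hF.self_of_nhds.continuousAt
    have h2 : ContinuousAt (fun y : Y => F y) x :=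
      ContinuousAt.comp (f := (Subtype.val : Y → M)) h1 continuous_subtype_val.continuousAt
    exact h2.congr (by filter_upwards [hf] with y hy using hy.symm)
  · rintro x f ⟨F, hF, hf⟩ hx
    have h1 : ContinuousAt F (x : M) := hF.self_of_nhds.continuousAt
    have h0 : F (x : M) ≠ 0 := by rwa [← hf.self_of_nhds]
    have hne : ∀ᶠ z in 𝓝 (x : M), F z ≠ 0 := h1.eventually_ne h0
    refine ⟨fun z => (F z)⁻¹, ?_, ?_⟩
    · filter_upwards [hF, hne] with z hz hz0
      have hd : MDifferentiableAt 𝓘(ℂ, ℂ) 𝓘(ℂ, ℂ) (fun w : ℂ => w⁻¹) (F z) :=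
        (differentiableAt_inv hz0).mdifferentiableAt
      exact MDifferentiableAt.comp (g := fun w : ℂ => w⁻¹) z hd hz
    · filter_upwards [hf] with y hy
      rw [hy]

end Pool.Agent.HopfPinch
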