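import Pool.Agent.HopfPinch.RG1

set_option autoImplicit false

open Set Filter Topology Metric
open scoped Manifold

namespace Pool.Agent.HopfPinch

theorem nice_pinched : Nice pinched where
  const := by
    intro x c z hz hzx
    have h : ((fun _ : HX => c) ∘ pr) = fun _ : C3 => c := rfl
    refine ⟨Eventually.of_forall fun w => ?_, fun _ => ?_⟩
    · rw [h]
      exact differentiableAt_const c
    · rw [h]
      simp
  add := by
    intro x f g hf hg z hz hzx
    obtain ⟨hf1, hf2⟩ := hf z hz hzx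
    obtain ⟨hg1, hg2⟩ := hg z hz hzx
    refine ⟨?_, fun ho => ?_⟩
    · filter_upwards [hf1, hg1] with w h1 h2
      exact h1.add h2
    · have h3 : fderiv ℂ ((f + g) ∘ pr) z = fderiv ℂ (f ∘ pr) z + fderiv ℂ (g ∘ pr) z :=
        fderiv_add hf1.self_of_nhds hg1.self_of_nhds
      rw [h3, ContinuousLinearMap.add_apply, hf2 ho, hg2 ho, add_zero]
  mul := by
    intro x f g hf hg z hz hzx
    obtain ⟨hf1, hf2⟩ := hf z hz hzx
    obtain ⟨hg1, hg2⟩ := hg z hz hzx
    refine ⟨?_, fun ho => ?_⟩
    · filter_upwards [hf1, hg1] with w h1 h2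
      exact h1.mul h2
    · have h3 : fderiv ℂ ((f * g) ∘ pr) z =
          (f ∘ pr) z • fderiv ℂ (g ∘ pr) z + (g ∘ pr) z • fderiv ℂ (f ∘ pr) z :=
        fderiv_mul hf1.self_of_nhds hg1.self_of_nhds
      rw [h3, ContinuousLinearMap.add_apply, ContinuousLinearMap.smul_apply,
        ContinuousLinearMap.smul_apply, hf2 ho, hg2 ho, smul_zero, smul_zero, add_zero]
  cont := by
    intro x f hf
    obtain ⟨z, hz, rfl⟩ := pr_surj x
    obtain ⟨h1, -⟩ := hf z hz rfl
    have h2 : ContinuousAt (f ∘ pr) z := h1.self_of_nhds.continuousAt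
    unfold ContinuousAt
    rw [← pr_map_nhds hz, tendsto_map'_iff]
    exact h2
  inv := by
    intro x f hf hfx z hz hzx
    obtain ⟨hf1, hf2⟩ := hf z hz hzx
    have hfz : (f ∘ pr) z ≠ 0 := by
      rw [Function.comp_apply, hzx]
      exact hfx
    have hne : ∀ᶠ w in 𝓝 z, (f ∘ pr) w ≠ 0 :=
      hf1.self_of_nhds.continuousAt.eventually_ne hfz
    refine ⟨?_, fun ho => ?_⟩
    · filter_upwards [hf1, hne] with w h1 h2
      exact h1.inv h2
    · have h3 : HasFDerivAt (fun w => ((f ∘ pr) w)⁻¹)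
          ((-((f ∘ pr) z ^ 2)⁻¹) • fderiv ℂ (f ∘ pr) z) z :=
        (hasDerivAt_inv hfz).comp_hasFDerivAt z hf1.self_of_nhds.hasFDerivAt
      have h4 : fderiv ℂ ((fun y => (f y)⁻¹) ∘ pr) z =
          (-((f ∘ pr) z ^ 2)⁻¹) • fderiv ℂ (f ∘ pr) z := h3.fderiv
      rw [h4, ContinuousLinearMap.smul_apply, hf2 ho, smul_zero]

/-- global sections are constant -/
theorem pinched_global (f : HX → ℂ) (hf : ∀ x, pinched.hol x f) : ∃ c : ℂ, ∀ x, f x = c := by
  have hcont : Continuous f := continuous_iff_continuousAt.2 fun x => nice_pinched.cont (hf x)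
  obtain ⟨C, hC⟩ := isCompact_univ.exists_bound_of_continuousOn hcont.continuousOn
  have hdiff : ∀ z : C3, z ≠ 0 → DifferentiableAt ℂ (f ∘ pr) z :=
    fun z hz => (hf (pr z) z hz rfl).1.self_of_nhds
  have hline : ∀ z w : C3, (∀ t : ℂ, z + t • (w - z) ≠ 0) → f (pr z) = f (pr w) := by
    intro z w hzw
    have hg : Differentiable ℂ (fun t : ℂ => (f ∘ pr) (z + t • (w - z))) := by
      intro t
      have h1 : DifferentiableAt ℂ (fun t : ℂ => z + t • (w - z)) t :=
        (differentiableAt_const z).add (differentiableAt_id.smul_const (w - z))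
      exact DifferentiableAt.comp (g := f ∘ pr) (f := fun t : ℂ => z + t • (w - z)) t
        (hdiff _ (hzw t)) h1
    have hb : Bornology.IsBounded (Set.range (fun t : ℂ => (f ∘ pr) (z + t • (w - z)))) := by
      rw [isBounded_iff_forall_norm_le]
      refine ⟨C, ?_⟩
      rintro _ ⟨t, rfl⟩
      exact hC _ (mem_univ _)
    have h := hg.apply_eq_apply_of_bounded hb 0 1
    have h0 : z + (0 : ℂ) • (w - z) = z := by rw [zero_smul, add_zero]
    have h1 : z + (1 : ℂ) • (w - z) = w := by rw [one_smul]; abel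
    simp only [h0, h1] at h
    exact h
  have hind : ∀ z w : C3, z ≠ 0 → (∀ c : ℂ, w ≠ c • z) → f (pr z) = f (pr w) := by
    intro z w hz hw
    apply hline
    intro t ht
    by_cases h0 : t = 0
    · rw [h0, zero_smul, add_zero] at ht
      exact hz ht
    · refine hw (-((1 - t) / t)) ?_
      have h1 : t • w = -((1 - t) • z) := by
        have h2 : z + t • (w - z) = (1 - t) • z + t • w := by
          rw [smul_sub, sub_smul, one_smul]; abel
        rw [h2] at ht
        exact eq_neg_of_add_eq_zero_right ht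
      have h3 : w = t⁻¹ • (t • w) := by rw [smul_smul, inv_mul_cancel₀ h0, one_smul]
      rw [h3, h1, smul_neg, smul_smul, neg_smul, div_eq_mul_inv, mul_comm (1 - t)]
  have hex : ∀ z : C3, ∃ v : C3, ∀ c : ℂ, v ≠ c • z := by
    intro z
    by_contra hcon
    push Not at hcon
    obtain ⟨a, ha⟩ := hcon (Pi.single 0 1)
    obtain ⟨b, hb⟩ := hcon (Pi.single 1 1)
    have h1 := congrFun ha 0
    have h2 := congrFun ha 1
    have h3 := congrFun hb 1
    simp only [Pi.smul_apply, smul_eq_mul, Pi.single_eq_same] at h1 h3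
    rw [Pi.smul_apply, smul_eq_mul, Pi.single_eq_of_ne (by decide)] at h2
    have h4 : a ≠ 0 := by
      intro h
      rw [h, zero_mul] at h1
      exact one_ne_zero h1
    have h5 : z 1 = 0 := by
      rcases mul_eq_zero.1 h2.symm with h | h
      · exact absurd h h4
      · exact h
    rw [h5, mul_zero] at h3
    exact one_ne_zero h3
  refine ⟨f (pr e1), fun x => ?_⟩
  obtain ⟨z, hz, rfl⟩ := pr_surj x
  by_cases h : ∀ c : ℂ, e1 ≠ c • z
  · exact hind z e1 hz h
  · push Not at h
    obtain ⟨c, hc⟩ := h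
    obtain ⟨v, hv⟩ := hex z
    rw [hind z v hz hv, hind e1 v e1_ne (fun c' => by rw [hc, smul_smul]; exact hv _)]

end Pool.Agent.HopfPinch
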