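import Pool.Agent.HopfPinch.RG1

set_option autoImplicit false

open Set Filter Topology Metric
open scoped Manifold

namespace Pool.Agent.HopfPinch

/-- coordinatewise complex conjugation -/
noncomputable def kap (z : C3) : C3 := fun i => (starRingEnd ℂ) (z i)

lemma kap_kap (z : C3) : kap (kap z) = z := by
  funext i; simp [kap]

lemma kap_zero : kap 0 = 0 := by
  funext i; simp [kap]

lemma kap_ne {z : C3} (hz : z ≠ 0) : kap z ≠ 0 := by
  intro h
  apply hz
  rw [← kap_kap z, h, kap_zero]

lemma kap_zsmul (k : ℤ) (z : C3) : kap ((2 : ℂ) ^ k • z) = (2 : ℂ) ^ k • kap z := by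
  funext i
  simp only [kap, Pi.smul_apply, smul_eq_mul, map_mul, map_zpow₀]
  congr 2
  exact Complex.conj_ofNat 2

lemma kap_e1 : kap e1 = e1 := by
  funext i
  simp only [kap, e1]
  by_cases h : i = 0
  · subst h; simp
  · simp [Pi.single_eq_of_ne h]

lemma kap_sub (z w : C3) : kap (z - w) = kap z - kap w := by
  funext i; simp [kap]

lemma kap_norm (z : C3) : ‖kap z‖ = ‖z‖ := by
  rw [Pi.norm_def, Pi.norm_def]
  congr 2
  funext i
  simp only [kap]
  apply NNReal.eq
  simp

lemma kap_continuous : Continuous kap := by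
  refine continuous_pi fun i => ?_
  exact Complex.continuous_conj.comp (continuous_apply i)

lemma kap_orb {z : C3} (hz : z ∈ orb) : kap z ∈ orb := by
  obtain ⟨k, rfl⟩ := hz
  exact ⟨k, by rw [kap_zsmul, kap_e1]⟩

/-- the conjugate of a linear form -/
noncomputable def conjL (L : C3 →L[ℂ] ℂ) : C3 →L[ℂ] ℂ :=
  LinearMap.toContinuousLinearMap
    { toFun := fun v => (starRingEnd ℂ) (L (kap v))
      map_add' := by
        intro v w
        have : kap (v + w) = kap v + kap w := by funext i; simp [kap]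
        rw [this, map_add, map_add]
      map_smul' := by
        intro a v
        have : kap (a • v) = (starRingEnd ℂ) a • kap v := by funext i; simp [kap]
        rw [this, map_smul, smul_eq_mul, map_mul]
        simp }

lemma conjL_apply (L : C3 →L[ℂ] ℂ) (v : C3) : conjL L v = (starRingEnd ℂ) (L (kap v)) := rfl

lemma hasFDerivAt_conj {F : C3 → ℂ} {L : C3 →L[ℂ] ℂ} {w : C3} (h : HasFDerivAt F L (kap w)) :
    HasFDerivAt (fun v => (starRingEnd ℂ) (F (kap v))) (conjL L) w := by
  apply HasFDerivAt.of_isLittleO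
  have h1 := h.isLittleO
  have h2 := h1.comp_tendsto (kap_continuous.tendsto w)
  rw [← Asymptotics.isLittleO_norm_norm] at h2 ⊢
  refine h2.congr ?_ ?_
  · intro v
    simp only [Function.comp_apply]
    rw [conjL_apply, kap_sub, ← map_sub, ← map_sub]
    exact (RCLike.norm_conj _).symm
  · intro v
    simp only [Function.comp_apply]
    rw [← kap_sub, kap_norm]

/-- the conjugation on `HX` -/
noncomputable def cc (x : HX) : HX := pr (kap (Classical.choose (pr_surj x)))

lemma cc_pr {z : C3} (hz : z ≠ 0) : cc (pr z) = pr (kap z) := by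
  obtain ⟨hw, hwx⟩ := Classical.choose_spec (pr_surj (pr z))
  obtain ⟨k, hk⟩ := (pr_eq_iff hw hz).1 hwx
  unfold cc
  conv_rhs => rw [hk]
  rw [kap_zsmul, pr_smul (kap_ne hw)]

lemma cc_cc (x : HX) : cc (cc x) = x := by
  obtain ⟨z, hz, rfl⟩ := pr_surj x
  rw [cc_pr hz, cc_pr (kap_ne hz), kap_kap]

lemma cc_continuous : Continuous cc := by
  rw [continuous_iff_continuousAt]
  intro x
  obtain ⟨z, hz, rfl⟩ := pr_surj x
  unfold ContinuousAt
  rw [← pr_map_nhds hz, tendsto_map'_iff, cc_pr hz]
  have h1 : Tendsto (pr ∘ kap) (𝓝 z) (𝓝 (pr (kap z))) :=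
    (pr_continuousAt (kap_ne hz)).tendsto.comp (kap_continuous.tendsto z)
  refine h1.congr' ?_
  filter_upwards [isOpen_ne.mem_nhds hz] with w hw
  simp only [Function.comp_apply]
  exact (cc_pr hw).symm

/-- the conjugation on `HX` as a homeomorphism -/
noncomputable def ccH : HX ≃ₜ HX where
  toFun := cc
  invFun := cc
  left_inv := cc_cc
  right_inv := cc_cc
  continuous_toFun := cc_continuous
  continuous_invFun := cc_continuous

lemma PHol_cc {x : HX} {f : HX → ℂ} (hf : PHol x f) :
    PHol (cc x) (fun y => (starRingEnd ℂ) (f (cc y))) := by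
  obtain ⟨z, hz, rfl⟩ := pr_surj x
  rw [cc_pr hz, PHol_iff (kap_ne hz)]
  rw [PHol_iff hz] at hf
  have key : ∀ w : C3, w ≠ 0 → ((fun y => (starRingEnd ℂ) (f (cc y))) ∘ pr) =ᶠ[𝓝 w]
      (fun v => (starRingEnd ℂ) ((f ∘ pr) (kap v))) := by
    intro w hw
    filter_upwards [isOpen_ne.mem_nhds hw] with v hv
    simp only [Function.comp_apply]
    rw [cc_pr hv]
  refine ⟨?_, ?_⟩
  · have h1 : ∀ᶠ w in 𝓝 (kap z), DifferentiableAt ℂ (f ∘ pr) (kap w) := by
      have := kap_continuous.tendsto (kap z)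
      rw [kap_kap] at this
      exact this.eventually hf.1
    filter_upwards [h1, isOpen_ne.mem_nhds (kap_ne hz)] with w hw hw0
    exact ((hasFDerivAt_conj hw.hasFDerivAt).differentiableAt).congr_of_eventuallyEq (key w hw0)
  · intro ho
    have ho' : z ∈ orb := by
      have := kap_orb ho
      rwa [kap_kap] at this
    have h0 := hf.2 ho'
    have hd : DifferentiableAt ℂ (f ∘ pr) (kap (kap z)) := by
      rw [kap_kap]; exact hf.1.self_of_nhds
    have h1 := hasFDerivAt_conj hd.hasFDerivAt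
    have h2 := h1.congr_of_eventuallyEq (key (kap z) (kap_ne hz))
    rw [h2.fderiv, conjL_apply, kap_e1, kap_kap, h0, map_zero]

/-- there is a section which is locally an open map -/
theorem pinched_open_section : ∃ (x0 : HX) (u : HX → ℂ), (∀ᶠ y in 𝓝 x0, pinched.hol y u) ∧
    map u (𝓝 x0) = 𝓝 (u x0) := by
  set z0 : C3 := Pi.single 1 1 with hz0def
  have hz0 : z0 ≠ 0 := by
    intro h
    have := congrFun h 1
    simp [hz0def] at this
  have hz0o : z0 ∉ orb := by
    rintro ⟨k, hk⟩
    have := congrFun hk 1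
    simp [hz0def, e1] at this
  obtain ⟨r, hr⟩ := good_exists hz0
  have hne : Nonempty C3 := ⟨0⟩
  let u : HX → ℂ := fun y => (Function.invFunOn pr (ball z0 r) y) 0
  have hu : ∀ w ∈ ball z0 r, u (pr w) = w 0 := by
    intro w hw
    have := hr.inj.leftInvOn_invFunOn hw
    simp only [u]
    rw [this]
  have hup : ∀ w ∈ ball z0 r, (u ∘ pr) =ᶠ[𝓝 w] (fun v : C3 => v 0) := by
    intro w hw
    filter_upwards [isOpen_ball.mem_nhds hw] with v hv
    exact hu v hv
  have hz0b : z0 ∈ ball z0 r := mem_ball_self hr.pos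
  have hdiff : ∀ w : C3, DifferentiableAt ℂ (fun v : C3 => v 0) w := fun w =>
    (differentiable_apply (𝕜 := ℂ) (F' := fun _ : Fin 3 => ℂ) 0) w
  refine ⟨pr z0, u, ?_, ?_⟩
  · rw [← pr_map_nhds hz0, eventually_map]
    filter_upwards [isOpen_ball.mem_nhds hz0b] with w hw
    change PHol (pr w) u
    rw [PHol_iff (hr.ne w hw)]
    refine ⟨?_, ?_⟩
    · filter_upwards [isOpen_ball.mem_nhds hw] with v hv
      exact (hdiff v).congr_of_eventuallyEq (hup v hv)
    · intro ho
      exfalso
      have := hr.orb w hw ho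
      rw [this] at ho
      exact hz0o ho
  · rw [← pr_map_nhds hz0, map_map, hu z0 hz0b, Filter.map_congr (hup z0 hz0b)]
    exact (isOpenMap_eval (0 : Fin 3)).map_nhds_eq (continuous_apply (0 : Fin 3)).continuousAt

/-- complex conjugation is a symmetry of the pinched Hopf threefold -/
theorem pinched_conj : ∃ c : HX ≃ₜ HX, ∀ (x : HX) (f : HX → ℂ),
    pinched.hol x f ↔ pinched.hol (c.symm x) (fun y => (starRingEnd ℂ) (f (c y))) := by
  refine ⟨ccH, fun x f => ⟨fun h => PHol_cc h, fun h => ?_⟩⟩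
  have h1 : PHol (cc (cc x)) (fun y => (starRingEnd ℂ) ((starRingEnd ℂ) (f (cc (cc y))))) :=
    PHol_cc (x := cc x) (f := fun y => (starRingEnd ℂ) (f (cc y))) h
  rw [cc_cc] at h1
  have h2 : (fun y => (starRingEnd ℂ) ((starRingEnd ℂ) (f (cc (cc y))))) = f := by
    funext y
    rw [cc_cc]; simp
  rw [h2] at h1
  exact h1

end Pool.Agent.HopfPinch
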