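import Pool.Agent.HopfPinch.Hopf0

set_option autoImplicit false

open Set Filter Topology Metric
open scoped Manifold

namespace Pool.Agent.HopfPinch

/-- subfields of `ℂ` with interior, continuous inverse: a ring endomorphism of `ℂ` is the identity or the
conjugation as soon as, for a function `τ` and a filter, ... -/
theorem ringHom_id_or_conj {X : Type*} [TopologicalSpace X] (σ : ℂ →+* ℂ) (x0 : X) (u g : X → ℂ)
    (hu : map u (𝓝 x0) = 𝓝 (u x0)) (hg : ContinuousAt g x0) (h : ∀ᶠ x in 𝓝 x0, u x = σ (g x)) :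
    σ = RingHom.id ℂ ∨ σ = starRingEnd ℂ := by
  have h1 : ((σ.toAddMonoidHom.range : AddSubgroup ℂ) : Set ℂ) ∈ 𝓝 (u x0) := by
    rw [← hu]
    show ∀ᶠ x in 𝓝 x0, u x ∈ ((σ.toAddMonoidHom.range : AddSubgroup ℂ) : Set ℂ)
    filter_upwards [h] with x hx
    exact ⟨g x, hx.symm⟩
  have h2 : IsOpen ((σ.toAddMonoidHom.range : AddSubgroup ℂ) : Set ℂ) :=
    AddSubgroup.isOpen_of_mem_nhds _ h1
  have h3 : IsClosed ((σ.toAddMonoidHom.range : AddSubgroup ℂ) : Set ℂ) :=
    AddSubgroup.isClosed_of_isOpen _ h2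
  have h4 : ((σ.toAddMonoidHom.range : AddSubgroup ℂ) : Set ℂ) = univ :=
    IsClopen.eq_univ ⟨h3, h2⟩ ⟨0, AddSubgroup.zero_mem _⟩
  have hsurj : Function.Surjective σ := by
    intro z
    have : z ∈ ((σ.toAddMonoidHom.range : AddSubgroup ℂ) : Set ℂ) := by rw [h4]; trivial
    obtain ⟨w, hw⟩ := this
    exact ⟨w, hw⟩
  let E : ℂ ≃+* ℂ := RingEquiv.ofBijective σ ⟨σ.injective, hsurj⟩
  have hE : ∀ z, E z = σ z := fun z => rfl
  let τ : ℂ →+* ℂ := E.symm.toRingHom
  have hτσ : ∀ z, τ (σ z) = z := fun z => E.symm_apply_apply z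
  have hστ : ∀ z, σ (τ z) = z := fun z => E.apply_symm_apply z
  have h5 : Tendsto τ (𝓝 (u x0)) (𝓝 (τ (u x0))) := by
    have h6 : τ (u x0) = g x0 := by rw [h.self_of_nhds, hτσ]
    rw [h6, ← hu, tendsto_map'_iff]
    have hg' : Tendsto g (𝓝 x0) (𝓝 (g x0)) := hg
    refine hg'.congr' ?_
    filter_upwards [h] with x hx
    show g x = τ (u x)
    rw [hx, hτσ]
  have h7 : Continuous τ := by
    apply continuous_of_continuousAt_zero τ
    have h8 : Tendsto (fun z : ℂ => z + u x0) (𝓝 0) (𝓝 (u x0)) := by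
      have : Tendsto (fun z : ℂ => z + u x0) (𝓝 0) (𝓝 (0 + u x0)) :=
        (continuous_id.add continuous_const).tendsto 0
      rwa [zero_add] at this
    have h9 : Tendsto (fun z : ℂ => τ (z + u x0) - τ (u x0)) (𝓝 0) (𝓝 (τ (u x0) - τ (u x0))) :=
      (h5.comp h8).sub tendsto_const_nhds
    rw [sub_self] at h9
    have h10 : τ 0 = 0 := map_zero τ
    show Tendsto τ (𝓝 0) (𝓝 (τ 0))
    rw [h10]
    refine h9.congr (fun z => ?_)
    rw [map_add, add_sub_cancel_right]
  rcases Complex.ringHom_eq_id_or_conj_of_continuous h7 with h8 | h8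
  · left
    ext z
    have := hστ z
    rw [h8] at this
    exact this
  · right
    ext z
    have := hστ ((starRingEnd ℂ) z)
    rw [h8] at this
    simpa using this

end Pool.Agent.HopfPinch
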