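import Pool.Agent.HopfPinch.RG1

set_option autoImplicit false

open Set Filter Topology Metric
open scoped Manifold

namespace Pool.Agent.HopfPinch

theorem rv_sec_iff {X : Type*} [TopologicalSpace X] {O : FunSheaf X} {U : Set X} (hU : IsOpen U)
    {f : U → ℂ} (F : X → ℂ) (hF : ∀ x : U, F x.1 = f x) :
    f ∈ O.sec U ↔ ∀ x ∈ U, O.hol x F := by
  have key : ∀ x ∈ U, Function.extend Subtype.val f 0 =ᶠ[𝓝 x] F := by
    intro x hx
    filter_upwards [hU.mem_nhds hx] with y hy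
    have h1 : Function.extend Subtype.val f 0 y = f ⟨y, hy⟩ :=
      Subtype.val_injective.extend_apply f 0 ⟨y, hy⟩
    rw [h1, ← hF ⟨y, hy⟩]
  constructor
  · intro h x hx
    exact O.hol_congr (key x hx) (h ⟨x, hx⟩)
  · intro h x
    exact O.hol_congr (key x.1 x.2).symm (h x.1 x.2)

theorem rv_ext {X : Type*} {U : Set X} (f : U → ℂ) (y : U) :
    Function.extend Subtype.val f 0 y.1 = f y :=
  Subtype.val_injective.extend_apply f 0 y

theorem rv_const {X : Type*} [TopologicalSpace X] {O : FunSheaf X} (hO : Nice O) {U : Set X}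
    (hU : IsOpen U) (c : ℂ) : (fun _ => c : U → ℂ) ∈ O.sec U :=
  (rv_sec_iff hU (fun _ => c) (fun _ => rfl)).2 fun x _ => hO.const x c

theorem rv_add {X : Type*} [TopologicalSpace X] {O : FunSheaf X} (hO : Nice O) {U : Set X}
    (hU : IsOpen U) {f g : U → ℂ} (hf : f ∈ O.sec U) (hg : g ∈ O.sec U) : f + g ∈ O.sec U := by
  refine (rv_sec_iff hU (Function.extend Subtype.val f 0 + Function.extend Subtype.val g 0)
    (fun x => ?_)).2 fun x hx => hO.add (hf ⟨x, hx⟩) (hg ⟨x, hx⟩)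
  simp only [Pi.add_apply, rv_ext]

theorem rv_mul {X : Type*} [TopologicalSpace X] {O : FunSheaf X} (hO : Nice O) {U : Set X}
    (hU : IsOpen U) {f g : U → ℂ} (hf : f ∈ O.sec U) (hg : g ∈ O.sec U) : f * g ∈ O.sec U := by
  refine (rv_sec_iff hU (Function.extend Subtype.val f 0 * Function.extend Subtype.val g 0)
    (fun x => ?_)).2 fun x hx => hO.mul (hf ⟨x, hx⟩) (hg ⟨x, hx⟩)
  simp only [Pi.mul_apply, rv_ext]

theorem rv_res {X : Type*} [TopologicalSpace X] {O : FunSheaf X} {U W : Set X}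
    (hW : IsOpen W) (h : W ⊆ U) {f : U → ℂ} (hf : f ∈ O.sec U) :
    f ∘ Set.inclusion h ∈ O.sec W := by
  refine (rv_sec_iff hW (Function.extend Subtype.val f 0) (fun x => ?_)).2
    fun x hx => hf ⟨x, h hx⟩
  exact rv_ext f ⟨x.1, h x.2⟩

/-- from a ringed space isomorphism: values are transformed by a ring endomorphism of `ℂ` depending on
the point -/
theorem ringed_values {X Y : Type*} [TopologicalSpace X] [TopologicalSpace Y]
    {O : FunSheaf X} {P : FunSheaf Y} (hO : Nice O) (hP : Nice P) (e : X ≃ₜ Y)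
    (φ : ∀ V : Set Y, (V → ℂ) → (↥(e ⁻¹' V) → ℂ))
    (h1 : ∀ V : Set Y, IsOpen V → Set.BijOn (φ V) (P.sec V) (O.sec (e ⁻¹' V)) ∧
      ∀ f ∈ P.sec V, ∀ g ∈ P.sec V,
        φ V (f + g) = φ V f + φ V g ∧ φ V (f * g) = φ V f * φ V g)
    (h2 : ∀ V W : Set Y, IsOpen V → IsOpen W → ∀ h : W ⊆ V, ∀ f ∈ P.sec V,
      φ W (f ∘ Set.inclusion h) = φ V f ∘ Set.inclusion (Set.preimage_mono h)) :
    ∃ σ : X → (ℂ →+* ℂ),
      (∀ c : ℂ, ∀ x, O.hol x (fun y => σ y c)) ∧
      ∀ V : Set Y, IsOpen V → ∀ f ∈ P.sec V, ∀ x : ↥(e ⁻¹' V), φ V f x = σ x (f ⟨e x, x.2⟩) := by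
  have hop : ∀ V : Set Y, IsOpen V → IsOpen (e ⁻¹' V) := fun V hV => hV.preimage e.continuous
  have hone : ∀ V : Set Y, IsOpen V → φ V (fun _ => 1) = fun _ => 1 := by
    intro V hV
    obtain ⟨f, hf, hf1⟩ := (h1 V hV).1.surjOn (rv_const hO (hop V hV) 1)
    have hm := ((h1 V hV).2 f hf (fun _ => 1) (rv_const hP hV 1)).2
    have e1 : f * (fun _ => 1 : V → ℂ) = f := by funext y; simp
    rw [e1, hf1] at hm
    funext y
    have := congrFun hm y
    simp only [Pi.mul_apply, one_mul] at this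
    exact this.symm
  have hzero : ∀ V : Set Y, IsOpen V → φ V (fun _ => 0) = fun _ => 0 := by
    intro V hV
    have hm := ((h1 V hV).2 (fun _ => 0) (rv_const hP hV 0) (fun _ => 0) (rv_const hP hV 0)).1
    have e1 : (fun _ => 0 : V → ℂ) + (fun _ => 0) = fun _ => 0 := by funext y; simp
    rw [e1] at hm
    funext y
    have := congrFun hm y
    simp only [Pi.add_apply] at this
    exact left_eq_add.1 this
  have hcu : ∀ c : ℂ, (fun _ => c : ↥(univ : Set Y) → ℂ) ∈ P.sec univ := fun c =>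
    rv_const hP isOpen_univ c
  let σ : X → (ℂ →+* ℂ) := fun x =>
    { toFun := fun c => φ univ (fun _ => c) ⟨x, trivial⟩
      map_one' := by rw [hone univ isOpen_univ]
      map_zero' := by rw [hzero univ isOpen_univ]
      map_mul' := by
        intro c d
        have hm := ((h1 univ isOpen_univ).2 _ (hcu c) _ (hcu d)).2
        have e1 : (fun _ => c * d : ↥(univ : Set Y) → ℂ) = (fun _ => c) * (fun _ => d) := rfl
        rw [e1, hm]; rfl
      map_add' := by
        intro c d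
        have hm := ((h1 univ isOpen_univ).2 _ (hcu c) _ (hcu d)).1
        have e1 : (fun _ => c + d : ↥(univ : Set Y) → ℂ) = (fun _ => c) + (fun _ => d) := rfl
        rw [e1, hm]; rfl }
  have hσ : ∀ x c, σ x c = φ univ (fun _ => c) ⟨x, trivial⟩ := fun x c => rfl
  have hconst : ∀ V : Set Y, IsOpen V → ∀ c, ∀ x : ↥(e ⁻¹' V), φ V (fun _ => c) x = σ x c := by
    intro V hV c x
    have h := h2 univ V isOpen_univ hV (subset_univ V) _ (hcu c)
    have e1 : (fun _ => c : ↥(univ : Set Y) → ℂ) ∘ Set.inclusion (subset_univ V) = fun _ => c := rfl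
    rw [e1] at h
    rw [h, hσ]; rfl
  have hzl : ∀ V : Set Y, IsOpen V → ∀ f ∈ P.sec V, ∀ x : ↥(e ⁻¹' V), f ⟨e x, x.2⟩ = 0 →
      φ V f x = 0 := by
    intro V hV f hf x hfx
    by_contra hne
    have hg := (h1 V hV).1.mapsTo hf
    set g := φ V f with hgdef
    set G : X → ℂ := Function.extend Subtype.val g 0 with hG
    have hGg : ∀ y : ↥(e ⁻¹' V), G y.1 = g y := fun y => rv_ext g y
    have hGhol : ∀ y ∈ e ⁻¹' V, O.hol y G := fun y hy => hg ⟨y, hy⟩
    have hGx : G x.1 ≠ 0 := by rw [hGg]; exact hne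
    have hev : ∀ᶠ y in 𝓝 x.1, G y ≠ 0 :=
      (hO.cont (hGhol x.1 x.2)).eventually_ne hGx
    obtain ⟨U', hU', hU'o, hxU'⟩ := mem_nhds_iff.1
      (inter_mem hev ((hop V hV).mem_nhds x.2))
    set W : Set Y := e.symm ⁻¹' U' with hW
    have hWo : IsOpen W := hU'o.preimage e.symm.continuous
    have hWV : W ⊆ V := by
      intro y hy
      have h3 : e (e.symm y) ∈ V := (hU' hy).2
      rwa [e.apply_symm_apply] at h3
    have hWU : ∀ y, y ∈ e ⁻¹' W → y ∈ U' := by
      intro y hy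
      have h3 : e.symm (e y) ∈ U' := hy
      rwa [e.symm_apply_apply] at h3
    have hk' : (fun y => (G y.1)⁻¹ : ↥(e ⁻¹' W) → ℂ) ∈ O.sec (e ⁻¹' W) := by
      refine (rv_sec_iff (hop W hWo) (fun y => (G y)⁻¹) (fun _ => rfl)).2 fun y hy => ?_
      have h3 := hU' (hWU y hy)
      exact hO.inv (hGhol y h3.2) h3.1
    obtain ⟨k, hk, hkk⟩ := (h1 W hWo).1.surjOn hk'
    have hfW := rv_res hWo hWV hf
    have hm := ((h1 W hWo).2 k hk _ hfW).2
    rw [h2 V W hV hWo hWV f hf, hkk] at hm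
    have hm1 : φ W (k * (f ∘ Set.inclusion hWV)) = φ W (fun _ => 1) := by
      rw [hm, hone W hWo]
      funext y
      have h3 := hU' (hWU y.1 y.2)
      have h4 := hGg (Set.inclusion (Set.preimage_mono hWV) y)
      have h5 : G y.1 = g (Set.inclusion (Set.preimage_mono hWV) y) := h4
      simp only [Pi.mul_apply, Function.comp_apply]
      rw [← hgdef, ← h5]
      exact inv_mul_cancel₀ h3.1
    have hkf := (h1 W hWo).1.injOn (rv_mul hP hWo hk hfW) (rv_const hP hWo 1) hm1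
    have hexW : e x.1 ∈ W := by
      show e.symm (e x.1) ∈ U'
      rw [e.symm_apply_apply]; exact hxU'
    have h6 := congrFun hkf ⟨e x.1, hexW⟩
    simp only [Pi.mul_apply, Function.comp_apply] at h6
    have h7 : f (Set.inclusion hWV ⟨e x.1, hexW⟩) = 0 := hfx
    rw [h7, mul_zero] at h6
    exact zero_ne_one h6
  refine ⟨σ, ?_, ?_⟩
  · intro c x
    have hg := (h1 univ isOpen_univ).1.mapsTo (hcu c)
    exact (rv_sec_iff (hop univ isOpen_univ) (fun y => σ y c) (fun y => rfl)).1 hg x trivial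
  · intro V hV f hf x
    have hf0 := rv_add hP hV hf (rv_const hP hV (-(f ⟨e x, x.2⟩)))
    have hz := hzl V hV _ hf0 x (by simp)
    have ha := ((h1 V hV).2 _ hf0 _ (rv_const hP hV (f ⟨e x, x.2⟩))).1
    have e1 : f + (fun _ => -(f ⟨e x, x.2⟩)) + (fun _ => f ⟨e x, x.2⟩) = f := by
      funext y; simp
    rw [e1] at ha
    have h3 := congrFun ha x
    rw [Pi.add_apply, hz, zero_add, hconst V hV] at h3
    exact h3

end Pool.Agent.HopfPinch
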