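import Pool.Agent.HopfPinch.RG2
import Pool.Agent.HopfPinch.RG3
import Pool.Agent.HopfPinch.RG4
import Pool.Agent.HopfPinch.RG5

set_option autoImplicit false

open Set Filter Topology Metric
open scoped Manifold

namespace Pool.Agent.HopfPinch

theorem h170_sec {X : Type*} [TopologicalSpace X] (O : FunSheaf X) {V : Set X} (hV : IsOpen V)
    {F : X → ℂ} (hF : ∀ y ∈ V, O.hol y F) : (fun y : V => F y.1) ∈ O.sec V := by
  intro x
  refine O.hol_congr ?_ (hF x.1 x.2)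
  filter_upwards [hV.mem_nhds x.2] with y hy
  exact (Subtype.val_injective.extend_apply (fun y : V => F y.1) 0 ⟨y, hy⟩).symm

theorem h170_ext {X : Type*} [TopologicalSpace X] {V : Set X} (f : V → ℂ) (y : X) (hy : y ∈ V) :
    Function.extend Subtype.val f 0 y = f ⟨y, hy⟩ :=
  Subtype.val_injective.extend_apply f 0 ⟨y, hy⟩

theorem h170_open {X : Type*} [TopologicalSpace X] (O : FunSheaf X) {x : X} {F : X → ℂ}
    (h : ∀ᶠ y in 𝓝 x, O.hol y F) : ∃ U : Set X, IsOpen U ∧ x ∈ U ∧ ∀ y ∈ U, O.hol y F := by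
  obtain ⟨U, h1, h2, h3⟩ := mem_nhds_iff.1 h
  exact ⟨U, h2, h3, fun y hy => h1 hy⟩

theorem ringed_to_iso {N : ℕ} {M : Type*} [TopologicalSpace M] [ChartedSpace (Fin N → ℂ) M]
    {Y : Set M} (h : pinched.RingedIsomorphic (subvarietySheaf N Y)) :
    pinched.Isomorphic (subvarietySheaf N Y) := by
  obtain ⟨e, φ, h1, h2⟩ := h
  obtain ⟨σ, hσ1, hσ2⟩ := ringed_values nice_pinched (nice_subvariety N Y) e φ h1 h2
  obtain ⟨x0, u, hu1, hu2⟩ := pinched_open_section
  have nP := nice_subvariety N Y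
  set P := subvarietySheaf N Y with hP
  have hσ0 : ∀ y, σ y = σ x0 := by
    intro y
    refine RingHom.ext fun c => ?_
    obtain ⟨c', hc'⟩ := pinched_global _ (hσ1 c)
    rw [hc' y, hc' x0]
  set σ0 := σ x0 with hσ0def
  have hφ : ∀ V : Set Y, IsOpen V → ∀ f ∈ P.sec V, ∀ x : ↥(e ⁻¹' V),
      φ V f x = σ0 (f ⟨e x, x.2⟩) := by
    intro V hV f hf x
    rw [hσ2 V hV f hf x, hσ0]
  clear_value σ0
  -- claim A
  have hA : ∀ (x : HX) (F : Y → ℂ), P.hol (e x) F → pinched.hol x (fun x' => σ0 (F (e x'))) := by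
    intro x F hF
    obtain ⟨V, hV, hxV, hVF⟩ := h170_open P (P.hol_nhds hF)
    have hf := h170_sec P hV hVF
    have h3 := (h1 V hV).1.mapsTo hf
    have h4 := h3 ⟨x, hxV⟩
    refine pinched.hol_congr ?_ h4
    have hU : IsOpen (e ⁻¹' V) := hV.preimage e.continuous
    filter_upwards [hU.mem_nhds hxV] with y hy
    rw [h170_ext _ y hy, hφ V hV _ hf ⟨y, hy⟩]
  -- lift
  have hL : ∀ (x : HX) (F : HX → ℂ), (∀ᶠ y in 𝓝 x, pinched.hol y F) → ∃ V : Set Y, IsOpen V ∧ e x ∈ V ∧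
      ∃ f ∈ P.sec V, ∀ (y : HX) (hy : e y ∈ V), F y = σ0 (f ⟨e y, hy⟩) := by
    intro x F hF
    obtain ⟨U, hU, hxU, hUF⟩ := h170_open pinched hF
    have hV : IsOpen (e.symm ⁻¹' U) := hU.preimage e.symm.continuous
    refine ⟨e.symm ⁻¹' U, hV, ?_, ?_⟩
    · rw [mem_preimage, e.symm_apply_apply]; exact hxU
    have h3 : (fun y : ↥(e ⁻¹' (e.symm ⁻¹' U)) => F y.1) ∈ pinched.sec (e ⁻¹' (e.symm ⁻¹' U)) := by
      refine h170_sec pinched (hV.preimage e.continuous) ?_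
      intro y hy
      rw [mem_preimage, mem_preimage, e.symm_apply_apply] at hy
      exact hUF y hy
    obtain ⟨f, hf, hfe⟩ := (h1 _ hV).1.surjOn h3
    refine ⟨f, hf, fun y hy => ?_⟩
    have h4 := congrFun hfe ⟨y, hy⟩
    rw [hφ _ hV f hf ⟨y, hy⟩] at h4
    exact h4.symm
  -- claim B
  have hB : ∀ (x : HX) (F : Y → ℂ), pinched.hol x (fun x' => σ0 (F (e x'))) → P.hol (e x) F := by
    intro x F hF
    obtain ⟨V, hV, hxV, f, hf, hfe⟩ := hL x _ (pinched.hol_nhds hF)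
    have h3 := hf ⟨e x, hxV⟩
    refine P.hol_congr ?_ h3
    filter_upwards [hV.mem_nhds hxV] with y hy
    rw [h170_ext _ y hy]
    have hy' : e (e.symm y) ∈ V := by rw [e.apply_symm_apply]; exact hy
    have h4 := σ0.injective (hfe (e.symm y) hy')
    have h5 : (⟨e (e.symm y), hy'⟩ : V) = ⟨y, hy⟩ := Subtype.ext (e.apply_symm_apply y)
    rw [h5, e.apply_symm_apply] at h4
    exact h4.symm
  -- claim C
  have hC : σ0 = RingHom.id ℂ ∨ σ0 = starRingEnd ℂ := by
    obtain ⟨V, hV, hxV, f, hf, hfe⟩ := hL x0 u hu1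
    refine ringHom_id_or_conj σ0 x0 u (fun x => Function.extend Subtype.val f 0 (e x)) hu2 ?_ ?_
    · exact ContinuousAt.comp (f := e) (nP.cont (hf ⟨e x0, hxV⟩)) e.continuous.continuousAt
    · have hU : IsOpen (e ⁻¹' V) := hV.preimage e.continuous
      filter_upwards [hU.mem_nhds hxV] with y hy
      rw [hfe y hy, h170_ext f (e y) hy]
  rcases hC with hC | hC
  · subst hC
    exact ⟨e, fun x F => ⟨hA x F, hB x F⟩⟩
  · subst hC
    obtain ⟨c, hc⟩ := pinched_conj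
    refine ⟨c.trans e, fun x F => ?_⟩
    have h3 : P.hol (e (c x)) F ↔ pinched.hol (c x) (fun x' => (starRingEnd ℂ) (F (e x'))) :=
      ⟨hA (c x) F, hB (c x) F⟩
    have h4 := hc (c x) (fun x' => (starRingEnd ℂ) (F (e x')))
    rw [c.symm_apply_apply] at h4
    have h5 : (fun y => (starRingEnd ℂ) ((starRingEnd ℂ) (F (e (c y))))) = F ∘ (c.trans e) := by
      funext y
      simp
    rw [h5] at h4
    exact h3.trans h4

end Pool.Agent.HopfPinch
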