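import Pool.Agent.HopfPinch.Spaces

set_option autoImplicit false

open Set Filter Topology

namespace Pool.Agent.HopfPinch

/-- The sections of a function sheaf over a subset `U` (used for open `U`): functions on `U` whose germs
belong to the sheaf. -/
def FunSheaf.sec {X : Type*} [TopologicalSpace X] (O : FunSheaf X) (U : Set X) : Set (U → ℂ) :=
  {f | ∀ x : U, O.hol x.1 (Function.extend Subtype.val f 0)}

/-- Isomorphism of ringed spaces: a homeomorphism `e : X ≃ₜ Y` together with ring isomorphisms
`P(V) ≅ O(e⁻¹ V)` (bijections compatible with sums and products) for all open `V ⊆ Y`, compatible with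
restrictions.  No compatibility with constants or with values of functions is required. -/
def FunSheaf.RingedIsomorphic {X Y : Type*} [TopologicalSpace X] [TopologicalSpace Y]
    (O : FunSheaf X) (P : FunSheaf Y) : Prop :=
  ∃ (e : X ≃ₜ Y) (φ : ∀ V : Set Y, (V → ℂ) → (↥(e ⁻¹' V) → ℂ)),
    (∀ V : Set Y, IsOpen V → Set.BijOn (φ V) (P.sec V) (O.sec (e ⁻¹' V)) ∧
      ∀ f ∈ P.sec V, ∀ g ∈ P.sec V,
        φ V (f + g) = φ V f + φ V g ∧ φ V (f * g) = φ V f * φ V g) ∧
    ∀ V W : Set Y, IsOpen V → IsOpen W → ∀ h : W ⊆ V, ∀ f ∈ P.sec V,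
      φ W (f ∘ Set.inclusion h) = φ V f ∘ Set.inclusion (Set.preimage_mono h)

end Pool.Agent.HopfPinch
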