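import Mathlib

set_option autoImplicit false

open Set Filter Topology Metric
open scoped Manifold

namespace Pool.Agent.HopfPinch

/-! ## Spaces with a sheaf of complex valued functions -/

/-- A sheaf of complex valued functions on a topological space `X`, given by its germs:
`hol x f` says that (the germ at `x` of) the function `f` belongs to the stalk at `x`.
`hol_congr`: this only depends on the germ; `hol_nhds`: a germ of the sheaf at `x` comes from a section over
a neighbourhood of `x`.  The sections over an open set `U` are the functions `f` with `hol x f` for all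
`x ∈ U`. -/
structure FunSheaf (X : Type*) [TopologicalSpace X] where
  hol : X → (X → ℂ) → Prop
  hol_congr : ∀ {x : X} {f g : X → ℂ}, f =ᶠ[𝓝 x] g → hol x f → hol x g
  hol_nhds : ∀ {x : X} {f : X → ℂ}, hol x f → ∀ᶠ y in 𝓝 x, hol y f

/-- Isomorphism of spaces with function sheaves: a homeomorphism under which the sections of the two
sheaves correspond. -/
def FunSheaf.Isomorphic {X Y : Type*} [TopologicalSpace X] [TopologicalSpace Y]
    (O : FunSheaf X) (P : FunSheaf Y) : Prop :=
  ∃ e : X ≃ₜ Y, ∀ (x : X) (f : Y → ℂ), P.hol (e x) f ↔ O.hol x (f ∘ e)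

/-- Restriction of a function sheaf to an open subset `U` (a function on `U` is extended by zero,
which does not change its germs at points of `U`). -/
def FunSheaf.restrict {X : Type*} [TopologicalSpace X] (O : FunSheaf X) (U : Set X)
    (hU : IsOpen U) : FunSheaf U where
  hol x f := O.hol x.1 (Function.extend Subtype.val f 0)
  hol_congr := by
    intro x f g hfg hf
    refine O.hol_congr ?_ hf
    rw [EventuallyEq, ← map_nhds_subtype_coe_eq_nhds x.2 (hU.mem_nhds x.2), eventually_map]
    filter_upwards [hfg] with y hy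
    rw [Subtype.val_injective.extend_apply, Subtype.val_injective.extend_apply, hy]
  hol_nhds := by
    intro x f hf
    exact continuous_subtype_val.continuousAt.eventually (O.hol_nhds hf)

/-- The sheaf on a subset `A` of `ℂⁿ` of the restrictions to `A` of holomorphic functions. -/
def modelSheaf {n : ℕ} (A : Set (Fin n → ℂ)) : FunSheaf A where
  hol x f := ∃ F : (Fin n → ℂ) → ℂ, (∀ᶠ z in 𝓝 (x : Fin n → ℂ), DifferentiableAt ℂ F z) ∧
    ∀ᶠ y : A in 𝓝 x, f y = F y
  hol_congr := by
    rintro x f g hfg ⟨F, hF, hf⟩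
    refine ⟨F, hF, ?_⟩
    filter_upwards [hfg, hf] with y h1 h2
    rw [← h1, h2]
  hol_nhds := by
    rintro x f ⟨F, hF, hf⟩
    have h1 : ∀ᶠ y : A in 𝓝 x, ∀ᶠ z in 𝓝 (y : Fin n → ℂ), DifferentiableAt ℂ F z :=
      continuous_subtype_val.continuousAt.eventually hF.eventually_nhds
    filter_upwards [h1, hf.eventually_nhds] with y h2 h3
    exact ⟨F, h2, h3⟩

/-- `A` is an analytic subset of the open set `D ⊆ ℂⁿ`: near every point of `D` it is the set of common
zeros of finitely many holomorphic functions. -/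
def IsAnalyticSubset {n : ℕ} (D A : Set (Fin n → ℂ)) : Prop :=
  IsOpen D ∧ A ⊆ D ∧ ∀ x ∈ D, ∃ V : Set (Fin n → ℂ), IsOpen V ∧ x ∈ V ∧ V ⊆ D ∧
    ∃ (m : ℕ) (F : Fin m → (Fin n → ℂ) → ℂ), (∀ j, DifferentiableOn ℂ (F j) V) ∧
      A ∩ V = {z ∈ V | ∀ j, F j z = 0}

/-- A reduced complex (analytic) space: a Hausdorff, paracompact space with a function sheaf which is
locally isomorphic to an analytic subset `A` of an open set `D ⊆ ℂⁿ` with the sheaf of restrictions of
holomorphic functions. -/
def IsReducedComplexSpace {X : Type*} [TopologicalSpace X] (O : FunSheaf X) : Prop :=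
  T2Space X ∧ ParacompactSpace X ∧
    ∀ x : X, ∃ (U : Set X) (hU : IsOpen U), x ∈ U ∧
      ∃ (n : ℕ) (D A : Set (Fin n → ℂ)), IsAnalyticSubset D A ∧
        (O.restrict U hU).Isomorphic (modelSheaf A)

/-- A (closed) subvariety `Y` of an `N`-dimensional complex manifold `M`: a closed subset which near every
point of `M` is the set of common zeros of finitely many holomorphic functions. -/
def IsSubvariety (N : ℕ) {M : Type*} [TopologicalSpace M] [ChartedSpace (Fin N → ℂ) M]
    (Y : Set M) : Prop :=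
  IsClosed Y ∧ ∀ x : M, ∃ V : Set M, IsOpen V ∧ x ∈ V ∧
    ∃ (m : ℕ) (F : Fin m → M → ℂ),
      (∀ j, MDifferentiableOn 𝓘(ℂ, Fin N → ℂ) 𝓘(ℂ, ℂ) (F j) V) ∧
      Y ∩ V = {z ∈ V | ∀ j, F j z = 0}

/-- The sheaf on a subset `Y` of an `N`-dimensional complex manifold `M` of the restrictions to `Y` of
holomorphic functions on (open subsets of) `M`. -/
def subvarietySheaf (N : ℕ) {M : Type*} [TopologicalSpace M] [ChartedSpace (Fin N → ℂ) M]
    (Y : Set M) : FunSheaf Y where
  hol x f := ∃ F : M → ℂ,
    (∀ᶠ z in 𝓝 (x : M), MDifferentiableAt 𝓘(ℂ, Fin N → ℂ) 𝓘(ℂ, ℂ) F z) ∧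
      ∀ᶠ y : Y in 𝓝 x, f y = F y
  hol_congr := by
    rintro x f g hfg ⟨F, hF, hf⟩
    refine ⟨F, hF, ?_⟩
    filter_upwards [hfg, hf] with y h1 h2
    rw [← h1, h2]
  hol_nhds := by
    rintro x f ⟨F, hF, hf⟩
    have h1 : ∀ᶠ y : Y in 𝓝 x, ∀ᶠ z in 𝓝 (y : M),
        MDifferentiableAt 𝓘(ℂ, Fin N → ℂ) 𝓘(ℂ, ℂ) F z :=
      continuous_subtype_val.continuousAt.eventually hF.eventually_nhds
    filter_upwards [h1, hf.eventually_nhds] with y h2 h3
    exact ⟨F, h2, h3⟩

end Pool.Agent.HopfPinch
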